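import Pool.Agent.H560R3.TG.Low

/-! Change of the maximal weight under a change of a smoothing. -/

set_option autoImplicit false
set_option linter.unusedSimpArgs false

namespace Pool.Agent.H560R3.TG

variable {S G S' G' : Type}

/-- upper bound for the weights of the height labellings -/
def Ub (w : List Piece) (k : ℤ) : Prop :=
  ∀ E : List (Slice Unit ℕ), Labelling 0 E w → HOK E → Phi true ht 0 E ≤ k

theorem Ub.mono {w : List Piece} {k k' : ℤ} (h : Ub w k) (hk : k ≤ k') : Ub w k' :=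
  fun E h1 h2 => (h E h1 h2).trans hk

theorem crossings_append (u v : List Piece) : crossings (u ++ v) = crossings u + crossings v := by
  induction u with
  | nil => simp [crossings]
  | cons p u ih => cases p <;> simp only [List.cons_append, crossings, ih] <;> omega

theorem noCr_of {E : List (Slice S G)} {w : List Piece} (h : E.map Slice.plain = w)
    (hw : crossings w = 0) : ∀ s ∈ E, s.p.NoCr := by
  induction E generalizing w with
  | nil => simp
  | cons r E ih =>
    subst h
    intro s hs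
    obtain ⟨L, p, R⟩ := r
    have hw' : crossings (E.map Slice.plain) = 0 := by
      cases p <;> simp only [List.map_cons, Slice.plain, crossings] at hw <;> omega
    rcases List.mem_cons.1 hs with rfl | hs
    · cases p <;> simp only [List.map_cons, Slice.plain, crossings, Loc.NoCr] at hw ⊢ <;> omega
    · exact ih rfl hw' s hs

theorem decomp_db (a : G) (F F' : List (S × G)) (E : List (Slice S G)) (p s : List Piece) (i : ℕ)
    (hE : Path a F E F') (hpl : E.map Slice.plain = p ++ (.death i :: .birth i :: s)) :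
    ∃ Ep L u y R u' y' Es, E = Ep ++ (⟨L, .death u y, R⟩ :: ⟨L, .birth u' y', R⟩ :: Es) ∧
      Ep.map Slice.plain = p ∧ L.length = i ∧ Es.map Slice.plain = s ∧
      Path a F Ep (L ++ (u, y) :: (u, cur a L) :: R) ∧
      Path a (L ++ (u', y') :: (u', cur a L) :: R) Es F' := by
  obtain ⟨Ep, E', rfl, h1, h2⟩ := split_plain E _ _ hpl
  rcases E' with _ | ⟨d, _ | ⟨b, Es⟩⟩
  · simp at h2
  · simp at h2
  simp only [List.map_cons, List.cons.injEq] at h2
  obtain ⟨L, R, u, y, rfl, hL⟩ := plain_death d i h2.1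
  obtain ⟨L2, R2, u', y', rfl, hL2⟩ := plain_birth b i h2.2.1
  obtain ⟨K, hK1, hK2, hK3, hK4⟩ := (path_append a Ep _ F F').1 hE
  have e1 : L2 ++ R2 = L ++ R := by
    simpa [Slice.src, Slice.tgt, Loc.src, Loc.tgt] using hK3
  obtain ⟨rfl, rfl⟩ := List.append_inj e1 (by omega)
  have e2 : L2 ++ (u, y) :: (u, cur a L2) :: R2 = K := by
    simpa [Slice.src, Slice.tgt, Loc.src, Loc.tgt] using hK2
  subst e2
  refine ⟨Ep, L2, u, y, R2, u', y', Es, rfl, h1, hL, h2.2.2, hK1, ?_⟩
  simpa [Slice.src, Slice.tgt, Loc.src, Loc.tgt] using hK4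

theorem rem_db {p s : List Piece} {k : ℤ} (h : Ub (p ++ s) k) (Ep Es : List (Slice Unit ℕ))
    (L R : List (Unit × ℕ)) (y : ℕ) (h1 : Ep.map Slice.plain = p) (h2 : Es.map Slice.plain = s)
    (h3 : Path 0 [] Ep (L ++ ((), y) :: ((), cur 0 L) :: R))
    (h4 : Path 0 (L ++ ((), y) :: ((), cur 0 L) :: R) Es [])
    (h5 : HOK (Ep ++ (⟨L, .death () y, R⟩ :: ⟨L, .birth () y, R⟩ :: Es))) :
    Phi true ht 0 (Ep ++ (⟨L, .death () y, R⟩ :: ⟨L, .birth () y, R⟩ :: Es)) ≤
      k + (y - cur 0 L) := by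
  have := h (Ep ++ Es) ⟨(path_append 0 Ep Es [] []).2 ⟨_, h3, h4⟩, by simp [h1, h2]⟩ ⟨?_, ?_⟩
  · rw [Phi_append] at this ⊢
    simp only [Phi, Loc.wt, ht] at this ⊢
    linarith
  · rw [allAdj_append _ _ _ _ _ _ h3]
    obtain ⟨h6, h7⟩ := (allAdj_append _ _ _ _ _ _ h3).1 h5.1
    refine ⟨h6, fun X hX => h7 X ?_⟩
    simp only [sts, List.map_cons, List.mem_cons] at hX ⊢
    tauto
  · intro g hg
    apply h5.2 g
    rw [holeLabels_append] at hg ⊢
    simp only [holeLabels]
    exact hg

theorem state_adj {R : G → G → Prop} {a : G} {F L M : List (S × G)} {E : List (Slice S G)}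
    (h : AllAdj R a F E) (hK : L ++ M ∈ sts a F E) : Adj R a L ∧ Adj R (cur a L) M :=
  (adj_append _ _ _ _).1 (h _ hK)

theorem alpha1 {p s : List Piece} {i : ℕ} (hcr : crossings (p ++ s) = 0) {k : ℤ}
    (h : Ub (p ++ s) k) : Ub (p ++ (.death i :: .birth i :: s)) (k + 1) := by
  rintro E ⟨hp, hpl⟩ hok
  obtain ⟨Ep, L, u, y, R, u', y', Es, hE, hEp, hL, hEs, hP1, hP2⟩ :=
    decomp_db 0 [] [] E p s i hp hpl
  have hcr' : crossings (p ++ (.death i :: .birth i :: s)) = 0 := by
    rw [crossings_append] at hcr ⊢; simpa [crossings] using hcr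
  have hno := noCr_of hpl hcr'
  have hEE : Ep ++ (⟨L, .death u y, R⟩ :: ⟨L, .birth u' y', R⟩ :: Es) =
      (Ep ++ [⟨L, .death u y, R⟩, ⟨L, .birth u' y', R⟩]) ++ Es := by simp
  have hP3 : Path 0 [] (Ep ++ [⟨L, .death u y, R⟩, ⟨L, .birth u' y', R⟩])
      (L ++ (u', y') :: (u', cur 0 L) :: R) := by
    rw [path_append]
    refine ⟨_, hP1, ?_, ?_, ?_⟩
    · simp [Slice.src, Loc.src]
    · simp [Slice.src, Slice.tgt, Loc.src, Loc.tgt]
    · simp [Path, Slice.src, Slice.tgt, Loc.src, Loc.tgt]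
  have hm1 : L ++ (u, y) :: (u, cur 0 L) :: R ∈ sts 0 [] E := by
    have := end_mem_sts _ _ _ _ hP1
    rw [hE]
    simp only [sts, List.map_append, List.mem_cons, List.mem_append] at this ⊢
    tauto
  have hm2 : L ++ (u', y') :: (u', cur 0 L) :: R ∈ sts 0 [] E := by
    rw [hE]
    simp [sts, Slice.tgt, Loc.tgt]
  have hn1 : Nb (cur 0 L) y := (state_adj hok.1 hm1).2.1
  have hn2 : Nb (cur 0 L) y' := (state_adj hok.1 hm2).2.1
  by_cases hyy : y = y'
  · subst hyy
    have := rem_db h Ep Es L R y hEp hEs hP1 hP2 (hE ▸ hok)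
    rw [← hE] at this
    have h6 : (y : ℤ) ≤ cur 0 L + 1 := by
      have : y ≤ cur 0 L + 1 := by unfold Nb at hn1; omega
      exact_mod_cast this
    linarith
  · have hx : 1 ≤ cur 0 L := by unfold Nb at hn1 hn2; omega
    obtain ⟨n, hat, hn⟩ : ∃ n, at' 0 [] E n i = some (cur 0 L + 1) ∧
        ((n = Ep.length ∧ y = cur 0 L + 1 ∧ y' = cur 0 L - 1) ∨
          (n = Ep.length + 2 ∧ y' = cur 0 L + 1 ∧ y = cur 0 L - 1)) := by
      by_cases hy : y = cur 0 L + 1
      · refine ⟨Ep.length, ?_, Or.inl ⟨rfl, hy, by unfold Nb at hn2; omega⟩⟩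
        rw [hE, at_eq _ _ _ _ _ hP1, ← hy]
        simp [← hL]
      · have hy' : y' = cur 0 L + 1 := by unfold Nb at hn1 hn2; omega
        refine ⟨Ep.length + 2, ?_, Or.inr ⟨rfl, hy', by unfold Nb at hn1; omega⟩⟩
        have h8 := at_eq _ _ _ _ Es hP3 i
        rw [hE, hEE]
        have h9 : (Ep ++ [(⟨L, .death u y, R⟩ : Slice Unit ℕ), ⟨L, .birth u' y', R⟩]).length =
          Ep.length + 2 := by simp
        rw [h9] at h8
        rw [h8, ← hy']
        simp [← hL]
    obtain ⟨Z, hZ1, hZ2, hZ3, hZ4, hZ5⟩ := lower E hp hok.1 hno _ n i hat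
    obtain ⟨hL1, hL2, hL3, hL4⟩ := lower2 E Z _ hx hZ1 hZ2 hZ3 hZ5 hok.2
    have hplZ : Z.map Slice.plain = p ++ (.death i :: .birth i :: s) := by
      rw [← hpl, ← hZ2, plain_trE]
    obtain ⟨Zp, LZ, v, yz, RZ, v', yz', Zs, hZ, hZp, hLZ, hZs, hQ1, hQ2⟩ :=
      decomp_db (0, false) [] [] Z p s i hZ1 hplZ
    have hlen : Zp.length = Ep.length := by
      rw [← List.length_map Slice.plain, ← List.length_map Slice.plain (as := Ep), hZp, hEp]
    have hcmp : trE kp Prod.fst (0, false) Z = Ep ++ (⟨L, .death u y, R⟩ ::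
      ⟨L, .birth u' y', R⟩ :: Es) := hZ2.trans hE
    rw [hZ] at hcmp
    simp only [trE, List.map_append, List.map_cons] at hcmp
    obtain ⟨-, hcmp⟩ := List.append_inj hcmp (by simp [hlen])
    simp only [List.cons.injEq, Slice.tr, Loc.tr, Slice.mk.injEq, Loc.death.injEq,
      Loc.birth.injEq] at hcmp
    obtain ⟨⟨hc1, ⟨-, hc2⟩, -⟩, ⟨-, ⟨-, hc3⟩, -⟩, -⟩ := hcmp
    have hcx : (cur (0, false) LZ).1 = cur 0 L := by
      rw [← hc1]; exact (cur_trF kp Prod.fst (0, false) LZ).symm
    have hm1 : LZ ++ (v, yz) :: (v, cur (0, false) LZ) :: RZ ∈ sts (0, false) [] Z := by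
      have := end_mem_sts _ _ _ _ hQ1
      rw [hZ]
      simp only [sts, List.map_append, List.mem_cons, List.mem_append] at this ⊢
      tauto
    have hm2 : LZ ++ (v', yz') :: (v', cur (0, false) LZ) :: RZ ∈ sts (0, false) [] Z := by
      rw [hZ]
      simp [sts, Slice.tgt, Loc.tgt]
    have hr1 := (state_adj hZ3 hm1).2.1
    have hr2 := (state_adj hZ3 hm2).2.1
    have hPz : Path (0, false) [] (Zp ++ [⟨LZ, .death v yz, RZ⟩, ⟨LZ, .birth v' yz', RZ⟩])
        (LZ ++ (v', yz') :: (v', cur (0, false) LZ) :: RZ) := by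
      rw [path_append]
      refine ⟨_, hQ1, ?_, ?_, ?_⟩
      · simp [Slice.src, Loc.src]
      · simp [Slice.src, Slice.tgt, Loc.src, Loc.tgt]
      · simp [Path, Slice.src, Slice.tgt, Loc.src, Loc.tgt]
    have hmain : lw yz = cur 0 L - 1 ∧ lw yz' = cur 0 L - 1 ∧ lw (cur (0, false) LZ) = cur 0 L := by
      obtain ⟨r1, r2, r3, r4⟩ := hr1
      obtain ⟨q1, q2, q3, q4⟩ := hr2
      have hcm : (cur (0, false) LZ).2 = false := by
        by_contra hc
        have := r3 (by simpa using hc)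
        omega
      rcases hn with ⟨hn, hn1, hn2⟩ | ⟨hn, hn1, hn2⟩
      · have hyz : yz = (cur 0 L + 1, true) := by
          have h8 := at_eq _ _ _ _ (⟨LZ, .death v yz, RZ⟩ :: ⟨LZ, .birth v' yz', RZ⟩ :: Zs) hQ1 i
          rw [hlen, ← hn, ← hZ, hZ4] at h8
          simpa [← hLZ] using h8.symm
        have hyz' : yz'.2 = false := by
          by_contra hc
          have := q4 (by simpa using hc)
          omega
        refine ⟨?_, ?_, ?_⟩
        · simp [lw, hyz]
        · simp [lw, hyz']; omega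
        · simp [lw, hcm]; omega
      · have hyz' : yz' = (cur 0 L + 1, true) := by
          have h8 := at_eq _ _ _ _ Zs hPz i
          have h9 : (Zp ++ [(⟨LZ, .death v yz, RZ⟩ : Slice Unit (ℕ × Bool)),
            ⟨LZ, .birth v' yz', RZ⟩]).length = Zp.length + 2 := by simp
          have h10 : (Zp ++ [(⟨LZ, .death v yz, RZ⟩ : Slice Unit (ℕ × Bool)),
            ⟨LZ, .birth v' yz', RZ⟩]) ++ Zs = Z := by rw [hZ]; simp
          rw [h9, hlen, ← hn, h10, hZ4] at h8
          simpa [← hLZ] using h8.symm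
        have hyz : yz.2 = false := by
          by_contra hc
          have := r4 (by simpa using hc)
          omega
        refine ⟨?_, ?_, ?_⟩
        · simp [lw, hyz]; omega
        · simp [lw, hyz']
        · simp [lw, hcm]; omega
    obtain ⟨m1, m2, m3⟩ := hmain
    have hlow : trE kp lw (0, false) Z = trE kp lw (0, false) Zp ++
        (⟨trF kp lw (0, false) LZ, .death () (cur 0 L - 1), trF kp lw (cur (0, false) LZ) RZ⟩ ::
        ⟨trF kp lw (0, false) LZ, .birth () (cur 0 L - 1), trF kp lw (cur (0, false) LZ) RZ⟩ ::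
          trE kp lw (0, false) Zs) := by
      rw [hZ]
      simp only [trE, List.map_append, List.map_cons, Slice.tr, Loc.tr, Loc.right, m1, m2]
    have hcl : cur 0 (trF kp lw (0, false) LZ) = cur 0 L := by
      rw [← m3]; exact cur_trF kp lw (0, false) LZ
    have hp1 := path_tr sym_kp lw (0, false) [] _ Zp hQ1
    have hp2 := path_tr sym_kp lw (0, false) _ [] Zs hQ2
    rw [trF_append] at hp1 hp2
    simp only [trF, m1, m2, m3] at hp1 hp2
    have e0 : lw (0, false) = 0 := rfl
    rw [e0] at hp1 hp2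
    rw [hlow] at hL2 hL4
    have := rem_db h (trE kp lw (0, false) Zp) (trE kp lw (0, false) Zs)
      (trF kp lw (0, false) LZ) (trF kp lw (cur (0, false) LZ) RZ) (cur 0 L - 1)
      (by rw [plain_trE, hZp]) (by rw [plain_trE, hZs]) (by rw [hcl]; exact hp1)
      (by rw [hcl]; exact hp2) hL2
    rw [hcl] at this
    have hcast : ((cur 0 L - 1 : ℕ) : ℤ) = ((cur 0 L : ℕ) : ℤ) - 1 := by
      push_cast [Nat.cast_sub hx]; ring
    rw [hcast] at this
    linarith

theorem path_WF {a : G} {F F' : List (S × G)} {E : List (Slice S G)} (h : Path a F E F') :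
    WF F.length (E.map Slice.plain) F'.length := by
  induction E generalizing F with
  | nil =>
    have h : F = F' := h
    subst h
    rfl
  | cons s E ih =>
    obtain ⟨h1, h2⟩ := h
    have h3 := ih h2
    subst h1
    obtain ⟨L, p, R⟩ := s
    cases p <;> simp [Slice.src, Slice.tgt, Loc.src, Loc.tgt, Slice.plain, WF] at h3 ⊢
    · rw [show L.length + R.length + 2 = L.length + (R.length + 1 + 1) by omega]; exact h3
    · rw [show L.length + (R.length + 1 + 1) - 2 = L.length + R.length by omega]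
      first | exact h3 | exact ⟨by omega, h3⟩
    · first | exact h3 | exact ⟨by omega, h3⟩
    · exact h3

theorem WF_det {n m m' : ℕ} {w : List Piece} (h : WF n w m) (h' : WF n w m') : m = m' := by
  induction w generalizing n with
  | nil => exact (show n = m from h).symm.trans (show n = m' from h')
  | cons p w ih => cases p <;> exact ih h.2 h'.2

theorem ins_db {p s : List Piece} {i : ℕ} {k : ℤ} (h : Ub (p ++ (.death i :: .birth i :: s)) k)
    (Ep Es : List (Slice Unit ℕ))
    (L R : List (Unit × ℕ)) (y : ℕ) (h1 : Ep.map Slice.plain = p) (h2 : Es.map Slice.plain = s)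
    (hL : L.length = i)
    (h3 : Path 0 [] Ep (L ++ ((), y) :: ((), cur 0 L) :: R))
    (h4 : Path 0 (L ++ ((), y) :: ((), cur 0 L) :: R) Es [])
    (h5 : HOK (Ep ++ Es)) :
    Phi true ht 0 (Ep ++ Es) + (y - cur 0 L) ≤ k := by
  have hK : L ++ ((), y) :: ((), cur 0 L) :: R ∈ sts 0 [] (Ep ++ Es) := by
    have := end_mem_sts _ _ _ _ h3
    simp only [sts, List.map_append, List.mem_cons, List.mem_append] at this ⊢
    tauto
  have hadj := state_adj h5.1 hK
  have := h (Ep ++ (⟨L, .death () y, R⟩ :: ⟨L, .birth () y, R⟩ :: Es))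
    ⟨(path_append 0 Ep _ [] []).2 ⟨_, h3, ?_, ?_, ?_⟩, ?_⟩ ⟨?_, ?_⟩
  · rw [Phi_append] at this ⊢
    simp only [Phi, Loc.wt, ht] at this ⊢
    linarith
  · simp [Slice.src, Loc.src]
  · simp [Slice.src, Slice.tgt, Loc.src, Loc.tgt]
  · simpa [Slice.src, Slice.tgt, Loc.src, Loc.tgt] using h4
  · simp [h1, h2, Slice.plain, hL]
  · rw [allAdj_append _ _ _ _ _ _ h3]
    obtain ⟨h6, h7⟩ := (allAdj_append _ _ _ _ _ _ h3).1 h5.1
    refine ⟨h6, fun X hX => ?_⟩
    have h8 : Adj Nb 0 (L ++ R) := by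
      rw [adj_append]
      exact ⟨hadj.1, hadj.2.2.2⟩
    simp only [sts, List.map_cons, List.mem_cons] at hX
    rcases hX with rfl | rfl | rfl | hX
    · exact h5.1 _ hK
    · simpa [Slice.tgt, Loc.tgt] using h8
    · have := h5.1 _ hK
      simpa [Slice.tgt, Loc.tgt] using this
    · apply h7 X
      simp only [sts, List.mem_cons]
      exact Or.inr hX
  · intro g hg
    apply h5.2 g
    rw [holeLabels_append] at hg ⊢
    simp only [holeLabels] at hg
    exact hg

theorem alpha2 {p s : List Piece} {i m : ℕ} (hcr : crossings (p ++ s) = 0) {k : ℤ}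
    (hwf : WF 0 p m) (him : i + 2 ≤ m)
    (h : Ub (p ++ (.death i :: .birth i :: s)) k) : Ub (p ++ s) (k + 1) := by
  rintro E ⟨hp, hpl⟩ hok
  obtain ⟨Ep, Es, rfl, hEp, hEs⟩ := split_plain E p s hpl
  obtain ⟨K, hP1, hP2⟩ := (path_append 0 Ep Es [] []).1 hp
  have hKm : K.length = m := by
    have h1 := path_WF hP1
    rw [hEp] at h1
    exact WF_det h1 hwf
  have hno := noCr_of hpl hcr
  obtain ⟨L, ⟨⟨⟩, y⟩, ⟨⟨⟩, z⟩, R, rfl, hL⟩ := split_len2 K i (by omega)
  have hm1 : L ++ ((), y) :: ((), z) :: R ∈ sts 0 [] (Ep ++ Es) := by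
    have := end_mem_sts _ _ _ _ hP1
    simp only [sts, List.map_append, List.mem_cons, List.mem_append] at this ⊢
    tauto
  have hn1 : Nb (cur 0 L) y := (state_adj hok.1 hm1).2.1
  have hn2 : Nb y z := (state_adj hok.1 hm1).2.2.1
  by_cases hxz : z = cur 0 L
  · subst hxz
    have := ins_db h Ep Es L R y hEp hEs hL hP1 hP2 hok
    have h6 : ((cur 0 L : ℕ) : ℤ) ≤ y + 1 := by
      have : cur 0 L ≤ y + 1 := by unfold Nb at hn1; omega
      exact_mod_cast this
    linarith
  · have hy : 1 ≤ y := by unfold Nb at hn1 hn2; omega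
    obtain ⟨j, hat⟩ : ∃ j, at' 0 [] (Ep ++ Es) Ep.length j = some (y + 1) ∧
        ((z = y + 1 ∧ cur 0 L + 1 = y ∧ j = i + 1) ∨
          (cur 0 L = y + 1 ∧ z + 1 = y ∧ ∃ L0, L = L0 ++ [((), y + 1)] ∧ j = L0.length)) := by
      by_cases hz : z = y + 1
      · refine ⟨i + 1, ?_, Or.inl ⟨hz, by unfold Nb at hn1; omega, rfl⟩⟩
        rw [at_eq _ _ _ _ _ hP1, ← hz]
        simp [← hL]
      · have hx : cur 0 L = y + 1 := by unfold Nb at hn1 hn2; omega
        have hL0 : L ≠ [] := by
          rintro rfl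
          simp only [cur] at hx
          omega
        obtain ⟨L0, ⟨⟨⟩, q⟩, rfl⟩ := (List.eq_nil_or_concat L).resolve_left hL0
        have hq : q = y + 1 := by
          rw [List.concat_eq_append, cur_append] at hx
          exact hx
        subst hq
        refine ⟨L0.length, ?_, Or.inr ⟨hx, by unfold Nb at hn2; omega, L0, by simp, rfl⟩⟩
        rw [at_eq _ _ _ _ _ hP1]
        simp
    obtain ⟨hat, hj⟩ := hat
    obtain ⟨Z, hZ1, hZ2, hZ3, hZ4, hZ5⟩ := lower (Ep ++ Es) hp hok.1 hno _ _ j hat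
    obtain ⟨hL1, hL2, hL3, hL4⟩ := lower2 (Ep ++ Es) Z _ hy hZ1 hZ2 hZ3 hZ5 hok.2
    obtain ⟨Zp, Zs, rfl, hZp, hZs⟩ := List.map_eq_append_iff.1 hZ2
    obtain ⟨KZ, hQ1, hQ2⟩ := (path_append (0, false) Zp Zs [] []).1 hZ1
    have hlen : Zp.length = Ep.length := by rw [← hZp]; simp
    have hKZ : trF kp Prod.fst (0, false) KZ = L ++ ((), y) :: ((), z) :: R := by
      have h1 := path_tr sym_kp Prod.fst (0, false) [] KZ Zp hQ1
      have h2 : trE kp Prod.fst (0, false) Zp = Ep := hZp
      rw [h2] at h1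
      exact path_det _ _ _ _ _ h1 hP1
    obtain ⟨LZ, MZ, rfl, hLZ, hMZ⟩ := trF_split _ _ _ _ _ _ hKZ
    rcases MZ with _ | ⟨⟨⟨⟩, yz⟩, _ | ⟨⟨⟨⟩, zz⟩, RZ⟩⟩
    · simp [trF] at hMZ
    · simp [trF] at hMZ
    simp only [trF, kp, List.cons.injEq, Prod.mk.injEq, true_and] at hMZ
    obtain ⟨hyz, hzz, hRZ⟩ := hMZ
    have hcx : (cur (0, false) LZ).1 = cur 0 L := by
      rw [← hLZ]; exact (cur_trF kp Prod.fst (0, false) LZ).symm
    have hm2 : LZ ++ ((), yz) :: ((), zz) :: RZ ∈ sts (0, false) [] (Zp ++ Zs) := by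
      have := end_mem_sts _ _ _ _ hQ1
      simp only [sts, List.map_append, List.mem_cons, List.mem_append] at this ⊢
      tauto
    have hr1 := (state_adj hZ3 hm2).2.1
    have hr2 := (state_adj hZ3 hm2).2.2.1
    have h8 := at_eq _ _ _ _ Zs hQ1 j
    rw [hlen, hZ4] at h8
    have hmain : lw yz = y ∧ lw zz = y - 1 ∧ lw (cur (0, false) LZ) = y - 1 := by
      obtain ⟨r1, r2, r3, r4⟩ := hr1
      obtain ⟨q1, q2, q3, q4⟩ := hr2
      have hym : yz.2 = false := by
        by_contra hc
        have := r4 (by simpa using hc)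
        omega
      have hlenL : LZ.length = i := by rw [← hL, ← hLZ, trF_length]
      rcases hj with ⟨hj1, hj2, hj3⟩ | ⟨hj1, hj2, L0, hj3, hj4⟩
      · have hzz' : zz = (y + 1, true) := by
          subst hj3
          have : ((LZ ++ ((), yz) :: ((), zz) :: RZ).map Prod.snd)[i + 1]? = some zz := by
            simp [← hlenL]
          rw [this] at h8
          simpa using h8.symm
        have hcm : (cur (0, false) LZ).2 = false := by
          by_contra hc
          have := r3 (by simpa using hc)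
          omega
        refine ⟨?_, ?_, ?_⟩
        · simp [lw, hym]; omega
        · simp [lw, hzz']
        · simp [lw, hcm]; omega
      · have hLne : LZ ≠ [] := by
          rintro rfl
          rw [hj3] at hLZ
          simp [trF] at hLZ
        obtain ⟨LZ0, ⟨⟨⟩, q⟩, hq⟩ := (List.eq_nil_or_concat LZ).resolve_left hLne
        rw [List.concat_eq_append] at hq
        have hlen0 : LZ0.length = j := by
          rw [hj4]
          have h1 : LZ.length = LZ0.length + 1 := by rw [hq]; simp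
          have h2 : L.length = L0.length + 1 := by rw [hj3]; simp
          omega
        have hcur : cur (0, false) LZ = q := by rw [hq, cur_append]; rfl
        have hcx' : cur (0, false) LZ = (y + 1, true) := by
          have : ((LZ ++ ((), yz) :: ((), zz) :: RZ).map Prod.snd)[j]? = some q := by
            rw [hq]; simp [← hlen0]
          rw [this] at h8
          rw [hcur]
          simpa using h8.symm
        have hzm : zz.2 = false := by
          by_contra hc
          have := q4 (by simpa using hc)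
          omega
        refine ⟨?_, ?_, ?_⟩
        · simp [lw, hym]; omega
        · simp [lw, hzm]; omega
        · simp [lw, hcx']
    obtain ⟨m1, m2, m3⟩ := hmain
    have hcl : cur 0 (trF kp lw (0, false) LZ) = y - 1 := by
      rw [← m3]; exact cur_trF kp lw (0, false) LZ
    have hp1 := path_tr sym_kp lw (0, false) [] _ Zp hQ1
    have hp2 := path_tr sym_kp lw (0, false) _ [] Zs hQ2
    rw [trF_append] at hp1 hp2
    simp only [trF, m1, m2, m3] at hp1 hp2
    have e0 : lw (0, false) = 0 := rfl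
    rw [e0] at hp1 hp2
    have happ : trE (kp : Unit → ℕ × Bool → ℕ × Bool → Unit) lw (0, false) (Zp ++ Zs) =
      trE kp lw (0, false) Zp ++ trE kp lw (0, false) Zs := by simp [trE]
    rw [happ] at hL2 hL4
    have := ins_db h (trE kp lw (0, false) Zp) (trE kp lw (0, false) Zs)
      (trF kp lw (0, false) LZ) (trF kp lw zz RZ) y
      (by rw [plain_trE, ← hEp, ← hZp]; exact (plain_trE _ _ _ _).symm)
      (by rw [plain_trE, ← hEs, ← hZs]; exact (plain_trE _ _ _ _).symm)
      (by rw [trF_length, ← hL, ← hLZ, trF_length]) (by rw [hcl]; exact hp1)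
      (by rw [hcl]; exact hp2) hL2
    rw [hcl] at this
    have hcast : ((y - 1 : ℕ) : ℤ) = (y : ℤ) - 1 := by
      push_cast [Nat.cast_sub hy]; ring
    rw [hcast] at this
    linarith

end Pool.Agent.H560R3.TG
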