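import Pool.Agent.H560R3.TG.Upper3

/-! Growth of the bracket for large `t`. -/

set_option autoImplicit false
set_option linter.unusedSimpArgs false

namespace Pool.Agent.H560R3.TG

theorem dl_succ {t : ℝ} (ht : 0 < t) (n : ℕ) :
    dl t (n + 1) = t ^ 2 * dl t n + (t⁻¹) ^ (2 * (n + 1)) := by
  have hts : t ^ 2 * (t⁻¹) ^ 2 = 1 := by
    rw [← mul_pow, mul_inv_cancel₀ ht.ne', one_pow]
  induction n with
  | zero => simp [dl, dd]
  | succ n ih =>
    show dd t * dl t (n + 1) - dl t n = _
    have e1 : (t⁻¹) ^ (2 * (n + 1 + 1)) = (t⁻¹) ^ 2 * (t⁻¹) ^ (2 * (n + 1)) := by ring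
    have e2 : (t⁻¹) ^ (2 * (n + 1)) = dl t (n + 1) - t ^ 2 * dl t n := by rw [ih]; ring
    rw [e1, e2]
    unfold dd
    linear_combination dl t n * hts

theorem dl_lower {t : ℝ} (ht : 1 ≤ t) (n : ℕ) : t ^ (2 * n) ≤ dl t n := by
  have h0 : 0 < t := by linarith
  induction n with
  | zero => simp [dl]
  | succ n ih =>
    rw [dl_succ h0]
    have e : t ^ (2 * (n + 1)) = t ^ 2 * t ^ (2 * n) := by ring
    rw [e]
    have h1 : t ^ 2 * t ^ (2 * n) ≤ t ^ 2 * dl t n :=
      mul_le_mul_of_nonneg_left ih (by positivity)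
    have h2 : 0 ≤ (t⁻¹) ^ (2 * (n + 1)) := by positivity
    linarith

theorem dl_upper {t : ℝ} (ht : 1 ≤ t) (n : ℕ) : dl t n ≤ (n + 1) * t ^ (2 * n) := by
  have h0 : 0 < t := by linarith
  induction n with
  | zero => simp [dl]
  | succ n ih =>
    rw [dl_succ h0]
    have e : t ^ (2 * (n + 1)) = t ^ 2 * t ^ (2 * n) := by ring
    have h1 : t ^ 2 * dl t n ≤ t ^ 2 * ((n + 1) * t ^ (2 * n)) :=
      mul_le_mul_of_nonneg_left ih (by positivity)
    have h2 : (t⁻¹) ^ (2 * (n + 1)) ≤ 1 := by
      apply pow_le_one₀ (by positivity)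
      exact inv_le_one_of_one_le₀ ht
    have h3 : (1 : ℝ) ≤ t ^ (2 * (n + 1)) := one_le_pow₀ ht
    push_cast
    rw [e] at h3 ⊢
    nlinarith

/-- the last height -/
def cn : ℕ → List ℕ → ℕ
  | x, [] => x
  | _, y :: L => cn y L

theorem birthOp_eval (t : ℝ) (x : ℕ) (f : Fn) (L R : List ℕ) :
    birthOp t x L.length f (L ++ R) = nbs t (cn x L) (fun y => f (L ++ y :: cn x L :: R)) := by
  induction L generalizing x f with
  | nil => rfl
  | cons z L ih => simp only [List.length_cons, List.cons_append, birthOp, ih, cn]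

theorem deathOp_eval (t : ℝ) (x : ℕ) (f : Fn) (L R : List ℕ) (y z : ℕ) :
    deathOp t x L.length f (L ++ y :: z :: R) =
      if z = cn x L ∧ Nb (cn x L) y then (dl t (cn x L))⁻¹ * f (L ++ R) else 0 := by
  induction L generalizing x f with
  | nil => rfl
  | cons z L ih => exact ih z (fun K => f (z :: K))

theorem holeOp_eval (x : ℕ) (f : Fn) (L R : List ℕ) :
    holeOp x L.length f (L ++ R) = if cn x L = 0 then f (L ++ R) else 0 := by
  induction L generalizing x f with
  | nil => rfl
  | cons z L ih => exact ih z (fun K => f (z :: K))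

theorem birthOp_short (t : ℝ) (x i : ℕ) (f : Fn) (F : List ℕ) (h : F.length < i) :
    birthOp t x i f F = 0 := by
  induction F generalizing x i f with
  | nil => cases i with
    | zero => simp at h
    | succ i => rfl
  | cons y F ih => cases i with
    | zero => simp at h
    | succ i => exact ih y i _ (by simpa using h)

theorem deathOp_short (t : ℝ) (x i : ℕ) (f : Fn) (F : List ℕ) (h : F.length < i + 2) :
    deathOp t x i f F = 0 := by
  induction i generalizing x f F with
  | zero =>
    rcases F with _ | ⟨y, _ | ⟨z, F⟩⟩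
    · rfl
    · rfl
    · simp at h
  | succ i ih =>
    rcases F with _ | ⟨y, F⟩
    · rfl
    · exact ih y _ F (by simp at h; omega)

theorem holeOp_short (x i : ℕ) (f : Fn) (F : List ℕ) (h : F.length < i) :
    holeOp x i f F = 0 := by
  induction F generalizing x i f with
  | nil => cases i with
    | zero => simp at h
    | succ i => rfl
  | cons y F ih => cases i with
    | zero => simp at h
    | succ i => exact ih y i _ (by simpa using h)

/-- a list of heights as a state -/
def stt (F : List ℕ) : List (Unit × ℕ) := F.map (fun g => ((), g))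

theorem stt_append (F K : List ℕ) : stt (F ++ K) = stt F ++ stt K := List.map_append

theorem stt_cons (y : ℕ) (K : List ℕ) : stt (y :: K) = ((), y) :: stt K := rfl

theorem stt_length (F : List ℕ) : (stt F).length = F.length := by simp [stt]

theorem cur_stt (x : ℕ) (F : List ℕ) : cur x (stt F) = cn x F := by
  induction F generalizing x with
  | nil => rfl
  | cons y F ih => exact ih y

/-- height labellings of a word -/
structure Hp (F : List ℕ) (E : List (Slice Unit ℕ)) (p : List Piece) : Prop where
  path : Path 0 (stt F) E []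
  pl : E.map Slice.plain = p
  adj : AllAdj Nb 0 (stt F) E
  hol : ∀ g ∈ holeLabels 0 E, g = 0

noncomputable def f0 : Fn := fun F => if F = [] then 1 else 0

theorem Hp.birth {L R : List ℕ} {E : List (Slice Unit ℕ)} {p : List Piece} {y : ℕ}
    (h : Hp (L ++ y :: cn 0 L :: R) E p) :
    Hp (L ++ R) (⟨stt L, .birth () y, stt R⟩ :: E) (.birth L.length :: p) := by
  have e : stt (L ++ y :: cn 0 L :: R) = stt L ++ ((), y) :: ((), cn 0 L) :: stt R := by
    simp [stt_append, stt_cons]
  have h1 := h.path
  have h2 := h.adj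
  rw [e] at h1 h2
  refine ⟨⟨?_, ?_⟩, ?_, ?_, ?_⟩
  · simp [Slice.src, Loc.src, stt_append]
  · simpa [Slice.tgt, Loc.tgt, cur_stt] using h1
  · simp [Slice.plain, stt_length, h.pl]
  · intro X hX
    simp only [sts, List.map_cons, List.mem_cons] at hX
    rcases hX with rfl | rfl | hX
    · have h3 := h2 _ (by simp [sts]; exact Or.inl rfl)
      rw [adj_append] at h3
      rw [stt_append, adj_append, cur_stt]
      have h4 := h3.2.2.2
      exact ⟨h3.1, h4⟩
    · apply h2
      simp [sts, Slice.tgt, Loc.tgt, cur_stt]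
    · apply h2
      simp only [sts, List.mem_cons]
      exact Or.inr hX
  · intro g hg
    exact h.hol g hg

theorem Hp.death {L R : List ℕ} {E : List (Slice Unit ℕ)} {p : List Piece} {y : ℕ}
    (h : Hp (L ++ R) E p) (hy : Nb (cn 0 L) y) :
    Hp (L ++ y :: cn 0 L :: R) (⟨stt L, .death () y, stt R⟩ :: E) (.death L.length :: p) := by
  have e : stt (L ++ y :: cn 0 L :: R) = stt L ++ ((), y) :: ((), cn 0 L) :: stt R := by
    simp [stt_append, stt_cons]
  have h1 := h.path
  have h2 := h.adj
  rw [stt_append] at h1 h2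
  refine ⟨⟨?_, ?_⟩, ?_, ?_, ?_⟩
  · simp [Slice.src, Loc.src, stt_append, stt_cons, cur_stt]
  · simpa [Slice.tgt, Loc.tgt, cur_stt] using h1
  · simp [Slice.plain, stt_length, h.pl]
  · intro X hX
    simp only [sts, List.map_cons, List.mem_cons] at hX
    rcases hX with rfl | rfl | hX
    · have h3 := h2 (stt L ++ stt R) (by simp [sts])
      rw [adj_append, cur_stt] at h3
      rw [e, adj_append, cur_stt]
      refine ⟨h3.1, hy, ?_, h3.2⟩
      unfold Nb at hy ⊢; omega
    · apply h2
      simp [sts, Slice.tgt, Loc.tgt, cur_stt]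
    · apply h2
      simp only [sts, List.mem_cons]
      exact Or.inr hX
  · intro g hg
    exact h.hol g hg

theorem Hp.hole {L R : List ℕ} {E : List (Slice Unit ℕ)} {p : List Piece}
    (h : Hp (L ++ R) E p) (hx : cn 0 L = 0) :
    Hp (L ++ R) (⟨stt L, .hole, stt R⟩ :: E) (.hole L.length :: p) := by
  refine ⟨⟨?_, ?_⟩, ?_, ?_, ?_⟩
  · simp [Slice.src, Loc.src, stt_append]
  · simpa [Slice.tgt, Loc.tgt, cur_stt, stt_append] using h.path
  · simp [Slice.plain, stt_length, h.pl]
  · intro X hX
    simp only [sts, List.map_cons, List.mem_cons] at hX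
    rcases hX with rfl | rfl | hX
    · apply h.adj; simp [sts]
    · apply h.adj
      simp [sts, Slice.tgt, Loc.tgt, stt_append]
    · apply h.adj
      simp only [sts, List.mem_cons]
      exact Or.inr hX
  · intro g hg
    simp only [holeLabels, List.mem_cons, cur_stt] at hg
    rcases hg with rfl | hg
    · exact hx
    · exact h.hol g hg

theorem nbs_le {t : ℝ} (x : ℕ) (f : ℕ → ℝ) (A B : ℝ)
    (h1 : dl t (x + 1) * f (x + 1) ≤ A) (h2 : x ≠ 0 → dl t (x - 1) * f (x - 1) ≤ B)
    (hB : 0 ≤ B) : nbs t x f ≤ A + B := by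
  unfold nbs
  split_ifs with h
  · linarith
  · have := h2 h; linarith

theorem opW_nonneg {t : ℝ} (ht : 0 < t) (p : List Piece) (hp : crossings p = 0) (f : Fn)
    (hf : ∀ F, 0 ≤ f F) : ∀ F, 0 ≤ opW t 0 p f F := by
  induction p with
  | nil => exact hf
  | cons q p ih =>
    intro F
    cases q with
    | cr i b => simp [crossings] at hp
    | birth i =>
      have ih' := ih (by simpa [crossings] using hp)
      by_cases hi : i ≤ F.length
      · obtain ⟨L, R, rfl, rfl⟩ := split_len F i hi
        show 0 ≤ birthOp t 0 L.length _ _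
        rw [birthOp_eval]
        unfold nbs
        have h1 : ∀ y, 0 ≤ dl t y * opW t 0 p f (L ++ y :: cn 0 L :: R) :=
          fun y => mul_nonneg (dl_pos ht y).le (ih' _)
        split_ifs
        · simpa using h1 (cn 0 L + 1)
        · exact add_nonneg (h1 _) (h1 _)
      · show 0 ≤ birthOp t 0 i _ _
        rw [birthOp_short _ _ _ _ _ (by omega)]
    | death i =>
      have ih' := ih (by simpa [crossings] using hp)
      by_cases hi : i + 2 ≤ F.length
      · obtain ⟨L, y, z, R, rfl, rfl⟩ := split_len2 F i hi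
        show 0 ≤ deathOp t 0 L.length _ _
        rw [deathOp_eval]
        split_ifs
        · exact mul_nonneg (inv_nonneg.2 (dl_pos ht _).le) (ih' _)
        · exact le_refl _
      · show 0 ≤ deathOp t 0 i _ _
        rw [deathOp_short _ _ _ _ _ (by omega)]
    | hole i =>
      have ih' := ih (by simpa [crossings] using hp)
      by_cases hi : i ≤ F.length
      · obtain ⟨L, R, rfl, rfl⟩ := split_len F i hi
        show 0 ≤ holeOp 0 L.length _ _
        rw [holeOp_eval]
        split_ifs
        · exact ih' _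
        · exact le_refl _
      · show 0 ≤ holeOp 0 i _ _
        rw [holeOp_short _ _ _ _ (by omega)]

theorem ub_word (p : List Piece) (hp : crossings p = 0) (F : List ℕ) (k : ℤ)
    (h : ∀ E, Hp F E p → Phi true ht 0 E ≤ k) (hF : Adj Nb 0 (stt F)) :
    ∃ C : ℝ, 0 ≤ C ∧ ∀ t : ℝ, 1 ≤ t → opW t 0 p f0 F ≤ C * t ^ (2 * k) := by
  induction p generalizing F k with
  | nil =>
    rcases F with _ | ⟨y, F⟩
    · refine ⟨1, by norm_num, fun t ht1 => ?_⟩
      have h0 : (0 : ℤ) ≤ k := h [] ⟨rfl, rfl, by intro K hK; simp [sts] at hK; rw [hK]; trivial,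
        by simp [holeLabels]⟩
      simp only [opW, f0, if_true, one_mul]
      exact one_le_zpow₀ ht1 (by omega)
    · refine ⟨0, le_refl _, fun t ht1 => ?_⟩
      simp [opW, f0]
  | cons q p ih =>
    cases q with
    | cr i b => simp [crossings] at hp
    | birth i =>
      have hp' : crossings p = 0 := by simpa [crossings] using hp
      by_cases hi : i ≤ F.length
      · obtain ⟨L, R, rfl, rfl⟩ := split_len F i hi
        have hF1 : ∀ y, Nb (cn 0 L) y → Adj Nb 0 (stt (L ++ y :: cn 0 L :: R)) := by
          intro y hy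
          rw [stt_append, adj_append, cur_stt] at hF ⊢
          refine ⟨hF.1, hy, ?_, hF.2⟩
          unfold Nb at hy ⊢; omega
        have key : ∀ y, Nb (cn 0 L) y → ∃ C : ℝ, 0 ≤ C ∧ ∀ t : ℝ, 1 ≤ t →
            dl t y * opW t 0 p f0 (L ++ y :: cn 0 L :: R) ≤ C * t ^ (2 * k) := by
          intro y hy
          obtain ⟨C, hC0, hC⟩ := ih hp' (L ++ y :: cn 0 L :: R) (k - y) (by
            intro E hE
            have := h _ hE.birth
            simp only [Phi, Loc.wt, ht] at this
            linarith) (hF1 y hy)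
          refine ⟨(y + 1) * C, by positivity, fun t ht1 => ?_⟩
          have t0 : 0 < t := by linarith
          have h1 := dl_upper ht1 y
          have h2 := hC t ht1
          have h3 := opW_nonneg t0 p hp' f0 (by intro F; unfold f0; split_ifs <;> norm_num)
            (L ++ y :: cn 0 L :: R)
          calc dl t y * opW t 0 p f0 (L ++ y :: cn 0 L :: R)
              ≤ ((y + 1) * t ^ (2 * y)) * (C * t ^ (2 * (k - y))) :=
                mul_le_mul h1 h2 h3 (by positivity)
            _ = (y + 1) * C * (t ^ (2 * y) * t ^ (2 * (k - y))) := by ring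
            _ = (y + 1) * C * t ^ (2 * k) := by
              congr 1
              rw [← zpow_natCast, ← zpow_add₀ t0.ne']
              congr 1
              push_cast; ring
        obtain ⟨C1, hC1, hb1⟩ := key (cn 0 L + 1) (Or.inl rfl)
        obtain ⟨C2, hC2, hb2⟩ : ∃ C : ℝ, 0 ≤ C ∧ ∀ t : ℝ, 1 ≤ t → cn 0 L ≠ 0 →
            dl t (cn 0 L - 1) * opW t 0 p f0 (L ++ (cn 0 L - 1) :: cn 0 L :: R) ≤
              C * t ^ (2 * k) := by
          by_cases hx : cn 0 L = 0
          · exact ⟨0, le_refl _, fun t _ h => absurd hx h⟩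
          · obtain ⟨C, hC, hb⟩ := key (cn 0 L - 1) (Or.inr (by omega))
            exact ⟨C, hC, fun t ht1 _ => hb t ht1⟩
        refine ⟨C1 + C2, by positivity, fun t ht1 => ?_⟩
        show birthOp t 0 L.length _ _ ≤ _
        rw [birthOp_eval, add_mul]
        have t0 : 0 < t := by linarith
        exact nbs_le _ _ _ _ (hb1 t ht1) (hb2 t ht1) (by positivity)
      · refine ⟨0, le_refl _, fun t ht1 => ?_⟩
        show birthOp t 0 i _ _ ≤ _
        rw [birthOp_short _ _ _ _ _ (by omega)]
        simp
    | death i =>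
      have hp' : crossings p = 0 := by simpa [crossings] using hp
      by_cases hi : i + 2 ≤ F.length
      · obtain ⟨L, y, z, R, rfl, rfl⟩ := split_len2 F i hi
        by_cases hc : z = cn 0 L ∧ Nb (cn 0 L) y
        · obtain ⟨rfl, hy⟩ := hc
          have hF1 : Adj Nb 0 (stt (L ++ R)) := by
            rw [stt_append, adj_append, cur_stt] at hF ⊢
            exact ⟨hF.1, hF.2.2.2⟩
          obtain ⟨C, hC0, hC⟩ := ih hp' (L ++ R) (k + cn 0 L) (by
            intro E hE
            have := h _ (hE.death hy)
            simp only [Phi, Loc.wt, ht, cur_stt] at this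
            linarith) hF1
          refine ⟨C, hC0, fun t ht1 => ?_⟩
          have t0 : 0 < t := by linarith
          show deathOp t 0 L.length _ _ ≤ _
          rw [deathOp_eval, if_pos ⟨rfl, hy⟩]
          have h1 := dl_lower ht1 (cn 0 L)
          have h2 := hC t ht1
          have h3 := opW_nonneg t0 p hp' f0 (by intro F; unfold f0; split_ifs <;> norm_num)
            (L ++ R)
          have h4 : (dl t (cn 0 L))⁻¹ ≤ (t ^ (2 * cn 0 L))⁻¹ :=
            inv_anti₀ (by positivity) h1
          calc (dl t (cn 0 L))⁻¹ * opW t 0 p f0 (L ++ R)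
              ≤ (t ^ (2 * cn 0 L))⁻¹ * (C * t ^ (2 * (k + cn 0 L))) :=
                mul_le_mul h4 h2 h3 (by positivity)
            _ = C * ((t ^ (2 * cn 0 L))⁻¹ * t ^ (2 * (k + cn 0 L))) := by ring
            _ = C * t ^ (2 * k) := by
              congr 1
              rw [← zpow_natCast, ← zpow_neg, ← zpow_add₀ t0.ne']
              congr 1
              push_cast; ring
        · refine ⟨0, le_refl _, fun t ht1 => ?_⟩
          show deathOp t 0 L.length _ _ ≤ _
          rw [deathOp_eval, if_neg hc]
          simp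
      · refine ⟨0, le_refl _, fun t ht1 => ?_⟩
        show deathOp t 0 i _ _ ≤ _
        rw [deathOp_short _ _ _ _ _ (by omega)]
        simp
    | hole i =>
      have hp' : crossings p = 0 := by simpa [crossings] using hp
      by_cases hi : i ≤ F.length
      · obtain ⟨L, R, rfl, rfl⟩ := split_len F i hi
        by_cases hx : cn 0 L = 0
        · obtain ⟨C, hC0, hC⟩ := ih hp' (L ++ R) k (by
            intro E hE
            have := h _ (hE.hole hx)
            simp only [Phi, Loc.wt] at this
            linarith) hF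
          refine ⟨C, hC0, fun t ht1 => ?_⟩
          show holeOp 0 L.length _ _ ≤ _
          rw [holeOp_eval, if_pos hx]
          exact hC t ht1
        · refine ⟨0, le_refl _, fun t ht1 => ?_⟩
          show holeOp 0 L.length _ _ ≤ _
          rw [holeOp_eval, if_neg hx]
          simp
      · refine ⟨0, le_refl _, fun t ht1 => ?_⟩
        show holeOp 0 i _ _ ≤ _
        rw [holeOp_short _ _ _ _ (by omega)]
        simp

end Pool.Agent.H560R3.TG
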