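import Pool.Agent.H560R3.TG.Inv2

/-! The invariant. -/

set_option autoImplicit false

namespace Pool.Agent.H560R3.TG

variable {t : ℝ}

/-- mirror image -/
def fl : Piece → Piece
  | .cr i b => .cr i (!b)
  | p => p

theorem nbs_inv (x : ℕ) (f : ℕ → ℝ) : nbs t⁻¹ x f = nbs t x f := by
  unfold nbs; simp only [dl_inv]

theorem birthOp_inv (x i : ℕ) (f : Fn) (F : List ℕ) : birthOp t⁻¹ x i f F = birthOp t x i f F := by
  induction i generalizing x f F with
  | zero => simp only [birthOp, nbs_inv]
  | succ i ih =>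
    rcases F with _ | ⟨y, F⟩
    · rfl
    · exact ih y _ F

theorem deathOp_inv (x i : ℕ) (f : Fn) (F : List ℕ) : deathOp t⁻¹ x i f F = deathOp t x i f F := by
  induction i generalizing x f F with
  | zero =>
    rcases F with _ | ⟨y, _ | ⟨z, F⟩⟩
    · rfl
    · rfl
    · simp only [deathOp, dl_inv]
  | succ i ih =>
    rcases F with _ | ⟨y, F⟩
    · rfl
    · exact ih y _ F

theorem op_fl (x : ℕ) (p : Piece) (f : Fn) : op t⁻¹ x (fl p) f = op t x p f := by
  funext F
  cases p with
  | birth i => exact birthOp_inv x i f F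
  | death i => exact deathOp_inv x i f F
  | hole i => rfl
  | cr i b =>
    show al t⁻¹ (!b) * f F - al t⁻¹ (!(!b)) * deathOp t⁻¹ x i (birthOp t⁻¹ x i f) F =
      al t b * f F - al t (!b) * deathOp t x i (birthOp t x i f) F
    rw [deathOp_inv]
    have : birthOp t⁻¹ x i f = birthOp t x i f := by funext K; exact birthOp_inv x i f K
    rw [this]
    cases b <;> simp [al]

theorem opW_fl (x : ℕ) (w : List Piece) (f : Fn) : opW t⁻¹ x (w.map fl) f = opW t x w f := by
  induction w with
  | nil => rfl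
  | cons p w ih => simp only [List.map_cons, opW]; rw [ih, op_fl]

theorem goRight_fl (b : Bool) (i k : ℕ) : (goRight b i k).map fl = goRight (!b) i k := by
  induction k generalizing i with
  | zero => rfl
  | succ k ih => simp only [goRight, List.map_cons, ih]; rfl

theorem goLeft_fl (b : Bool) (i k : ℕ) : (goLeft b i k).map fl = goLeft (!b) i k := by
  induction k generalizing i with
  | zero => rfl
  | succ k ih => simp only [goLeft, List.map_append, List.map_cons, List.map_nil, ih]; rfl

/-- the factor of a slide -/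
noncomputable def sf (t : ℝ) (b : Bool) : ℝ := if b then t ^ 6 else (t⁻¹) ^ 6

theorem hole_pass (x : ℕ) (w : List Piece) (g : Fn) :
    opW t x w (holeOp x 0 g) = holeOp x 0 (opW t x w g) := by
  by_cases hx : x = 0
  · have : ∀ g : Fn, holeOp x 0 g = g := by intro g; funext F; simp [holeOp, hx]
    rw [this, this]
  · have : ∀ g : Fn, holeOp x 0 g = fun _ => 0 := by intro g; funext F; simp [holeOp, hx]
    rw [this, this]
    have := opW_smul t x w 0 (fun _ => 0)
    simpa using this

theorem rel_slide_true (ht : 0 < t) (h1 : t ≠ 1) (i k : ℕ) :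
    Rel t (i + 1 + k) (t ^ 6) [.hole i] (goRight true i k ++ [.hole i] ++ goLeft true i k) := by
  induction i with
  | zero =>
    intro x f F hF hn
    rcases F with _ | ⟨y, F⟩
    · simp at hn; omega
    · have hk : F.length = k := by simp at hn; omega
      rw [opW_append, opW_append]
      show holeOp x 0 f (y :: F) = t ^ 6 * opW t x (goRight true 0 k)
        (holeOp x 0 (opW t x (goLeft true 0 k) f)) (y :: F)
      rw [hole_pass, ← opW_append]
      by_cases hx : x = 0
      · subst hx
        simp only [holeOp, if_true]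
        rw [mono ht h1 k 0 y f F hF hk]
        have hy : y = 1 := by
          rcases hF.1 with h | h <;> omega
        subst hy
        have hts : t * t⁻¹ = 1 := mul_inv_cancel₀ ht.ne'
        have : mu t 0 1 = (t⁻¹) ^ 6 := by simp [mu]; ring
        rw [this, ← mul_assoc, ← mul_pow, hts, one_pow, one_mul]
      · simp [holeOp, hx]
  | succ i ih =>
    have := ih.shift
    have e1 : i + 1 + k + 1 = i + 1 + 1 + k := by omega
    rw [e1] at this
    have e2 : ([Piece.hole i].map sh) = [.hole (i + 1)] := rfl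
    have e3 : (goRight true i k ++ [Piece.hole i] ++ goLeft true i k).map sh =
        goRight true (i + 1) k ++ [.hole (i + 1)] ++ goLeft true (i + 1) k := by
      rw [goRight_sh, goLeft_sh]
      simp [sh, Piece.put, Piece.pos]
    rw [e2, e3] at this
    exact this

theorem rel_slide (ht : 0 < t) (h1 : t ≠ 1) (i k : ℕ) (b : Bool) :
    Rel t (i + 1 + k) (sf t b) [.hole i] (goRight b i k ++ [.hole i] ++ goLeft b i k) := by
  cases b with
  | true => exact rel_slide_true ht h1 i k
  | false =>
    have ht' : 0 < t⁻¹ := inv_pos.2 ht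
    have h1' : t⁻¹ ≠ 1 := by
      intro h; apply h1; rw [← inv_inv t, h, inv_one]
    have h := rel_slide_true ht' h1' i k
    intro x f F hF hn
    have h2 := h x f F hF hn
    have e1 : opW t⁻¹ x [.hole i] f = opW t x [.hole i] f := opW_fl x [.hole i] f
    have e2 : opW t⁻¹ x (goRight true i k ++ [.hole i] ++ goLeft true i k) f =
        opW t x (goRight false i k ++ [.hole i] ++ goLeft false i k) f := by
      rw [← opW_fl (t := t)]
      congr 1
      rw [List.map_append, List.map_append, goRight_fl, goLeft_fl]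
      rfl
    rw [e1, e2] at h2
    exact h2

theorem kf_mul (ht : 0 < t) (b : Bool) : kf t b * kf t⁻¹ b = 1 := by
  have hts : t * t⁻¹ = 1 := mul_inv_cancel₀ ht.ne'
  have h1 : ∀ s : ℝ, 0 < s → kf s true = - (s⁻¹) ^ 3 := by
    intro s hs
    have : s * s⁻¹ = 1 := mul_inv_cancel₀ hs.ne'
    simp only [kf, al, dd, Bool.not_true, if_true, Bool.false_eq_true, if_false]
    linear_combination (-s) * this
  have h2 : ∀ s : ℝ, 0 < s → kf s false = - s ^ 3 := by
    intro s hs
    have : s * s⁻¹ = 1 := mul_inv_cancel₀ hs.ne'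
    simp only [kf, al, dd, Bool.not_false, if_true, Bool.false_eq_true, if_false]
    linear_combination (-s⁻¹) * this
  have ht' : 0 < t⁻¹ := inv_pos.2 ht
  cases b
  · rw [h2 t ht, h2 _ ht']
    have : - t ^ 3 * - (t⁻¹) ^ 3 = (t * t⁻¹) ^ 3 := by ring
    rw [this, hts, one_pow]
  · rw [h1 t ht, h1 _ ht', inv_inv]
    have : - (t⁻¹) ^ 3 * - t ^ 3 = (t * t⁻¹) ^ 3 := by ring
    rw [this, hts, one_pow]

theorem move_rel {n : ℕ} {l r : List Piece} (h : Move n l r) :
    ∃ φ : ℝ → ℝ, (∀ t, 0 < t → t ≠ 1 → Rel t n (φ t) l r) ∧ ∀ t, 0 < t → φ t * φ t⁻¹ = 1 := by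
  cases h with
  | zig1 i h => exact ⟨fun _ => 1, fun t ht _ => rel_zig1 ht n i h, fun t _ => by norm_num⟩
  | zig2 i h => exact ⟨fun _ => 1, fun t ht _ => rel_zig2 ht n i h, fun t _ => by norm_num⟩
  | sb i b h => exact ⟨fun _ => -1, fun t ht _ => rel_sb ht n i b h, fun t _ => by norm_num⟩
  | sd i b h => exact ⟨fun _ => -1, fun t ht _ => rel_sd ht n i b h, fun t _ => by norm_num⟩
  | r1 i b h => exact ⟨fun t => kf t b, fun t ht _ => rel_r1 ht n i b h, fun t ht => kf_mul ht b⟩
  | r1' i b h => exact ⟨fun t => kf t b, fun t ht _ => rel_r1' ht n i b h, fun t ht => kf_mul ht b⟩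
  | r2 i b h => exact ⟨fun _ => 1, fun t ht _ => rel_r2 ht n i b h, fun t _ => by norm_num⟩
  | r3 i a b c hc h =>
    exact ⟨fun _ => 1, fun t ht _ => rel_r3 ht n i a b c hc h, fun t _ => by norm_num⟩
  | far p q hp hpq hn =>
    exact ⟨fun _ => 1, fun t ht _ => rel_far n p q hpq hn, fun t _ => by norm_num⟩
  | slide i k b h =>
    subst h
    refine ⟨fun t => sf t b, fun t ht h1 => rel_slide ht h1 i k b, fun t ht => ?_⟩
    have hts : t * t⁻¹ = 1 := mul_inv_cancel₀ ht.ne'
    cases b
    · simp only [sf, Bool.false_eq_true, if_false, inv_inv]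
      rw [← mul_pow, mul_comm, hts, one_pow]
    · simp only [sf, if_true]
      rw [← mul_pow, hts, one_pow]

/-- The invariant. -/
noncomputable def J (t : ℝ) (D : List Piece) : ℝ := V t D * V t⁻¹ D

theorem J_step {D D' : List Piece} (h : Step D D') (t : ℝ) (ht : 0 < t) (h1 : t ≠ 1) :
    J t D = J t D' := by
  obtain ⟨n, m, u, l, r, v, hu, hm, hl, hr, hv⟩ := h
  obtain ⟨φ, hφ, hφ1⟩ := move_rel hm
  have key : ∀ s : ℝ, 0 < s → s ≠ 1 → V s (u ++ l ++ v) = φ s * V s (u ++ r ++ v) := by
    intro s hs hs1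
    unfold V
    rw [List.append_assoc, List.append_assoc, opW_append, opW_append, opW_append, opW_append]
    have h2 := hφ s hs hs1 0 (opW s 0 v (fun F => if F = [] then 1 else 0))
    have h3 := opW_congr s 0 u 0 n hu _ _ h2 [] rfl rfl
    rw [h3, opW_smul]
  have ht' : 0 < t⁻¹ := inv_pos.2 ht
  have h1' : t⁻¹ ≠ 1 := by
    intro h; apply h1; rw [← inv_inv t, h, inv_one]
  unfold J
  rw [key t ht h1, key t⁻¹ ht' h1']
  linear_combination (V t (u ++ r ++ v) * V t⁻¹ (u ++ r ++ v)) * hφ1 t ht

theorem J_iso {D D' : List Piece} (h : Iso D D') (t : ℝ) (ht : 0 < t) (h1 : t ≠ 1) :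
    J t D = J t D' := by
  induction h with
  | rel _ _ h => exact J_step h t ht h1
  | refl _ => rfl
  | symm _ _ _ ih => exact ih.symm
  | trans _ _ _ _ _ ih1 ih2 => exact ih1.trans ih2

end Pool.Agent.H560R3.TG
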