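import Pool.Agent.H560R3.TG.Bound
import Pool.Agent.H560R3.TG.Inv3

/-! Growth of the bracket for large `t`, continued. -/

set_option autoImplicit false
set_option linter.unusedSimpArgs false

namespace Pool.Agent.H560R3.TG

theorem stt_map (K : List (Unit × ℕ)) : stt (K.map Prod.snd) = K := by
  induction K with
  | nil => rfl
  | cons p K ih => rw [List.map_cons, stt_cons, ih]

theorem stt_inj {F K : List ℕ} (h : stt F = stt K) : F = K := by
  have := congrArg (List.map Prod.snd) h
  simpa [stt, List.map_map] using this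

theorem nbs_ge {t : ℝ} (ht : 0 < t) (x y : ℕ) (f : ℕ → ℝ) (hf : ∀ y, 0 ≤ f y) (h : Nb x y) :
    dl t y * f y ≤ nbs t x f := by
  have hp : ∀ y, 0 ≤ dl t y * f y := fun y => mul_nonneg (dl_pos ht y).le (hf y)
  unfold nbs
  rcases h with rfl | rfl
  · split_ifs
    · linarith
    · linarith [hp (x - 1)]
  · rw [if_neg (by omega), Nat.add_sub_cancel]
    linarith [hp (y + 1 + 1)]

theorem f0_nonneg (F : List ℕ) : 0 ≤ f0 F := by unfold f0; split_ifs <;> norm_num

theorem lb_word (E : List (Slice Unit ℕ)) (p : List Piece) (hp : crossings p = 0) (F : List ℕ)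
    (h : Hp F E p) :
    ∃ c : ℝ, 0 < c ∧ ∀ t : ℝ, 1 ≤ t → c * t ^ (2 * Phi true ht 0 E) ≤ opW t 0 p f0 F := by
  induction E generalizing p F with
  | nil =>
    have h1 := h.path
    have h1 : stt F = [] := h1
    have hF : F = [] := by
      rcases F with _ | ⟨y, F⟩
      · rfl
      · simp [stt] at h1
    subst hF
    have h2 := h.pl
    simp only [List.map_nil] at h2
    subst h2
    exact ⟨1, one_pos, fun t _ => by simp [Phi, opW, f0]⟩
  | cons s E ih =>
    obtain ⟨⟨h1, h2⟩, h3, h4, h5⟩ := h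
    obtain ⟨L0, q, R0⟩ := s
    obtain ⟨L, rfl⟩ : ∃ L, L0 = stt L := ⟨_, (stt_map L0).symm⟩
    obtain ⟨R, rfl⟩ : ∃ R, R0 = stt R := ⟨_, (stt_map R0).symm⟩
    have h4' : AllAdj Nb 0 (Slice.tgt 0 ⟨stt L, q, stt R⟩) E := by
      intro Y hY
      apply h4
      simp only [sts, List.map_cons, List.mem_cons] at hY ⊢
      tauto
    cases q with
    | cr b s₁ y s₂ t₁ y' t₂ z =>
      rw [← h3] at hp
      simp [Slice.plain, crossings] at hp
    | birth u y =>
      cases u
      have e0 : F = L ++ R := stt_inj (by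
        rw [← h1]; simp [Slice.src, Loc.src, stt_append])
      subst e0
      have e1 : Slice.tgt 0 (⟨stt L, .birth () y, stt R⟩ : Slice Unit ℕ) =
          stt (L ++ y :: cn 0 L :: R) := by
        simp [Slice.tgt, Loc.tgt, stt_append, stt_cons, cur_stt]
      rw [e1] at h2 h4'
      subst h3
      simp only [List.map_cons, Slice.plain, stt_length, crossings] at hp ⊢
      obtain ⟨c, hc, hb⟩ := ih _ hp _ ⟨h2, rfl, h4', fun g hg => h5 g hg⟩
      refine ⟨c, hc, fun t ht1 => ?_⟩
      have t0 : 0 < t := by linarith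
      have hy : Nb (cn 0 L) y := by
        have := h4' (stt (L ++ y :: cn 0 L :: R)) (by simp [sts])
        rw [stt_append, adj_append, cur_stt] at this
        exact this.2.1
      show _ ≤ birthOp t 0 L.length _ _
      rw [birthOp_eval]
      refine le_trans ?_ (nbs_ge t0 _ y _ (fun y => opW_nonneg t0 _ hp f0 f0_nonneg _) hy)
      have h6 := hb t ht1
      have h7 := dl_lower ht1 y
      simp only [Phi, Loc.wt, ht]
      calc c * t ^ (2 * ((y : ℤ) + Phi true ht 0 E))
          = t ^ (2 * y) * (c * t ^ (2 * Phi true ht 0 E)) := by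
            rw [mul_add, zpow_add₀ t0.ne', ← zpow_natCast]
            push_cast
            ring
        _ ≤ dl t y * opW t 0 _ f0 _ :=
            mul_le_mul h7 h6 (by positivity) (dl_pos t0 y).le
    | death u y =>
      cases u
      have e0 : F = L ++ y :: cn 0 L :: R := stt_inj (by
        rw [← h1]; simp [Slice.src, Loc.src, stt_append, stt_cons, cur_stt])
      subst e0
      have e1 : Slice.tgt 0 (⟨stt L, .death () y, stt R⟩ : Slice Unit ℕ) = stt (L ++ R) := by
        simp [Slice.tgt, Loc.tgt, stt_append]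
      rw [e1] at h2 h4'
      subst h3
      simp only [List.map_cons, Slice.plain, stt_length, crossings] at hp ⊢
      obtain ⟨c, hc, hb⟩ := ih _ hp _ ⟨h2, rfl, h4', fun g hg => h5 g hg⟩
      refine ⟨(((cn 0 L : ℕ) : ℝ) + 1)⁻¹ * c, by positivity, fun t ht1 => ?_⟩
      have t0 : 0 < t := by linarith
      have hy : Nb (cn 0 L) y := by
        have := h4 (stt (L ++ y :: cn 0 L :: R)) (by simp [sts])
        rw [stt_append, adj_append, cur_stt] at this
        exact this.2.1
      show _ ≤ deathOp t 0 L.length _ _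
      rw [deathOp_eval, if_pos ⟨rfl, hy⟩]
      have h6 := hb t ht1
      have h7 := dl_upper ht1 (cn 0 L)
      have h8 : ((((cn 0 L : ℕ) : ℝ) + 1) * t ^ (2 * cn 0 L))⁻¹ ≤ (dl t (cn 0 L))⁻¹ :=
        inv_anti₀ (dl_pos t0 _) h7
      simp only [Phi, Loc.wt, ht, cur_stt]
      calc (((cn 0 L : ℕ) : ℝ) + 1)⁻¹ * c * t ^ (2 * (-((cn 0 L : ℕ) : ℤ) + Phi true ht 0 E))
          = ((((cn 0 L : ℕ) : ℝ) + 1) * t ^ (2 * cn 0 L))⁻¹ * (c * t ^ (2 * Phi true ht 0 E)) := by
            rw [mul_add, zpow_add₀ t0.ne', mul_inv, mul_neg, zpow_neg,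
              show (2 : ℤ) * ((cn 0 L : ℕ) : ℤ) = ((2 * cn 0 L : ℕ) : ℤ) by push_cast; ring,
              zpow_natCast]
            ring
        _ ≤ (dl t (cn 0 L))⁻¹ * opW t 0 _ f0 _ :=
            mul_le_mul h8 h6 (by positivity) (inv_nonneg.2 (dl_pos t0 _).le)
    | hole =>
      have e0 : F = L ++ R := stt_inj (by
        rw [← h1]; simp [Slice.src, Loc.src, stt_append])
      subst e0
      have e1 : Slice.tgt 0 (⟨stt L, .hole, stt R⟩ : Slice Unit ℕ) = stt (L ++ R) := by
        simp [Slice.tgt, Loc.tgt, stt_append]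
      rw [e1] at h2 h4'
      subst h3
      simp only [List.map_cons, Slice.plain, stt_length, crossings] at hp ⊢
      have hx : cn 0 L = 0 := by
        apply h5
        simp [holeLabels, cur_stt]
      obtain ⟨c, hc, hb⟩ := ih _ hp _ ⟨h2, rfl, h4', fun g hg => h5 g (by simp [holeLabels, hg])⟩
      refine ⟨c, hc, fun t ht1 => ?_⟩
      show _ ≤ holeOp 0 L.length _ _
      rw [holeOp_eval, if_pos hx]
      simp only [Phi, Loc.wt, zero_add]
      exact hb t ht1

theorem V_eq (t : ℝ) (D : List Piece) : V t D = opW t 0 D f0 [] := rfl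

theorem V_cr (t : ℝ) (p w : List Piece) (i : ℕ) (b : Bool) :
    V t (p ++ .cr i b :: w) =
      al t b * V t (p ++ w) - al t (!b) * V t (p ++ .death i :: .birth i :: w) := by
  have h := congrFun (opW_lin t 0 p (al t b) (-al t (!b)) (opW t 0 w f0)
    (opW t 0 (.death i :: .birth i :: w) f0)) []
  simp only [V_eq, opW_append]
  have e : opW t 0 (.cr i b :: w) f0 = fun K => al t b * opW t 0 w f0 K +
      -al t (!b) * opW t 0 (.death i :: .birth i :: w) f0 K := by
    funext K
    show al t b * _ - al t (!b) * _ = _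
    simp only [opW, op]
    ring
  rw [e, h]
  ring

theorem ubV (w : List Piece) : ∀ (p : List Piece) (k : ℤ), crossings p = 0 → WF 0 (p ++ w) 0 →
    Ub (p ++ sm true w) k →
    ∃ C : ℝ, 0 ≤ C ∧ ∀ t : ℝ, 1 ≤ t → |V t (p ++ w)| ≤ C * t ^ ((crossings w : ℤ) + 2 * k) := by
  induction w with
  | nil =>
    intro p k hp _ hub
    simp only [sm, List.append_nil] at hub ⊢
    obtain ⟨C, hC, hb⟩ := ub_word p hp [] k (fun E hE => hub E ⟨hE.path, hE.pl⟩ ⟨hE.adj, hE.hol⟩)
      trivial
    refine ⟨C, hC, fun t ht1 => ?_⟩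
    have t0 : 0 < t := by linarith
    rw [V_eq, abs_of_nonneg (opW_nonneg t0 p hp f0 f0_nonneg [])]
    simpa [crossings] using hb t ht1
  | cons q w ih =>
    intro p k hp hwf hub
    have simple : ∀ q' : Piece, crossings [q'] = 0 → WF 0 (p ++ q' :: w) 0 →
        Ub (p ++ q' :: sm true w) k →
        ∃ C : ℝ, 0 ≤ C ∧ ∀ t : ℝ, 1 ≤ t → |V t (p ++ q' :: w)| ≤
          C * t ^ ((crossings w : ℤ) + 2 * k) := by
      intro q' hq hwf hub
      have e : ∀ w : List Piece, p ++ q' :: w = (p ++ [q']) ++ w := by intro w; simp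
      rw [e] at hwf hub ⊢
      exact ih (p ++ [q']) k (by rw [crossings_append, hp, hq]) hwf hub
    cases q with
    | cr i b =>
      obtain ⟨m, hu, hi, hv⟩ := (WF_append p _ 0 0).1 hwf
      have hwf1 : WF 0 (p ++ w) 0 := (WF_append _ _ _ _).2 ⟨m, hu, hv⟩
      have e : ∀ w : List Piece, p ++ .death i :: .birth i :: w = (p ++ [.death i, .birth i]) ++ w
        := by intro w; simp
      have hwf2 : WF 0 ((p ++ [.death i, .birth i]) ++ w) 0 := by
        rw [← e]
        refine (WF_append _ _ _ _).2 ⟨m, hu, hi, by omega, ?_⟩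
        rw [show m - 2 + 2 = m by omega]; exact hv
      have hp2 : crossings (p ++ [.death i, .birth i]) = 0 := by
        rw [crossings_append, hp]; rfl
      have hcr : crossings (p ++ sm true w) = 0 := by
        rw [crossings_append, crossings_sm, hp]
      cases b with
      | true =>
        have hub1 : Ub (p ++ sm true w) k := by simpa [sm] using hub
        have hub2 : Ub ((p ++ [.death i, .birth i]) ++ sm true w) (k + 1) := by
          rw [← e]; exact alpha1 hcr hub1
        obtain ⟨C1, hC1, hb1⟩ := ih p k hp hwf1 hub1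
        obtain ⟨C2, hC2, hb2⟩ := ih _ (k + 1) hp2 hwf2 hub2
        refine ⟨C1 + C2, by positivity, fun t ht1 => ?_⟩
        have t0 : 0 < t := by linarith
        rw [V_cr, e]
        simp only [al, if_true, Bool.not_true, Bool.false_eq_true, if_false, crossings]
        have g1 := hb1 t ht1
        have g2 := hb2 t ht1
        have e1 : t ^ (((crossings w + 1 : ℕ) : ℤ) + 2 * k) =
            t * t ^ ((crossings w : ℤ) + 2 * k) := by
          rw [← zpow_one_add₀ t0.ne']; congr 1; push_cast; ring
        have e2 : t ^ (((crossings w + 1 : ℕ) : ℤ) + 2 * k) =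
            t⁻¹ * t ^ ((crossings w : ℤ) + 2 * (k + 1)) := by
          rw [← zpow_neg_one, ← zpow_add₀ t0.ne']; congr 1; push_cast; ring
        calc |t * V t (p ++ w) - t⁻¹ * V t (p ++ [.death i, .birth i] ++ w)|
            ≤ |t * V t (p ++ w)| + |t⁻¹ * V t (p ++ [.death i, .birth i] ++ w)| := abs_sub _ _
          _ = t * |V t (p ++ w)| + t⁻¹ * |V t (p ++ [.death i, .birth i] ++ w)| := by
              rw [abs_mul, abs_mul, abs_of_pos t0, abs_of_pos (inv_pos.2 t0)]
          _ ≤ t * (C1 * t ^ ((crossings w : ℤ) + 2 * k)) +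
                t⁻¹ * (C2 * t ^ ((crossings w : ℤ) + 2 * (k + 1))) :=
              add_le_add (mul_le_mul_of_nonneg_left g1 t0.le)
                (mul_le_mul_of_nonneg_left g2 (inv_pos.2 t0).le)
          _ = C1 * (t * t ^ ((crossings w : ℤ) + 2 * k)) +
                C2 * (t⁻¹ * t ^ ((crossings w : ℤ) + 2 * (k + 1))) := by ring
          _ = (C1 + C2) * t ^ (((crossings w + 1 : ℕ) : ℤ) + 2 * k) := by
              rw [← e1, ← e2]; ring
      | false =>
        have hub2 : Ub ((p ++ [.death i, .birth i]) ++ sm true w) k := by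
          rw [← e]; simpa [sm] using hub
        have hub1 : Ub (p ++ sm true w) (k + 1) := by
          refine alpha2 hcr hu hi (i := i) ?_
          rw [e]; exact hub2
        obtain ⟨C1, hC1, hb1⟩ := ih p (k + 1) hp hwf1 hub1
        obtain ⟨C2, hC2, hb2⟩ := ih _ k hp2 hwf2 hub2
        refine ⟨C1 + C2, by positivity, fun t ht1 => ?_⟩
        have t0 : 0 < t := by linarith
        rw [V_cr, e]
        simp only [al, if_true, Bool.not_false, Bool.false_eq_true, if_false, crossings]
        have g1 := hb1 t ht1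
        have g2 := hb2 t ht1
        have e1 : t ^ (((crossings w + 1 : ℕ) : ℤ) + 2 * k) =
            t * t ^ ((crossings w : ℤ) + 2 * k) := by
          rw [← zpow_one_add₀ t0.ne']; congr 1; push_cast; ring
        have e2 : t ^ (((crossings w + 1 : ℕ) : ℤ) + 2 * k) =
            t⁻¹ * t ^ ((crossings w : ℤ) + 2 * (k + 1)) := by
          rw [← zpow_neg_one, ← zpow_add₀ t0.ne']; congr 1; push_cast; ring
        calc |t⁻¹ * V t (p ++ w) - t * V t (p ++ [.death i, .birth i] ++ w)|
            ≤ |t⁻¹ * V t (p ++ w)| + |t * V t (p ++ [.death i, .birth i] ++ w)| := abs_sub _ _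
          _ = t⁻¹ * |V t (p ++ w)| + t * |V t (p ++ [.death i, .birth i] ++ w)| := by
              rw [abs_mul, abs_mul, abs_of_pos t0, abs_of_pos (inv_pos.2 t0)]
          _ ≤ t⁻¹ * (C1 * t ^ ((crossings w : ℤ) + 2 * (k + 1))) +
                t * (C2 * t ^ ((crossings w : ℤ) + 2 * k)) :=
              add_le_add (mul_le_mul_of_nonneg_left g1 (inv_pos.2 t0).le)
                (mul_le_mul_of_nonneg_left g2 t0.le)
          _ = C1 * (t⁻¹ * t ^ ((crossings w : ℤ) + 2 * (k + 1))) +
                C2 * (t * t ^ ((crossings w : ℤ) + 2 * k)) := by ring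
          _ = (C1 + C2) * t ^ (((crossings w + 1 : ℕ) : ℤ) + 2 * k) := by
              rw [← e1, ← e2]; ring
    | birth i => exact simple (.birth i) rfl hwf hub
    | death i => exact simple (.death i) rfl hwf hub
    | hole i => exact simple (.hole i) rfl hwf hub

end Pool.Agent.H560R3.TG
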