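import Pool.Agent.H560R3.TG.Bound2

/-! Growth of the bracket for large `t`, the lower bound. -/

set_option autoImplicit false
set_option linter.unusedSimpArgs false

namespace Pool.Agent.H560R3.TG

theorem lbV (w : List Piece) : ∀ (p : List Piece) (k : ℤ), crossings p = 0 → WF 0 (p ++ w) 0 →
    Ub (p ++ sm true w) k →
    (∀ u i b v, w = u ++ .cr i b :: v → Ub (p ++ sm true (u ++ .cr i (!b) :: v)) k) →
    ∃ C ε : ℝ, 0 ≤ C ∧ (ε = 1 ∨ ε = -1) ∧ ∀ t : ℝ, 1 ≤ t →
      |V t (p ++ w) - ε * t ^ (crossings w : ℤ) * V t (p ++ sm true w)| ≤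
        C * t ^ ((crossings w : ℤ) + 2 * k - 2) := by
  induction w with
  | nil =>
    intro p k hp _ hub _
    refine ⟨0, 1, le_refl _, Or.inl rfl, fun t ht1 => ?_⟩
    simp [crossings, sm]
  | cons q w ih =>
    intro p k hp hwf hub hsw
    have simple : ∀ q' : Piece, (∀ i b, q' ≠ .cr i b) → WF 0 (p ++ q' :: w) 0 →
        Ub (p ++ q' :: sm true w) k →
        (∀ u i b v, w = u ++ .cr i b :: v → Ub (p ++ q' :: sm true (u ++ .cr i (!b) :: v)) k) →
        ∃ C ε : ℝ, 0 ≤ C ∧ (ε = 1 ∨ ε = -1) ∧ ∀ t : ℝ, 1 ≤ t →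
          |V t (p ++ q' :: w) - ε * t ^ (crossings w : ℤ) * V t (p ++ q' :: sm true w)| ≤
          C * t ^ ((crossings w : ℤ) + 2 * k - 2) := by
      intro q' hq hwf hub hsw
      have e : ∀ w : List Piece, p ++ q' :: w = (p ++ [q']) ++ w := by intro w; simp
      rw [e] at hwf hub
      have h := ih (p ++ [q']) k (by
        rw [crossings_append, hp]
        cases q' with
        | cr i b => exact absurd rfl (hq i b)
        | _ => rfl) hwf hub (by
        intro u i b v huv
        rw [← e]; exact hsw u i b v huv)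
      rw [← e, ← e] at h
      exact h
    cases q with
    | cr i b =>
      obtain ⟨m, hu, hi, hv⟩ := (WF_append p _ 0 0).1 hwf
      have hwf1 : WF 0 (p ++ w) 0 := (WF_append _ _ _ _).2 ⟨m, hu, hv⟩
      have e : ∀ w : List Piece, p ++ .death i :: .birth i :: w = (p ++ [.death i, .birth i]) ++ w
        := by intro w; simp
      have hwf2 : WF 0 ((p ++ [.death i, .birth i]) ++ w) 0 := by
        rw [← e]
        refine (WF_append _ _ _ _).2 ⟨m, hu, hi, by omega, ?_⟩
        rw [show m - 2 + 2 = m by omega]; exact hv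
      have hp2 : crossings (p ++ [.death i, .birth i]) = 0 := by
        rw [crossings_append, hp]; rfl
      have h0 := hsw [] i b w rfl
      cases b with
      | true =>
        have hub1 : Ub (p ++ sm true w) k := by simpa [sm] using hub
        have hub2 : Ub ((p ++ [.death i, .birth i]) ++ sm true w) k := by
          rw [← e]; simpa [sm] using h0
        obtain ⟨C1, ε, hC1, hε, hb1⟩ := ih p k hp hwf1 hub1 (by
          intro u j b v huv
          have := hsw (.cr i true :: u) j b v (by rw [huv]; rfl)
          simpa [sm] using this)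
        obtain ⟨C2, hC2, hb2⟩ := ubV w _ k hp2 hwf2 hub2
        refine ⟨C1 + C2, ε, by positivity, hε, fun t ht1 => ?_⟩
        have t0 : 0 < t := by linarith
        rw [V_cr, e]
        simp only [al, if_true, Bool.not_true, Bool.false_eq_true, if_false, crossings, sm]
        have g1 := hb1 t ht1
        have g2 := hb2 t ht1
        have e0 : t ^ ((crossings w + 1 : ℕ) : ℤ) = t * t ^ (crossings w : ℤ) := by
          rw [← zpow_one_add₀ t0.ne']; congr 1; push_cast; ring
        have e1 : t ^ (((crossings w + 1 : ℕ) : ℤ) + 2 * k - 2) =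
            t * t ^ ((crossings w : ℤ) + 2 * k - 2) := by
          rw [← zpow_one_add₀ t0.ne']; congr 1; push_cast; ring
        have e2 : t ^ (((crossings w + 1 : ℕ) : ℤ) + 2 * k - 2) =
            t⁻¹ * t ^ ((crossings w : ℤ) + 2 * k) := by
          rw [← zpow_neg_one, ← zpow_add₀ t0.ne']; congr 1; push_cast; ring
        calc |t * V t (p ++ w) - t⁻¹ * V t (p ++ [.death i, .birth i] ++ w) -
              ε * t ^ ((crossings w + 1 : ℕ) : ℤ) * V t (p ++ sm true w)|
            = |t * (V t (p ++ w) - ε * t ^ (crossings w : ℤ) * V t (p ++ sm true w)) -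
                t⁻¹ * V t (p ++ [.death i, .birth i] ++ w)| := by rw [e0]; congr 1; ring
          _ ≤ |t * (V t (p ++ w) - ε * t ^ (crossings w : ℤ) * V t (p ++ sm true w))| +
                |t⁻¹ * V t (p ++ [.death i, .birth i] ++ w)| := abs_sub _ _
          _ = t * |V t (p ++ w) - ε * t ^ (crossings w : ℤ) * V t (p ++ sm true w)| +
                t⁻¹ * |V t (p ++ [.death i, .birth i] ++ w)| := by
              rw [abs_mul, abs_mul, abs_of_pos t0, abs_of_pos (inv_pos.2 t0)]
          _ ≤ t * (C1 * t ^ ((crossings w : ℤ) + 2 * k - 2)) +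
                t⁻¹ * (C2 * t ^ ((crossings w : ℤ) + 2 * k)) :=
              add_le_add (mul_le_mul_of_nonneg_left g1 t0.le)
                (mul_le_mul_of_nonneg_left g2 (inv_pos.2 t0).le)
          _ = C1 * (t * t ^ ((crossings w : ℤ) + 2 * k - 2)) +
                C2 * (t⁻¹ * t ^ ((crossings w : ℤ) + 2 * k)) := by ring
          _ = (C1 + C2) * t ^ (((crossings w + 1 : ℕ) : ℤ) + 2 * k - 2) := by
              rw [← e1, ← e2]; ring
      | false =>
        have hub2 : Ub ((p ++ [.death i, .birth i]) ++ sm true w) k := by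
          rw [← e]; simpa [sm] using hub
        have hub1 : Ub (p ++ sm true w) k := by
          simpa [sm] using h0
        obtain ⟨C2, ε, hC2, hε, hb2⟩ := ih _ k hp2 hwf2 hub2 (by
          intro u j b v huv
          have := hsw (.cr i false :: u) j b v (by rw [huv]; rfl)
          simpa [sm] using this)
        obtain ⟨C1, hC1, hb1⟩ := ubV w _ k hp hwf1 hub1
        refine ⟨C1 + C2, -ε, by positivity, by rcases hε with h | h <;> simp [h], fun t ht1 => ?_⟩
        have t0 : 0 < t := by linarith
        have esm : p ++ sm true (.cr i false :: w) = p ++ [.death i, .birth i] ++ sm true w := by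
          simp [sm]
        rw [V_cr, e, esm]
        simp only [al, if_true, Bool.not_false, Bool.false_eq_true, if_false, crossings]
        have g1 := hb1 t ht1
        have g2 := hb2 t ht1
        have e0 : t ^ ((crossings w + 1 : ℕ) : ℤ) = t * t ^ (crossings w : ℤ) := by
          rw [← zpow_one_add₀ t0.ne']; congr 1; push_cast; ring
        have e1 : t ^ (((crossings w + 1 : ℕ) : ℤ) + 2 * k - 2) =
            t * t ^ ((crossings w : ℤ) + 2 * k - 2) := by
          rw [← zpow_one_add₀ t0.ne']; congr 1; push_cast; ring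
        have e2 : t ^ (((crossings w + 1 : ℕ) : ℤ) + 2 * k - 2) =
            t⁻¹ * t ^ ((crossings w : ℤ) + 2 * k) := by
          rw [← zpow_neg_one, ← zpow_add₀ t0.ne']; congr 1; push_cast; ring
        calc |t⁻¹ * V t (p ++ w) - t * V t (p ++ [.death i, .birth i] ++ w) -
              -ε * t ^ ((crossings w + 1 : ℕ) : ℤ) * V t (p ++ [.death i, .birth i] ++ sm true w)|
            = |t⁻¹ * V t (p ++ w) - t * (V t (p ++ [.death i, .birth i] ++ w) -
                ε * t ^ (crossings w : ℤ) * V t (p ++ [.death i, .birth i] ++ sm true w))| := by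
              rw [e0]; congr 1; ring
          _ ≤ |t⁻¹ * V t (p ++ w)| + |t * (V t (p ++ [.death i, .birth i] ++ w) -
                ε * t ^ (crossings w : ℤ) * V t (p ++ [.death i, .birth i] ++ sm true w))| :=
              abs_sub _ _
          _ = t⁻¹ * |V t (p ++ w)| + t * |V t (p ++ [.death i, .birth i] ++ w) -
                ε * t ^ (crossings w : ℤ) * V t (p ++ [.death i, .birth i] ++ sm true w)| := by
              rw [abs_mul, abs_mul, abs_of_pos t0, abs_of_pos (inv_pos.2 t0)]
          _ ≤ t⁻¹ * (C1 * t ^ ((crossings w : ℤ) + 2 * k)) +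
                t * (C2 * t ^ ((crossings w : ℤ) + 2 * k - 2)) :=
              add_le_add (mul_le_mul_of_nonneg_left g1 (inv_pos.2 t0).le)
                (mul_le_mul_of_nonneg_left g2 t0.le)
          _ = C1 * (t⁻¹ * t ^ ((crossings w : ℤ) + 2 * k)) +
                C2 * (t * t ^ ((crossings w : ℤ) + 2 * k - 2)) := by ring
          _ = (C1 + C2) * t ^ (((crossings w + 1 : ℕ) : ℤ) + 2 * k - 2) := by
              rw [← e1, ← e2]; ring
    | birth i =>
      exact simple (.birth i) (by simp) hwf hub (fun u j b v huv => by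
        have := hsw (.birth i :: u) j b v (by rw [huv]; rfl)
        simpa [sm] using this)
    | death i =>
      exact simple (.death i) (by simp) hwf hub (fun u j b v huv => by
        have := hsw (.death i :: u) j b v (by rw [huv]; rfl)
        simpa [sm] using this)
    | hole i =>
      exact simple (.hole i) (by simp) hwf hub (fun u j b v huv => by
        have := hsw (.hole i :: u) j b v (by rw [huv]; rfl)
        simpa [sm] using this)

/-- the bracket is large for an adequate diagram -/
theorem big {D : List Piece} (hwf : WF 0 D 0) (k : ℤ) (hub : Ub (sm true D) k)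
    (hsw : ∀ u i b v, D = u ++ .cr i b :: v → Ub (sm true (u ++ .cr i (!b) :: v)) k)
    (E : List (Slice Unit ℕ)) (hE : Labelling 0 E (sm true D)) (hok : HOK E)
    (hk : k ≤ Phi true ht 0 E) :
    ∃ c T : ℝ, 0 < c ∧ 1 ≤ T ∧ ∀ t : ℝ, T ≤ t →
      c * t ^ ((crossings D : ℤ) + 2 * k) ≤ |V t D| := by
  obtain ⟨C, ε, hC, hε, hb⟩ := lbV D [] k rfl hwf hub (fun u i b v h => hsw u i b v h)
  obtain ⟨c, hc, hl⟩ := lb_word E (sm true D) (crossings_sm true D) []
    ⟨hE.1, hE.2, hok.1, hok.2⟩
  simp only [List.nil_append] at hb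
  refine ⟨c / 2, max 1 (2 * C / c), by positivity, le_max_left _ _, fun t ht => ?_⟩
  have ht1 : 1 ≤ t := (le_max_left _ _).trans ht
  have ht2 : 2 * C / c ≤ t := (le_max_right _ _).trans ht
  have t0 : 0 < t := by linarith
  have h1 := hb t ht1
  have h2 := hl t ht1
  have h3 : c * t ^ (2 * k) ≤ V t (sm true D) := by
    refine le_trans ?_ h2
    apply mul_le_mul_of_nonneg_left _ hc.le
    exact zpow_le_zpow_right₀ ht1 (by linarith)
  have h4 : |ε * t ^ (crossings D : ℤ) * V t (sm true D)| =
      t ^ (crossings D : ℤ) * V t (sm true D) := by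
    have hVn : 0 ≤ V t (sm true D) := le_trans (by positivity) h3
    rw [abs_mul, abs_mul, abs_of_nonneg hVn, abs_of_pos (zpow_pos t0 _)]
    rcases hε with h | h <;> simp [h]
  have h5 : c * t ^ ((crossings D : ℤ) + 2 * k) ≤
      |ε * t ^ (crossings D : ℤ) * V t (sm true D)| := by
    rw [h4, zpow_add₀ t0.ne']
    calc c * (t ^ (crossings D : ℤ) * t ^ (2 * k)) =
        t ^ (crossings D : ℤ) * (c * t ^ (2 * k)) := by ring
      _ ≤ _ := mul_le_mul_of_nonneg_left h3 (zpow_pos t0 _).le
  have h6 : |ε * t ^ (crossings D : ℤ) * V t (sm true D)| ≤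
      |V t D| + |V t D - ε * t ^ (crossings D : ℤ) * V t (sm true D)| := by
    have := abs_sub (V t D) (V t D - ε * t ^ (crossings D : ℤ) * V t (sm true D))
    rw [sub_sub_cancel] at this
    exact this
  have h7 : C * t ^ ((crossings D : ℤ) + 2 * k - 2) ≤
      c / 2 * t ^ ((crossings D : ℤ) + 2 * k) := by
    have e : t ^ ((crossings D : ℤ) + 2 * k) = t ^ 2 * t ^ ((crossings D : ℤ) + 2 * k - 2) := by
      rw [← zpow_natCast, ← zpow_add₀ t0.ne']
      congr 1
      push_cast; ring
    rw [e]
    have h8 : C ≤ c / 2 * t ^ 2 := by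
      have : 2 * C ≤ t * c := by rwa [div_le_iff₀ hc] at ht2
      nlinarith [mul_pos hc t0]
    have h9 : 0 < t ^ ((crossings D : ℤ) + 2 * k - 2) := zpow_pos t0 _
    nlinarith
  linarith

theorem exp_le {c C T : ℝ} {m m' : ℤ} (hc : 0 < c) (h : ∀ t : ℝ, T ≤ t → c * t ^ m ≤ C * t ^ m') :
    m ≤ m' := by
  by_contra hcon
  push Not at hcon
  have hC : 0 < C := by
    have := h (max T 1) (le_max_left _ _)
    have ht : (0 : ℝ) < max T 1 := lt_of_lt_of_le one_pos (le_max_right _ _)
    have h1 : 0 < c * (max T 1) ^ m := mul_pos hc (zpow_pos ht _)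
    have h2 : 0 < C * (max T 1) ^ m' := lt_of_lt_of_le h1 this
    exact (pos_iff_pos_of_mul_pos h2).2 (zpow_pos ht _)
  set t := max T (max 1 (C / c + 1)) with ht
  have h1 : 1 ≤ t := (le_max_left _ _).trans (le_max_right _ _)
  have h2 : C / c + 1 ≤ t := (le_max_right _ _).trans (le_max_right _ _)
  have t0 : 0 < t := by linarith
  have h3 := h t (le_max_left _ _)
  have h4 : t * t ^ m' ≤ t ^ m := by
    rw [← zpow_one_add₀ t0.ne']
    exact zpow_le_zpow_right₀ h1 (by omega)
  have h5 : 0 < t ^ m' := zpow_pos t0 _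
  have h6 : c * (t * t ^ m') ≤ C * t ^ m' := (mul_le_mul_of_nonneg_left h4 hc.le).trans h3
  have h7 : c * t ≤ C := by
    have : (c * t) * t ^ m' ≤ C * t ^ m' := by rw [mul_assoc]; exact h6
    exact le_of_mul_le_mul_right this h5
  have h8 : C / c < t := by linarith
  rw [div_lt_iff₀ hc] at h8
  linarith

theorem fl_fl (w : List Piece) : (w.map fl).map fl = w := by
  rw [List.map_map]
  conv_rhs => rw [← List.map_id w]
  apply List.map_congr_left
  intro p _
  cases p <;> simp [fl]

theorem V_inv (t : ℝ) (D : List Piece) : V t⁻¹ D = V t (D.map fl) := by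
  have := congrFun (opW_fl (t := t) 0 (D.map fl) f0) []
  rw [fl_fl] at this
  exact this

theorem sm_fl (c : Bool) (w : List Piece) : sm c (w.map fl) = sm (!c) w := by
  induction w with
  | nil => rfl
  | cons p w ih =>
    cases p with
    | cr i b => simp only [List.map_cons, fl, sm, ih]; cases b <;> cases c <;> rfl
    | birth i => simp only [List.map_cons, fl, sm, ih]
    | death i => simp only [List.map_cons, fl, sm, ih]
    | hole i => simp only [List.map_cons, fl, sm, ih]

theorem crossings_fl (w : List Piece) : crossings (w.map fl) = crossings w := by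
  induction w with
  | nil => rfl
  | cons p w ih => cases p <;> simp only [List.map_cons, fl, crossings, ih]

theorem WF_fl (w : List Piece) (n m : ℕ) : WF n (w.map fl) m ↔ WF n w m := by
  induction w generalizing n with
  | nil => rfl
  | cons p w ih => cases p <;> simp only [List.map_cons, fl, WF, ih]

end Pool.Agent.H560R3.TG
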