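import Mathlib

/-!
# Diagrams of links in `#_g (S¹ × S²)`

Let `S_g` be the disk with `g` holes, drawn in the plane, `M_g = #_g (S¹ × S²)` the double of the
handlebody `S_g × [-1, 1]`.  A link diagram in `S_g` is read from top to bottom and cut into
elementary slices: besides vertical strands a slice contains one maximum (`birth`), one minimum
(`death`), one crossing (`cr`) or one of the holes (`hole`).  `birth i`, `death i`, `cr i b`,
`hole i` have exactly `i` strands on their left.

The part of the plane between two neighbouring strands (or left of the first, right of the last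
strand) at some level is called a gap.  The gaps are the pieces of the regions (the components of
the complement of the diagram).
-/

set_option autoImplicit false

namespace Pool.Agent.H560R3.TG

/-- Elementary pieces of a diagram, with the number `i` of strands on the left. `cr i b` is the
crossing of the strands `i` and `i + 1` (counted from `0`); `b` says that the strand from the top
left to the bottom right passes over. `hole i` is a hole of `S_g` in the gap `i`, which lies between
the strands `i - 1` and `i`. -/
inductive Piece : Type
  | birth (i : ℕ)
  | death (i : ℕ)
  | cr (i : ℕ) (b : Bool)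
  | hole (i : ℕ)

/-- The pieces fit together; there are `n` strands at the top and `m` strands at the bottom. -/
def WF : ℕ → List Piece → ℕ → Prop
  | n, [], m => n = m
  | n, .birth i :: w, m => i ≤ n ∧ WF (n + 2) w m
  | n, .death i :: w, m => i + 2 ≤ n ∧ WF (n - 2) w m
  | n, .cr i _ :: w, m => i + 2 ≤ n ∧ WF n w m
  | n, .hole i :: w, m => i ≤ n ∧ WF n w m

/-- The number of crossings. -/
def crossings : List Piece → ℕ
  | [] => 0
  | .cr _ _ :: w => crossings w + 1
  | _ :: w => crossings w

/-- The number of holes. -/
def holes : List Piece → ℕ
  | [] => 0
  | .hole _ :: w => holes w + 1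
  | _ :: w => holes w

/-- The number of strands of the source and of the target of a piece. -/
def Piece.src : Piece → ℕ
  | .birth _ => 0
  | .death _ => 2
  | .cr _ _ => 2
  | .hole _ => 0

def Piece.tgt : Piece → ℕ
  | .birth _ => 2
  | .death _ => 0
  | .cr _ _ => 2
  | .hole _ => 0

def Piece.pos : Piece → ℕ
  | .birth i => i
  | .death i => i
  | .cr i _ => i
  | .hole i => i

/-- The piece with the number of strands on its left changed to `j`. -/
def Piece.put : Piece → ℕ → Piece
  | .birth _, j => .birth j
  | .death _, j => .death j
  | .cr _ b, j => .cr j b
  | .hole _, j => .hole j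

def Piece.isHole : Piece → Bool
  | .hole _ => true
  | _ => false

/-- The strand `i` passes `k` strands on its right; if `b` is true it passes over them, otherwise
below them. -/
def goRight (b : Bool) : ℕ → ℕ → List Piece
  | _, 0 => []
  | i, k + 1 => .cr i b :: goRight b (i + 1) k

/-- The strand `i + k` passes the `k` strands `i`, ..., `i + k - 1` on its left; if `b` is true it
passes below them, otherwise over them. -/
def goLeft (b : Bool) : ℕ → ℕ → List Piece
  | _, 0 => []
  | i, k + 1 => goLeft b (i + 1) k ++ [.cr i b]

/-- The local moves, for a part of the diagram with `n` strands at the top.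

`zig1`, `zig2`, `sb`, `sd`, `far` generate the planar isotopies of diagrams in `S_g` (the holes do
not move: two holes are not interchanged); `r1`, `r1'`, `r2`, `r3` (together with the planar
isotopies) are the Reidemeister moves.

`slide`: the manifold `M_g` is the union of the handlebody `S_g × [-1, 1]`, `g` handles of index `2`
and a ball; the attaching circles of the `2`-handles are the boundaries of the disks
`a × [-1, 1]`, where `a` runs through the arcs which lead horizontally from the holes to the right to
the outer boundary circle. The move `slide` slides the strand `i`, next to the hole on its right,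
over the `2`-handle: the strand leaves the hole to the right above (`b` true) or below (`b` false)
the `k` other strands, crosses the level of the hole on the far right and comes back below (above)
these strands. -/
inductive Move : ℕ → List Piece → List Piece → Prop
  | zig1 (n i : ℕ) (h : i < n) : Move n [.birth i, .death (i + 1)] []
  | zig2 (n i : ℕ) (h : i < n) : Move n [.birth (i + 1), .death i] []
  | sb (n i : ℕ) (b : Bool) (h : i < n) :
      Move n [.birth i, .cr (i + 1) b] [.birth (i + 1), .cr i (!b)]
  | sd (n i : ℕ) (b : Bool) (h : i + 3 ≤ n) :
      Move n [.cr (i + 1) b, .death i] [.cr i (!b), .death (i + 1)]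
  | r1 (n i : ℕ) (b : Bool) (h : i ≤ n) : Move n [.birth i, .cr i b] [.birth i]
  | r1' (n i : ℕ) (b : Bool) (h : i + 2 ≤ n) : Move n [.cr i b, .death i] [.death i]
  | r2 (n i : ℕ) (b : Bool) (h : i + 2 ≤ n) : Move n [.cr i b, .cr i (!b)] []
  | r3 (n i : ℕ) (a b c : Bool) (hc : a = c → b = a) (h : i + 3 ≤ n) :
      Move n [.cr i a, .cr (i + 1) b, .cr i c] [.cr (i + 1) c, .cr i b, .cr (i + 1) a]
  | far (n : ℕ) (p q : Piece) (hp : ¬ (p.isHole ∧ q.isHole)) (hpq : p.pos + p.src ≤ q.pos)
      (hn : q.pos + q.src ≤ n) :
      Move n [p, q.put (q.pos - p.src + p.tgt)] [q, p]
  | slide (n i k : ℕ) (b : Bool) (h : n = i + 1 + k) :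
      Move n [.hole i] (goRight b i k ++ [.hole i] ++ goLeft b i k)

/-- One move applied to a diagram. -/
inductive Step : List Piece → List Piece → Prop
  | mk (n m : ℕ) (u l r v : List Piece) (hu : WF 0 u n) (hm : Move n l r) (hl : WF n l m)
      (hr : WF n r m) (hv : WF m v 0) : Step (u ++ l ++ v) (u ++ r ++ v)

/-- The diagrams represent the same link in `M_g`, up to isotopy. -/
abbrev Iso : List Piece → List Piece → Prop := Relation.EqvGen Step

/-! ### Labelled diagrams

The strands of all slices get labels from `S` (constant along the edges, the arcs of the diagram
between the crossings), the gaps get labels from `G` (constant on the regions). The strands at some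
level are represented by the list of the pairs (label of the strand, label of the gap on its right);
the label `a` of the gap `0` on the far left is the same at all levels. -/

variable {S G : Type}

/-- The label of the last gap. -/
def cur : G → List (S × G) → G
  | a, [] => a
  | _, (_, g) :: F => cur g F

/-- Labelled pieces. `cr b s₁ y s₂ t₁ y' t₂ z`: the crossing has the ends `s₁` (top left), `s₂` (top
right), `t₁` (bottom left), `t₂` (bottom right) and the corners `x` (left, the label of the gap on
its left), `y` (top), `z` (right), `y'` (bottom). -/
inductive Loc (S G : Type) : Type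
  | birth (s : S) (y : G)
  | death (s : S) (y : G)
  | cr (b : Bool) (s₁ : S) (y : G) (s₂ : S) (t₁ : S) (y' : G) (t₂ : S) (z : G)
  | hole

/-- the labels above, if `x` is the label of the gap on the left -/
def Loc.src (x : G) : Loc S G → List (S × G)
  | .birth _ _ => []
  | .death s y => [(s, y), (s, x)]
  | .cr _ s₁ y s₂ _ _ _ z => [(s₁, y), (s₂, z)]
  | .hole => []

/-- the labels below, if `x` is the label of the gap on the left -/
def Loc.tgt (x : G) : Loc S G → List (S × G)
  | .birth s y => [(s, y), (s, x)]
  | .death _ _ => []
  | .cr _ _ _ _ t₁ y' t₂ z => [(t₁, y'), (t₂, z)]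
  | .hole => []

/-- An elementary slice: strands on the left, a labelled piece, strands on the right. -/
structure Slice (S G : Type) : Type where
  L : List (S × G)
  p : Loc S G
  R : List (S × G)

def Slice.src (a : G) (s : Slice S G) : List (S × G) := s.L ++ s.p.src (cur a s.L) ++ s.R
def Slice.tgt (a : G) (s : Slice S G) : List (S × G) := s.L ++ s.p.tgt (cur a s.L) ++ s.R

/-- The slices fit together; the labels at the top are `F`, those at the bottom `F'`. -/
def Path (a : G) : List (S × G) → List (Slice S G) → List (S × G) → Prop
  | F, [], F' => F = F'
  | F, s :: w, F' => s.src a = F ∧ Path a (s.tgt a) w F'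

/-- Forgetting the labels. -/
def Slice.plain (s : Slice S G) : Piece :=
  match s.p with
  | .birth _ _ => .birth s.L.length
  | .death _ _ => .death s.L.length
  | .cr b _ _ _ _ _ _ _ => .cr s.L.length b
  | .hole => .hole s.L.length

/-- `E` is the diagram `D` with labels; `a` is the label of the outer gap. -/
def Labelling (a : G) (E : List (Slice S G)) (D : List Piece) : Prop :=
  Path a [] E [] ∧ E.map Slice.plain = D

/-- The four ends at a crossing have the same label. -/
def Loc.Same : Loc S G → Prop
  | .cr _ s₁ _ s₂ t₁ _ t₂ _ => s₁ = s₂ ∧ s₁ = t₁ ∧ s₁ = t₂
  | _ => True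

/-- The diagram is connected: the only labellings of the strands with two labels which are constant
along the strands and at the crossings are the constant ones. -/
def Connected (D : List Piece) : Prop :=
  ∀ E : List (Slice Bool Unit), Labelling () E D → (∀ s ∈ E, s.p.Same) →
    ∃ v : Bool, ∀ s ∈ E, ∀ e ∈ s.src () ++ s.tgt (), e.1 = v

/-- The labels of the regions at the holes. -/
def holeLabels (a : G) : List (Slice S G) → List G
  | [] => []
  | ⟨L, .hole, _⟩ :: E => cur a L :: holeLabels a E
  | _ :: E => holeLabels a E

/-- The outer boundary circle and the holes lie in pairwise different regions; this means that the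
diagram does not lie in a disk with fewer holes (cut `S_g` along an arc in a region which contains
two boundary circles). -/
def Filling (D : List Piece) : Prop :=
  ∃ E : List (Slice Unit ℕ), Labelling 0 E D ∧ (0 :: holeLabels 0 E).Nodup

/-- The direction (`true` means downwards) of the strand `j`, if `e` is the direction of the edge
with respect to the checkerboard colouring: `e` is true if the edge is directed downwards at the
strands with an even number. -/
def dir (j : ℕ) (e : Bool) : Bool := xor e (j % 2 == 1)

/-- The diagram is alternating: the edges can be directed in such a way that every edge begins at an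
over-end of a crossing and ends at an under-end of a crossing (unless it is a closed curve without
crossings). -/
def Alternating (D : List Piece) : Prop :=
  ∃ E : List (Slice Bool Unit), Labelling () E D ∧
    ∀ s ∈ E, ∀ b s₁ y s₂ t₁ y' t₂ z, s.p = .cr b s₁ y s₂ t₁ y' t₂ z →
      dir s.L.length s₁ = !b ∧ dir (s.L.length + 1) s₂ = b ∧
      dir s.L.length t₁ = !b ∧ dir (s.L.length + 1) t₂ = b

/-- The corners of a crossing: left, top, right, bottom. -/
def corner (x y z y' : G) : Fin 4 → G := ![x, y, z, y']

/-- The corner `k` of the crossing `cr i b` of `u ++ cr i b :: v` lies in an external region: it gets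
the label `true` in all labellings of the regions which give the label `true` to the outer region
and to the regions with holes. -/
def External (u : List Piece) (i : ℕ) (b : Bool) (v : List Piece) (k : Fin 4) : Prop :=
  ∀ (Eu Ev : List (Slice Unit Bool)) (L R : List (Unit × Bool)) (y y' z : Bool),
    Labelling true (Eu ++ ⟨L, .cr b () y () () y' () z, R⟩ :: Ev) (u ++ .cr i b :: v) →
    Eu.map Slice.plain = u →
    (∀ h ∈ holeLabels true (Eu ++ ⟨L, .cr b () y () () y' () z, R⟩ :: Ev), h = true) →
    corner (cur true L) y z y' k = true

/-- No strand with the label `true` is next to a gap with the label `true`. -/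
def Away : Bool → List (Bool × Bool) → Prop
  | _, [] => True
  | a, (s, g) :: F => (s = true → a = false ∧ g = false) ∧ Away g F

/-- There is a disk in `S_g` whose boundary meets the diagram in the crossing `cr i b` of
`u ++ cr i b :: v` only: the strands with the label `true` form the part of the diagram in the
disk, two neighbouring ends at the crossing belong to this part; the regions which touch this part
of the diagram are not external (the gaps with the label `true` include the outer gap and those with
holes). -/
def DiskAt (u : List Piece) (i : ℕ) (b : Bool) (v : List Piece) : Prop :=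
  ∃ (Eu Ev : List (Slice Bool Bool)) (L R : List (Bool × Bool)) (s₁ y s₂ t₁ y' t₂ z : Bool),
    Labelling true (Eu ++ ⟨L, .cr b s₁ y s₂ t₁ y' t₂ z, R⟩ :: Ev) (u ++ .cr i b :: v) ∧
    Eu.map Slice.plain = u ∧
    (∀ h ∈ holeLabels true (Eu ++ ⟨L, .cr b s₁ y s₂ t₁ y' t₂ z, R⟩ :: Ev), h = true) ∧
    (∀ s ∈ Eu ++ ⟨L, .cr b s₁ y s₂ t₁ y' t₂ z, R⟩ :: Ev,
      Away true (s.src true) ∧ Away true (s.tgt true)) ∧
    (∀ s ∈ Eu ++ Ev, s.p.Same) ∧
    ((s₁ = s₂ ∧ t₁ = t₂ ∧ s₁ ≠ t₁) ∨ (s₁ = t₁ ∧ s₂ = t₂ ∧ s₁ ≠ s₂))

/-- The diagram is simple: (i) there is no disk in `S_g` whose boundary meets the diagram in a single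
crossing only; (ii), (iii) no crossing touches two different external regions, and no crossing
touches an external region twice. -/
def Simple (D : List Piece) : Prop :=
  (∀ u i b v, D = u ++ .cr i b :: v → ¬ DiskAt u i b v) ∧
  (∀ u i b v, D = u ++ .cr i b :: v → ∀ k k' : Fin 4, External u i b v k → External u i b v k' →
    k = k')

/-- The link is trivial in `H_1(M_g; Z/2)`: every sphere which corresponds to one of the arcs from
the holes to the outer boundary circle meets it in an even number of points, i.e. the number of
strands to the left (or to the right) of each hole is even. -/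
def Z2Trivial (D : List Piece) : Prop := ∀ i, Piece.hole i ∈ D → Even i

end Pool.Agent.H560R3.TG
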