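import Pool.Agent.H560R3.TG.Lab

/-! States of labelled words, adjacency, numbers of marked components. -/

set_option autoImplicit false

namespace Pool.Agent.H560R3.TG

variable {S G S' G' S'' G'' : Type}

/-- every pair of neighbouring gaps satisfies `R` -/
def Adj (R : G → G → Prop) : G → List (S × G) → Prop
  | _, [] => True
  | a, (_, g) :: F => R a g ∧ Adj R g F

theorem adj_append (R : G → G → Prop) (a : G) (F K : List (S × G)) :
    Adj R a (F ++ K) ↔ Adj R a F ∧ Adj R (cur a F) K := by
  induction F generalizing a with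
  | nil => simp [Adj, cur]
  | cons p F ih =>
    simp only [List.cons_append, Adj, cur, ih]
    tauto

theorem adj_tr (φ : S → G → G → S') (ψ : G → G') (R : G' → G' → Prop) (a : G)
    (F : List (S × G)) :
    Adj R (ψ a) (trF φ ψ a F) ↔ Adj (fun x y => R (ψ x) (ψ y)) a F := by
  induction F generalizing a with
  | nil => simp [Adj, trF]
  | cons p F ih =>
    simp only [Adj, trF, ih]

theorem adj_mono {R R' : G → G → Prop} (h : ∀ x y, R x y → R' x y) (a : G) (F : List (S × G))
    (hF : Adj R a F) : Adj R' a F := by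
  induction F generalizing a with
  | nil => trivial
  | cons p F ih => exact ⟨h _ _ hF.1, ih _ hF.2⟩

theorem adj_and {R R' : G → G → Prop} (a : G) (F : List (S × G))
    (hF : Adj R a F) (hF' : Adj R' a F) : Adj (fun x y => R x y ∧ R' x y) a F := by
  induction F generalizing a with
  | nil => trivial
  | cons p F ih => exact ⟨⟨hF.1, hF'.1⟩, ih _ hF.2 hF'.2⟩

theorem adj_zip {R : G → G → Prop} {R' : G' → G' → Prop} (a : G) (a' : G') (F : List (S × G))
    (F' : List (S' × G')) (hF : Adj R a F) (hF' : Adj R' a' F') :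
    Adj (fun x y => R x.1 y.1 ∧ R' x.2 y.2) (a, a') (zipF F F') := by
  induction F generalizing a a' F' with
  | nil => cases F' <;> trivial
  | cons p F ih =>
    rcases F' with _ | ⟨p', F'⟩
    · trivial
    · exact ⟨⟨hF.1, hF'.1⟩, ih _ _ _ hF.2 hF'.2⟩

/-- the states -/
def sts (a : G) (F : List (S × G)) (E : List (Slice S G)) : List (List (S × G)) :=
  F :: E.map (Slice.tgt a)

def AllAdj (R : G → G → Prop) (a : G) (F : List (S × G)) (E : List (Slice S G)) : Prop :=
  ∀ K ∈ sts a F E, Adj R a K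

/-- all labels of gaps -/
def labs (a : G) (F : List (S × G)) (E : List (Slice S G)) : List G :=
  a :: ((sts a F E).flatten.map Prod.snd)

theorem sts_tr {φ : S → G → G → S'} (h : Sym φ) (ψ : G → G') (a : G) (F : List (S × G))
    (E : List (Slice S G)) :
    sts (ψ a) (trF φ ψ a F) (trE φ ψ a E) = (sts a F E).map (trF φ ψ a) := by
  simp only [sts, trE, List.map_map, List.map_cons]
  congr 1
  apply List.map_congr_left
  intro s _
  exact tgt_tr h ψ a s

theorem trF_snd (φ : S → G → G → S') (ψ : G → G') (a : G) (F : List (S × G)) :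
    (trF φ ψ a F).map Prod.snd = (F.map Prod.snd).map ψ := by
  induction F generalizing a with
  | nil => rfl
  | cons p F ih => simp only [trF, List.map_cons, ih]

theorem labs_tr {φ : S → G → G → S'} (h : Sym φ) (ψ : G → G') (a : G) (F : List (S × G))
    (E : List (Slice S G)) :
    labs (ψ a) (trF φ ψ a F) (trE φ ψ a E) = (labs a F E).map ψ := by
  simp only [labs, sts_tr h, List.map_cons, List.map_flatten, List.map_map]
  congr 2
  apply List.map_congr_left
  intro K _
  simp only [Function.comp]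
  rw [trF_snd, List.map_map]

theorem allAdj_tr {φ : S → G → G → S'} (h : Sym φ) (ψ : G → G') (R : G' → G' → Prop) (a : G)
    (F : List (S × G)) (E : List (Slice S G)) :
    AllAdj R (ψ a) (trF φ ψ a F) (trE φ ψ a E) ↔ AllAdj (fun x y => R (ψ x) (ψ y)) a F E := by
  simp only [AllAdj, sts_tr h, List.mem_map]
  constructor
  · intro hh K hK
    exact (adj_tr φ ψ R a K).1 (hh _ ⟨K, hK, rfl⟩)
  · rintro hh _ ⟨K, hK, rfl⟩
    exact (adj_tr φ ψ R a K).2 (hh K hK)

theorem allAdj_mono {R R' : G → G → Prop} (h : ∀ x y, R x y → R' x y) (a : G) (F : List (S × G))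
    (E : List (Slice S G)) (hF : AllAdj R a F E) : AllAdj R' a F E :=
  fun K hK => adj_mono h a K (hF K hK)

theorem allAdj_and {R R' : G → G → Prop} (a : G) (F : List (S × G))
    (E : List (Slice S G)) (hF : AllAdj R a F E) (hF' : AllAdj R' a F E) :
    AllAdj (fun x y => R x y ∧ R' x y) a F E :=
  fun K hK => adj_and a K (hF K hK) (hF' K hK)

theorem allAdj_append (R : G → G → Prop) (a : G) (F K : List (S × G))
    (E E' : List (Slice S G)) (hE : Path a F E K) :
    AllAdj R a F (E ++ E') ↔ AllAdj R a F E ∧ AllAdj R a K E' := by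
  have hK : K ∈ sts a F E := by
    clear E'
    induction E generalizing F with
    | nil => simp [sts]; exact hE.symm
    | cons s E ih =>
      have := ih (s.tgt a) hE.2
      simp only [sts, List.map_cons, List.mem_cons] at this ⊢
      tauto
  simp only [AllAdj, sts, List.map_append, List.mem_cons, List.mem_append] at hK ⊢
  constructor
  · intro h
    refine ⟨fun X hX => h X (by tauto), fun X hX => ?_⟩
    rcases hX with rfl | hX
    · exact h _ (by tauto)
    · exact h X (by tauto)
  · rintro ⟨h1, h2⟩ X (rfl | hX | hX)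
    · exact h1 _ (Or.inl rfl)
    · exact h1 X (Or.inr hX)
    · exact h2 X (Or.inr hX)

theorem end_mem_sts (a : G) (F K : List (S × G)) (E : List (Slice S G)) (hE : Path a F E K) :
    K ∈ sts a F E := by
  induction E generalizing F with
  | nil => simp [sts]; exact hE.symm
  | cons s E ih =>
    have := ih (s.tgt a) hE.2
    simp only [sts, List.map_cons, List.mem_cons] at this ⊢
    tauto

theorem src_mem_sts (a : G) (F K : List (S × G)) (E : List (Slice S G)) (hE : Path a F E K)
    (s : Slice S G) (hs : s ∈ E) : s.src a ∈ sts a F E ∧ s.tgt a ∈ sts a F E := by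
  induction E generalizing F with
  | nil => simp at hs
  | cons r E ih =>
    rcases List.mem_cons.1 hs with rfl | hs
    · refine ⟨?_, ?_⟩
      · rw [hE.1]; simp [sts]
      · simp [sts]
    · have := ih (r.tgt a) hE.2 hs
      simp only [sts, List.map_cons, List.mem_cons] at this ⊢
      tauto

theorem labs_append (a : G) (F K : List (S × G)) (E E' : List (Slice S G)) (hE : Path a F E K)
    (g : G) : g ∈ labs a F (E ++ E') ↔ g ∈ labs a F E ∨ g ∈ labs a K E' := by
  have hK := end_mem_sts a F K E hE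
  simp only [labs, sts, List.map_append, List.mem_cons, List.mem_map, List.mem_flatten,
    List.mem_append] at hK ⊢
  constructor
  · rintro (h | ⟨x, ⟨l, h | h | h, hx⟩, rfl⟩)
    · exact Or.inl (Or.inl h)
    · exact Or.inl (Or.inr ⟨x, ⟨l, Or.inl h, hx⟩, rfl⟩)
    · exact Or.inl (Or.inr ⟨x, ⟨l, Or.inr h, hx⟩, rfl⟩)
    · exact Or.inr (Or.inr ⟨x, ⟨l, Or.inr h, hx⟩, rfl⟩)
  · rintro ((h | ⟨x, ⟨l, h | h, hx⟩, rfl⟩) | (h | ⟨x, ⟨l, h | h, hx⟩, rfl⟩))
    · exact Or.inl h
    · exact Or.inr ⟨x, ⟨l, Or.inl h, hx⟩, rfl⟩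
    · exact Or.inr ⟨x, ⟨l, Or.inr (Or.inl h), hx⟩, rfl⟩
    · exact Or.inl h
    · subst h
      rcases hK with hK | hK
      · exact Or.inr ⟨x, ⟨l, Or.inl hK, hx⟩, rfl⟩
      · exact Or.inr ⟨x, ⟨l, Or.inr (Or.inl hK), hx⟩, rfl⟩
    · exact Or.inr ⟨x, ⟨l, Or.inr (Or.inr h), hx⟩, rfl⟩

/-- the weight of a labelled piece; `x` is the label of the gap on the left -/
def Loc.wt (c : Bool) (ω : G → ℤ) (x : G) : Loc S G → ℤ
  | .birth _ y => ω y
  | .death _ _ => - ω x
  | .cr b _ _ _ _ y' _ _ => if b = c then 0 else ω y' - ω x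
  | .hole => 0

def Phi (c : Bool) (ω : G → ℤ) (a : G) : List (Slice S G) → ℤ
  | [] => 0
  | s :: E => s.p.wt c ω (cur a s.L) + Phi c ω a E

theorem Phi_append (c : Bool) (ω : G → ℤ) (a : G) (E E' : List (Slice S G)) :
    Phi c ω a (E ++ E') = Phi c ω a E + Phi c ω a E' := by
  induction E with
  | nil => simp [Phi]
  | cons s E ih => simp only [List.cons_append, Phi, ih]; ring

theorem Phi_tr (φ : S → G → G → S') (ψ : G → G') (c : Bool) (ω : G' → ℤ) (a : G)
    (E : List (Slice S G)) :
    Phi c ω (ψ a) (trE φ ψ a E) = Phi c (fun g => ω (ψ g)) a E := by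
  induction E with
  | nil => rfl
  | cons s E ih =>
    have ih' : Phi c ω (ψ a) (List.map (Slice.tr φ ψ a) E) = Phi c (fun g => ω (ψ g)) a E := ih
    simp only [trE, List.map_cons, Phi, ih', Slice.tr, cur_trF]
    congr 1
    obtain ⟨L, p, R⟩ := s
    cases p <;> rfl

theorem Phi_lin (c : Bool) (ω ω' : G → ℤ) (u v : ℤ) (a : G) (E : List (Slice S G)) :
    Phi c (fun g => u * ω g + v * ω' g) a E = u * Phi c ω a E + v * Phi c ω' a E := by
  induction E with
  | nil => simp [Phi]
  | cons s E ih =>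
    simp only [Phi, ih]
    obtain ⟨L, p, R⟩ := s
    cases p with
    | cr b s₁ y s₂ t₁ y' t₂ z => simp only [Loc.wt]; split_ifs <;> ring
    | _ => simp only [Loc.wt]; ring

theorem cur_mem (a : G) (L : List (S × G)) : cur a L = a ∨ cur a L ∈ L.map Prod.snd := by
  induction L generalizing a with
  | nil => exact Or.inl rfl
  | cons p L ih =>
    rcases ih p.2 with h | h
    · right; simp only [cur, List.map_cons, List.mem_cons]; left; exact h
    · right; simp only [cur, List.map_cons, List.mem_cons]; right; exact h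

theorem Phi_congr (c : Bool) (ω ω' : G → ℤ) (a : G) (F : List (S × G)) (E : List (Slice S G))
    (h : ∀ g ∈ labs a F E, ω g = ω' g) : Phi c ω a E = Phi c ω' a E := by
  induction E with
  | nil => rfl
  | cons s E ih =>
    have hE : ∀ g ∈ labs a F E, ω g = ω' g := by
      intro g hg
      apply h
      simp only [labs, sts, List.mem_cons, List.mem_map, List.mem_flatten, List.map_cons] at hg ⊢
      rcases hg with h | ⟨x, ⟨l, h | h, hx⟩, rfl⟩
      · exact Or.inl h
      · exact Or.inr ⟨x, ⟨l, Or.inl h, hx⟩, rfl⟩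
      · exact Or.inr ⟨x, ⟨l, Or.inr (Or.inr h), hx⟩, rfl⟩
    have ht : ∀ g, g ∈ (s.tgt a).map Prod.snd → ω g = ω' g := by
      intro g hg
      apply h
      simp only [labs, sts, List.mem_cons, List.mem_map, List.mem_flatten, List.map_cons] at hg ⊢
      obtain ⟨x, hx, rfl⟩ := hg
      exact Or.inr ⟨x, ⟨_, Or.inr (Or.inl rfl), hx⟩, rfl⟩
    have hc : ω (cur a s.L) = ω' (cur a s.L) := by
      rcases cur_mem a s.L with h1 | h1
      · rw [h1]; exact h a (by simp [labs])
      · apply ht
        simp only [Slice.tgt, List.map_append, List.mem_append]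
        exact Or.inl (Or.inl h1)
    simp only [Phi]
    rw [ih hE]
    congr 1
    obtain ⟨L, p, R⟩ := s
    cases p with
    | birth s y => exact ht y (by simp [Slice.tgt, Loc.tgt])
    | death s y => simp only [Loc.wt]; rw [hc]
    | cr b s₁ y s₂ t₁ y' t₂ z =>
      simp only [Loc.wt]
      rw [hc, ht y' (by simp [Slice.tgt, Loc.tgt])]
    | hole => rfl

/-- no crossing -/
def Loc.NoCr : Loc S G → Prop
  | .cr _ _ _ _ _ _ _ _ => False
  | _ => True

theorem trF_trF (φ : S → G → G → S') (ψ : G → G') (φ' : S' → G' → G' → S'') (ψ' : G' → G'') (a : G)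
    (F : List (S × G)) : trF φ' ψ' (ψ a) (trF φ ψ a F) =
      trF (fun s x y => φ' (φ s x y) (ψ x) (ψ y)) (fun g => ψ' (ψ g)) a F := by
  induction F generalizing a with
  | nil => rfl
  | cons p F ih => simp only [trF, ih]

theorem tr_tr (φ : S → G → G → S') (ψ : G → G') (φ' : S' → G' → G' → S'') (ψ' : G' → G'') (a : G)
    (s : Slice S G) : (s.tr φ ψ a).tr φ' ψ' (ψ a) =
      s.tr (fun s x y => φ' (φ s x y) (ψ x) (ψ y)) (fun g => ψ' (ψ g)) a := by
  obtain ⟨L, p, R⟩ := s
  cases p <;> simp only [Slice.tr, Loc.tr, Loc.right, cur_trF, trF_trF]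

theorem trE_trE (φ : S → G → G → S') (ψ : G → G') (φ' : S' → G' → G' → S'') (ψ' : G' → G'') (a : G)
    (E : List (Slice S G)) : trE φ' ψ' (ψ a) (trE φ ψ a E) =
      trE (fun s x y => φ' (φ s x y) (ψ x) (ψ y)) (fun g => ψ' (ψ g)) a E := by
  simp only [trE, List.map_map]
  congr 1
  funext s
  exact tr_tr φ ψ φ' ψ' a s

/-- keep the labels of the strands -/
def kp (s : S) (_ _ : G) : S := s

theorem sym_kp : Sym (kp : S → G → G → S) := fun _ _ _ => rfl

theorem trF_kp_id (a : G) (F : List (S × G)) : trF kp id a F = F := by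
  induction F generalizing a with
  | nil => rfl
  | cons p F ih => simp only [trF, ih]; rfl

theorem trE_kp_id (a : G) (E : List (Slice S G)) : trE kp id a E = E := by
  simp only [trE]
  conv_rhs => rw [← List.map_id E]
  congr 1
  funext s
  obtain ⟨L, p, R⟩ := s
  cases p <;> simp only [Slice.tr, trF_kp_id] <;> rfl

/-! ### numbering of the marked components -/

/-- numbers for marked gaps -/
def Mk (C : G → Bool) (p : G × ℕ) : Prop := if C p.1 then 1 ≤ p.2 else p.2 = 0

def QQ (C : G → Bool) (p q : G × ℕ) : Prop :=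
  Mk C p ∧ Mk C q ∧ (C p.1 = true → C q.1 = true → p.2 = q.2)

/-- number of strands between marked gaps -/
def II (C : G → Bool) : G → List (S × G) → ℤ
  | _, [] => 0
  | a, (_, g) :: F => (if C a = true ∧ C g = true then 1 else 0) + II C g F

theorem II_append (C : G → Bool) (a : G) (F K : List (S × G)) :
    II C a (F ++ K) = II C a F + II C (cur a F) K := by
  induction F generalizing a with
  | nil => simp [II, cur]
  | cons p F ih => simp only [List.cons_append, II, cur, ih]; ring

/-- the set of numbers -/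
def NU (a : G × ℕ) (F : List (S × (G × ℕ))) (Z : List (Slice S (G × ℕ))) : Finset ℕ :=
  ((labs a F Z).map Prod.snd).toFinset.erase 0

def ind (C : G → Bool) (g : G) : ℤ := if C g then 1 else 0

def sg (σ : ℕ → ℕ) (p : G × ℕ) : G × ℕ := (p.1, σ p.2)

theorem mem_NU (a : G × ℕ) (F : List (S × (G × ℕ))) (Z : List (Slice S (G × ℕ))) (l : ℕ) :
    l ∈ NU a F Z ↔ l ≠ 0 ∧ ∃ p ∈ labs a F Z, p.2 = l := by
  simp only [NU, Finset.mem_erase, List.mem_toFinset, List.mem_map]

theorem sg_kp (σ : ℕ → ℕ) : (fun p : G × ℕ => (sg σ p).1) = Prod.fst := rfl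

/-- splitting a state over a split state -/
theorem trF_split (φ : S → G → G → S') (ψ : G → G') (a : G) (F : List (S × G))
    (L R : List (S' × G')) (h : trF φ ψ a F = L ++ R) :
    ∃ L' R', F = L' ++ R' ∧ trF φ ψ a L' = L ∧ trF φ ψ (cur a L') R' = R := by
  refine ⟨F.take L.length, F.drop L.length, (List.take_append_drop _ _).symm, ?_⟩
  have h2 := trF_append φ ψ a (F.take L.length) (F.drop L.length)
  rw [List.take_append_drop, h] at h2
  have hl : L.length ≤ F.length := by
    rw [← trF_length φ ψ a F, h]; simp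
  have := List.append_inj h2 (by rw [trF_length]; simp [hl])
  exact ⟨this.1.symm, this.2.symm⟩

theorem mk_cur (C : G → Bool) (a : G × ℕ) (ha : Mk C a) (L : List (S × (G × ℕ)))
    (h : Adj (QQ C) a L) : Mk C (cur a L) := by
  induction L generalizing a with
  | nil => exact ha
  | cons p L ih => exact ih p.2 h.1.2.1 h.2

theorem NU_step (a : G × ℕ) (F : List (S × (G × ℕ))) (Z : List (Slice S (G × ℕ)))
    (s' : Slice S (G × ℕ)) (σ : ℕ → ℕ) (l2 : ℕ) (hσ : ∀ l, l ≠ l2 → σ l = l) :
    (NU a F Z).erase l2 ⊆ NU (sg σ a) (trF kp (sg σ) a F) (trE kp (sg σ) a Z ++ [s']) := by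
  intro l hl
  rw [Finset.mem_erase, mem_NU] at hl
  obtain ⟨h1, h2, p, hp, rfl⟩ := hl
  rw [mem_NU]
  refine ⟨h2, sg σ p, ?_, hσ _ h1⟩
  have : sg σ p ∈ labs (sg σ a) (trF kp (sg σ) a F) (trE kp (sg σ) a Z) := by
    rw [labs_tr sym_kp]; exact List.mem_map_of_mem hp
  simp only [labs, sts, List.map_append, List.mem_cons, List.mem_map, List.mem_flatten,
    List.mem_append] at this ⊢
  rcases this with h | ⟨x, ⟨l, h | h, hx⟩, hxl⟩
  · exact Or.inl h
  · exact Or.inr ⟨x, ⟨l, Or.inl h, hx⟩, hxl⟩
  · exact Or.inr ⟨x, ⟨l, Or.inr (Or.inl h), hx⟩, hxl⟩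

theorem NU_snoc (a : G × ℕ) (F : List (S × (G × ℕ))) (Z : List (Slice S (G × ℕ)))
    (s' : Slice S (G × ℕ)) : NU a F Z ⊆ NU a F (Z ++ [s']) := by
  intro l hl
  rw [mem_NU] at hl ⊢
  obtain ⟨h2, p, hp, rfl⟩ := hl
  refine ⟨h2, p, ?_, rfl⟩
  simp only [labs, sts, List.map_append, List.mem_cons, List.mem_map, List.mem_flatten,
    List.mem_append] at hp ⊢
  rcases hp with h | ⟨x, ⟨l, h | h, hx⟩, hxl⟩
  · exact Or.inl h
  · exact Or.inr ⟨x, ⟨l, Or.inl h, hx⟩, hxl⟩
  · exact Or.inr ⟨x, ⟨l, Or.inr (Or.inl h), hx⟩, hxl⟩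

theorem allAdj_snoc (R : G → G → Prop) (a : G) (F K : List (S × G)) (Z : List (Slice S G))
    (hp : Path a F Z K) (s : Slice S G) (h : AllAdj R a F Z) (h2 : Adj R a (s.tgt a)) :
    AllAdj R a F (Z ++ [s]) := by
  rw [allAdj_append R a F K Z [s] hp]
  refine ⟨h, ?_⟩
  intro X hX
  simp only [sts, List.map_cons, List.map_nil, List.mem_cons, List.not_mem_nil, or_false] at hX
  rcases hX with rfl | rfl
  · exact h X (end_mem_sts a F X Z hp)
  · exact h2

theorem gapIneq (C : G → Bool) (a : G) (la : ℕ) (F0 : List (S × (G × ℕ)))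
    (hMa : Mk C (a, la)) (hF0 : Adj (QQ C) (a, la) F0) (Z : List (Slice S G)) (F : List (S × G))
    (hp : Path a (trF kp Prod.fst (a, la) F0) Z F) (hcr : ∀ s ∈ Z, s.p.NoCr) :
    ∃ (ρ : ℕ → ℕ) (Z' : List (Slice S (G × ℕ))) (F' : List (S × (G × ℕ))),
      (∀ g l, Mk C (g, l) → Mk C (g, ρ l)) ∧
      trE kp Prod.fst (a, ρ la) Z' = Z ∧ trF kp Prod.fst (a, ρ la) F' = F ∧
      Path (a, ρ la) (trF kp (sg ρ) (a, la) F0) Z' F' ∧
      AllAdj (QQ C) (a, ρ la) (trF kp (sg ρ) (a, la) F0) Z' ∧
      2 * Phi true (ind C) a Z + 2 * ((NU (a, la) F0 []).card : ℤ) +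
          II C a (trF kp Prod.fst (a, la) F0) ≤
        2 * ((NU (a, ρ la) (trF kp (sg ρ) (a, la) F0) Z').card : ℤ) + II C a F := by
  induction Z using List.reverseRecOn generalizing F with
  | nil =>
    have hF : trF kp Prod.fst (a, la) F0 = F := hp
    have hid : (sg id : G × ℕ → G × ℕ) = id := rfl
    refine ⟨id, [], F0, fun g l h => h, rfl, hF, ?_, ?_, ?_⟩
    · show trF kp (sg id) (a, la) F0 = F0
      rw [hid]; exact trF_kp_id _ _
    · rw [hid, trF_kp_id]
      intro K hK
      simp only [sts, List.map_nil, List.mem_singleton] at hK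
      subst hK
      exact hF0
    · rw [hid, trF_kp_id, hF]
      simp [Phi]
  | append_singleton Z s ih =>
    obtain ⟨K, hK, hs⟩ := (path_append a Z [s] _ F).1 hp
    obtain ⟨ρ, Z', F', h0, hpr, hprF, hpath, hadj, hcard⟩ :=
      ih K hK (fun r hr => hcr r (by simp [hr]))
    obtain ⟨hs1, hs2⟩ := hs
    have hs2 : s.tgt a = F := hs2
    have hns := hcr s (by simp)
    obtain ⟨L, p, R⟩ := s
    have hFin := end_mem_sts _ _ _ _ hpath
    have hFadj := hadj F' hFin
    cases p with
    | cr b s₁ y s₂ t₁ y' t₂ z => exact absurd hns (by simp [Loc.NoCr])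
    | hole =>
      have e1 : L ++ R = K := by simpa [Slice.src, Loc.src] using hs1
      have e2 : L ++ R = F := by simpa [Slice.tgt, Loc.tgt] using hs2
      subst e1
      subst e2
      obtain ⟨L', R', rfl, hL, hR⟩ := trF_split kp Prod.fst (a, ρ la) F' L R hprF
      refine ⟨ρ, Z' ++ [⟨L', .hole, R'⟩], L' ++ R', h0, ?_, hprF, ?_, ?_, ?_⟩
      · have : trE kp Prod.fst (a, ρ la) (Z' ++ [⟨L', .hole, R'⟩]) =
            trE kp Prod.fst (a, ρ la) Z' ++ [Slice.tr kp Prod.fst (a, ρ la) ⟨L', .hole, R'⟩] := by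
          simp [trE]
        rw [this, hpr]
        simp only [Slice.tr, Loc.tr, Loc.right, hL, hR]
      · rw [path_append]
        exact ⟨_, hpath, by simp [Slice.src, Loc.src], by simp [Path, Slice.tgt, Loc.tgt]⟩
      · apply allAdj_snoc _ _ _ _ _ hpath _ hadj
        simpa [Slice.tgt, Loc.tgt] using hFadj
      · have hc := Finset.card_le_card
          (NU_snoc (a, ρ la) (trF kp (sg ρ) (a, la) F0) Z' ⟨L', .hole, R'⟩)
        rw [Phi_append]
        simp only [Phi, Loc.wt]
        have : ((NU (a, ρ la) (trF kp (sg ρ) (a, la) F0) Z').card : ℤ) ≤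
          ((NU (a, ρ la) (trF kp (sg ρ) (a, la) F0) (Z' ++ [⟨L', .hole, R'⟩])).card : ℤ) := by
          exact_mod_cast hc
        linarith
    | birth u y =>
      have e1 : L ++ R = K := by simpa [Slice.src, Loc.src] using hs1
      have e2 : L ++ ((u, y) :: (u, cur a L) :: R) = F := by simpa [Slice.tgt, Loc.tgt] using hs2
      subst e1
      subst e2
      obtain ⟨L', R', rfl, hL, hR⟩ := trF_split kp Prod.fst (a, ρ la) F' L R hprF
      have hx : (cur (a, ρ la) L').1 = cur a L := by
        rw [← hL]; exact (cur_trF kp Prod.fst (a, ρ la) L').symm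
      obtain ⟨hA1, hA2⟩ := (adj_append _ _ _ _).1 hFadj
      have hmk := mk_cur C (a, ρ la) (h0 a la hMa) L' hA1
      obtain ⟨n, hn⟩ := Infinite.exists_notMem_finset
        (insert 0 (NU (a, ρ la) (trF kp (sg ρ) (a, la) F0) Z'))
      rw [Finset.mem_insert, not_or] at hn
      set cx := cur (a, ρ la) L' with hcx
      set ly : ℕ := if C y then (if C cx.1 then cx.2 else n) else 0 with hly
      set s' : Slice S (G × ℕ) := ⟨L', .birth u (y, ly), R'⟩ with hs'
      have hQ : Mk C (y, ly) ∧ (C cx.1 = true → C y = true → cx.2 = ly) := by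
        constructor
        · simp only [Mk, hly] at hmk ⊢
          by_cases h1 : C y = true <;> by_cases h2 : C cx.1 = true <;> simp [h1, h2] at hmk ⊢
          · exact hmk
          · omega
        · intro h1 h2
          simp [hly, h1, h2]
      have htgt : s'.tgt (a, ρ la) = L' ++ ((u, (y, ly)) :: (u, cx) :: R') := by
        simp [hs', Slice.tgt, Loc.tgt, hcx]
      refine ⟨ρ, Z' ++ [s'], s'.tgt (a, ρ la), h0, ?_, ?_, ?_, ?_, ?_⟩
      · have : trE kp Prod.fst (a, ρ la) (Z' ++ [s']) =
            trE kp Prod.fst (a, ρ la) Z' ++ [Slice.tr kp Prod.fst (a, ρ la) s'] := by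
          simp [trE]
        rw [this, hpr]
        simp only [hs', Slice.tr, Loc.tr, Loc.right, hL, ← hcx, hR, kp]
      · rw [htgt, trF_append, hL]
        simp only [trF, kp, ← hcx, hx, hR]
      · rw [path_append]
        exact ⟨_, hpath, by simp [hs', Slice.src, Loc.src], rfl⟩
      · apply allAdj_snoc _ _ _ _ _ hpath _ hadj
        rw [htgt, adj_append]
        refine ⟨hA1, ⟨hmk, hQ.1, hQ.2⟩, ⟨hQ.1, hmk, fun h1 h2 => (hQ.2 h2 h1).symm⟩, hA2⟩
      · have hc := Finset.card_le_card
          (NU_snoc (a, ρ la) (trF kp (sg ρ) (a, la) F0) Z' s')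
        have hc1 : ((NU (a, ρ la) (trF kp (sg ρ) (a, la) F0) Z').card : ℤ) ≤
          ((NU (a, ρ la) (trF kp (sg ρ) (a, la) F0) (Z' ++ [s'])).card : ℤ) := by
          exact_mod_cast hc
        rw [Phi_append]
        simp only [Phi, Loc.wt]
        rw [II_append] at hcard
        rw [II_append]
        simp only [II]
        rw [hx] at hly
        by_cases h1 : C y = true
        · by_cases h2 : C (cur a L) = true
          · simp only [h1, h2, ind, and_self, if_true]
            linarith
          · have hl : ly = n := by simp [hly, h1, h2]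
            have hc2 : insert n (NU (a, ρ la) (trF kp (sg ρ) (a, la) F0) Z') ⊆
                NU (a, ρ la) (trF kp (sg ρ) (a, la) F0) (Z' ++ [s']) := by
              intro l hl'
              rcases Finset.mem_insert.1 hl' with rfl | hl'
              · rw [mem_NU]
                refine ⟨hn.1, (y, ly), ?_, hl⟩
                rw [labs_append _ _ _ _ _ hpath]
                right
                simp only [labs, sts, List.map_cons, List.map_nil, htgt]
                simp
              · exact NU_snoc _ _ _ _ hl'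
            have hc3 := Finset.card_le_card hc2
            rw [Finset.card_insert_of_notMem hn.2] at hc3
            have hc4 : ((NU (a, ρ la) (trF kp (sg ρ) (a, la) F0) Z').card : ℤ) + 1 ≤
              ((NU (a, ρ la) (trF kp (sg ρ) (a, la) F0) (Z' ++ [s'])).card : ℤ) := by
              exact_mod_cast hc3
            simp only [h1, h2, ind, and_true, true_and, and_false, false_and, and_self, if_true,
              Bool.false_eq_true, if_false]
            linarith
        · simp only [h1, ind, and_false, false_and, Bool.false_eq_true, if_false]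
          linarith
    | death u y =>
      have e1 : L ++ ((u, y) :: (u, cur a L) :: R) = K := by simpa [Slice.src, Loc.src] using hs1
      have e2 : L ++ R = F := by simpa [Slice.tgt, Loc.tgt] using hs2
      subst e1
      subst e2
      obtain ⟨L', M', rfl, hL, hM⟩ := trF_split kp Prod.fst (a, ρ la) F' L _ hprF
      rcases M' with _ | ⟨⟨u1, g1, l1⟩, _ | ⟨⟨u2, g2, l2⟩, R'⟩⟩
      · simp [trF] at hM
      · simp [trF] at hM
      simp only [trF, kp, List.cons.injEq, Prod.mk.injEq] at hM
      obtain ⟨⟨rfl, rfl⟩, ⟨rfl, rfl⟩, hR⟩ := hM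
      have hx : (cur (a, ρ la) L').1 = cur a L := by
        rw [← hL]; exact (cur_trF kp Prod.fst (a, ρ la) L').symm
      obtain ⟨hA1, hq1, hq2, hA3⟩ := (adj_append _ _ _ _).1 hFadj
      have hmk := mk_cur C (a, ρ la) (h0 a la hMa) L' hA1
      set cx := cur (a, ρ la) L' with hcx
      have hcx' : cx = (cur a L, cx.2) := Prod.ext hx rfl
      have hmk1 : Mk C (cur a L, cx.2) := hcx' ▸ hmk
      have hmk2 : Mk C (cur a L, l2) := hq2.2.1
      have hσ0 : ∀ g l, Mk C (g, l) → Mk C (g, if l = l2 then cx.2 else l) := by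
        intro g l hl
        simp only [Mk] at hl hmk1 hmk2 ⊢
        by_cases h1 : C g = true <;> by_cases h2 : C (cur a L) = true <;>
          by_cases h3 : l = l2 <;> simp only [h1, h2, h3, if_true, if_false,
            Bool.false_eq_true] at hl hmk1 hmk2 ⊢ <;> omega
      set σ : ℕ → ℕ := fun l => if l = l2 then cx.2 else l with hσ
      have hσl2 : σ l2 = cx.2 := by simp [hσ]
      have hσcx : σ cx.2 = cx.2 := by
        simp only [hσ]; split_ifs with h
        · rfl
        · rfl
      have hsx : sg σ (cur a L, l2) = (cur a L, cx.2) := by simp [sg, hσl2]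
      have hsc : sg σ cx = (cur a L, cx.2) := by rw [hcx']; simp [sg, hσcx]
      set s'' : Slice S (G × ℕ) := ⟨trF kp (sg σ) (a, ρ la) L', .death u2 (g1, σ l1),
        trF kp (sg σ) (cur a L, l2) R'⟩ with hs''
      have hcur : cur (a, σ (ρ la)) (trF kp (sg σ) (a, ρ la) L') = (cur a L, cx.2) := by
        rw [← hsc]; exact cur_trF kp (sg σ) (a, ρ la) L'
      have hst : trF kp (sg (fun l => σ (ρ l))) (a, la) F0 =
          trF kp (sg σ) (a, ρ la) (trF kp (sg ρ) (a, la) F0) :=
        (trF_trF kp (sg ρ) kp (sg σ) (a, la) F0).symm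
      have hpath2 := path_tr sym_kp (sg σ) (a, ρ la) _ _ Z' hpath
      have hadj2 : AllAdj (QQ C) (a, σ (ρ la)) (trF kp (sg σ) (a, ρ la)
          (trF kp (sg ρ) (a, la) F0)) (trE kp (sg σ) (a, ρ la) Z') := by
        refine (allAdj_tr sym_kp (sg σ) (QQ C) (a, ρ la) _ _).2 (allAdj_mono ?_ _ _ _ hadj)
        rintro ⟨g, l⟩ ⟨g', l'⟩ ⟨h1, h2, h3⟩
        exact ⟨hσ0 _ _ h1, hσ0 _ _ h2, fun h4 h5 => congrArg σ (h3 h4 h5)⟩
      have htgt : s''.tgt (a, σ (ρ la)) = trF kp (sg σ) (a, ρ la) L' ++
          trF kp (sg σ) (cur a L, l2) R' := by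
        simp [hs'', Slice.tgt, Loc.tgt]
      refine ⟨fun l => σ (ρ l), trE kp (sg σ) (a, ρ la) Z' ++ [s''], s''.tgt (a, σ (ρ la)),
        fun g l h => hσ0 _ _ (h0 g l h), ?_, ?_, ?_, ?_, ?_⟩
      · have e1 : trE kp Prod.fst (a, σ (ρ la)) (trE kp (sg σ) (a, ρ la) Z' ++ [s'']) =
            trE kp Prod.fst (a, σ (ρ la)) (trE kp (sg σ) (a, ρ la) Z') ++
              [Slice.tr kp Prod.fst (a, σ (ρ la)) s''] := by
          simp [trE]
        have e2 : trE kp Prod.fst (a, σ (ρ la)) (trE kp (sg σ) (a, ρ la) Z') =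
            trE kp Prod.fst (a, ρ la) Z' :=
          trE_trE kp (sg σ) kp Prod.fst (a, ρ la) Z'
        have e3 : trF kp Prod.fst (a, σ (ρ la)) (trF kp (sg σ) (a, ρ la) L') = L := by
          rw [← hL]; exact trF_trF kp (sg σ) kp Prod.fst (a, ρ la) L'
        have e4 : trF kp Prod.fst (cur a L, cx.2) (trF kp (sg σ) (cur a L, l2) R') = R := by
          rw [← hR, ← hsx]; exact trF_trF kp (sg σ) kp Prod.fst (cur a L, l2) R'
        rw [e1, e2, hpr]
        simp only [hs'', Slice.tr, Loc.tr, Loc.right, e3, kp, hcur, e4]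
      · have e3 : trF kp Prod.fst (a, σ (ρ la)) (trF kp (sg σ) (a, ρ la) L') = L := by
          rw [← hL]; exact trF_trF kp (sg σ) kp Prod.fst (a, ρ la) L'
        have e4 : trF kp Prod.fst (cur a L, cx.2) (trF kp (sg σ) (cur a L, l2) R') = R := by
          rw [← hR, ← hsx]; exact trF_trF kp (sg σ) kp Prod.fst (cur a L, l2) R'
        rw [htgt, trF_append, e3, hcur, e4]
      · show Path (a, σ (ρ la)) (trF kp (sg (fun l => σ (ρ l))) (a, la) F0) _ _
        rw [hst, path_append]
        refine ⟨_, hpath2, ?_, rfl⟩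
        rw [trF_append, ← hcx]
        simp only [hs'', Slice.src, Loc.src, trF, kp, hcur, hsx]
        simp [sg]
      · show AllAdj (QQ C) (a, σ (ρ la)) (trF kp (sg (fun l => σ (ρ l))) (a, la) F0) _
        rw [hst]
        apply allAdj_snoc _ _ _ _ _ hpath2 _ hadj2
        show Adj (QQ C) (a, σ (ρ la)) (s''.tgt (a, σ (ρ la)))
        have hlast := hadj2 _ (end_mem_sts _ _ _ _ hpath2)
        rw [trF_append, adj_append] at hlast
        rw [htgt, adj_append]
        refine ⟨hlast.1, ?_⟩
        have h3 := hlast.2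
        rw [hcur, ← hcx] at h3
        simp only [trF, Adj] at h3
        rw [hcur, ← hsx]
        exact h3.2.2
      · show 2 * Phi true (ind C) a (Z ++ [_]) + _ + _ ≤
          2 * ((NU (a, σ (ρ la)) (trF kp (sg (fun l => σ (ρ l))) (a, la) F0) _).card : ℤ) + _
        rw [hst]
        have hsub := NU_step (a, ρ la) (trF kp (sg ρ) (a, la) F0) Z' s'' σ l2
          (fun l hl => by simp [hσ, hl])
        have hc := Finset.card_le_card hsub
        have hc0 : (NU (a, ρ la) (trF kp (sg ρ) (a, la) F0) Z').card ≤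
            ((NU (a, ρ la) (trF kp (sg ρ) (a, la) F0) Z').erase l2).card + 1 := by
          have := Finset.pred_card_le_card_erase
            (s := NU (a, ρ la) (trF kp (sg ρ) (a, la) F0) Z') (a := l2)
          omega
        have hc1 : ((NU (a, ρ la) (trF kp (sg ρ) (a, la) F0) Z').card : ℤ) ≤
          ((NU (sg σ (a, ρ la)) (trF kp (sg σ) (a, ρ la) (trF kp (sg ρ) (a, la) F0))
            (trE kp (sg σ) (a, ρ la) Z' ++ [s''])).card : ℤ) + 1 := by
          exact_mod_cast hc0.trans (Nat.add_le_add_right hc 1)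
        have hc2 : l2 = cx.2 → ((NU (a, ρ la) (trF kp (sg ρ) (a, la) F0) Z').card : ℤ) ≤
          ((NU (sg σ (a, ρ la)) (trF kp (sg σ) (a, ρ la) (trF kp (sg ρ) (a, la) F0))
            (trE kp (sg σ) (a, ρ la) Z' ++ [s''])).card : ℤ) := by
          intro h
          have h5 : ∀ l, σ l = l := by
            intro l; simp only [hσ]; split_ifs with h6
            · rw [h6, h]
            · rfl
          have hsub := NU_step (a, ρ la) (trF kp (sg ρ) (a, la) F0) Z' s'' σ 0
            (fun l _ => h5 l)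
          have h0' : (NU (a, ρ la) (trF kp (sg ρ) (a, la) F0) Z').erase 0 =
              NU (a, ρ la) (trF kp (sg ρ) (a, la) F0) Z' := by
            apply Finset.erase_eq_of_notMem
            simp [NU]
          rw [h0'] at hsub
          exact_mod_cast Finset.card_le_card hsub
        rw [Phi_append]
        simp only [Phi, Loc.wt]
        rw [II_append] at hcard
        rw [II_append]
        simp only [II] at hcard
        change _ ≤ 2 * ((NU (sg σ (a, ρ la)) (trF kp (sg σ) (a, ρ la)
            (trF kp (sg ρ) (a, la) F0)) (trE kp (sg σ) (a, ρ la) Z' ++ [s''])).card : ℤ) + _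
        generalize ((NU (sg σ (a, ρ la)) (trF kp (sg σ) (a, ρ la)
            (trF kp (sg ρ) (a, la) F0)) (trE kp (sg σ) (a, ρ la) Z' ++ [s''])).card : ℤ) = N2
          at hc1 hc2 ⊢
        generalize ((NU (a, ρ la) (trF kp (sg ρ) (a, la) F0) Z').card : ℤ) = N1
          at hc1 hc2 hcard
        have hq1' : C (cur a L) = true → C g1 = true → cx.2 = l1 := by
          intro h1 h2; exact hq1.2.2 (by rw [hx]; exact h1) h2
        have hq2' : C g1 = true → C (cur a L) = true → l1 = l2 := hq2.2.2
        by_cases h1 : C (cur a L) = true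
        · by_cases h2 : C g1 = true
          · have := hc2 ((hq1' h1 h2).trans (hq2' h2 h1)).symm
            simp only [h1, h2, ind, and_self, if_true] at hcard ⊢
            linarith
          · simp only [h1, h2, ind, and_true, and_false, if_true, Bool.false_eq_true,
              if_false] at hcard ⊢
            linarith
        · have hz1 : l2 = 0 := by simpa [Mk, h1] using hmk2
          have hz2 : cx.2 = 0 := by simpa [Mk, h1] using hmk1
          have := hc2 (hz1.trans hz2.symm)
          simp only [h1, ind, and_false, false_and, Bool.false_eq_true, if_false] at hcard ⊢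
          linarith

end Pool.Agent.H560R3.TG
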