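import Pool.Agent.H560R3.TG.Ops

/-! Invariance of the bracket. -/

set_option autoImplicit false

namespace Pool.Agent.H560R3.TG

theorem put_pos (p : Piece) : p.put p.pos = p := by cases p <;> rfl
theorem put_put (p : Piece) (i j : ℕ) : (p.put i).put j = p.put j := by cases p <;> rfl
theorem pos_put (p : Piece) (i : ℕ) : (p.put i).pos = i := by cases p <;> rfl
theorem src_put (p : Piece) (i : ℕ) : (p.put i).src = p.src := by cases p <;> rfl
theorem tgt_put (p : Piece) (i : ℕ) : (p.put i).tgt = p.tgt := by cases p <;> rfl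

/-- one more strand on the left -/
def sh (p : Piece) : Piece := p.put (p.pos + 1)

theorem op_sh (t : ℝ) (x : ℕ) (p : Piece) (f : Fn) (y : ℕ) (F : List ℕ) :
    op t x (sh p) f (y :: F) = op t y p (fun K => f (y :: K)) F := by
  cases p <;> rfl

theorem op_put_succ (t : ℝ) (x : ℕ) (p : Piece) (i : ℕ) (f : Fn) (y : ℕ) (F : List ℕ) :
    op t x (p.put (i + 1)) f (y :: F) = op t y (p.put i) (fun K => f (y :: K)) F := by
  cases p <;> rfl

theorem opW_sh (t : ℝ) (x : ℕ) (w : List Piece) (f : Fn) (y : ℕ) (F : List ℕ) :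
    opW t x (w.map sh) f (y :: F) = opW t y w (fun K => f (y :: K)) F := by
  induction w generalizing F with
  | nil => rfl
  | cons p w ih =>
    simp only [List.map_cons, opW]
    rw [op_sh]
    congr 1
    funext K
    exact ih K

/-- `l` and `r` act in the same way up to the factor `c` -/
def Rel (t : ℝ) (n : ℕ) (c : ℝ) (l r : List Piece) : Prop :=
  ∀ x f, Agree x n (opW t x l f) (fun F => c * opW t x r f F)

theorem Rel.shift {t : ℝ} {n : ℕ} {c : ℝ} {l r : List Piece} (h : Rel t n c l r) :
    Rel t (n + 1) c (l.map sh) (r.map sh) := by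
  intro x f F hF hn
  rcases F with _ | ⟨y, F⟩
  · simp at hn
  · show _ = c * _
    rw [opW_sh, opW_sh]
    exact h y _ F hF.2 (by simpa using hn)

variable {t : ℝ}

theorem zigA (ht : 0 < t) (n i : ℕ) (h : i < n) (x : ℕ) (g : Fn) :
    Agree x n (birthOp t x i (deathOp t x (i + 1) g)) g := by
  intro F hF hn
  induction i generalizing x g n F with
  | zero =>
    rcases F with _ | ⟨z, F⟩
    · simp at hn; omega
    · simp only [birthOp]
      have e : nbs t x (fun y => deathOp t x 1 g (y :: x :: z :: F)) =
          nbs t x (fun y => if y = z then (dl t y)⁻¹ * g (y :: F) else 0) := by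
        apply nbs_congr
        intro y hy
        simp only [deathOp]
        have hy' : Nb y x := by
          rcases hy with h | h
          · exact Or.inr h
          · exact Or.inl h
        by_cases hz : z = y
        · subst hz; simp [hy']
        · rw [if_neg (fun h => hz h.1), if_neg (fun h => hz h.symm)]
      show nbs t x (fun y => deathOp t x 1 g (y :: x :: z :: F)) = _
      rw [e, nbs_single x z hF.1 (fun y => (dl t y)⁻¹ * g (y :: F))]
      rw [← mul_assoc, mul_inv_cancel₀ (dl_pos ht z).ne', one_mul]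
  | succ i ih =>
    rcases F with _ | ⟨y, F⟩
    · simp at hn; omega
    · obtain ⟨m, rfl⟩ : ∃ m, n = m + 1 := ⟨n - 1, by simp at hn; omega⟩
      exact ih m (by omega) y (fun K => g (y :: K)) F hF.2 (by simpa using hn)

theorem zigB (ht : 0 < t) (n i : ℕ) (h : i < n) (x : ℕ) (g : Fn) :
    Agree x n (birthOp t x (i + 1) (deathOp t x i g)) g := by
  intro F hF hn
  induction i generalizing x g n F with
  | zero =>
    rcases F with _ | ⟨z, F⟩
    · simp at hn; omega
    · simp only [birthOp]
      have hz : Nb x z := hF.1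
      have hz' : Nb z x := by
        rcases hz with h | h
        · exact Or.inr h
        · exact Or.inl h
      have e : nbs t z (fun y => deathOp t x 0 g (z :: y :: z :: F)) =
          nbs t z (fun y => if y = x then (dl t y)⁻¹ * g (z :: F) else 0) := by
        apply nbs_congr
        intro y hy
        simp only [deathOp]
        by_cases hx : y = x
        · simp [hx, hz]
        · rw [if_neg (fun h => hx h.1), if_neg hx]
      rw [e, nbs_single z x hz' (fun y => (dl t y)⁻¹ * g (z :: F))]
      rw [← mul_assoc, mul_inv_cancel₀ (dl_pos ht x).ne', one_mul]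
  | succ i ih =>
    rcases F with _ | ⟨y, F⟩
    · simp at hn; omega
    · obtain ⟨m, rfl⟩ : ∃ m, n = m + 1 := ⟨n - 1, by simp at hn; omega⟩
      exact ih m (by omega) y (fun K => g (y :: K)) F hF.2 (by simpa using hn)

theorem circ (ht : 0 < t) (n i : ℕ) (h : i ≤ n) (x : ℕ) (g : Fn) :
    Agree x n (birthOp t x i (deathOp t x i g)) (fun F => dd t * g F) := by
  intro F hF hn
  induction i generalizing x g n F with
  | zero =>
    simp only [birthOp]
    have e : nbs t x (fun y => deathOp t x 0 g (y :: x :: F)) =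
        nbs t x (fun y => ((dl t x)⁻¹ * g F) * 1) := by
      apply nbs_congr
      intro y hy
      simp [deathOp, hy]
    rw [e, nbs_smul, nbs_one]
    have := (dl_pos ht x).ne'
    field_simp
  | succ i ih =>
    rcases F with _ | ⟨y, F⟩
    · simp at hn; omega
    · obtain ⟨m, rfl⟩ : ∃ m, n = m + 1 := ⟨n - 1, by simp at hn; omega⟩
      exact ih m (by omega) y (fun K => g (y :: K)) F hF.2 (by simpa using hn)

theorem Agree.birth {x n i : ℕ} {f g : Fn} (hi : i ≤ n) (h : Agree x (n + 2) f g) :
    Agree x n (birthOp t x i f) (birthOp t x i g) :=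
  fun F hF hn => birthOp_congr t x i f g n hi h F hF hn

theorem Agree.death {x n i : ℕ} {f g : Fn} (h : Agree x n f g) :
    Agree x (n + 2) (deathOp t x i f) (deathOp t x i g) :=
  fun F hF hn => deathOp_congr t x i f g n h F hF hn

theorem Agree.trans {x n : ℕ} {f g h : Fn} (h1 : Agree x n f g) (h2 : Agree x n g h) :
    Agree x n f h := fun F hF hn => (h1 F hF hn).trans (h2 F hF hn)

theorem Agree.symm {x n : ℕ} {f g : Fn} (h1 : Agree x n f g) : Agree x n g f :=
  fun F hF hn => (h1 F hF hn).symm

theorem Agree.refl (x n : ℕ) (f : Fn) : Agree x n f f := fun _ _ _ => rfl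

theorem birthOp_sub (x i : ℕ) (c d : ℝ) (f g : Fn) (F : List ℕ) :
    birthOp t x i (fun K => c * f K - d * g K) F =
      c * birthOp t x i f F - d * birthOp t x i g F := op_sub t x (.birth i) c d f g F

theorem deathOp_sub (x i : ℕ) (c d : ℝ) (f g : Fn) (F : List ℕ) :
    deathOp t x i (fun K => c * f K - d * g K) F =
      c * deathOp t x i f F - d * deathOp t x i g F := op_sub t x (.death i) c d f g F

theorem deathOp_smul (x i : ℕ) (c : ℝ) (f : Fn) (F : List ℕ) :
    deathOp t x i (fun K => c * f K) F = c * deathOp t x i f F := op_smul t x (.death i) c f F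

theorem birthOp_smul (x i : ℕ) (c : ℝ) (f : Fn) (F : List ℕ) :
    birthOp t x i (fun K => c * f K) F = c * birthOp t x i f F := op_smul t x (.birth i) c f F

theorem al_not (b : Bool) : al t (!(!b)) = al t b := by simp

theorem rel_zig1 (ht : 0 < t) (n i : ℕ) (h : i < n) :
    Rel t n 1 [.birth i, .death (i + 1)] [] := by
  intro x f F hF hn
  show birthOp t x i (deathOp t x (i + 1) f) F = 1 * f F
  rw [zigA ht n i h x f F hF hn, one_mul]

theorem rel_zig2 (ht : 0 < t) (n i : ℕ) (h : i < n) :
    Rel t n 1 [.birth (i + 1), .death i] [] := by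
  intro x f F hF hn
  show birthOp t x (i + 1) (deathOp t x i f) F = 1 * f F
  rw [zigB ht n i h x f F hF hn, one_mul]

theorem rel_sb (ht : 0 < t) (n i : ℕ) (b : Bool) (h : i < n) :
    Rel t n (-1) [.birth i, .cr (i + 1) b] [.birth (i + 1), .cr i (!b)] := by
  intro x f F hF hn
  show birthOp t x i (fun F => al t b * f F - al t (!b) * deathOp t x (i + 1)
      (birthOp t x (i + 1) f) F) F =
    -1 * birthOp t x (i + 1) (fun F => al t (!b) * f F - al t (!(!b)) * deathOp t x i
      (birthOp t x i f) F) F
  rw [birthOp_sub, birthOp_sub, zigA ht n i h x _ F hF hn, zigB ht n i h x _ F hF hn,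
    Bool.not_not]
  ring

theorem rel_sd (ht : 0 < t) (n i : ℕ) (b : Bool) (h : i + 3 ≤ n) :
    Rel t n (-1) [.cr (i + 1) b, .death i] [.cr i (!b), .death (i + 1)] := by
  intro x f F hF hn
  obtain ⟨m, rfl⟩ : ∃ m, n = m + 2 := ⟨n - 2, by omega⟩
  show al t b * deathOp t x i f F - al t (!b) * deathOp t x (i + 1) (birthOp t x (i + 1)
      (deathOp t x i f)) F =
    -1 * (al t (!b) * deathOp t x (i + 1) f F - al t (!(!b)) * deathOp t x i (birthOp t x i
      (deathOp t x (i + 1) f)) F)
  have e1 := (Agree.death (t := t) (i := i + 1) (zigB ht m i (by omega) x f)) F hF hn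
  have e2 := (Agree.death (t := t) (i := i) (zigA ht m i (by omega) x f)) F hF hn
  rw [e1, e2, Bool.not_not]
  ring

/-- the factor of the first Reidemeister move -/
noncomputable def kf (t : ℝ) (b : Bool) : ℝ := al t b - al t (!b) * dd t

theorem rel_r1 (ht : 0 < t) (n i : ℕ) (b : Bool) (h : i ≤ n) :
    Rel t n (kf t b) [.birth i, .cr i b] [.birth i] := by
  intro x f F hF hn
  show birthOp t x i (fun F => al t b * f F - al t (!b) * deathOp t x i (birthOp t x i f) F) F =
    kf t b * birthOp t x i f F
  rw [birthOp_sub, circ ht n i h x _ F hF hn]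
  unfold kf
  ring

theorem rel_r1' (ht : 0 < t) (n i : ℕ) (b : Bool) (h : i + 2 ≤ n) :
    Rel t n (kf t b) [.cr i b, .death i] [.death i] := by
  intro x f F hF hn
  obtain ⟨m, rfl⟩ : ∃ m, n = m + 2 := ⟨n - 2, by omega⟩
  show al t b * deathOp t x i f F - al t (!b) * deathOp t x i (birthOp t x i
      (deathOp t x i f)) F = kf t b * deathOp t x i f F
  have e1 := (Agree.death (t := t) (i := i) (circ ht m i (by omega) x f)) F hF hn
  rw [e1, deathOp_smul]
  unfold kf
  ring

/-- the Temperley-Lieb generator -/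
noncomputable def U (t : ℝ) (x i : ℕ) (f : Fn) : Fn := deathOp t x i (birthOp t x i f)

theorem U_lin (x i : ℕ) (c d : ℝ) (f g : Fn) :
    U t x i (fun K => c * f K - d * g K) = fun F => c * U t x i f F - d * U t x i g F := by
  funext F
  unfold U
  have : birthOp t x i (fun K => c * f K - d * g K) =
      fun K => c * birthOp t x i f K - d * birthOp t x i g K := by
    funext K; exact birthOp_sub x i c d f g K
  rw [this, deathOp_sub]

theorem U_congr {x n i : ℕ} {f g : Fn} (hi : i + 2 ≤ n) (h : Agree x n f g) :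
    Agree x n (U t x i f) (U t x i g) := by
  obtain ⟨m, rfl⟩ : ∃ m, n = m + 2 := ⟨n - 2, by omega⟩
  exact (h.birth (by omega)).death

theorem UU (ht : 0 < t) (x n i : ℕ) (f : Fn) (hi : i + 2 ≤ n) :
    Agree x n (U t x i (U t x i f)) (fun F => dd t * U t x i f F) := by
  obtain ⟨m, rfl⟩ : ∃ m, n = m + 2 := ⟨n - 2, by omega⟩
  have h1 := (circ ht m i (by omega) x (birthOp t x i f)).death (t := t) (i := i)
  intro F hF hn
  unfold U
  rw [h1 F hF hn, deathOp_smul]

theorem UVU (ht : 0 < t) (x n i : ℕ) (f : Fn) (hi : i + 3 ≤ n) :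
    Agree x n (U t x i (U t x (i + 1) (U t x i f))) (U t x i f) := by
  obtain ⟨m, rfl⟩ : ∃ m, n = m + 2 := ⟨n - 2, by omega⟩
  unfold U
  exact ((zigA ht m i (by omega) x _).trans (zigB ht m i (by omega) x _)).death

theorem VUV (ht : 0 < t) (x n i : ℕ) (f : Fn) (hi : i + 3 ≤ n) :
    Agree x n (U t x (i + 1) (U t x i (U t x (i + 1) f))) (U t x (i + 1) f) := by
  obtain ⟨m, rfl⟩ : ∃ m, n = m + 2 := ⟨n - 2, by omega⟩
  unfold U
  exact ((zigB ht m i (by omega) x _).trans (zigA ht m i (by omega) x _)).death

theorem crOp_eq (x i : ℕ) (b : Bool) (f : Fn) :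
    crOp t x i b f = fun F => al t b * f F - al t (!b) * U t x i f F := rfl

theorem al_mul (ht : 0 < t) (b : Bool) : al t b * al t (!b) = 1 := by
  cases b <;> simp [al, ht.ne']

theorem al_sq (b : Bool) : al t b ^ 2 + al t (!b) ^ 2 = dd t := by
  cases b <;> simp [al, dd]
  ring

theorem rel_r2 (ht : 0 < t) (n i : ℕ) (b : Bool) (h : i + 2 ≤ n) :
    Rel t n 1 [.cr i b, .cr i (!b)] [] := by
  intro x f F hF hn
  show crOp t x i b (crOp t x i (!b) f) F = 1 * f F
  rw [crOp_eq, crOp_eq, U_lin]
  show al t b * (al t (!b) * f F - al t (!(!b)) * U t x i f F) -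
    al t (!b) * (al t (!b) * U t x i f F - al t (!(!b)) * U t x i (U t x i f) F) = _
  rw [UU ht x n i f h F hF hn, Bool.not_not]
  have e1 := al_mul ht b
  have e2 := al_sq (t := t) b
  linear_combination (f F + dd t * U t x i f F) * e1 - U t x i f F * e2

theorem rel_r3 (ht : 0 < t) (n i : ℕ) (a b c : Bool) (hc : a = c → b = a) (h : i + 3 ≤ n) :
    Rel t n 1 [.cr i a, .cr (i + 1) b, .cr i c] [.cr (i + 1) c, .cr i b, .cr (i + 1) a] := by
  intro x f F hF hn
  show crOp t x i a (crOp t x (i + 1) b (crOp t x i c f)) F =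
    1 * crOp t x (i + 1) c (crOp t x i b (crOp t x (i + 1) a f)) F
  simp only [crOp_eq, U_lin]
  have h1 := UVU ht x n i f h F hF hn
  have h2 := VUV ht x n i f h F hF hn
  have h3 := UU ht x n i f (by omega) F hF hn
  have h4 := UU ht x n (i + 1) f (by omega) F hF hn
  rw [h1, h2, h3, h4]
  have m1 := al_mul ht true
  have m2 := al_sq (t := t) true
  simp only [Bool.not_true] at m1 m2
  have key : ∀ b : Bool, al t b ^ 2 * al t (!b) = al t b := by
    intro b
    have := al_mul ht b
    calc al t b ^ 2 * al t (!b) = al t b * (al t b * al t (!b)) := by ring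
      _ = al t b := by rw [this, mul_one]
  have hex : ∀ a b c : Bool, (a = c → b = a) →
      (a = c ∧ b = a) ∨ (c = (!a)) := by decide
  have hC : ∀ a b c : Bool, (a = c → b = a) → (a = false ∧ b = false ∧ c = false) ∨
      (a = false ∧ b = false ∧ c = true) ∨ (a = false ∧ b = true ∧ c = true) ∨
      (a = true ∧ b = false ∧ c = false) ∨ (a = true ∧ b = true ∧ c = false) ∨
      (a = true ∧ b = true ∧ c = true) := by decide
  rcases hC a b c hc with ⟨rfl, rfl, rfl⟩ | ⟨rfl, rfl, rfl⟩ | ⟨rfl, rfl, rfl⟩ | ⟨rfl, rfl, rfl⟩ |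
    ⟨rfl, rfl, rfl⟩ | ⟨rfl, rfl, rfl⟩ <;> simp only [Bool.not_true, Bool.not_false]
  all_goals
    rw [← m2]
    set A := al t true
    set B := al t false
    set u := U t x i f F
    set v := U t x (i + 1) f F
    first
      | linear_combination (u - v) * (A ^ 3 + A * B ^ 2) * m1
      | linear_combination (u - v) * (A ^ 2 * B + B ^ 3) * m1

/-! distant pieces -/

theorem op_nbs (x z : ℕ) (p : Piece) (f : ℕ → Fn) (F : List ℕ) :
    op t x p (fun K => nbs t z (fun y => f y K)) F = nbs t z (fun y => op t x p (f y) F) := by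
  unfold nbs
  rcases z with _ | z
  · simp only [if_true, add_zero]
    exact op_smul t x p _ _ F
  · simp only [Nat.succ_ne_zero, if_false]
    exact op_lin t x p _ _ _ _ F

theorem far_birth (x i j : ℕ) (q : Piece) (f : Fn) (F : List ℕ) (h : i ≤ j) (hn : j + q.src ≤ F.length) :
    birthOp t x i (op t x (q.put (j + 2)) f) F = op t x (q.put j) (birthOp t x i f) F := by
  induction i generalizing x j f F with
  | zero =>
    simp only [birthOp]
    show nbs t x (fun y => op t x (q.put (j + 2)) f (y :: x :: F)) =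
      op t x (q.put j) (fun K => nbs t x (fun y => f (y :: x :: K))) F
    rw [op_nbs]
    congr 1
    funext y
    rw [op_put_succ, op_put_succ]
  | succ i ih =>
    obtain ⟨j, rfl⟩ : ∃ k, j = k + 1 := ⟨j - 1, by omega⟩
    rcases F with _ | ⟨y, F⟩
    · simp at hn
    · have e : (fun K => op t x (q.put (j + 1 + 2)) f (y :: K)) =
          op t y (q.put (j + 2)) (fun K => f (y :: K)) := by
        funext K; exact op_put_succ t x q (j + 2) f y K
      rw [op_put_succ]
      show birthOp t y i (fun K => op t x (q.put (j + 1 + 2)) f (y :: K)) F = _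
      rw [e]
      exact ih y j (fun K => f (y :: K)) F (by omega) (by simp at hn; omega)

theorem far_death (x i j : ℕ) (q : Piece) (f : Fn) (F : List ℕ) (h : i ≤ j)
    (hn : j + 2 + q.src ≤ F.length) :
    deathOp t x i (op t x (q.put j) f) F = op t x (q.put (j + 2)) (deathOp t x i f) F := by
  induction i generalizing x j f F with
  | zero =>
    rcases F with _ | ⟨y, _ | ⟨z, F⟩⟩
    · simp at hn
    · simp at hn; omega
    · rw [op_put_succ, op_put_succ]
      simp only [deathOp]
      by_cases hc : z = x ∧ Nb x y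
      · obtain ⟨rfl, hy⟩ := hc
        simp only [hy, and_self, if_true]
        exact (op_smul t z (q.put j) _ _ F).symm
      · simp only [if_neg hc]
        exact (op_zero t z (q.put j) F).symm
  | succ i ih =>
    obtain ⟨j, rfl⟩ : ∃ k, j = k + 1 := ⟨j - 1, by omega⟩
    rcases F with _ | ⟨y, F⟩
    · simp at hn
    · have e : (fun K => op t x (q.put (j + 1)) f (y :: K)) =
          op t y (q.put j) (fun K => f (y :: K)) := by
        funext K; exact op_put_succ t x q j f y K
      rw [op_put_succ]
      show deathOp t y i (fun K => op t x (q.put (j + 1)) f (y :: K)) F = _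
      rw [e]
      exact ih y j (fun K => f (y :: K)) F (by omega) (by simp at hn; omega)

theorem far_hole (x i j : ℕ) (q : Piece) (f : Fn) (F : List ℕ) (h : i ≤ j)
    (hn : j + q.src ≤ F.length) :
    holeOp x i (op t x (q.put j) f) F = op t x (q.put j) (holeOp x i f) F := by
  induction i generalizing x j f F with
  | zero =>
    simp only [holeOp]
    by_cases hx : x = 0
    · simp only [hx, if_true]
    · simp only [hx, if_false]
      exact (op_zero t x (q.put j) F).symm
  | succ i ih =>
    obtain ⟨j, rfl⟩ : ∃ k, j = k + 1 := ⟨j - 1, by omega⟩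
    rcases F with _ | ⟨y, F⟩
    · simp at hn
    · have e : (fun K => op t x (q.put (j + 1)) f (y :: K)) =
          op t y (q.put j) (fun K => f (y :: K)) := by
        funext K; exact op_put_succ t x q j f y K
      rw [op_put_succ]
      show holeOp y i (fun K => op t x (q.put (j + 1)) f (y :: K)) F = _
      rw [e]
      exact ih y j (fun K => f (y :: K)) F (by omega) (by simp at hn; omega)

theorem rel_far (n : ℕ) (p q : Piece) (hpq : p.pos + p.src ≤ q.pos) (hn : q.pos + q.src ≤ n) :
    Rel t n 1 [p, q.put (q.pos - p.src + p.tgt)] [q, p] := by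
  intro x f F hF hl
  show op t x p (op t x (q.put (q.pos - p.src + p.tgt)) f) F = 1 * op t x q (op t x p f) F
  rw [one_mul]
  subst hl
  cases p with
  | birth i =>
    have hpq' : i ≤ q.pos := hpq
    have := far_birth (t := t) x i q.pos q f F hpq' hn
    rw [put_pos] at this
    exact this
  | death i =>
    have hpq' : i + 2 ≤ q.pos := hpq
    obtain ⟨j, hj⟩ : ∃ j, q.pos = j + 2 := ⟨q.pos - 2, by omega⟩
    have := far_death (t := t) x i j q f F (by omega) (by omega)
    have e : q.put (j + 2) = q := by rw [← hj, put_pos]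
    rw [e] at this
    rw [hj]
    exact this
  | hole i =>
    have hpq' : i ≤ q.pos := hpq
    have := far_hole (t := t) x i q.pos q f F hpq' hn
    rw [put_pos] at this
    show holeOp x i (op t x (q.put (q.pos - 0 + 0)) f) F = _
    rw [Nat.sub_zero, Nat.add_zero, put_pos]
    exact this
  | cr i b =>
    have hpq' : i + 2 ≤ q.pos := hpq
    obtain ⟨j, hj⟩ : ∃ j, q.pos = j + 2 := ⟨q.pos - 2, by omega⟩
    have e : q.put (j + 2) = q := by rw [← hj, put_pos]
    show al t b * op t x (q.put (q.pos - 2 + 2)) f F -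
      al t (!b) * deathOp t x i (birthOp t x i (op t x (q.put (q.pos - 2 + 2)) f)) F =
      op t x q (fun F => al t b * f F - al t (!b) * deathOp t x i (birthOp t x i f) F) F
    rw [hj, Nat.add_sub_cancel, e]
    rw [op_sub]
    congr 2
    have h2 := far_death (t := t) x i j q (birthOp t x i f) F (by omega) (by omega)
    rw [e] at h2
    rw [← h2]
    obtain ⟨m, hm⟩ : ∃ m, F.length = m + 2 := ⟨F.length - 2, by omega⟩
    apply deathOp_congr t x i _ _ m ?_ F hF hm
    intro K hK hKl
    have h1 := far_birth (t := t) x i j q f K (by omega) (by omega)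
    rw [e] at h1
    exact h1

end Pool.Agent.H560R3.TG
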