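import Pool.Agent.H560R3.TG.Inv

/-! Invariance under slides over the 2-handles. -/

set_option autoImplicit false

namespace Pool.Agent.H560R3.TG

variable {t : ℝ}

/-- the monodromy of a strand around the strands on its right -/
noncomputable def mu (t : ℝ) (x y : ℕ) : ℝ :=
  if x = y + 1 then (t ^ 2) ^ y else ((t⁻¹) ^ 2) ^ (y + 2)

theorem goRight_sh (b : Bool) (i k : ℕ) : goRight b (i + 1) k = (goRight b i k).map sh := by
  induction k generalizing i with
  | zero => rfl
  | succ k ih => simp only [goRight, List.map_cons]; rw [ih (i + 1)]; rfl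

theorem goLeft_sh (b : Bool) (i k : ℕ) : goLeft b (i + 1) k = (goLeft b i k).map sh := by
  induction k generalizing i with
  | zero => rfl
  | succ k ih => simp only [goLeft, List.map_append]; rw [ih (i + 1)]; rfl

theorem WF_goRight (b : Bool) (i k n : ℕ) (h : i + 1 + k ≤ n) : WF n (goRight b i k) n := by
  induction k generalizing i with
  | zero => rfl
  | succ k ih => exact ⟨by omega, ih (i + 1) (by omega)⟩

theorem WF_goLeft (b : Bool) (i k n : ℕ) (h : i + 1 + k ≤ n) : WF n (goLeft b i k) n := by
  induction k generalizing i with
  | zero => rfl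
  | succ k ih =>
    refine (WF_append _ _ _ _).2 ⟨n, ih (i + 1) (by omega), by omega, rfl⟩

theorem mono (ht : 0 < t) (h1 : t ≠ 1) (k : ℕ) (x y : ℕ) (f : Fn) (F : List ℕ)
    (hF : Good x (y :: F)) (hk : F.length = k) :
    opW t x (goRight true 0 k ++ goLeft true 0 k) f (y :: F) = mu t x y * f (y :: F) := by
  induction k generalizing x y f F with
  | zero =>
    have : F = [] := by simpa using hk
    subst this
    obtain ⟨hxy, hy⟩ := hF
    have hy : y = 0 := hy
    subst hy
    have hx : x = 1 := by
      rcases hxy with h | h <;> omega
    subst hx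
    simp [goRight, goLeft, opW, mu]
  | succ k ih =>
    rcases F with _ | ⟨z, F⟩
    · simp at hk
    · have hw : goRight true 0 (k + 1) ++ goLeft true 0 (k + 1) =
          .cr 0 true :: ((goRight true 0 k ++ goLeft true 0 k).map sh ++ [.cr 0 true]) := by
        simp [goRight, goLeft, goRight_sh, goLeft_sh]
      rw [hw]
      simp only [opW]
      rw [opW_append]
      simp only [opW]
      set h : Fn := op t x (.cr 0 true) f with hh
      have hk' : F.length = k := by simpa using hk
      -- the operator in the middle is diagonal
      have hM : ∀ w, Nb x w → Good w (z :: F) →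
          opW t x ((goRight true 0 k ++ goLeft true 0 k).map sh) h (w :: z :: F) =
            mu t w z * h (w :: z :: F) := by
        intro w _ hg
        rw [opW_sh]
        exact ih w z (fun K => h (w :: K)) F hg hk'
      have hts : t * t⁻¹ = 1 := mul_inv_cancel₀ ht.ne'
      show al t true * opW t x ((goRight true 0 k ++ goLeft true 0 k).map sh) h (y :: z :: F) -
        al t (!true) * deathOp t x 0 (birthOp t x 0
          (opW t x ((goRight true 0 k ++ goLeft true 0 k).map sh) h)) (y :: z :: F) = _
      rw [hM y hF.1 hF.2]
      by_cases hzx : z = x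
      · subst hzx
        have hgF : Good z F := hF.2.2
        have hNy : Nb z y := hF.1
        have hall : ∀ w, Nb z w → Good w (z :: F) := by
          intro w hw
          refine ⟨?_, hgF⟩
          rcases hw with h | h
          · exact Or.inr h
          · exact Or.inl h
        have hcr : ∀ w, Nb z w → h (w :: z :: F) = t * f (w :: z :: F) -
            t⁻¹ * ((dl t z)⁻¹ * nbs t z (fun v => f (v :: z :: F))) := by
          intro w hw
          show al t true * f (w :: z :: F) - al t (!true) * deathOp t z 0 (birthOp t z 0 f)
            (w :: z :: F) = _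
          simp [deathOp, birthOp, al, hw]
        have e1 : deathOp t z 0 (birthOp t z 0 (opW t z ((goRight true 0 k ++
            goLeft true 0 k).map sh) h)) (y :: z :: F) =
            (dl t z)⁻¹ * nbs t z (fun w => mu t w z * (t * f (w :: z :: F) -
              t⁻¹ * ((dl t z)⁻¹ * nbs t z (fun v => f (v :: z :: F))))) := by
          simp only [deathOp, birthOp]
          rw [if_pos ⟨trivial, hNy⟩]
          congr 1
          apply nbs_congr
          intro w hw
          rw [hM w hw (hall w hw), hcr w hw]
        rw [e1, hcr y hNy]
        set N := nbs t z (fun v => f (v :: z :: F)) with hN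
        -- closed forms
        set s := t⁻¹ with hs
        set P := (t ^ 2) ^ z with hP
        set R := (s ^ 2) ^ z with hR
        have hPR : P * R = 1 := by
          rw [hP, hR, ← mul_pow, ← mul_pow, hts, one_pow, one_pow]
        set d := dl t z with hd
        have hd0 : d ≠ 0 := (dl_pos ht z).ne'
        set w := t ^ 2 - s ^ 2 with hw
        have hw0 : w ≠ 0 := by
          intro h0
          have h2 : t ^ 2 = s ^ 2 := by linarith
          have hs0 : 0 < s := inv_pos.2 ht
          have h3 : t = s := by
            have := sq_eq_sq₀ ht.le hs0.le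
            exact this.1 h2
          apply h1
          rw [← h3] at hts
          nlinarith
        have c0 : w * d = P * t ^ 2 - R * s ^ 2 := by
          rw [hw, hd, hs, dl_closed ht z, hP, hR]
          ring
        have c1 : w * dl t (z + 1) = P * t ^ 4 - R * s ^ 4 := by
          rw [hw, hs, dl_closed ht (z + 1), hP, hR]
          ring
        obtain ⟨dm, hdm, cm⟩ : ∃ dm : ℝ, (∀ g : ℕ → ℝ, nbs t z g =
            dl t (z + 1) * g (z + 1) + dm * g (z - 1)) ∧ w * dm = P - R := by
          rcases z with _ | z
          · refine ⟨0, ?_, ?_⟩
            · intro g; simp [nbs]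
            · simp [hP, hR]
          · refine ⟨dl t z, ?_, ?_⟩
            · intro g; simp [nbs]
            · rw [hw, hs, dl_closed ht z, hP, hR]
              ring
        set dp := dl t (z + 1) with hdp
        have m1 : mu t (z + 1) z = P := by simp [mu, hP]
        have hdmQ : ∀ X : ℝ, dm * (mu t (z - 1) z * X) = dm * (R * s ^ 4 * X) := by
          intro X
          rcases z with _ | z
          · have : w * dm = 0 := by rw [cm, hP, hR]; simp
            have : dm = 0 := by
              rcases mul_eq_zero.1 this with h | h
              · exact absurd h hw0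
              · exact h
            rw [this]; simp
          · have : mu t (z + 1 - 1) (z + 1) = R * s ^ 4 := by
              have hne : ¬ (z + 1 - 1 = z + 1 + 1) := by omega
              unfold mu
              rw [if_neg hne, hR]
              ring
            rw [this]
        have hts2 : t ^ 2 * s ^ 2 = 1 := by rw [← mul_pow, hts, one_pow]
        -- the key identities
        have K1 : s ^ 2 * (dp * P + dm * (R * s ^ 4)) = d * (P + R * s ^ 4) := by
          apply mul_left_cancel₀ hw0
          have : w * (s ^ 2 * (dp * P + dm * (R * s ^ 4))) =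
            s ^ 2 * ((w * dp) * P + (w * dm) * (R * s ^ 4)) := by ring
          rw [this, c1, cm]
          have : w * (d * (P + R * s ^ 4)) = (w * d) * (P + R * s ^ 4) := by ring
          rw [this, c0]
          linear_combination (P ^ 2 * t ^ 2 - P * R * s ^ 2) * hts2
        rw [hdm] at hN ⊢
        have hNN : N = dp * f ((z + 1) :: z :: F) + dm * f ((z - 1) :: z :: F) := hN
        rw [m1, hdmQ]
        have hal1 : al t true = t := rfl
        have hal2 : al t (!true) = s := rfl
        rw [hal1, hal2]
        rcases hNy with hy | hy
        · subst hy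
          have m2 : mu t z (z + 1) = R * s ^ 6 := by
            have hne : ¬ (z = z + 1 + 1) := by omega
            unfold mu
            rw [if_neg hne, hR]
            ring
          rw [m1, m2]
          have K2 : t ^ 2 * P * d + dp * (R * s ^ 4 - P) = R * s ^ 6 * d := by
            apply mul_left_cancel₀ hw0
            have e1 : w * (t ^ 2 * P * d + dp * (R * s ^ 4 - P)) =
              t ^ 2 * P * (w * d) + (w * dp) * (R * s ^ 4 - P) := by ring
            have e2 : w * (R * s ^ 6 * d) = R * s ^ 6 * (w * d) := by ring
            rw [e1, e2, c0, c1]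
            have q4 : t ^ 4 * s ^ 4 = 1 := by
              have : t ^ 4 * s ^ 4 = (t ^ 2 * s ^ 2) ^ 2 := by ring
              rw [this, hts2, one_pow]
            have e3 : s ^ 6 * t ^ 2 = s ^ 4 := by
              have : s ^ 6 * t ^ 2 = s ^ 4 * (t ^ 2 * s ^ 2) := by ring
              rw [this, hts2, mul_one]
            linear_combination (-(P * R)) * hts2 + (P * R) * q4 + (- P * R) * e3
          set fp := f ((z + 1) :: z :: F)
          set fm := f ((z - 1) :: z :: F)
          have goal1 : d ^ 2 * (t * (P * (t * fp - s * (d⁻¹ * N))) - s * (d⁻¹ * (dp * (P * (t * fp -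
              s * (d⁻¹ * N))) + dm * (R * s ^ 4 * (t * fm - s * (d⁻¹ * N)))))) =
              d ^ 2 * (R * s ^ 6 * fp) := by
            have hdd : d * d⁻¹ = 1 := mul_inv_cancel₀ hd0
            have exp1 : d ^ 2 * (t * (P * (t * fp - s * (d⁻¹ * N))) - s * (d⁻¹ * (dp * (P * (t * fp -
              s * (d⁻¹ * N))) + dm * (R * s ^ 4 * (t * fm - s * (d⁻¹ * N)))))) =
              t ^ 2 * P * d ^ 2 * fp - (t * s) * P * d * (d * d⁻¹) * N - (t * s) * d * (d * d⁻¹) *
                (dp * P * fp + dm * (R * s ^ 4) * fm) + (d * d⁻¹) ^ 2 * (s ^ 2 * (dp * P +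
                dm * (R * s ^ 4))) * N := by ring
            rw [exp1, hdd, hts, K1, hNN]
            linear_combination (d * fp) * K2
          exact mul_left_cancel₀ (pow_ne_zero 2 hd0) goal1
        · obtain ⟨z, rfl⟩ : ∃ v, z = v + 1 := ⟨z - 1, by omega⟩
          have hyz : y = z := by omega
          subst hyz
          have m2 : mu t (y + 1) y = P * s ^ 2 := by
            have : mu t (y + 1) y = (t ^ 2) ^ y := by simp [mu]
            rw [this, hP]
            have e3 : (t ^ 2) ^ (y + 1) * s ^ 2 = (t ^ 2) ^ y * (t ^ 2 * s ^ 2) := by
              rw [pow_succ (t ^ 2) y]; ring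
            rw [e3, hts2, mul_one]
          have m3 : mu t y (y + 1) = R * s ^ 4 := by
            have hne : ¬ (y = y + 1 + 1) := by omega
            unfold mu
            rw [if_neg hne, hR]
            ring
          rw [m2, m3]
          have K3 : t ^ 2 * (R * s ^ 4) * d + dm * (P - R * s ^ 4) = P * s ^ 2 * d := by
            apply mul_left_cancel₀ hw0
            have e1 : w * (t ^ 2 * (R * s ^ 4) * d + dm * (P - R * s ^ 4)) =
              t ^ 2 * (R * s ^ 4) * (w * d) + (w * dm) * (P - R * s ^ 4) := by ring
            have e2 : w * (P * s ^ 2 * d) = P * s ^ 2 * (w * d) := by ring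
            rw [e1, e2, c0, cm]
            linear_combination (P * R * (t ^ 2 * s ^ 2 + 1) - R ^ 2 * s ^ 4 - P ^ 2) * hts2
          have hsub : y + 1 - 1 = y := by omega
          rw [hsub] at hNN
          simp only [hsub]
          set fp := f ((y + 1 + 1) :: (y + 1) :: F)
          set fm := f (y :: (y + 1) :: F)
          have goal1 : d ^ 2 * (t * (R * s ^ 4 * (t * fm - s * (d⁻¹ * N))) - s * (d⁻¹ * (dp * (P * (t * fp -
              s * (d⁻¹ * N))) + dm * (R * s ^ 4 * (t * fm - s * (d⁻¹ * N)))))) =
              d ^ 2 * (P * s ^ 2 * fm) := by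
            have hdd : d * d⁻¹ = 1 := mul_inv_cancel₀ hd0
            have exp1 : d ^ 2 * (t * (R * s ^ 4 * (t * fm - s * (d⁻¹ * N))) - s * (d⁻¹ * (dp * (P * (t * fp -
              s * (d⁻¹ * N))) + dm * (R * s ^ 4 * (t * fm - s * (d⁻¹ * N)))))) =
              t ^ 2 * (R * s ^ 4) * d ^ 2 * fm - (t * s) * (R * s ^ 4) * d * (d * d⁻¹) * N -
                (t * s) * d * (d * d⁻¹) *
                (dp * P * fp + dm * (R * s ^ 4) * fm) + (d * d⁻¹) ^ 2 * (s ^ 2 * (dp * P +
                dm * (R * s ^ 4))) * N := by ring
            rw [exp1, hdd, hts, K1, hNN]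
            linear_combination (d * fm) * K3
          exact mul_left_cancel₀ (pow_ne_zero 2 hd0) goal1
      · have e1 : deathOp t x 0 (birthOp t x 0 (opW t x ((goRight true 0 k ++
            goLeft true 0 k).map sh) h)) (y :: z :: F) = 0 := by
          simp only [deathOp]
          rw [if_neg (fun h => hzx h.1)]
        have e2 : h (y :: z :: F) = t * f (y :: z :: F) := by
          show al t true * f (y :: z :: F) - al t (!true) * deathOp t x 0 (birthOp t x 0 f)
            (y :: z :: F) = _
          simp only [deathOp]
          rw [if_neg (fun h => hzx h.1)]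
          simp [al]
        rw [e1, e2]
        obtain ⟨hxy, hyz, _⟩ := hF
        have hal1 : al t true = t := rfl
        rw [hal1]
        rcases hxy with hxy | hxy <;> rcases hyz with hyz | hyz
        · subst hxy; subst hyz
          have n1 : ¬ (x + 1 = x + 1 + 1 + 1) := by omega
          have n2 : ¬ (x = x + 1 + 1) := by omega
          unfold mu
          rw [if_neg n1, if_neg n2]
          have hts2 : t ^ 2 * (t⁻¹) ^ 2 = 1 := by rw [← mul_pow, hts, one_pow]
          linear_combination ((t⁻¹ ^ 2) ^ (x + 1 + 2) * f ((x + 1) :: (x + 1 + 1) :: F)) * hts2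
        · exact absurd (by omega) hzx
        · exact absurd (by omega) hzx
        · subst hxy; subst hyz
          unfold mu
          rw [if_pos rfl, if_pos rfl]
          ring

end Pool.Agent.H560R3.TG
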