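import Pool.Agent.H560R3.TG.Defs

/-! Labelled diagrams: basic operations. -/

set_option autoImplicit false

namespace Pool.Agent.H560R3.TG

variable {S G S' G' : Type}

theorem cur_append (a : G) (F K : List (S × G)) : cur a (F ++ K) = cur (cur a F) K := by
  induction F generalizing a with
  | nil => rfl
  | cons p F ih => exact ih p.2

/-- the label of the gap on the right of the piece -/
def Loc.right (x : G) : Loc S G → G
  | .cr _ _ _ _ _ _ _ z => z
  | _ => x

theorem cur_src (x : G) (p : Loc S G) : cur x (p.src x) = p.right x := by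
  cases p <;> rfl

theorem cur_tgt (x : G) (p : Loc S G) : cur x (p.tgt x) = p.right x := by
  cases p <;> rfl

/-! ### transformation of the labels -/

def trF (φ : S → G → G → S') (ψ : G → G') : G → List (S × G) → List (S' × G')
  | _, [] => []
  | a, (s, g) :: F => (φ s a g, ψ g) :: trF φ ψ g F

def Loc.tr (φ : S → G → G → S') (ψ : G → G') (x : G) : Loc S G → Loc S' G'
  | .birth s y => .birth (φ s x y) (ψ y)
  | .death s y => .death (φ s x y) (ψ y)
  | .cr b s₁ y s₂ t₁ y' t₂ z =>
    .cr b (φ s₁ x y) (ψ y) (φ s₂ y z) (φ t₁ x y') (ψ y') (φ t₂ y' z) (ψ z)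
  | .hole => .hole

def Slice.tr (φ : S → G → G → S') (ψ : G → G') (a : G) (s : Slice S G) : Slice S' G' :=
  ⟨trF φ ψ a s.L, s.p.tr φ ψ (cur a s.L), trF φ ψ (s.p.right (cur a s.L)) s.R⟩

/-- new labels of the strands (they may depend on the labels of the neighbouring gaps) and gaps -/
def trE (φ : S → G → G → S') (ψ : G → G') (a : G) (E : List (Slice S G)) : List (Slice S' G') :=
  E.map (Slice.tr φ ψ a)

theorem trF_append (φ : S → G → G → S') (ψ : G → G') (a : G) (F K : List (S × G)) :
    trF φ ψ a (F ++ K) = trF φ ψ a F ++ trF φ ψ (cur a F) K := by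
  induction F generalizing a with
  | nil => rfl
  | cons p F ih => simp only [List.cons_append, trF]; rw [ih]; rfl

theorem trF_length (φ : S → G → G → S') (ψ : G → G') (a : G) (F : List (S × G)) :
    (trF φ ψ a F).length = F.length := by
  induction F generalizing a with
  | nil => rfl
  | cons p F ih => simp only [trF, List.length_cons, ih]

theorem cur_trF (φ : S → G → G → S') (ψ : G → G') (a : G) (F : List (S × G)) :
    cur (ψ a) (trF φ ψ a F) = ψ (cur a F) := by
  induction F generalizing a with
  | nil => rfl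
  | cons p F ih => exact ih p.2

def Sym (φ : S → G → G → S') : Prop := ∀ s x y, φ s x y = φ s y x

theorem src_tr {φ : S → G → G → S'} (h : Sym φ) (ψ : G → G') (a : G) (s : Slice S G) :
    (s.tr φ ψ a).src (ψ a) = trF φ ψ a (s.src a) := by
  obtain ⟨L, p, R⟩ := s
  simp only [Slice.src, Slice.tr, trF_append, cur_trF, cur_append, cur_src]
  congr 2
  cases p with
  | death s y => simp only [Loc.tr, Loc.src, trF, h s (cur a L) y]
  | _ => rfl

theorem tgt_tr {φ : S → G → G → S'} (h : Sym φ) (ψ : G → G') (a : G) (s : Slice S G) :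
    (s.tr φ ψ a).tgt (ψ a) = trF φ ψ a (s.tgt a) := by
  obtain ⟨L, p, R⟩ := s
  simp only [Slice.tgt, Slice.tr, trF_append, cur_trF, cur_append, cur_tgt]
  congr 2
  cases p with
  | birth s y => simp only [Loc.tr, Loc.tgt, trF, h s (cur a L) y]
  | _ => rfl

theorem plain_tr (φ : S → G → G → S') (ψ : G → G') (a : G) (s : Slice S G) :
    (s.tr φ ψ a).plain = s.plain := by
  obtain ⟨L, p, R⟩ := s
  cases p <;> simp [Slice.plain, Slice.tr, Loc.tr, trF_length]

theorem plain_trE (φ : S → G → G → S') (ψ : G → G') (a : G) (E : List (Slice S G)) :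
    (trE φ ψ a E).map Slice.plain = E.map Slice.plain := by
  simp only [trE, List.map_map]
  congr 1
  funext s
  exact plain_tr φ ψ a s

theorem path_tr {φ : S → G → G → S'} (h : Sym φ) (ψ : G → G') (a : G) (F F' : List (S × G))
    (E : List (Slice S G)) (hE : Path a F E F') :
    Path (ψ a) (trF φ ψ a F) (trE φ ψ a E) (trF φ ψ a F') := by
  induction E generalizing F with
  | nil =>
    have : F = F' := hE
    subst this
    rfl
  | cons s E ih =>
    obtain ⟨h1, h2⟩ := hE
    refine ⟨?_, ?_⟩
    · rw [src_tr h, h1]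
    · rw [tgt_tr h]
      exact ih _ h2

theorem labelling_tr {φ : S → G → G → S'} (h : Sym φ) (ψ : G → G') {a : G} {E : List (Slice S G)}
    {D : List Piece} (hE : Labelling a E D) : Labelling (ψ a) (trE φ ψ a E) D :=
  ⟨path_tr h ψ a [] [] E hE.1, by rw [plain_trE]; exact hE.2⟩

theorem holeLabels_tr (φ : S → G → G → S') (ψ : G → G') (a : G) (E : List (Slice S G)) :
    holeLabels (ψ a) (trE φ ψ a E) = (holeLabels a E).map ψ := by
  induction E with
  | nil => rfl
  | cons s E ih =>
    obtain ⟨L, p, R⟩ := s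
    have ih' : holeLabels (ψ a) (List.map (Slice.tr φ ψ a) E) = (holeLabels a E).map ψ := ih
    cases p <;>
      simp only [trE, List.map_cons, Slice.tr, Loc.tr, holeLabels, cur_trF, ih']

theorem holeLabels_append (a : G) (E E' : List (Slice S G)) :
    holeLabels a (E ++ E') = holeLabels a E ++ holeLabels a E' := by
  induction E with
  | nil => rfl
  | cons s E ih =>
    obtain ⟨L, p, R⟩ := s
    cases p <;> simp only [List.cons_append, holeLabels, ih]

/-! ### paths -/

theorem path_append (a : G) (E E' : List (Slice S G)) (F F' : List (S × G)) :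
    Path a F (E ++ E') F' ↔ ∃ K, Path a F E K ∧ Path a K E' F' := by
  induction E generalizing F with
  | nil =>
    simp only [List.nil_append, Path]
    exact ⟨fun h => ⟨F, rfl, h⟩, fun ⟨K, h1, h2⟩ => h1 ▸ h2⟩
  | cons s E ih =>
    simp only [List.cons_append, Path, ih]
    constructor
    · rintro ⟨h1, K, h2, h3⟩; exact ⟨K, ⟨h1, h2⟩, h3⟩
    · rintro ⟨K, ⟨h1, h2⟩, h3⟩; exact ⟨h1, K, h2, h3⟩

theorem cur_slice (a : G) (s : Slice S G) : cur a (s.src a) = cur a (s.tgt a) := by
  obtain ⟨L, p, R⟩ := s
  simp only [Slice.src, Slice.tgt, cur_append, cur_src, cur_tgt]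

theorem cur_path (a : G) (E : List (Slice S G)) (F F' : List (S × G)) (h : Path a F E F') :
    cur a F = cur a F' := by
  induction E generalizing F with
  | nil => rw [show F = F' from h]
  | cons s E ih =>
    obtain ⟨h1, h2⟩ := h
    rw [← h1, cur_slice]
    exact ih _ h2

/-- splitting a labelled word at a decomposition of the plain word -/
theorem split_plain (E : List (Slice S G)) (u v : List Piece) (h : E.map Slice.plain = u ++ v) :
    ∃ Eu Ev, E = Eu ++ Ev ∧ Eu.map Slice.plain = u ∧ Ev.map Slice.plain = v := by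
  obtain ⟨Eu, Ev, h1, h2, h3⟩ := List.map_eq_append_iff.1 h
  exact ⟨Eu, Ev, h1, h2, h3⟩

theorem plain_cr (s : Slice S G) (i : ℕ) (b : Bool) (h : s.plain = .cr i b) :
    ∃ L R s₁ y s₂ t₁ y' t₂ z, s = ⟨L, .cr b s₁ y s₂ t₁ y' t₂ z, R⟩ ∧ L.length = i := by
  obtain ⟨L, p, R⟩ := s
  cases p with
  | cr b' s₁ y s₂ t₁ y' t₂ z =>
    simp only [Slice.plain, Piece.cr.injEq] at h
    obtain ⟨h1, rfl⟩ := h
    exact ⟨L, R, s₁, y, s₂, t₁, y', t₂, z, rfl, h1⟩
  | _ => simp [Slice.plain] at h

theorem plain_death (s : Slice S G) (i : ℕ) (h : s.plain = .death i) :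
    ∃ L R u y, s = ⟨L, .death u y, R⟩ ∧ L.length = i := by
  obtain ⟨L, p, R⟩ := s
  cases p with
  | death u y => simp only [Slice.plain, Piece.death.injEq] at h; exact ⟨L, R, u, y, rfl, h⟩
  | _ => simp [Slice.plain] at h

theorem plain_birth (s : Slice S G) (i : ℕ) (h : s.plain = .birth i) :
    ∃ L R u y, s = ⟨L, .birth u y, R⟩ ∧ L.length = i := by
  obtain ⟨L, p, R⟩ := s
  cases p with
  | birth u y => simp only [Slice.plain, Piece.birth.injEq] at h; exact ⟨L, R, u, y, rfl, h⟩
  | _ => simp [Slice.plain] at h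

theorem plain_hole (s : Slice S G) (i : ℕ) (h : s.plain = .hole i) :
    ∃ L R, s = ⟨L, .hole, R⟩ ∧ L.length = i := by
  obtain ⟨L, p, R⟩ := s
  cases p with
  | hole => simp only [Slice.plain, Piece.hole.injEq] at h; exact ⟨L, R, rfl, h⟩
  | _ => simp [Slice.plain] at h

theorem split_len {α : Type} (F : List α) (i : ℕ) (h : i ≤ F.length) :
    ∃ L R, F = L ++ R ∧ L.length = i :=
  ⟨F.take i, F.drop i, (List.take_append_drop i F).symm, by simp [h]⟩

theorem split_len2 {α : Type} (F : List α) (i : ℕ) (h : i + 2 ≤ F.length) :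
    ∃ L p q R, F = L ++ p :: q :: R ∧ L.length = i := by
  obtain ⟨L, R, rfl, hL⟩ := split_len F i (by omega)
  rw [List.length_append, hL] at h
  rcases R with _ | ⟨p, _ | ⟨q, R⟩⟩
  · simp at h
  · simp at h
  · exact ⟨L, p, q, R, rfl, hL⟩

/-! ### product of labellings -/

def zipF : List (S × G) → List (S' × G') → List ((S × S') × (G × G'))
  | (s, g) :: F, (s', g') :: F' => ((s, s'), (g, g')) :: zipF F F'
  | _, _ => []

def Loc.zip : Loc S G → Loc S' G' → Loc (S × S') (G × G')
  | .birth s y, .birth s' y' => .birth (s, s') (y, y')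
  | .death s y, .death s' y' => .death (s, s') (y, y')
  | .cr b s₁ y s₂ t₁ y' t₂ z, .cr _ s₁' yy s₂' t₁' yy' t₂' z' =>
    .cr b (s₁, s₁') (y, yy) (s₂, s₂') (t₁, t₁') (y', yy') (t₂, t₂') (z, z')
  | _, _ => .hole

def Slice.zip (s : Slice S G) (s' : Slice S' G') : Slice (S × S') (G × G') :=
  ⟨zipF s.L s'.L, s.p.zip s'.p, zipF s.R s'.R⟩

def zipE (E : List (Slice S G)) (E' : List (Slice S' G')) : List (Slice (S × S') (G × G')) :=
  List.zipWith Slice.zip E E'

theorem zipF_append (F K : List (S × G)) (F' K' : List (S' × G')) (h : F.length = F'.length) :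
    zipF (F ++ K) (F' ++ K') = zipF F F' ++ zipF K K' := by
  induction F generalizing F' with
  | nil =>
    rcases F' with _ | ⟨p, F'⟩
    · rfl
    · simp at h
  | cons p F ih =>
    rcases F' with _ | ⟨p', F'⟩
    · simp at h
    · simp only [List.cons_append, zipF]
      rw [ih F' (by simpa using h)]

theorem zipF_length (F : List (S × G)) (F' : List (S' × G')) (h : F.length = F'.length) :
    (zipF F F').length = F.length := by
  induction F generalizing F' with
  | nil =>
    rcases F' with _ | ⟨p, F'⟩
    · rfl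
    · simp at h
  | cons p F ih =>
    rcases F' with _ | ⟨p', F'⟩
    · simp at h
    · simp only [zipF, List.length_cons]
      rw [ih F' (by simpa using h)]

theorem cur_zipF (a : G) (a' : G') (F : List (S × G)) (F' : List (S' × G'))
    (h : F.length = F'.length) : cur (a, a') (zipF F F') = (cur a F, cur a' F') := by
  induction F generalizing a a' F' with
  | nil =>
    rcases F' with _ | ⟨p, F'⟩
    · rfl
    · simp at h
  | cons p F ih =>
    rcases F' with _ | ⟨p', F'⟩
    · simp at h
    · exact ih p.2 p'.2 F' (by simpa using h)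

/-- two slices with the same shape -/
def SameShape (s : Slice S G) (s' : Slice S' G') : Prop :=
  s.plain = s'.plain ∧ s.L.length = s'.L.length

theorem same_shape {s : Slice S G} {s' : Slice S' G'} (h : s.plain = s'.plain) :
    s.L.length = s'.L.length := by
  obtain ⟨L, p, R⟩ := s
  obtain ⟨L', p', R'⟩ := s'
  cases p <;> cases p' <;> simp_all [Slice.plain]

theorem zip_src (a : G) (a' : G') (s : Slice S G) (s' : Slice S' G') (h : s.plain = s'.plain) :
    (s.zip s').src (a, a') = zipF (s.src a) (s'.src a') := by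
  have hl := same_shape h
  obtain ⟨L, p, R⟩ := s
  obtain ⟨L', p', R'⟩ := s'
  simp only at hl
  cases p <;> cases p' <;> simp only [Slice.plain, reduceCtorEq] at h <;>
    simp only [Slice.src, Slice.zip, Loc.zip, Loc.src, cur_zipF a a' L L' hl, List.append_assoc,
      List.nil_append, List.cons_append, zipF_append L _ L' _ hl, zipF]

theorem zip_tgt (a : G) (a' : G') (s : Slice S G) (s' : Slice S' G') (h : s.plain = s'.plain) :
    (s.zip s').tgt (a, a') = zipF (s.tgt a) (s'.tgt a') := by
  have hl := same_shape h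
  obtain ⟨L, p, R⟩ := s
  obtain ⟨L', p', R'⟩ := s'
  simp only at hl
  cases p <;> cases p' <;> simp only [Slice.plain, reduceCtorEq] at h <;>
    simp only [Slice.tgt, Slice.zip, Loc.zip, Loc.tgt, cur_zipF a a' L L' hl, List.append_assoc,
      List.nil_append, List.cons_append, zipF_append L _ L' _ hl, zipF]

theorem zip_plain (s : Slice S G) (s' : Slice S' G') (h : s.plain = s'.plain) :
    (s.zip s').plain = s.plain := by
  have hl := same_shape h
  obtain ⟨L, p, R⟩ := s
  obtain ⟨L', p', R'⟩ := s'
  simp only at hl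
  cases p <;> cases p' <;> simp only [Slice.plain, reduceCtorEq] at h <;>
    simp [Slice.plain, Slice.zip, Loc.zip, zipF_length L L' hl]

theorem path_zip (a : G) (a' : G') (E : List (Slice S G)) (E' : List (Slice S' G'))
    (hp : E.map Slice.plain = E'.map Slice.plain) (F K : List (S × G)) (F' K' : List (S' × G'))
    (h : Path a F E K) (h' : Path a' F' E' K') :
    Path (a, a') (zipF F F') (zipE E E') (zipF K K') := by
  induction E generalizing E' F F' with
  | nil =>
    rcases E' with _ | ⟨s', E'⟩
    · have h1 : F = K := h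
      have h2 : F' = K' := h'
      subst h1; subst h2; rfl
    · simp at hp
  | cons s E ih =>
    rcases E' with _ | ⟨s', E'⟩
    · simp at hp
    · simp only [List.map_cons, List.cons.injEq] at hp
      obtain ⟨h1, h2⟩ := h
      obtain ⟨h1', h2'⟩ := h'
      refine ⟨?_, ?_⟩
      · rw [zip_src a a' s s' hp.1, h1, h1']
      · rw [zip_tgt a a' s s' hp.1]
        exact ih E' hp.2 _ _ h2 h2'

theorem zip_plainE (E : List (Slice S G)) (E' : List (Slice S' G'))
    (hp : E.map Slice.plain = E'.map Slice.plain) :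
    (zipE E E').map Slice.plain = E.map Slice.plain := by
  induction E generalizing E' with
  | nil => rfl
  | cons s E ih =>
    rcases E' with _ | ⟨s', E'⟩
    · simp at hp
    · simp only [List.map_cons, List.cons.injEq] at hp
      simp only [zipE, List.zipWith_cons_cons, List.map_cons]
      rw [zip_plain s s' hp.1]
      congr 1
      exact ih E' hp.2

theorem zipE_append (E E₁ : List (Slice S G)) (E' E₁' : List (Slice S' G'))
    (hp : E.length = E'.length) :
    zipE (E ++ E₁) (E' ++ E₁') = zipE E E' ++ zipE E₁ E₁' :=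
  List.zipWith_append hp

theorem labelling_zip {a : G} {a' : G'} {E : List (Slice S G)} {E' : List (Slice S' G')}
    {D : List Piece} (h : Labelling a E D) (h' : Labelling a' E' D) :
    Labelling (a, a') (zipE E E') D :=
  ⟨path_zip a a' E E' (h.2.trans h'.2.symm) [] [] [] [] h.1 h'.1,
    (zip_plainE E E' (h.2.trans h'.2.symm)).trans h.2⟩

theorem zip_same {s : Slice S G} {s' : Slice S' G'} (h : s.p.Same) (h' : s'.p.Same) :
    (s.zip s').p.Same := by
  obtain ⟨L, p, R⟩ := s
  obtain ⟨L', p', R'⟩ := s'
  cases p <;> cases p' <;> try exact trivial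
  obtain ⟨h1, h2, h3⟩ := h
  obtain ⟨h1', h2', h3'⟩ := h'
  refine ⟨?_, ?_, ?_⟩
  · exact Prod.ext h1 h1'
  · exact Prod.ext h2 h2'
  · exact Prod.ext h3 h3'

theorem mem_zipE {E : List (Slice S G)} {E' : List (Slice S' G')} {s : Slice (S × S') (G × G')}
    (h : s ∈ zipE E E') : ∃ r ∈ E, ∃ r' ∈ E', s = r.zip r' := by
  induction E generalizing E' with
  | nil => simp [zipE] at h
  | cons r E ih =>
    rcases E' with _ | ⟨r', E'⟩
    · simp [zipE] at h
    · simp only [zipE, List.zipWith_cons_cons, List.mem_cons] at h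
      rcases h with h | h
      · exact ⟨r, by simp, r', by simp, h⟩
      · obtain ⟨x, hx, x', hx', e⟩ := ih h
        exact ⟨x, by simp [hx], x', by simp [hx'], e⟩

theorem holeLabels_zip (a : G) (a' : G') (E : List (Slice S G)) (E' : List (Slice S' G'))
    (hp : E.map Slice.plain = E'.map Slice.plain) :
    holeLabels (a, a') (zipE E E') = (holeLabels a E).zip (holeLabels a' E') := by
  induction E generalizing E' with
  | nil =>
    rcases E' with _ | ⟨s', E'⟩
    · rfl
    · simp at hp
  | cons s E ih =>
    rcases E' with _ | ⟨s', E'⟩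
    · simp at hp
    · simp only [List.map_cons, List.cons.injEq] at hp
      have hl := same_shape hp.1
      have ih' := ih E' hp.2
      obtain ⟨L, p, R⟩ := s
      obtain ⟨L', p', R'⟩ := s'
      simp only at hl
      have hpl := hp.1
      cases p <;> cases p' <;> simp only [Slice.plain, reduceCtorEq] at hpl <;>
        simp only [zipE, List.zipWith_cons_cons, Slice.zip, Loc.zip, holeLabels,
          cur_zipF a a' L L' hl, List.zip_cons_cons] <;>
        first
          | exact ih'
          | (congr 1)

end Pool.Agent.H560R3.TG
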