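import Pool.Agent.H560R3.TG.Alpha

/-! Smoothings and labellings of smoothings. -/

set_option autoImplicit false
set_option linter.unusedSimpArgs false

namespace Pool.Agent.H560R3.TG

variable {S G S' G' : Type}

/-- The smoothing of all crossings: for `c = true` the state with the highest power of `t`. -/
def sm (c : Bool) : List Piece → List Piece
  | [] => []
  | .cr i b :: w => if b = c then sm c w else .death i :: .birth i :: sm c w
  | .birth i :: w => .birth i :: sm c w
  | .death i :: w => .death i :: sm c w
  | .hole i :: w => .hole i :: sm c w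

theorem sm_append (c : Bool) (u v : List Piece) : sm c (u ++ v) = sm c u ++ sm c v := by
  induction u with
  | nil => rfl
  | cons p u ih =>
    cases p <;> simp only [List.cons_append, sm, ih]
    split_ifs <;> rfl

theorem crossings_sm (c : Bool) (w : List Piece) : crossings (sm c w) = 0 := by
  induction w with
  | nil => rfl
  | cons p w ih =>
    cases p <;> simp only [sm, crossings, ih]
    split_ifs <;> simp only [crossings, ih]

theorem WF_sm (c : Bool) {n m : ℕ} {w : List Piece} (h : WF n w m) : WF n (sm c w) m := by
  induction w generalizing n with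
  | nil => exact h
  | cons p w ih =>
    cases p with
    | cr i b =>
      obtain ⟨h1, h2⟩ := h
      simp only [sm]
      split_ifs
      · exact ih h2
      · refine ⟨h1, by omega, ?_⟩
        rw [show n - 2 + 2 = n by omega]
        exact ih h2
    | birth i => exact ⟨h.1, ih h.2⟩
    | death i => exact ⟨h.1, ih h.2⟩
    | hole i => exact ⟨h.1, ih h.2⟩

theorem sm_self {w : List Piece} (h : crossings w = 0) (c : Bool) : sm c w = w := by
  induction w with
  | nil => rfl
  | cons p w ih =>
    cases p with
    | cr i b => simp [crossings] at h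
    | birth i => simp only [sm]; rw [ih h]
    | death i => simp only [sm]; rw [ih h]
    | hole i => simp only [sm]; rw [ih h]

/-- the labels of the corners which are merged in the smoothing are equal -/
def Loc.CE (c : Bool) (x : G) : Loc S G → Prop
  | .cr b _ y _ _ y' _ z => (b = c → y = y') ∧ (b ≠ c → x = z)
  | _ => True

def CEs (c : Bool) (a : G) (E : List (Slice S G)) : Prop := ∀ s ∈ E, s.p.CE c (cur a s.L)

theorem lift (c : Bool) (a : G) (w : List Piece) (F F' : List (Unit × G))
    (E : List (Slice Unit G)) (m : ℕ) (hw : WF F.length w m) (hE : Path a F E F')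
    (hpl : E.map Slice.plain = sm c w) :
    ∃ E' : List (Slice Unit G), Path a F E' F' ∧ E'.map Slice.plain = w ∧ CEs c a E' ∧
      holeLabels a E' = holeLabels a E ∧ (∀ ω, Phi c ω a E' = Phi true ω a E) ∧
      (∀ R, AllAdj R a F E → AllAdj R a F E') := by
  induction w generalizing F E with
  | nil =>
    have : E = [] := by simpa [sm] using hpl
    subst this
    exact ⟨[], hE, rfl, by simp [CEs], rfl, fun ω => rfl, fun R h => h⟩
  | cons p w ih =>
    have simple : ∀ (s : Slice Unit G) (E1 : List (Slice Unit G)), E = s :: E1 →
        s.plain = p → (∀ i b, p ≠ .cr i b) → E1.map Slice.plain = sm c w →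
        ∃ E' : List (Slice Unit G), Path a F E' F' ∧ E'.map Slice.plain = p :: w ∧ CEs c a E' ∧
          holeLabels a E' = holeLabels a E ∧ (∀ ω, Phi c ω a E' = Phi true ω a E) ∧
          (∀ R, AllAdj R a F E → AllAdj R a F E') := by
      intro s E1 hEE hs hp hE1
      subst hEE
      obtain ⟨h1, h2⟩ := hE
      have hw1 : WF (s.tgt a).length w m := by
        subst h1
        obtain ⟨L, q, R⟩ := s
        subst hs
        cases q <;> simp [Slice.src, Slice.tgt, Loc.src, Loc.tgt, Slice.plain, WF] at hw ⊢
        · rw [show L.length + (R.length + 1 + 1) = L.length + R.length + 2 by omega]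
          exact hw
        · rw [show L.length + (R.length + 1 + 1) - 2 = L.length + R.length by omega] at hw
          first | exact hw | exact hw.2
        · exact absurd rfl (hp _ _)
        · exact hw
      obtain ⟨E', k1, k2, k3, k4, k5, k6⟩ := ih (s.tgt a) E1 hw1 h2 hE1
      refine ⟨s :: E', ⟨h1, k1⟩, by simp [hs, k2], ?_, ?_, ?_, ?_⟩
      · intro r hr
        rcases List.mem_cons.1 hr with rfl | hr
        · obtain ⟨L, q, R⟩ := r
          cases q with
          | cr b s₁ y s₂ t₁ y' t₂ z => exact absurd hs.symm (hp _ _)
          | _ => trivial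
        · exact k3 r hr
      · obtain ⟨L, q, R⟩ := s
        cases q <;> simp only [holeLabels, k4]
      · intro ω
        obtain ⟨L, q, R⟩ := s
        cases q with
        | cr b s₁ y s₂ t₁ y' t₂ z => exact absurd hs.symm (hp _ _)
        | _ => simp only [Phi, Loc.wt, k5]
      · intro R hR X hX
        simp only [sts, List.map_cons, List.mem_cons] at hX
        have hR' : AllAdj R a (s.tgt a) E1 := by
          intro Y hY
          apply hR
          simp only [sts, List.map_cons, List.mem_cons] at hY ⊢
          tauto
        rcases hX with rfl | hX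
        · apply hR; simp [sts]
        · apply k6 R hR'
          simp only [sts, List.mem_cons]
          exact hX
    cases p with
    | cr i b =>
      obtain ⟨hw1, hw2⟩ := hw
      simp only [sm] at hpl
      split_ifs at hpl with hb
      · -- identity smoothing
        obtain ⟨E', k1, k2, k3, k4, k5, k6⟩ := ih F E hw2 hE hpl
        obtain ⟨L, ⟨⟨⟩, y⟩, ⟨⟨⟩, z⟩, R, rfl, hL⟩ := split_len2 F i hw1
        refine ⟨⟨L, .cr b () y () () y () z, R⟩ :: E', ⟨?_, ?_⟩, ?_, ?_, ?_, ?_, ?_⟩
        · simp [Slice.src, Loc.src]
        · simpa [Slice.tgt, Loc.tgt] using k1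
        · simp [Slice.plain, hL, k2]
        · intro r hr
          rcases List.mem_cons.1 hr with rfl | hr
          · exact ⟨fun _ => rfl, fun h => absurd hb h⟩
          · exact k3 r hr
        · simp only [holeLabels, k4]
        · intro ω
          simp only [Phi, Loc.wt, hb, if_true, k5, zero_add]
        · intro Q hQ X hX
          have h1 := k6 Q hQ
          simp only [sts, List.map_cons, List.mem_cons] at hX
          rcases hX with rfl | rfl | hX
          · apply h1; simp [sts]
          · apply h1; simp [sts, Slice.tgt, Loc.tgt]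
          · apply h1; simp only [sts, List.mem_cons]; exact Or.inr hX
      · obtain ⟨Ep, L, u, y, R, u', y', Es, rfl, h1, hL, h2, h3, h4⟩ :=
          decomp_db a F F' E [] (sm c w) i hE hpl
        have h1' : Ep = [] := by simpa using h1
        subst h1'
        have h3' : F = L ++ (u, y) :: (u, cur a L) :: R := h3
        subst h3'
        cases u; cases u'
        have hw2' : WF (L ++ ((), y') :: ((), cur a L) :: R).length w m := by
          simpa using hw2
        obtain ⟨E', k1, k2, k3, k4, k5, k6⟩ := ih _ Es hw2' h4 h2
        refine ⟨⟨L, .cr b () y () () y' () (cur a L), R⟩ :: E', ⟨?_, ?_⟩, ?_, ?_, ?_, ?_, ?_⟩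
        · simp [Slice.src, Loc.src]
        · simpa [Slice.tgt, Loc.tgt] using k1
        · simp [Slice.plain, hL, k2]
        · intro r hr
          rcases List.mem_cons.1 hr with rfl | hr
          · exact ⟨fun h => absurd h hb, fun _ => rfl⟩
          · exact k3 r hr
        · simp only [holeLabels, k4, List.nil_append]
        · intro ω
          simp only [List.nil_append, Phi, Loc.wt, hb, if_false, k5]
          ring
        · intro Q hQ X hX
          have hQ' : AllAdj Q a (L ++ ((), y') :: ((), cur a L) :: R) Es := by
            intro Y hY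
            apply hQ
            simp only [sts, List.nil_append, List.map_cons, List.mem_cons] at hY ⊢
            rcases hY with rfl | hY
            · right; right; left; simp [Slice.tgt, Loc.tgt]
            · tauto
          have h5 := k6 Q hQ'
          simp only [sts, List.map_cons, List.mem_cons] at hX
          rcases hX with rfl | rfl | hX
          · apply hQ; simp [sts]
          · apply h5; simp [sts, Slice.tgt, Loc.tgt]
          · apply h5; simp only [sts, List.mem_cons]; exact Or.inr hX
    | birth i =>
      obtain ⟨s, E1, rfl, h1, h2⟩ := List.map_eq_cons_iff.1 hpl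
      exact simple s E1 rfl h1 (by simp) h2
    | death i =>
      obtain ⟨s, E1, rfl, h1, h2⟩ := List.map_eq_cons_iff.1 hpl
      exact simple s E1 rfl h1 (by simp) h2
    | hole i =>
      obtain ⟨s, E1, rfl, h1, h2⟩ := List.map_eq_cons_iff.1 hpl
      exact simple s E1 rfl h1 (by simp) h2

theorem drop' (c : Bool) (a : G) (F F' : List (Unit × G))
    (E : List (Slice Unit G)) (hE : Path a F E F') (hce : CEs c a E) :
    ∃ E' : List (Slice Unit G), Path a F E' F' ∧ E'.map Slice.plain = sm c (E.map Slice.plain) ∧
      holeLabels a E' = holeLabels a E ∧ (∀ ω, Phi true ω a E' = Phi c ω a E) ∧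
      (∀ R, AllAdj R a F E → AllAdj R a F E') := by
  induction E generalizing F with
  | nil => exact ⟨[], hE, rfl, rfl, fun ω => rfl, fun R h => h⟩
  | cons s E ih =>
    obtain ⟨h1, h2⟩ := hE
    obtain ⟨E', k1, k2, k3, k4, k5⟩ := ih (s.tgt a) h2 (fun r hr => hce r (by simp [hr]))
    have hs := hce s (by simp)
    have mono : ∀ R, AllAdj R a F (s :: E) → AllAdj R a (s.tgt a) E := by
      intro R hR Y hY
      apply hR
      simp only [sts, List.map_cons, List.mem_cons] at hY ⊢
      tauto
    obtain ⟨L, p, R⟩ := s
    cases p with
    | cr b s₁ y s₂ t₁ y' t₂ z =>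
      cases s₁; cases s₂; cases t₁; cases t₂
      obtain ⟨hs1, hs2⟩ := hs
      by_cases hb : b = c
      · have := hs1 hb
        subst this
        have h3 : Slice.src a (⟨L, .cr b () y () () y () z, R⟩ : Slice Unit G) =
          Slice.tgt a ⟨L, .cr b () y () () y () z, R⟩ := rfl
        rw [h1] at h3
        refine ⟨E', by rw [h3]; exact k1, ?_, ?_, ?_, ?_⟩
        · simp only [List.map_cons, Slice.plain, sm, hb, if_true, k2]
        · simp only [holeLabels, k3]
        · intro ω; simp only [Phi, Loc.wt, hb, if_true, k4, zero_add]
        · intro Q hQ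
          have := k5 Q (mono Q hQ)
          rw [h3]; exact this
      · have hz : cur a L = z := hs2 hb
        subst hz
        have h1' : L ++ ((), y) :: ((), cur a L) :: R = F := by
          simpa [Slice.src, Loc.src] using h1
        refine ⟨⟨L, .death () y, R⟩ :: ⟨L, .birth () y', R⟩ :: E', ⟨?_, ?_, ?_⟩, ?_, ?_, ?_, ?_⟩
        · simpa [Slice.src, Loc.src] using h1'
        · simp [Slice.src, Slice.tgt, Loc.src, Loc.tgt]
        · simpa [Slice.src, Slice.tgt, Loc.src, Loc.tgt] using k1
        · simp only [List.map_cons, Slice.plain, sm, hb, if_false, k2]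
        · simp only [holeLabels, k3]
        · intro ω; simp only [Phi, Loc.wt, hb, if_false, k4]; ring
        · intro Q hQ
          have h5 := k5 Q (mono Q hQ)
          have h6 : Adj Q a F := hQ F (by simp [sts])
          rw [← h1', adj_append] at h6
          intro X hX
          simp only [sts, List.map_cons, List.mem_cons] at hX
          rcases hX with rfl | rfl | rfl | hX
          · exact hQ _ (by simp [sts])
          · simp only [Slice.tgt, Loc.tgt, List.append_nil]
            rw [adj_append]
            exact ⟨h6.1, h6.2.2.2⟩
          · apply h5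
            simp [sts, Slice.tgt, Loc.tgt]
          · apply h5
            simp only [sts, List.mem_cons]
            exact Or.inr hX
    | birth u y =>
      refine ⟨_ :: E', ⟨h1, k1⟩, ?_, ?_, ?_, ?_⟩
      · simp only [List.map_cons, Slice.plain, sm, k2]
      · simp only [holeLabels, k3]
      · intro ω; simp only [Phi, Loc.wt, k4]
      · intro Q hQ X hX
        simp only [sts, List.map_cons, List.mem_cons] at hX
        rcases hX with rfl | hX
        · exact hQ _ (by simp [sts])
        · apply k5 Q (mono Q hQ)
          simp only [sts, List.mem_cons]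
          exact hX
    | death u y =>
      refine ⟨_ :: E', ⟨h1, k1⟩, ?_, ?_, ?_, ?_⟩
      · simp only [List.map_cons, Slice.plain, sm, k2]
      · simp only [holeLabels, k3]
      · intro ω; simp only [Phi, Loc.wt, k4]
      · intro Q hQ X hX
        simp only [sts, List.map_cons, List.mem_cons] at hX
        rcases hX with rfl | hX
        · exact hQ _ (by simp [sts])
        · apply k5 Q (mono Q hQ)
          simp only [sts, List.mem_cons]
          exact hX
    | hole =>
      refine ⟨_ :: E', ⟨h1, k1⟩, ?_, ?_, ?_, ?_⟩
      · simp only [List.map_cons, Slice.plain, sm, k2]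
      · simp only [holeLabels, k3]
      · intro ω; simp only [Phi, Loc.wt, k4]
      · intro Q hQ X hX
        simp only [sts, List.map_cons, List.mem_cons] at hX
        rcases hX with rfl | hX
        · exact hQ _ (by simp [sts])
        · apply k5 Q (mono Q hQ)
          simp only [sts, List.mem_cons]
          exact hX

/-- upper bound in terms of the labellings of the diagram -/
def Ubc (c : Bool) (D : List Piece) (k : ℤ) : Prop :=
  ∀ E : List (Slice Unit ℕ), Labelling 0 E D → HOK E → CEs c 0 E → Phi c ht 0 E ≤ k

theorem ub_of_ubc {c : Bool} {D : List Piece} {k : ℤ} (hD : WF 0 D 0) (h : Ubc c D k) :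
    Ub (sm c D) k := by
  rintro E ⟨h1, h2⟩ h3
  obtain ⟨E', k1, k2, k3, k4, k5, k6⟩ := lift c 0 D [] [] E 0 hD h1 h2
  rw [← k5]
  exact h E' ⟨k1, k2⟩ ⟨k6 _ h3.1, by rw [k4]; exact h3.2⟩ k3

theorem ubc_of_ub {c : Bool} {D : List Piece} {k : ℤ} (h : Ub (sm c D) k) : Ubc c D k := by
  rintro E ⟨h1, h2⟩ h3 h4
  obtain ⟨E', k1, k2, k3, k4, k5⟩ := drop' c 0 [] [] E h1 h4
  rw [← k4]
  exact h E' ⟨k1, by rw [k2, h2]⟩ ⟨k5 _ h3.1, by rw [k3]; exact h3.2⟩

end Pool.Agent.H560R3.TG
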