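import Pool.Agent.H560R3.TG.Defs

/-! The Kauffman bracket as a height model: operators on functions of the lists of the heights of
the gaps. -/

set_option autoImplicit false

namespace Pool.Agent.H560R3.TG

/-- the value of a circle -/
noncomputable def dd (t : ℝ) : ℝ := t ^ 2 + (t⁻¹) ^ 2

/-- the quantum integer `[n + 1]` in `t ^ 2` -/
noncomputable def dl (t : ℝ) : ℕ → ℝ
  | 0 => 1
  | 1 => dd t
  | n + 2 => dd t * dl t (n + 1) - dl t n

theorem dd_ge {t : ℝ} (ht : 0 < t) : 2 ≤ dd t := by
  unfold dd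
  have h : t * t⁻¹ = 1 := mul_inv_cancel₀ ht.ne'
  nlinarith [sq_nonneg (t - t⁻¹)]

theorem dd_inv (t : ℝ) : dd t⁻¹ = dd t := by
  unfold dd; rw [inv_inv]; ring

theorem dl_inv (t : ℝ) (n : ℕ) : dl t⁻¹ n = dl t n := by
  induction n using Nat.strong_induction_on with
  | _ n ih =>
    match n, ih with
    | 0, _ => rfl
    | 1, _ => exact dd_inv t
    | n + 2, ih =>
      show dd t⁻¹ * dl t⁻¹ (n + 1) - dl t⁻¹ n = dd t * dl t (n + 1) - dl t n
      rw [ih (n + 1) (by omega), ih n (by omega), dd_inv]

theorem dl_mono {t : ℝ} (ht : 0 < t) (n : ℕ) : 1 ≤ dl t n ∧ dl t n ≤ dl t (n + 1) := by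
  have h2 := dd_ge ht
  induction n with
  | zero => exact ⟨le_refl _, by show (1 : ℝ) ≤ dd t; linarith⟩
  | succ n ih =>
    refine ⟨ih.1.trans ih.2, ?_⟩
    show dl t (n + 1) ≤ dd t * dl t (n + 1) - dl t n
    nlinarith [ih.1, ih.2]

theorem dl_pos {t : ℝ} (ht : 0 < t) (n : ℕ) : 0 < dl t n := by
  linarith [(dl_mono ht n).1]

theorem dl_closed {t : ℝ} (ht : 0 < t) (n : ℕ) :
    (t ^ 2 - (t⁻¹) ^ 2) * dl t n = t ^ (2 * n + 2) - (t⁻¹) ^ (2 * n + 2) := by
  have h : t * t⁻¹ = 1 := mul_inv_cancel₀ ht.ne'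
  induction n using Nat.strong_induction_on with
  | _ n ih =>
    match n, ih with
    | 0, _ => simp [dl]
    | 1, _ => show _ * dd t = _; unfold dd; ring
    | n + 2, ih =>
      show _ * (dd t * dl t (n + 1) - dl t n) = _
      have e1 := ih (n + 1) (by omega)
      have e2 := ih n (by omega)
      have : (t ^ 2 - (t⁻¹) ^ 2) * (dd t * dl t (n + 1) - dl t n) =
          dd t * ((t ^ 2 - (t⁻¹) ^ 2) * dl t (n + 1)) - (t ^ 2 - (t⁻¹) ^ 2) * dl t n := by ring
      rw [this, e1, e2]
      unfold dd
      have hs : t ^ 2 * (t⁻¹) ^ 2 = 1 := by rw [← mul_pow, h, one_pow]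
      have k1 : t ^ (2 * (n + 2) + 2) = t ^ 2 * t ^ 2 * t ^ (2 * n + 2) := by ring
      have k2 : t ^ (2 * (n + 1) + 2) = t ^ 2 * t ^ (2 * n + 2) := by ring
      have k3 : (t⁻¹) ^ (2 * (n + 2) + 2) = (t⁻¹) ^ 2 * (t⁻¹) ^ 2 * (t⁻¹) ^ (2 * n + 2) := by ring
      have k4 : (t⁻¹) ^ (2 * (n + 1) + 2) = (t⁻¹) ^ 2 * (t⁻¹) ^ (2 * n + 2) := by ring
      rw [k1, k2, k3, k4]
      linear_combination (t ^ (2 * n + 2) - (t⁻¹) ^ (2 * n + 2)) * hs

/-- sum over the neighbours of a height -/
noncomputable def nbs (t : ℝ) (x : ℕ) (f : ℕ → ℝ) : ℝ :=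
  dl t (x + 1) * f (x + 1) + if x = 0 then 0 else dl t (x - 1) * f (x - 1)

theorem nbs_one {t : ℝ} (x : ℕ) : nbs t x (fun _ => 1) = dd t * dl t x := by
  unfold nbs
  rcases x with _ | x
  · simp [dl]
  · simp only [Nat.succ_ne_zero, if_false, Nat.add_sub_cancel, mul_one]
    show dd t * dl t (x + 1) - dl t x + dl t x = _
    ring

/-- neighbouring heights -/
def Nb (x y : ℕ) : Prop := y = x + 1 ∨ x = y + 1

instance (x y : ℕ) : Decidable (Nb x y) := by unfold Nb; infer_instance

theorem nbs_single {t : ℝ} (x z : ℕ) (h : Nb x z) (f : ℕ → ℝ) :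
    nbs t x (fun y => if y = z then f y else 0) = dl t z * f z := by
  unfold nbs
  rcases h with h | h
  · subst h
    rcases x with _ | x
    · simp
    · have : ¬ x = x + 1 + 1 := by omega
      simp [this]
  · subst h
    have : ¬ z + 1 + 1 = z := by omega
    simp [this]

theorem nbs_add (t : ℝ) (x : ℕ) (f g : ℕ → ℝ) :
    nbs t x (fun y => f y + g y) = nbs t x f + nbs t x g := by
  unfold nbs; split_ifs <;> ring

theorem nbs_smul (t : ℝ) (x : ℕ) (c : ℝ) (f : ℕ → ℝ) :
    nbs t x (fun y => c * f y) = c * nbs t x f := by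
  unfold nbs; split_ifs <;> ring

theorem nbs_zero (t : ℝ) (x : ℕ) : nbs t x (fun _ => 0) = 0 := by
  unfold nbs; simp

theorem nbs_congr (t : ℝ) (x : ℕ) (f g : ℕ → ℝ) (h : ∀ y, Nb x y → f y = g y) :
    nbs t x f = nbs t x g := by
  unfold nbs
  rw [h (x + 1) (Or.inl rfl)]
  split_ifs with hx
  · rfl
  · rw [h (x - 1) (Or.inr (by omega))]

/-- functions of the heights of the gaps -/
abbrev Fn := List ℕ → ℝ

noncomputable def birthOp (t : ℝ) : ℕ → ℕ → Fn → Fn
  | x, 0, f, F => nbs t x (fun y => f (y :: x :: F))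
  | _, i + 1, f, y :: F => birthOp t y i (fun K => f (y :: K)) F
  | _, _ + 1, _, [] => 0

noncomputable def deathOp (t : ℝ) : ℕ → ℕ → Fn → Fn
  | x, 0, f, y :: z :: F => if z = x ∧ Nb x y then (dl t x)⁻¹ * f F else 0
  | _, 0, _, _ => 0
  | _, i + 1, f, y :: F => deathOp t y i (fun K => f (y :: K)) F
  | _, _ + 1, _, [] => 0

noncomputable def holeOp : ℕ → ℕ → Fn → Fn
  | x, 0, f, F => if x = 0 then f F else 0
  | _, i + 1, f, y :: F => holeOp y i (fun K => f (y :: K)) F
  | _, _ + 1, _, [] => 0

/-- coefficients of the smoothings of a crossing -/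
noncomputable def al (t : ℝ) (b : Bool) : ℝ := if b then t else t⁻¹

noncomputable def crOp (t : ℝ) (x i : ℕ) (b : Bool) (f : Fn) : Fn :=
  fun F => al t b * f F - al t (!b) * deathOp t x i (birthOp t x i f) F

noncomputable def op (t : ℝ) (x : ℕ) : Piece → Fn → Fn
  | .birth i => birthOp t x i
  | .death i => deathOp t x i
  | .cr i b => crOp t x i b
  | .hole i => holeOp x i

noncomputable def opW (t : ℝ) (x : ℕ) : List Piece → Fn → Fn
  | [], f => f
  | p :: w, f => op t x p (opW t x w f)

/-- the bracket of a diagram -/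
noncomputable def V (t : ℝ) (D : List Piece) : ℝ :=
  opW t 0 D (fun F => if F = [] then 1 else 0) []

/-! linearity -/

theorem birthOp_lin (t : ℝ) (x i : ℕ) (c d : ℝ) (f g : Fn) (F : List ℕ) :
    birthOp t x i (fun K => c * f K + d * g K) F =
      c * birthOp t x i f F + d * birthOp t x i g F := by
  induction i generalizing x f g F with
  | zero => simp only [birthOp]; rw [nbs_add, nbs_smul, nbs_smul]
  | succ i ih =>
    rcases F with _ | ⟨y, F⟩
    · simp [birthOp]
    · simp only [birthOp]; exact ih y _ _ F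

theorem deathOp_lin (t : ℝ) (x i : ℕ) (c d : ℝ) (f g : Fn) (F : List ℕ) :
    deathOp t x i (fun K => c * f K + d * g K) F =
      c * deathOp t x i f F + d * deathOp t x i g F := by
  induction i generalizing x f g F with
  | zero =>
    rcases F with _ | ⟨y, _ | ⟨z, F⟩⟩
    · simp [deathOp]
    · simp [deathOp]
    · simp only [deathOp]; split_ifs <;> ring
  | succ i ih =>
    rcases F with _ | ⟨y, F⟩
    · simp [deathOp]
    · simp only [deathOp]; exact ih y _ _ F

theorem holeOp_lin (x i : ℕ) (c d : ℝ) (f g : Fn) (F : List ℕ) :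
    holeOp x i (fun K => c * f K + d * g K) F =
      c * holeOp x i f F + d * holeOp x i g F := by
  induction i generalizing x f g F with
  | zero => simp only [holeOp]; split_ifs <;> ring
  | succ i ih =>
    rcases F with _ | ⟨y, F⟩
    · simp [holeOp]
    · simp only [holeOp]; exact ih y _ _ F

theorem op_lin (t : ℝ) (x : ℕ) (p : Piece) (c d : ℝ) (f g : Fn) (F : List ℕ) :
    op t x p (fun K => c * f K + d * g K) F = c * op t x p f F + d * op t x p g F := by
  cases p with
  | birth i => exact birthOp_lin t x i c d f g F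
  | death i => exact deathOp_lin t x i c d f g F
  | cr i b =>
    simp only [op, crOp]
    have h1 : birthOp t x i (fun K => c * f K + d * g K) =
        fun K => c * birthOp t x i f K + d * birthOp t x i g K := by
      funext K; exact birthOp_lin t x i c d f g K
    rw [h1, deathOp_lin]
    ring
  | hole i => exact holeOp_lin x i c d f g F

theorem op_smul (t : ℝ) (x : ℕ) (p : Piece) (c : ℝ) (f : Fn) (F : List ℕ) :
    op t x p (fun K => c * f K) F = c * op t x p f F := by
  have := op_lin t x p c 0 f f F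
  simpa using this

theorem op_sub (t : ℝ) (x : ℕ) (p : Piece) (c d : ℝ) (f g : Fn) (F : List ℕ) :
    op t x p (fun K => c * f K - d * g K) F = c * op t x p f F - d * op t x p g F := by
  have := op_lin t x p c (-d) f g F
  simpa [sub_eq_add_neg] using this

theorem op_zero (t : ℝ) (x : ℕ) (p : Piece) (F : List ℕ) :
    op t x p (fun _ => 0) F = 0 := by
  have := op_smul t x p 0 (fun _ => 0) F
  simpa using this

theorem opW_lin (t : ℝ) (x : ℕ) (w : List Piece) (c d : ℝ) (f g : Fn) :
    opW t x w (fun K => c * f K + d * g K) = fun F => c * opW t x w f F + d * opW t x w g F := by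
  induction w with
  | nil => rfl
  | cons p w ih => funext F; simp only [opW]; rw [ih]; exact op_lin t x p c d _ _ F

theorem opW_smul (t : ℝ) (x : ℕ) (w : List Piece) (c : ℝ) (f : Fn) :
    opW t x w (fun K => c * f K) = fun F => c * opW t x w f F := by
  have := opW_lin t x w c 0 f f
  simpa using this

theorem opW_append (t : ℝ) (x : ℕ) (u w : List Piece) (f : Fn) :
    opW t x (u ++ w) f = opW t x u (opW t x w f) := by
  induction u with
  | nil => rfl
  | cons p u ih => simp only [List.cons_append, opW]; rw [ih]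

/-! valid states -/

/-- heights of neighbouring gaps are neighbours, the last one is `0` -/
def Good : ℕ → List ℕ → Prop
  | x, [] => x = 0
  | x, y :: F => Nb x y ∧ Good y F

/-- the piece fits to `n` strands -/
def Fits (n : ℕ) (p : Piece) : Prop := p.pos + p.src ≤ n

theorem birthOp_congr (t : ℝ) (x i : ℕ) (f g : Fn) (n : ℕ) (hi : i ≤ n)
    (h : ∀ K, Good x K → K.length = n + 2 → f K = g K) (F : List ℕ) (hF : Good x F)
    (hn : F.length = n) : birthOp t x i f F = birthOp t x i g F := by
  induction i generalizing x f g n F with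
  | zero =>
    simp only [birthOp]
    apply nbs_congr
    intro y hy
    apply h
    · refine ⟨hy, ?_, hF⟩
      rcases hy with h | h
      · exact Or.inr h
      · exact Or.inl h
    · simp [hn]
  | succ i ih =>
    rcases F with _ | ⟨y, F⟩
    · simp [birthOp]
    · simp only [birthOp]
      obtain ⟨m, rfl⟩ : ∃ m, n = m + 1 := ⟨n - 1, by simp at hn; omega⟩
      refine ih y _ _ m (by omega) ?_ F hF.2 (by simpa using hn)
      intro K hK hl
      exact h (y :: K) ⟨hF.1, hK⟩ (by simp [hl])

theorem deathOp_congr (t : ℝ) (x i : ℕ) (f g : Fn) (n : ℕ)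
    (h : ∀ K, Good x K → K.length = n → f K = g K) (F : List ℕ) (hF : Good x F)
    (hn : F.length = n + 2) : deathOp t x i f F = deathOp t x i g F := by
  induction i generalizing x f g n F with
  | zero =>
    rcases F with _ | ⟨y, _ | ⟨z, F⟩⟩
    · simp [deathOp]
    · simp [deathOp]
    · simp only [deathOp]
      split_ifs with hc
      · rw [h F ?_ (by simpa using hn)]
        obtain ⟨rfl, _⟩ := hc
        exact hF.2.2
      · rfl
  | succ i ih =>
    rcases F with _ | ⟨y, F⟩
    · simp [deathOp]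
    · simp only [deathOp]
      rcases n with _ | n
      · have : F.length = 1 := by simpa using hn
        obtain ⟨z, rfl⟩ := List.length_eq_one_iff.1 this
        rcases i with _ | i
        · simp [deathOp]
        · rcases i with _ | i <;> simp [deathOp]
      · refine ih y _ _ n ?_ F hF.2 (by simpa using hn)
        intro K hK hl
        exact h (y :: K) ⟨hF.1, hK⟩ (by simp [hl])

theorem holeOp_congr (x i : ℕ) (f g : Fn) (n : ℕ)
    (h : ∀ K, Good x K → K.length = n → f K = g K) (F : List ℕ) (hF : Good x F)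
    (hn : F.length = n) : holeOp x i f F = holeOp x i g F := by
  induction i generalizing x f g n F with
  | zero => simp only [holeOp]; rw [h F hF hn]
  | succ i ih =>
    rcases F with _ | ⟨y, F⟩
    · simp [holeOp]
    · simp only [holeOp]
      obtain ⟨m, rfl⟩ : ∃ m, n = m + 1 := ⟨n - 1, by simp at hn; omega⟩
      refine ih y _ _ m ?_ F hF.2 (by simpa using hn)
      intro K hK hl
      exact h (y :: K) ⟨hF.1, hK⟩ (by simp [hl])

/-- functions which agree on the valid states with `n` strands -/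
def Agree (x n : ℕ) (f g : Fn) : Prop := ∀ K, Good x K → K.length = n → f K = g K

theorem op_congr (t : ℝ) (x : ℕ) (p : Piece) (n m : ℕ) (hp : WF n [p] m) (f g : Fn)
    (h : Agree x m f g) : Agree x n (op t x p f) (op t x p g) := by
  intro F hF hn
  cases p with
  | birth i =>
    obtain ⟨hi, hm⟩ := hp
    have hm : n + 2 = m := hm
    subst hm
    exact birthOp_congr t x i f g n hi h F hF hn
  | death i =>
    obtain ⟨hi, hm⟩ := hp
    have hm : n - 2 = m := hm
    subst hm
    exact deathOp_congr t x i f g (n - 2) h F hF (by omega)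
  | cr i b =>
    obtain ⟨hi, hm⟩ := hp
    have hm : n = m := hm
    subst hm
    simp only [op, crOp]
    rw [h F hF hn]
    congr 2
    obtain ⟨k, rfl⟩ : ∃ k, n = k + 2 := ⟨n - 2, by omega⟩
    apply deathOp_congr t x i _ _ k ?_ F hF hn
    intro K hK hl
    exact birthOp_congr t x i f g k (by omega) h K hK hl
  | hole i =>
    obtain ⟨hi, hm⟩ := hp
    have hm : n = m := hm
    subst hm
    exact holeOp_congr x i f g n h F hF hn

theorem WF_append (u v : List Piece) (n m : ℕ) : WF n (u ++ v) m ↔ ∃ k, WF n u k ∧ WF k v m := by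
  induction u generalizing n with
  | nil => simp [WF]
  | cons p u ih =>
    cases p <;> simp only [List.cons_append, WF, ih] <;> constructor
    all_goals first
      | (rintro ⟨h1, k, h2, h3⟩; exact ⟨k, ⟨h1, h2⟩, h3⟩)
      | (rintro ⟨k, ⟨h1, h2⟩, h3⟩; exact ⟨h1, k, h2, h3⟩)

theorem opW_congr (t : ℝ) (x : ℕ) (w : List Piece) (n m : ℕ) (hw : WF n w m) (f g : Fn)
    (h : Agree x m f g) : Agree x n (opW t x w f) (opW t x w g) := by
  induction w generalizing n with
  | nil =>
    have : n = m := hw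
    subst this
    exact h
  | cons p w ih =>
    obtain ⟨k, h1, h2⟩ := (WF_append [p] w n m).1 hw
    exact op_congr t x p n k h1 _ _ (ih k h2)

end Pool.Agent.H560R3.TG
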