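import Pool.Agent.H560R3.TG.Gap
import Pool.Agent.H560R3.TG.Ops

/-! Lowering of heights. -/

set_option autoImplicit false
set_option linter.unusedSimpArgs false

namespace Pool.Agent.H560R3.TG

variable {S G S' G' : Type}

theorem path_det (a : G) (F : List (S × G)) (E : List (Slice S G)) (K K' : List (S × G))
    (h : Path a F E K) (h' : Path a F E K') : K = K' := by
  induction E generalizing F with
  | nil => exact (show F = K from h).symm.trans (show F = K' from h')
  | cons s E ih => exact ih _ h.2 h'.2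

/-- the label of the gap `j + 1` after `n` slices -/
def at' (a : G) (F : List (S × G)) (Z : List (Slice S G)) (n j : ℕ) : Option G :=
  ((sts a F Z)[n]?).bind (fun K => (K.map Prod.snd)[j]?)

theorem at_tr {φ : S → G → G → S'} (h : Sym φ) (ψ : G → G') (a : G) (F : List (S × G))
    (Z : List (Slice S G)) (n j : ℕ) :
    at' (ψ a) (trF φ ψ a F) (trE φ ψ a Z) n j = (at' a F Z n j).map ψ := by
  unfold at'
  rw [sts_tr h, List.getElem?_map]
  rcases (sts a F Z)[n]? with _ | K
  · rfl
  · simp only [Option.map_some, Option.bind_some]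
    rw [trF_snd, List.getElem?_map]

theorem at_eq (a : G) (F K : List (S × G)) (Z1 Z2 : List (Slice S G)) (h : Path a F Z1 K) (j : ℕ) :
    at' a F (Z1 ++ Z2) Z1.length j = (K.map Prod.snd)[j]? := by
  induction Z1 generalizing F with
  | nil =>
    have h : F = K := h
    subst h
    rfl
  | cons s Z1 ih => exact ih _ h.2

theorem labs_of_allAdj {R : G → G → Prop} {P : G → Prop} (hP : ∀ x y, R x y → P y) (a : G)
    (ha : P a) (F : List (S × G)) (E : List (Slice S G)) (h : AllAdj R a F E) :
    ∀ g ∈ labs a F E, P g := by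
  have key : ∀ (b : G) (K : List (S × G)), Adj R b K → ∀ g ∈ K.map Prod.snd, P g := by
    intro b K
    induction K generalizing b with
    | nil => simp
    | cons p K ih =>
      intro hK g hg
      simp only [List.map_cons, List.mem_cons] at hg
      rcases hg with rfl | hg
      · exact hP _ _ hK.1
      · exact ih _ hK.2 g hg
  intro g hg
  simp only [labs, List.mem_cons, List.mem_map, List.mem_flatten] at hg
  rcases hg with rfl | ⟨x, ⟨K, hK, hx⟩, rfl⟩
  · exact ha
  · exact key a K (h K hK) _ (List.mem_map_of_mem hx)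

theorem countP_lt {α : Type} (p q : α → Bool) (l : List α) (h : ∀ x ∈ l, p x = true → q x = true)
    (x : α) (hx : x ∈ l) (hq : q x = true) (hp : p x = false) : l.countP p < l.countP q := by
  induction l with
  | nil => simp at hx
  | cons y l ih =>
    simp only [List.countP_cons]
    have hle : l.countP p ≤ l.countP q := by
      apply List.countP_mono_left
      intro z hz
      exact h z (by simp [hz])
    rcases List.mem_cons.1 hx with rfl | hx
    · simp only [hq, hp, if_true, Bool.false_eq_true, if_false]; omega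
    · have := ih (fun z hz => h z (by simp [hz])) hx
      have hy := h y (by simp)
      by_cases h1 : p y = true
      · simp only [h1, hy h1, if_true]; omega
      · simp only [h1, if_false, Bool.false_eq_true]; split_ifs <;> omega

/-- marks on a component of the part above the height `h` -/
def RR (h : ℕ) (p q : ℕ × Bool) : Prop :=
  Nb p.1 q.1 ∧ (h < p.1 → h < q.1 → p.2 = q.2) ∧ (p.2 = true → h < p.1) ∧ (q.2 = true → h < q.1)

theorem lower (E : List (Slice S ℕ)) (hp : Path 0 [] E []) (hA : AllAdj Nb 0 [] E)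
    (hn : ∀ s ∈ E, s.p.NoCr) (h n j : ℕ) (ht : at' 0 [] E n j = some (h + 1)) :
    ∃ Z : List (Slice S (ℕ × Bool)), Path (0, false) [] Z [] ∧ trE kp Prod.fst (0, false) Z = E ∧
      AllAdj (RR h) (0, false) [] Z ∧ at' (0, false) [] Z n j = some (h + 1, true) ∧
      Phi true (ind Prod.snd) (0, false) Z ≤ 1 := by
  classical
  have hex : ∃ c, ∃ Z : List (Slice S (ℕ × Bool)), (Path (0, false) [] Z [] ∧
      trE kp Prod.fst (0, false) Z = E ∧
      AllAdj (RR h) (0, false) [] Z ∧ at' (0, false) [] Z n j = some (h + 1, true)) ∧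
      (labs (0, false) [] Z).countP Prod.snd = c := by
    refine ⟨_, trE kp (fun g => (g, decide (h < g))) 0 E, ⟨?_, ?_, ?_, ?_⟩, rfl⟩
    · exact path_tr sym_kp (fun g => (g, decide (h < g))) 0 [] [] E hp
    · have := trE_trE kp (fun g => (g, decide (h < g))) kp Prod.fst 0 E
      have h2 : trE kp (fun g : ℕ => g) 0 E = E := trE_kp_id 0 E
      exact this.trans h2
    · refine (allAdj_tr sym_kp (fun g => (g, decide (h < g))) (RR h) 0 [] E).2
        (allAdj_mono ?_ _ _ _ hA)
      intro x y hxy
      refine ⟨hxy, ?_, ?_, ?_⟩ <;> simp <;> tauto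
    · have := at_tr (S := S) (S' := S) sym_kp (fun g => (g, decide (h < g))) 0 [] E n j
      rw [ht] at this
      exact this.trans (by simp)
  obtain ⟨Z, ⟨hZ1, hZ2, hZ3, hZ4⟩, hZ5⟩ := Nat.find_spec hex
  refine ⟨Z, hZ1, hZ2, hZ3, hZ4, ?_⟩
  have hnZ : ∀ s ∈ Z, s.p.NoCr := by
    intro s hs
    have : s.tr kp Prod.fst (0, false) ∈ E := by
      rw [← hZ2]; exact List.mem_map_of_mem hs
    have h2 := hn _ this
    obtain ⟨L, p, R⟩ := s
    cases p <;> first | trivial | exact h2
  obtain ⟨ρ, Z', F', h0, hpr, hprF, hpath, hadj, hcard⟩ :=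
    gapIneq (S := S) (Prod.snd : ℕ × Bool → Bool) (0, false) 0 [] (by simp [Mk]) trivial Z []
      hZ1 hnZ
  have hρ : ρ 0 = 0 := by
    have := h0 (0, false) 0 (by simp [Mk])
    simpa [Mk] using this
  rw [hρ] at hpr hprF hpath hadj hcard
  have hF' : F' = [] := by
    cases F' with
    | nil => rfl
    | cons p F => simp [trF] at hprF
  subst hF'
  simp only [trF, II, add_zero] at hpath hadj hcard
  have hU0 : NU ((0, false), 0) ([] : List (S × ((ℕ × Bool) × ℕ))) [] = ∅ := by
    simp [NU, labs, sts]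
  rw [hU0] at hcard
  simp only [Finset.card_empty, Nat.cast_zero, mul_zero, add_zero] at hcard
  by_contra hcon
  have hU : 1 < (NU ((0, false), 0) [] Z').card := by
    by_contra hU
    have : ((NU ((0, false), 0) [] Z').card : ℤ) ≤ 1 := by
      have : (NU ((0, false), 0) [] Z').card ≤ 1 := by omega
      exact_mod_cast this
    omega
  have hat := at_tr (S := S) (S' := S) sym_kp (Prod.fst : (ℕ × Bool) × ℕ → ℕ × Bool)
    ((0, false), 0) [] Z' n j
  rw [hpr] at hat
  simp only [trF] at hat
  rw [hZ4] at hat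
  obtain ⟨⟨v, l0⟩, hv1, hv2⟩ := Option.map_eq_some_iff.1 hat.symm
  simp only at hv2
  subst hv2
  obtain ⟨l, hl, hll⟩ := Finset.exists_mem_ne hU l0
  rw [mem_NU] at hl
  obtain ⟨hl0, p, hp1, rfl⟩ := hl
  set ψ : (ℕ × Bool) × ℕ → ℕ × Bool := fun p => (p.1.1, p.1.2 && decide (p.2 = l0)) with hψ
  have hRR : AllAdj (fun x y => RR h x.1 y.1) ((0, false), 0) [] Z' := by
    have := (allAdj_tr (S := S) (S' := S) sym_kp (Prod.fst : (ℕ × Bool) × ℕ → ℕ × Bool) (RR h)
      ((0, false), 0) [] Z').1
    apply this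
    rw [hpr]
    exact hZ3
  have hboth := allAdj_and _ _ _ hRR hadj
  have hmk := labs_of_allAdj (P := Mk (Prod.snd : ℕ × Bool → Bool)) (fun x y h => h.2.1) _
    (by simp [Mk]) _ _ hadj
  have hp2 : p.1.2 = true := by
    have := hmk p hp1
    by_contra hc
    simp only [Mk, hc, Bool.false_eq_true, if_false] at this
    exact hl0 this
  have hl0pos : 1 ≤ l0 := by
    have h1 : ((h + 1, true), l0) ∈ labs ((0, false), 0) [] Z' := by
      unfold at' at hv1
      obtain ⟨K, hK1, hK2⟩ := Option.bind_eq_some_iff.1 hv1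
      have hK3 := List.mem_of_getElem? hK1
      have hK4 := List.mem_of_getElem? hK2
      simp only [labs, List.mem_cons, List.mem_map, List.mem_flatten]
      right
      obtain ⟨x, hx, hx2⟩ := List.mem_map.1 hK4
      exact ⟨x, ⟨K, hK3, hx⟩, hx2⟩
    have := hmk _ h1
    simpa [Mk] using this
  have hlt : (labs (0, false) [] (trE kp ψ ((0, false), 0) Z')).countP Prod.snd <
      (labs (0, false) [] Z).countP Prod.snd := by
    have e1 := labs_tr (S := S) (S' := S) sym_kp ψ ((0, false), 0) [] Z'
    have e2 := labs_tr (S := S) (S' := S) sym_kp (Prod.fst : (ℕ × Bool) × ℕ → ℕ × Bool)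
      ((0, false), 0) [] Z'
    rw [hpr] at e2
    have e1' : labs (0, false) [] (trE kp ψ ((0, false), 0) Z') =
      (labs ((0, false), 0) [] Z').map ψ := e1
    have e2' : labs (0, false) [] Z = (labs ((0, false), 0) [] Z').map Prod.fst := e2
    rw [e1', e2', List.countP_map, List.countP_map]
    apply countP_lt _ _ _ _ p hp1
    · exact hp2
    · simp [hψ, hll]
    · intro x _ hx
      simp only [hψ, Function.comp, Bool.and_eq_true] at hx ⊢
      exact hx.1
  have hmin := Nat.find_min hex (m := (labs (0, false) [] (trE kp ψ ((0, false), 0) Z')).countP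
    Prod.snd) (by rw [← hZ5]; exact hlt)
  apply hmin
  refine ⟨trE kp ψ ((0, false), 0) Z', ⟨?_, ?_, ?_, ?_⟩, rfl⟩
  · exact path_tr sym_kp ψ ((0, false), 0) [] [] Z' hpath
  · have e1 := trE_trE kp ψ kp Prod.fst ((0, false), 0) Z'
    have e2 := trE_trE kp (Prod.fst : (ℕ × Bool) × ℕ → ℕ × Bool) kp Prod.fst ((0, false), 0) Z'
    rw [hpr] at e2
    exact e1.trans (e2.symm.trans hZ2)
  · refine (allAdj_tr sym_kp ψ (RR h) ((0, false), 0) [] Z').2 (allAdj_mono ?_ _ _ _ hboth)
    rintro ⟨⟨x, m⟩, l⟩ ⟨⟨y, m'⟩, l'⟩ ⟨⟨h1, h2, h3, h4⟩, h5, h6, h7⟩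
    simp only at h1 h2 h3 h4 h7
    refine ⟨h1, ?_, ?_, ?_⟩
    · intro h8 h9
      have h10 := h2 h8 h9
      subst h10
      simp only [hψ]
      cases m
      · rfl
      · rw [h7 rfl rfl]
    · intro h8
      simp only [hψ, Bool.and_eq_true] at h8
      exact h3 h8.1
    · intro h8
      simp only [hψ, Bool.and_eq_true] at h8
      exact h4 h8.1
  · have := at_tr (S := S) (S' := S) sym_kp ψ ((0, false), 0) [] Z' n j
    rw [hv1] at this
    exact this.trans (by simp [hψ])

def lw (p : ℕ × Bool) : ℕ := if p.2 then p.1 - 2 else p.1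

def ht (g : ℕ) : ℤ := g

/-- the labels of the heights fit -/
def HOK (E : List (Slice S ℕ)) : Prop := AllAdj Nb 0 [] E ∧ ∀ g ∈ holeLabels 0 E, g = 0

theorem mem_labs_of_state (a : G) (F : List (S × G)) (E : List (Slice S G)) (K : List (S × G))
    (hK : K ∈ sts a F E) (g : G) (hg : g ∈ K.map Prod.snd) : g ∈ labs a F E := by
  simp only [labs, List.mem_cons, List.mem_map, List.mem_flatten]
  right
  obtain ⟨x, hx, rfl⟩ := List.mem_map.1 hg
  exact ⟨x, ⟨K, hK, hx⟩, rfl⟩

theorem cur_mem_labs (a : G) (F : List (S × G)) (E : List (Slice S G)) (L R : List (S × G))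
    (hK : L ++ R ∈ sts a F E) : cur a L ∈ labs a F E := by
  rcases cur_mem a L with h | h
  · rw [h]; simp [labs]
  · apply mem_labs_of_state a F E _ hK
    rw [List.map_append, List.mem_append]
    exact Or.inl h

theorem holeLabels_labs (a : G) (F : List (S × G)) (E : List (Slice S G)) (g : G)
    (hg : g ∈ holeLabels a E) : g ∈ labs a F E := by
  have key : ∀ (E1 E2 : List (Slice S G)), E = E1 ++ E2 → g ∈ holeLabels a E2 →
      g ∈ labs a F E := by
    intro E1 E2
    induction E2 generalizing E1 with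
    | nil => intro _ h; simp [holeLabels] at h
    | cons s E2 ih =>
      intro he hg
      have ih' := ih (E1 ++ [s]) (by simp [he])
      obtain ⟨L, p, R⟩ := s
      cases p with
      | hole =>
        simp only [holeLabels, List.mem_cons] at hg
        rcases hg with rfl | hg
        · apply cur_mem_labs a F E L R
          rw [he]
          simp [sts, Slice.tgt, Loc.tgt]
        · exact ih' hg
      | birth u y => exact ih' hg
      | death u y => exact ih' hg
      | cr b s₁ y s₂ t₁ y' t₂ z => exact ih' hg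
  exact key [] E rfl hg

theorem lw_nb (h : ℕ) (hh : 1 ≤ h) (p q : ℕ × Bool) (hR : RR h p q) : Nb (lw p) (lw q) := by
  obtain ⟨x, m⟩ := p
  obtain ⟨y, n⟩ := q
  obtain ⟨h1, h2, h3, h4⟩ := hR
  simp only [lw, Nb] at *
  cases m <;> cases n <;> simp only [Bool.false_eq_true, if_false, if_true, reduceCtorEq,
    imp_false, not_lt, true_implies, forall_const, Bool.true_eq_false, true_imp_iff] at * <;> omega

theorem lower2 (E : List (Slice S ℕ)) (Z : List (Slice S (ℕ × Bool))) (h : ℕ) (hh : 1 ≤ h)
    (hZ1 : Path (0, false) [] Z []) (hZ2 : trE kp Prod.fst (0, false) Z = E)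
    (hZ3 : AllAdj (RR h) (0, false) [] Z)
    (hZ5 : Phi true (ind Prod.snd) (0, false) Z ≤ 1) (hE : ∀ g ∈ holeLabels 0 E, g = 0) :
    Path 0 [] (trE kp lw (0, false) Z) [] ∧ HOK (trE kp lw (0, false) Z) ∧
      (trE kp lw (0, false) Z).map Slice.plain = E.map Slice.plain ∧
      Phi true ht 0 E ≤ Phi true ht 0 (trE kp lw (0, false) Z) + 2 := by
  have hmk := labs_of_allAdj (P := fun p : ℕ × Bool => p.2 = true → h < p.1)
    (fun x y h => h.2.2.2) _ (by simp) _ _ hZ3
  refine ⟨path_tr sym_kp lw (0, false) [] [] Z hZ1, ⟨?_, ?_⟩, ?_, ?_⟩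
  · exact (allAdj_tr sym_kp lw Nb (0, false) [] Z).2 (allAdj_mono (lw_nb h hh) _ _ _ hZ3)
  · intro g hg
    have e1 := holeLabels_tr (kp : S → ℕ × Bool → ℕ × Bool → S) lw (0, false) Z
    have e2 := holeLabels_tr (kp : S → ℕ × Bool → ℕ × Bool → S) Prod.fst (0, false) Z
    rw [hZ2] at e2
    have e1' : holeLabels 0 (trE kp lw (0, false) Z) = (holeLabels (0, false) Z).map lw := e1
    have e2' : holeLabels 0 E = (holeLabels (0, false) Z).map Prod.fst := e2
    rw [e1'] at hg
    obtain ⟨p, hp, rfl⟩ := List.mem_map.1 hg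
    have h1 : p.1 = 0 := hE _ (by rw [e2']; exact List.mem_map_of_mem hp)
    have h2 := hmk p (holeLabels_labs _ _ _ _ hp)
    have h3 : p.2 = false := by
      by_contra hc
      have := h2 (by simpa using hc)
      omega
    simp [lw, h3, h1]
  · rw [plain_trE, ← hZ2, plain_trE]
  · have e1 := Phi_tr (kp : S → ℕ × Bool → ℕ × Bool → S) lw true ht (0, false) Z
    have e2 := Phi_tr (kp : S → ℕ × Bool → ℕ × Bool → S) Prod.fst true ht (0, false) Z
    rw [hZ2] at e2
    have e1' : Phi true ht 0 (trE kp lw (0, false) Z) =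
      Phi true (fun g => ht (lw g)) (0, false) Z := e1
    have e2' : Phi true ht 0 E = Phi true (fun g => ht g.1) (0, false) Z := e2
    have e3 : Phi true (fun g => ht (lw g)) (0, false) Z =
        Phi true (fun g => 1 * ht g.1 + (-2) * ind Prod.snd g) (0, false) Z := by
      apply Phi_congr true _ _ _ []
      intro g hg
      have := hmk g hg
      obtain ⟨x, m⟩ := g
      cases m
      · simp [lw, ht, ind]
      · simp only [forall_const] at this
        simp only [lw, ht, ind, if_true]
        push_cast [Nat.cast_sub (show 2 ≤ x by omega)]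
        ring
    rw [e1', e2', e3, Phi_lin]
    linarith

end Pool.Agent.H560R3.TG
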