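import Pool.Agent.H560R3.TG.Upper3

/-! Alternating diagrams: type of the crossings, standard labelling, minimal marking. -/

set_option autoImplicit false
set_option linter.unusedSimpArgs false

namespace Pool.Agent.H560R3.TG

variable {S G S' G' : Type}

theorem dir_same {i : ℕ} {b s₁ s₂ t₁ t₂ : Bool} (h1 : dir i s₁ = !b) (h2 : dir (i + 1) s₂ = b)
    (h3 : dir i t₁ = !b) (h4 : dir (i + 1) t₂ = b) :
    (s₁ = s₂ ∧ s₁ = t₁ ∧ s₁ = t₂) ∧ (b = !s₁ ↔ i % 2 = 0) := by
  unfold dir at h1 h2 h3 h4
  rcases Nat.mod_two_eq_zero_or_one i with hi | hi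
  · have hi' : (i + 1) % 2 = 1 := by omega
    rw [hi] at h1 h3
    rw [hi'] at h2 h4
    cases b <;> cases s₁ <;> cases s₂ <;> cases t₁ <;> cases t₂ <;> simp_all
  · have hi' : (i + 1) % 2 = 0 := by omega
    rw [hi] at h1 h3
    rw [hi'] at h2 h4
    cases b <;> cases s₁ <;> cases s₂ <;> cases t₁ <;> cases t₂ <;> simp_all

theorem alt_type {D : List Piece} (hD : Connected D) (ha : Alternating D) :
    ∃ c : Bool, ∀ i b, Piece.cr i b ∈ D → (b = c ↔ i % 2 = 0) := by
  obtain ⟨E, hE, hdir⟩ := ha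
  obtain ⟨v, hv⟩ := hD E hE (by
    intro s hs
    have h := hdir s hs
    obtain ⟨L, p, R⟩ := s
    cases p with
    | cr b s₁ y s₂ t₁ y' t₂ z =>
      obtain ⟨h1, h2, h3, h4⟩ := h b s₁ y s₂ t₁ y' t₂ z rfl
      exact (dir_same h1 h2 h3 h4).1
    | _ => trivial)
  refine ⟨!v, fun i b hib => ?_⟩
  rw [← hE.2] at hib
  obtain ⟨s, hs, hsp⟩ := List.mem_map.1 hib
  obtain ⟨L, R, s₁, y, s₂, t₁, y', t₂, z, rfl, hL⟩ := plain_cr s i b hsp
  obtain ⟨h1, h2, h3, h4⟩ := hdir _ hs b s₁ y s₂ t₁ y' t₂ z rfl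
  simp only at h1 h2 h3 h4
  have h5 := (dir_same h1 h2 h3 h4).2
  have h6 : s₁ = v := hv _ hs (s₁, y) (by simp [Slice.src, Loc.src])
  rw [hL, h6] at h5
  exact h5

theorem adj_parity (a : ℕ) (L : List (S × ℕ)) (h : Adj Nb a L) :
    cur a L % 2 = (a + L.length) % 2 := by
  induction L generalizing a with
  | nil => simp [cur]
  | cons p L ih =>
    have h1 := ih p.2 h.2
    have h2 := h.1
    simp only [cur, List.length_cons]
    simp only [Nb] at h2
    omega

def R01 (x y : ℕ) : Prop := (x = 0 ∧ y = 1) ∨ (x = 1 ∧ y = 0)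

def alt01 : ℕ → ℕ → List (Unit × ℕ)
  | _, 0 => []
  | x, n + 1 => ((), 1 - x) :: alt01 (1 - x) n

theorem alt01_add (x i n : ℕ) : alt01 x (i + n) = alt01 x i ++ alt01 (cur x (alt01 x i)) n := by
  induction i generalizing x with
  | zero => simp [alt01, cur]
  | succ i ih =>
    rw [show i + 1 + n = (i + n) + 1 by omega]
    simp only [alt01, cur, List.cons_append, ih]

theorem alt01_len (x n : ℕ) : (alt01 x n).length = n := by
  induction n generalizing x with
  | zero => rfl
  | succ n ih => simp only [alt01, List.length_cons, ih]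

theorem cur_alt01 (x n : ℕ) (hx : x ≤ 1) : cur x (alt01 x n) ≤ 1 := by
  induction n generalizing x with
  | zero => exact hx
  | succ n ih => exact ih (1 - x) (by omega)

theorem adj_alt01 (x n : ℕ) (hx : x ≤ 1) : Adj R01 x (alt01 x n) := by
  induction n generalizing x with
  | zero => trivial
  | succ n ih =>
    refine ⟨?_, ih _ (by omega)⟩
    unfold R01; omega

theorem std (D : List Piece) : ∀ n m, WF n D m → ∃ P : List (Slice Unit ℕ),
    Path 0 (alt01 0 n) P (alt01 0 m) ∧ P.map Slice.plain = D ∧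
      ∀ K ∈ sts 0 (alt01 0 n) P, ∃ k, K = alt01 0 k := by
  induction D with
  | nil =>
    intro n m h
    have h : n = m := h
    subst h
    refine ⟨[], rfl, rfl, ?_⟩
    intro K hK
    simp only [sts, List.map_nil, List.mem_singleton] at hK
    exact ⟨n, hK⟩
  | cons p w ih =>
    intro n m h
    have step : ∀ (s : Slice Unit ℕ) (k : ℕ), s.src 0 = alt01 0 n → s.tgt 0 = alt01 0 k →
        WF k w m → s.plain = p → ∃ P : List (Slice Unit ℕ),
        Path 0 (alt01 0 n) P (alt01 0 m) ∧ P.map Slice.plain = p :: w ∧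
          ∀ K ∈ sts 0 (alt01 0 n) P, ∃ k, K = alt01 0 k := by
      intro s k h1 h2 h3 h4
      obtain ⟨P, k1, k2, k3⟩ := ih k m h3
      refine ⟨s :: P, ⟨h1, by rw [h2]; exact k1⟩, by simp [h4, k2], ?_⟩
      intro K hK
      simp only [sts, List.map_cons, List.mem_cons] at hK
      rcases hK with rfl | rfl | hK
      · exact ⟨n, rfl⟩
      · exact ⟨k, h2⟩
      · apply k3
        simp only [sts, List.mem_cons]
        exact Or.inr hK
    have two : ∀ x m, x ≤ 1 → alt01 x (2 + m) = ((), 1 - x) :: ((), x) :: alt01 x m := by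
      intro x m hx
      rw [show 2 + m = (m + 1) + 1 by omega]
      simp only [alt01]
      rw [show 1 - (1 - x) = x by omega]
    cases p with
    | birth i =>
      obtain ⟨hi, hw⟩ := h
      have hx := cur_alt01 0 i (by omega)
      refine step ⟨alt01 0 i, .birth () (1 - cur 0 (alt01 0 i)),
        alt01 (cur 0 (alt01 0 i)) (n - i)⟩ (n + 2) ?_ ?_ hw (by simp [Slice.plain, alt01_len])
      · simp only [Slice.src, Loc.src, List.append_nil]
        rw [← alt01_add]; congr 1; omega
      · simp only [Slice.tgt, Loc.tgt, List.append_assoc, List.cons_append, List.nil_append]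
        rw [← two _ _ hx, ← alt01_add]; congr 1; omega
    | death i =>
      obtain ⟨hi, hw⟩ := h
      have hx := cur_alt01 0 i (by omega)
      refine step ⟨alt01 0 i, .death () (1 - cur 0 (alt01 0 i)),
        alt01 (cur 0 (alt01 0 i)) (n - i - 2)⟩ (n - 2) ?_ ?_ hw (by simp [Slice.plain, alt01_len])
      · simp only [Slice.src, Loc.src, List.append_assoc, List.cons_append, List.nil_append]
        rw [← two _ _ hx, ← alt01_add]; congr 1; omega
      · simp only [Slice.tgt, Loc.tgt, List.append_nil]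
        rw [← alt01_add]; congr 1; omega
    | cr i b =>
      obtain ⟨hi, hw⟩ := h
      have hx := cur_alt01 0 i (by omega)
      refine step ⟨alt01 0 i, .cr b () (1 - cur 0 (alt01 0 i)) () () (1 - cur 0 (alt01 0 i)) ()
        (cur 0 (alt01 0 i)), alt01 (cur 0 (alt01 0 i)) (n - i - 2)⟩ n ?_ ?_ hw
        (by simp [Slice.plain, alt01_len])
      · simp only [Slice.src, Loc.src, List.append_assoc, List.cons_append, List.nil_append]
        rw [← two _ _ hx, ← alt01_add]; congr 1; omega
      · simp only [Slice.tgt, Loc.tgt, List.append_assoc, List.cons_append, List.nil_append]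
        rw [← two _ _ hx, ← alt01_add]; congr 1; omega
    | hole i =>
      obtain ⟨hi, hw⟩ := h
      refine step ⟨alt01 0 i, .hole, alt01 (cur 0 (alt01 0 i)) (n - i)⟩ n ?_ ?_ hw
        (by simp [Slice.plain, alt01_len])
      · simp only [Slice.src, Loc.src, List.append_nil]
        rw [← alt01_add]; congr 1; omega
      · simp only [Slice.tgt, Loc.tgt, List.append_nil]
        rw [← alt01_add]; congr 1; omega

/-- the standard labelling: even gaps `0`, odd gaps `1` -/
theorem exists_std {D : List Piece} (hwf : WF 0 D 0) : ∃ P : List (Slice Unit ℕ),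
    Labelling 0 P D ∧ AllAdj R01 0 [] P := by
  obtain ⟨P, h1, h2, h3⟩ := std D 0 0 hwf
  refine ⟨P, ⟨h1, h2⟩, fun K hK => ?_⟩
  obtain ⟨k, rfl⟩ := h3 K hK
  exact adj_alt01 0 k (by omega)

theorem exists_min {D : List Piece} (hne : ∃ E : List (Slice Unit Bool), Labelling true E D ∧
    ∀ h ∈ holeLabels true E, h = true) :
    ∃ EX : List (Slice Unit Bool), Labelling true EX D ∧ (∀ h ∈ holeLabels true EX, h = true) ∧
      ∀ (S G : Type) (a : G) (Z : List (Slice S G)) (ψ ψ' : G → Bool), Labelling a Z D →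
        trE (fun _ _ _ => ()) ψ a Z = EX → ψ a = true → ψ' a = true →
        (∀ g ∈ holeLabels a Z, ψ' g = true) →
        ∀ g ∈ labs a [] Z, ψ g = true → ψ' g = true := by
  classical
  have hex : ∃ n, ∃ E : List (Slice Unit Bool), (Labelling true E D ∧
    ∀ h ∈ holeLabels true E, h = true) ∧ (labs true [] E).countP id = n := by
    obtain ⟨E, hE⟩ := hne
    exact ⟨_, E, hE, rfl⟩
  obtain ⟨EX, ⟨h1, h2⟩, h3⟩ := Nat.find_spec hex
  refine ⟨EX, h1, h2, ?_⟩
  intro S G a Z ψ ψ' hZ hZX hψa hψ'a hψ' g hg hg1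
  by_contra hg2
  set χ : G → Bool := fun g => ψ g && ψ' g with hχ
  have hsym : Sym (fun (_ : S) (_ _ : G) => ()) := fun _ _ _ => rfl
  have e1 := labs_tr hsym χ a [] Z
  have e2 := labs_tr hsym ψ a [] Z
  have hχa : χ a = true := by simp [hχ, hψa, hψ'a]
  rw [hχa] at e1
  rw [hψa, hZX] at e2
  simp only [trF] at e1 e2
  have hlt : (labs true [] (trE (fun _ _ _ => ()) χ a Z)).countP id <
      (labs true [] EX).countP id := by
    rw [e1, e2, List.countP_map, List.countP_map]
    apply countP_lt _ _ _ _ g hg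
    · exact hg1
    · simp only [Function.comp, hχ, hg1, Bool.true_and, id]
      simpa using hg2
    · intro x _ hx
      simp only [Function.comp, hχ, id, Bool.and_eq_true] at hx ⊢
      exact hx.1
  refine Nat.find_min hex (m := (labs true [] (trE (fun _ _ _ => ()) χ a Z)).countP id)
    (by rw [← h3]; exact hlt) ⟨trE (fun _ _ _ => ()) χ a Z, ⟨?_, ?_⟩, rfl⟩
  · have := labelling_tr hsym χ hZ
    rw [hχa] at this
    exact this
  · have e3 := holeLabels_tr (fun (_ : S) (_ _ : G) => ()) χ a Z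
    have e4 := holeLabels_tr (fun (_ : S) (_ _ : G) => ()) ψ a Z
    rw [hχa] at e3
    rw [hψa, hZX] at e4
    intro h hh
    rw [e3] at hh
    obtain ⟨g', hg', rfl⟩ := List.mem_map.1 hh
    have h5 : ψ g' = true := h2 _ (by rw [e4]; exact List.mem_map_of_mem hg')
    simp [hχ, h5, hψ' g' hg']

end Pool.Agent.H560R3.TG
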