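import Pool.Agent.H560R3.TG.Lower1

/-! Numbering of the components for labelled diagrams with crossings. -/

set_option autoImplicit false
set_option linter.unusedSimpArgs false

namespace Pool.Agent.H560R3.TG

variable {S G S' G' : Type}

theorem labs_cons (a : G) (F : List (S × G)) (s : Slice S G) (E : List (Slice S G)) (g : G) :
    g ∈ labs a F (s :: E) ↔ g ∈ F.map Prod.snd ∨ g ∈ labs a (s.tgt a) E := by
  simp only [labs, sts, List.map_cons, List.mem_cons, List.mem_map, List.mem_flatten]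
  constructor
  · rintro (h | ⟨x, ⟨l, h | h | h, hx⟩, rfl⟩)
    · exact Or.inr (Or.inl h)
    · subst h; exact Or.inl ⟨x, hx, rfl⟩
    · exact Or.inr (Or.inr ⟨x, ⟨l, Or.inl h, hx⟩, rfl⟩)
    · exact Or.inr (Or.inr ⟨x, ⟨l, Or.inr h, hx⟩, rfl⟩)
  · rintro (⟨x, hx, rfl⟩ | h | ⟨x, ⟨l, h | h, hx⟩, rfl⟩)
    · exact Or.inr ⟨x, ⟨F, Or.inl rfl, hx⟩, rfl⟩
    · exact Or.inl h
    · exact Or.inr ⟨x, ⟨l, Or.inr (Or.inl h), hx⟩, rfl⟩
    · exact Or.inr ⟨x, ⟨l, Or.inr (Or.inr h), hx⟩, rfl⟩

theorem allAdj_cons (R : G → G → Prop) (a : G) (F : List (S × G)) (s : Slice S G)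
    (E : List (Slice S G)) : AllAdj R a F (s :: E) ↔ Adj R a F ∧ AllAdj R a (s.tgt a) E := by
  constructor
  · intro h
    refine ⟨h F (by simp [sts]), fun K hK => h K ?_⟩
    simp only [sts, List.map_cons, List.mem_cons] at hK ⊢
    tauto
  · rintro ⟨h1, h2⟩ K hK
    simp only [sts, List.map_cons, List.mem_cons] at hK
    rcases hK with rfl | hK
    · exact h1
    · apply h2
      simp only [sts, List.mem_cons]
      exact hK

theorem dropLift (c : Bool) (a : G) (F F' : List (Unit × G)) (Z : List (Slice Unit G))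
    (hZ : Path a F Z F') (hce : CEs c a Z) :
    ∃ Y : List (Slice Unit G), Path a F Y F' ∧ crossings (Y.map Slice.plain) = 0 ∧
      (∀ ω, Phi true ω a Y = Phi c ω a Z) ∧
      ∀ (G' : Type) (ψ : G' → G) (a' : G') (K K' : List (Unit × G')) (Y' : List (Slice Unit G')),
        ψ a' = a → trF kp ψ a' K = F → Path a' K Y' K' → trE kp ψ a' Y' = Y →
        ∃ Z' : List (Slice Unit G'), Path a' K Z' K' ∧ trE kp ψ a' Z' = Z ∧
          (∀ R, AllAdj R a' K Y' → AllAdj R a' K Z') ∧
          (∀ g ∈ labs a' K Y', g ∈ labs a' K Z') := by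
  induction Z generalizing F with
  | nil =>
    refine ⟨[], hZ, rfl, fun ω => rfl, ?_⟩
    intro G' ψ a' K K' Y' _ _ hY' hpr
    have : Y' = [] := by simpa [trE] using hpr
    subst this
    exact ⟨[], hY', rfl, fun R h => h, fun g h => h⟩
  | cons s Z ih =>
    obtain ⟨h1, h2⟩ := hZ
    obtain ⟨Y, k1, k2, k3, k4⟩ := ih (s.tgt a) h2 (fun r hr => hce r (by simp [hr]))
    have hs := hce s (by simp)
    have simple : (∀ b s₁ y s₂ t₁ y' t₂ z, s.p ≠ .cr b s₁ y s₂ t₁ y' t₂ z) →
      ∃ Y : List (Slice Unit G), Path a F Y F' ∧ crossings (Y.map Slice.plain) = 0 ∧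
      (∀ ω, Phi true ω a Y = Phi c ω a (s :: Z)) ∧
      ∀ (G' : Type) (ψ : G' → G) (a' : G') (K K' : List (Unit × G')) (Y' : List (Slice Unit G')),
        ψ a' = a → trF kp ψ a' K = F → Path a' K Y' K' → trE kp ψ a' Y' = Y →
        ∃ Z' : List (Slice Unit G'), Path a' K Z' K' ∧ trE kp ψ a' Z' = s :: Z ∧
          (∀ R, AllAdj R a' K Y' → AllAdj R a' K Z') ∧
          (∀ g ∈ labs a' K Y', g ∈ labs a' K Z') := by
      intro hns
      refine ⟨s :: Y, ⟨h1, k1⟩, ?_, ?_, ?_⟩
      · obtain ⟨L, p, R⟩ := s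
        cases p with
        | cr b s₁ y s₂ t₁ y' t₂ z => exact absurd rfl (hns _ _ _ _ _ _ _ _)
        | _ => simpa [Slice.plain, crossings] using k2
      · intro ω
        obtain ⟨L, p, R⟩ := s
        cases p with
        | cr b s₁ y s₂ t₁ y' t₂ z => exact absurd rfl (hns _ _ _ _ _ _ _ _)
        | _ => simp only [Phi, Loc.wt, k3]
      · intro G' ψ a' K K' Y' ha' hK hY' hpr
        obtain ⟨s', Y1, rfl, hs', hY1⟩ := List.map_eq_cons_iff.1 hpr
        obtain ⟨g1, g2⟩ := hY'
        have htg : trF kp ψ a' (s'.tgt a') = s.tgt a := by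
          rw [← tgt_tr sym_kp ψ a' s', hs', ha']
        obtain ⟨Z1, q1, q2, q3, q4⟩ := k4 G' ψ a' (s'.tgt a') K' Y1 ha' htg g2 hY1
        refine ⟨s' :: Z1, ⟨g1, q1⟩, ?_, ?_, ?_⟩
        · simp only [trE, List.map_cons, hs']
          congr 1
        · intro R hR
          rw [allAdj_cons] at hR ⊢
          exact ⟨hR.1, q3 R hR.2⟩
        · intro g hg
          rw [labs_cons] at hg ⊢
          rcases hg with hg | hg
          · exact Or.inl hg
          · exact Or.inr (q4 g hg)
    obtain ⟨L, p, R⟩ := s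
    cases p with
    | cr b s₁ y s₂ t₁ y' t₂ z =>
      cases s₁; cases s₂; cases t₁; cases t₂
      obtain ⟨hs1, hs2⟩ := hs
      by_cases hb : b = c
      · have := hs1 hb
        subst this
        have h3 : Slice.src a (⟨L, .cr b () y () () y () z, R⟩ : Slice Unit G) =
          Slice.tgt a ⟨L, .cr b () y () () y () z, R⟩ := rfl
        rw [h1] at h3
        refine ⟨Y, by rw [h3]; exact k1, k2, ?_, ?_⟩
        · intro ω; simp only [Phi, Loc.wt, hb, if_true, k3, zero_add]
        · intro G' ψ a' K K' Y' ha' hK hY' hpr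
          obtain ⟨Z1, q1, q2, q3, q4⟩ := k4 G' ψ a' K K' Y' ha' (by rw [hK, h3]) hY' hpr
          have hK2 : trF kp ψ a' K = L ++ ((), y) :: ((), z) :: R := by
            rw [hK, ← h1]; simp [Slice.src, Loc.src]
          obtain ⟨L', M', rfl, hL, hM⟩ := trF_split kp ψ a' K L _ hK2
          rcases M' with _ | ⟨⟨⟨⟩, y1⟩, _ | ⟨⟨⟨⟩, z1⟩, R'⟩⟩
          · simp [trF] at hM
          · simp [trF] at hM
          simp only [trF, kp, List.cons.injEq, Prod.mk.injEq, true_and] at hM
          obtain ⟨hy, hz, hR⟩ := hM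
          have hsrc : Slice.src a' (⟨L', .cr b () y1 () () y1 () z1, R'⟩ : Slice Unit G') =
            L' ++ ((), y1) :: ((), z1) :: R' := by simp [Slice.src, Loc.src]
          have htgt : Slice.tgt a' (⟨L', .cr b () y1 () () y1 () z1, R'⟩ : Slice Unit G') =
            L' ++ ((), y1) :: ((), z1) :: R' := by simp [Slice.tgt, Loc.tgt]
          refine ⟨⟨L', .cr b () y1 () () y1 () z1, R'⟩ :: Z1, ⟨hsrc, ?_⟩, ?_, ?_, ?_⟩
          · rw [htgt]; exact q1
          · simp only [trE, List.map_cons, Slice.tr, Loc.tr, Loc.right, kp, hL, hy, hz]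
            congr 1
            rw [← hz, ← hR, hz]
          · intro Q hQ
            rw [allAdj_cons, htgt]
            have := q3 Q hQ
            exact ⟨this _ (by simp [sts]), this⟩
          · intro g hg
            rw [labs_cons, htgt]
            exact Or.inr (q4 g hg)
      · have hz : cur a L = z := hs2 hb
        subst hz
        have h1' : L ++ ((), y) :: ((), cur a L) :: R = F := by
          simpa [Slice.src, Loc.src] using h1
        have e2 : Slice.tgt a (⟨L, .cr b () y () () y' () (cur a L), R⟩ : Slice Unit G) =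
          L ++ ((), y') :: ((), cur a L) :: R := by simp [Slice.tgt, Loc.tgt]
        rw [e2] at k1 k4
        refine ⟨⟨L, .death () y, R⟩ :: ⟨L, .birth () y', R⟩ :: Y, ⟨?_, ?_, ?_⟩, ?_, ?_, ?_⟩
        · simpa [Slice.src, Loc.src] using h1'
        · simp [Slice.src, Slice.tgt, Loc.src, Loc.tgt]
        · simpa [Slice.src, Slice.tgt, Loc.src, Loc.tgt] using k1
        · simpa [Slice.plain, crossings] using k2
        · intro ω; simp only [Phi, Loc.wt, hb, if_false, k3]; ring
        · intro G' ψ a' K K' Y' ha' hK hY' hpr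
          obtain ⟨d', Y1, rfl, hd', hY1⟩ := List.map_eq_cons_iff.1 hpr
          obtain ⟨b', Y2, rfl, hb', hY2⟩ := List.map_eq_cons_iff.1 hY1
          obtain ⟨L1, pd, R1⟩ := d'
          obtain ⟨L2, pb, R2⟩ := b'
          cases pd <;> simp only [Slice.tr, Loc.tr, Slice.mk.injEq, Loc.death.injEq, reduceCtorEq,
            and_false, false_and] at hd'
          rename_i u1 y1
          cases pb <;> simp only [Slice.tr, Loc.tr, Slice.mk.injEq, Loc.birth.injEq, reduceCtorEq,
            and_false, false_and] at hb'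
          rename_i u2 y2
          cases u1; cases u2
          obtain ⟨hd1, ⟨-, hd2⟩, hd3⟩ := hd'
          obtain ⟨hb1, ⟨-, hb2⟩, hb3⟩ := hb'
          obtain ⟨g1, g2, g3⟩ := hY'
          have e1 : L2 ++ R2 = L1 ++ R1 := by
            simpa [Slice.src, Slice.tgt, Loc.src, Loc.tgt] using g2
          have hlen : L2.length = L1.length := by
            have h1 := congrArg List.length hd1
            have h2 := congrArg List.length hb1
            rw [trF_length] at h1 h2
            omega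
          obtain ⟨rfl, rfl⟩ := List.append_inj e1 hlen
          have e3 : Slice.tgt a' (⟨L2, .birth () y2, R2⟩ : Slice Unit G') =
            L2 ++ ((), y2) :: ((), cur a' L2) :: R2 := by simp [Slice.tgt, Loc.tgt]
          rw [e3] at g3
          have hcur : ψ (cur a' L2) = cur a L := by
            rw [← hd1, ← ha', cur_trF]
          have hK3 : trF kp ψ a' (L2 ++ ((), y2) :: ((), cur a' L2) :: R2) =
              L ++ ((), y') :: ((), cur a L) :: R := by
            rw [trF_append, hd1]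
            simp only [trF, kp, hb2, hcur]
            congr 3
          obtain ⟨Z1, q1, q2, q3, q4⟩ := k4 G' ψ a' _ K' Y2 ha' hK3 g3 hY2
          have hKe : L2 ++ ((), y1) :: ((), cur a' L2) :: R2 = K := by
            simpa [Slice.src, Loc.src] using g1
          refine ⟨⟨L2, .cr b () y1 () () y2 () (cur a' L2), R2⟩ :: Z1, ⟨?_, ?_⟩, ?_, ?_, ?_⟩
          · simpa [Slice.src, Loc.src] using hKe
          · simpa [Slice.tgt, Loc.tgt] using q1
          · simp only [trE, List.map_cons, Slice.tr, Loc.tr, Loc.right, kp, hd1, hd2, hb2, hcur]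
            simp only [Loc.right] at hd3
            rw [hd3]
            congr 1
          · intro Q hQ
            have e4 : Slice.tgt a' (⟨L2, .cr b () y1 () () y2 () (cur a' L2), R2⟩ :
              Slice Unit G') = L2 ++ ((), y2) :: ((), cur a' L2) :: R2 := by
              simp [Slice.tgt, Loc.tgt]
            rw [allAdj_cons, allAdj_cons, e3] at hQ
            rw [allAdj_cons, e4]
            exact ⟨hQ.1, q3 Q hQ.2.2⟩
          · intro g hg
            have e4 : Slice.tgt a' (⟨L2, .cr b () y1 () () y2 () (cur a' L2), R2⟩ :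
              Slice Unit G') = L2 ++ ((), y2) :: ((), cur a' L2) :: R2 := by
              simp [Slice.tgt, Loc.tgt]
            rw [labs_cons, labs_cons, e3] at hg
            rw [labs_cons, e4]
            rcases hg with hg | hg | hg
            · exact Or.inl hg
            · left
              rw [← hKe]
              simp only [Slice.tgt, Loc.tgt, List.append_nil, List.map_append,
                List.mem_append, List.map_cons, List.mem_cons] at hg ⊢
              tauto
            · exact Or.inr (q4 g hg)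
    | birth u y => exact simple (by simp)
    | death u y => exact simple (by simp)
    | hole => exact simple (by simp)

theorem gapIneqD (C : G → Bool) (c : Bool) (a : G) (la : ℕ) (F0 : List (Unit × (G × ℕ)))
    (hMa : Mk C (a, la)) (hF0 : Adj (QQ C) (a, la) F0) (Z : List (Slice Unit G))
    (F : List (Unit × G)) (hp : Path a (trF kp Prod.fst (a, la) F0) Z F) (hce : CEs c a Z) :
    ∃ (ρ : ℕ → ℕ) (Z' : List (Slice Unit (G × ℕ))) (F' : List (Unit × (G × ℕ))),
      (∀ g l, Mk C (g, l) → Mk C (g, ρ l)) ∧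
      trE kp Prod.fst (a, ρ la) Z' = Z ∧ trF kp Prod.fst (a, ρ la) F' = F ∧
      Path (a, ρ la) (trF kp (sg ρ) (a, la) F0) Z' F' ∧
      AllAdj (QQ C) (a, ρ la) (trF kp (sg ρ) (a, la) F0) Z' ∧
      2 * Phi c (ind C) a Z + 2 * ((NU (a, la) F0 []).card : ℤ) +
          II C a (trF kp Prod.fst (a, la) F0) ≤
        2 * ((NU (a, ρ la) (trF kp (sg ρ) (a, la) F0) Z').card : ℤ) + II C a F := by
  obtain ⟨Y, h1, h2, h3, h4⟩ := dropLift c a _ F Z hp hce
  obtain ⟨ρ, Y', F', k1, k2, k3, k4, k5, k6⟩ :=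
    gapIneq C a la F0 hMa hF0 Y F h1 (noCr_of rfl h2)
  obtain ⟨Z', q1, q2, q3, q4⟩ := h4 (G × ℕ) Prod.fst (a, ρ la) (trF kp (sg ρ) (a, la) F0) F' Y'
    rfl (trF_trF kp (sg ρ) kp Prod.fst (a, la) F0) k4 k2
  refine ⟨ρ, Z', F', k1, q2, k3, q1, q3 _ k5, ?_⟩
  rw [h3] at k6
  have hsub : NU (a, ρ la) (trF kp (sg ρ) (a, la) F0) Y' ⊆
      NU (a, ρ la) (trF kp (sg ρ) (a, la) F0) Z' := by
    intro l hl
    rw [mem_NU] at hl ⊢
    obtain ⟨hl0, p, hp, hpl⟩ := hl
    exact ⟨hl0, p, q4 p hp, hpl⟩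
  have hc : ((NU (a, ρ la) (trF kp (sg ρ) (a, la) F0) Y').card : ℤ) ≤
      ((NU (a, ρ la) (trF kp (sg ρ) (a, la) F0) Z').card : ℤ) := by
    exact_mod_cast Finset.card_le_card hsub
  linarith

theorem first_birth (a : G) (Z : List (Slice Unit G)) (F' : List (Unit × G))
    (hZ : Path a [] Z F') (hne : ∃ K ∈ sts a [] Z, K ≠ []) :
    ∃ (Zh : List (Slice Unit G)) (y : G) (Z1 : List (Slice Unit G)),
      Z = Zh ++ ⟨[], .birth () y, []⟩ :: Z1 ∧ (∀ s ∈ Zh, s = ⟨[], .hole, []⟩) ∧
      Path a [((), y), ((), a)] Z1 F' := by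
  induction Z with
  | nil => simp [sts] at hne
  | cons s Z ih =>
    obtain ⟨h1, h2⟩ := hZ
    obtain ⟨L, p, R⟩ := s
    simp only [Slice.src, List.append_eq_nil_iff] at h1
    obtain ⟨⟨rfl, h1⟩, rfl⟩ := h1
    cases p with
    | birth u y =>
      exact ⟨[], y, Z, rfl, by simp, h2⟩
    | death u y => simp [Loc.src] at h1
    | cr b s₁ y s₂ t₁ y' t₂ z => simp [Loc.src] at h1
    | hole =>
      have e : Slice.tgt a (⟨[], .hole, []⟩ : Slice Unit G) = [] := rfl
      rw [e] at h2
      obtain ⟨Zh, y, Z1, rfl, k1, k2⟩ := ih h2 (by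
        obtain ⟨K, hK, hne⟩ := hne
        refine ⟨K, ?_, hne⟩
        simp only [sts, List.map_cons, List.mem_cons, e] at hK ⊢
        tauto)
      refine ⟨⟨[], .hole, []⟩ :: Zh, y, Z1, rfl, ?_, k2⟩
      intro s hs
      rcases List.mem_cons.1 hs with rfl | hs
      · rfl
      · exact k1 s hs

theorem holes_path (a : G) (Zh : List (Slice Unit G)) (h : ∀ s ∈ Zh, s = ⟨[], .hole, []⟩) :
    Path a [] Zh [] ∧ (∀ K ∈ sts a [] Zh, K = []) ∧ (∀ c ω, Phi c ω a Zh = 0) := by
  induction Zh with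
  | nil => exact ⟨rfl, by simp [sts], fun _ _ => rfl⟩
  | cons s Zh ih =>
    have hs := h s (by simp)
    subst hs
    obtain ⟨h1, h2, h3⟩ := ih (fun s hs => h s (by simp [hs]))
    refine ⟨⟨rfl, h1⟩, ?_, ?_⟩
    · intro K hK
      simp only [sts, List.map_cons, List.mem_cons] at hK h2
      rcases hK with rfl | rfl | hK
      · rfl
      · rfl
      · exact h2 K (Or.inr hK)
    · intro c ω
      simp only [Phi, Loc.wt, h3 c ω, add_zero]

theorem outerIneq (C : G → Bool) (c : Bool) (a : G) (ha : C a = true) (Z : List (Slice Unit G))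
    (hZ : Path a [] Z []) (hce : CEs c a Z)
    (hind : AllAdj (fun x y => ¬ (C x = true ∧ C y = true)) a [] Z)
    (hne : ∃ K ∈ sts a [] Z, K ≠ []) :
    ∃ (l : ℕ) (Z' : List (Slice Unit (G × ℕ))), Path (a, l) [] Z' [] ∧
      trE kp Prod.fst (a, l) Z' = Z ∧ (∀ p ∈ labs (a, l) [] Z', Mk C p) ∧
      Phi c (ind C) a Z + 2 ≤ ((NU (a, l) [] Z').card : ℤ) := by
  obtain ⟨Zh, y, Z1, rfl, hZh, hp1⟩ := first_birth a Z [] hZ hne
  have hy : C y = false := by
    have h1 : [((), y), ((), a)] ∈ sts a [] (Zh ++ ⟨[], .birth () y, []⟩ :: Z1) := by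
      simp only [sts, List.map_append, List.map_cons, List.mem_cons, List.mem_append]
      right; right; left; rfl
    have h2 := (hind _ h1).1
    by_contra hc
    exact h2 ⟨ha, by simpa using hc⟩
  set F0 : List (Unit × (G × ℕ)) := [((), (y, 0)), ((), (a, 2))] with hF0
  have hMa : Mk C (a, 1) := by simp [Mk, ha]
  have hMy : Mk C (y, 0) := by simp [Mk, hy]
  have hMa2 : Mk C (a, 2) := by simp [Mk, ha]
  obtain ⟨ρ, Z', F', k1, k2, k3, k4, k5, k6⟩ := gapIneqD C c a 1 F0 hMa
    ⟨⟨hMa, hMy, fun _ h => by simp [hy] at h⟩, ⟨hMy, hMa2, fun h _ => by simp [hy] at h⟩, trivial⟩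
    Z1 [] hp1 (fun s hs => hce s (by simp [hs]))
  have hF' : F' = [] := by
    cases F' with
    | nil => rfl
    | cons p F => simp [trF] at k3
  subst hF'
  have hρ0 : ρ 0 = 0 := by
    have := k1 y 0 hMy
    simpa [Mk, hy] using this
  have hρ2 : ρ 2 = ρ 1 := by
    have := cur_path _ _ _ _ k4
    simp only [hF0, trF, cur, sg, Prod.mk.injEq, true_and] at this
    exact this
  set Zh' : List (Slice Unit (G × ℕ)) := Zh.map (fun _ => ⟨[], .hole, []⟩) with hZh'
  obtain ⟨g1, g2, g3⟩ := holes_path (a, ρ 1) Zh' (by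
    intro s hs
    obtain ⟨r, _, rfl⟩ := List.mem_map.1 hs
    rfl)
  have hstart : trF kp (sg ρ) (a, 1) F0 = [((), (y, 0)), ((), (a, ρ 1))] := by
    simp only [hF0, trF, sg, hρ0, hρ2, kp]
  rw [hstart] at k4 k5 k6
  refine ⟨ρ 1, Zh' ++ ⟨[], .birth () (y, 0), []⟩ :: Z', ?_, ?_, ?_, ?_⟩
  · rw [path_append]
    exact ⟨[], g1, rfl, k4⟩
  · have e1 : trE kp Prod.fst (a, ρ 1) (Zh' ++ ⟨[], .birth () (y, 0), []⟩ :: Z') =
        trE kp Prod.fst (a, ρ 1) Zh' ++ ⟨[], .birth () y, []⟩ ::
          trE kp Prod.fst (a, ρ 1) Z' := by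
      simp [trE, Slice.tr, Loc.tr, trF, kp]
    rw [e1, k2]
    congr 1
    simp only [trE, hZh', List.map_map]
    conv_rhs => rw [← List.map_id Zh]
    apply List.map_congr_left
    intro s hs
    rw [hZh s hs]
    rfl
  · intro p hp
    rw [labs_append _ _ _ _ _ g1, labs_cons] at hp
    rcases hp with hp | hp | hp
    · rcases labs_mem_state hp with rfl | ⟨K, hK, h⟩
      · exact k1 a 1 hMa
      · rw [g2 K hK] at h; simp at h
    · simp at hp
    · exact labs_of_allAdj (P := Mk C) (fun x y h => h.2.1) _ (k1 a 1 hMa) _ _ k5 p hp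
  · rw [Phi_append]
    have hPh := (holes_path a Zh hZh).2.2 c (ind C)
    simp only [Phi, Loc.wt, hPh, zero_add]
    have hiy : ind C y = 0 := by simp [ind, hy]
    rw [hiy, zero_add]
    have hII : II C a (trF kp Prod.fst (a, 1) F0) = 0 := by
      simp [hF0, trF, II, hy]
    have hII2 : II C a ([] : List (Unit × G)) = 0 := rfl
    have hN : 2 ≤ (NU (a, 1) F0 []).card := by
      have hsub : ({1, 2} : Finset ℕ) ⊆ NU (a, 1) F0 [] := by
        intro l hl
        rw [mem_NU]
        simp only [Finset.mem_insert, Finset.mem_singleton] at hl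
        rcases hl with rfl | rfl
        · exact ⟨by norm_num, (a, 1), by simp [labs], rfl⟩
        · exact ⟨by norm_num, (a, 2), by simp [labs, sts, hF0], rfl⟩
      simpa using Finset.card_le_card hsub
    have hsub2 : NU (a, ρ 1) [((), (y, 0)), ((), (a, ρ 1))] Z' ⊆
        NU (a, ρ 1) [] (Zh' ++ ⟨[], .birth () (y, 0), []⟩ :: Z') := by
      intro l hl
      rw [mem_NU] at hl ⊢
      obtain ⟨hl0, p, hp, hpl⟩ := hl
      refine ⟨hl0, p, ?_, hpl⟩
      rw [labs_append _ _ _ _ _ g1, labs_cons]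
      exact Or.inr (Or.inr hp)
    have hc : ((NU (a, ρ 1) [((), (y, 0)), ((), (a, ρ 1))] Z').card : ℤ) ≤
      ((NU (a, ρ 1) [] (Zh' ++ ⟨[], .birth () (y, 0), []⟩ :: Z')).card : ℤ) := by
      exact_mod_cast Finset.card_le_card hsub2
    have hN' : (2 : ℤ) ≤ ((NU (a, 1) F0 []).card : ℤ) := by exact_mod_cast hN
    rw [hII, hII2] at k6
    linarith

end Pool.Agent.H560R3.TG
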