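import Pool.Agent.H560R3.TG.Lower3

/-! Changing one smoothing in the extreme states: preparations. -/

set_option autoImplicit false
set_option linter.unusedSimpArgs false

namespace Pool.Agent.H560R3.TG

variable {S G S' G' : Type}

/-! ### an additional hole -/

theorem ins_hole (a : G) (E1 E2 : List (Slice S G)) (L R : List (S × G))
    (h1 : Path a [] E1 (L ++ R)) (h2 : Path a (L ++ R) E2 []) :
    Path a [] (E1 ++ ⟨L, .hole, R⟩ :: E2) [] ∧
      (∀ g, g ∈ holeLabels a (E1 ++ ⟨L, .hole, R⟩ :: E2) ↔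
        g = cur a L ∨ g ∈ holeLabels a (E1 ++ E2)) ∧
      (∀ c ω, Phi c ω a (E1 ++ ⟨L, .hole, R⟩ :: E2) = Phi c ω a (E1 ++ E2)) ∧
      (∀ Q, AllAdj Q a [] (E1 ++ E2) → AllAdj Q a [] (E1 ++ ⟨L, .hole, R⟩ :: E2)) ∧
      (∀ c, CEs c a (E1 ++ E2) → CEs c a (E1 ++ ⟨L, .hole, R⟩ :: E2)) := by
  refine ⟨?_, ?_, ?_, ?_, ?_⟩
  · rw [path_append]
    refine ⟨_, h1, by simp [Slice.src, Loc.src], ?_⟩
    simpa [Slice.tgt, Loc.tgt] using h2
  · intro g
    simp only [holeLabels_append, holeLabels, List.mem_append, List.mem_cons]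
    tauto
  · intro c ω
    simp only [Phi_append, Phi, Loc.wt, zero_add]
  · intro Q hQ K hK
    have hmem := end_mem_sts _ _ _ _ h1
    simp only [sts, List.map_append, List.map_cons, List.mem_cons, List.mem_append] at hK
    rcases hK with rfl | hK | rfl | hK
    · exact hQ _ (by simp [sts])
    · apply hQ
      simp only [sts, List.map_append, List.mem_cons, List.mem_append]
      tauto
    · apply hQ
      simp only [Slice.tgt, Loc.tgt, List.append_nil]
      simp only [sts, List.map_append, List.mem_cons, List.mem_append] at hmem ⊢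
      tauto
    · apply hQ
      simp only [sts, List.map_append, List.mem_cons, List.mem_append]
      tauto
  · intro c hc s hs
    simp only [List.mem_append, List.mem_cons] at hs
    rcases hs with hs | rfl | hs
    · exact hc s (by simp [hs])
    · trivial
    · exact hc s (by simp [hs])

theorem conn_hole {u v : List Piece} {j : ℕ} (h : Connected (u ++ v)) :
    Connected (u ++ .hole j :: v) := by
  rintro E ⟨hE, hp⟩ hs
  obtain ⟨Eu, E', rfl, h1, h2⟩ := split_plain E _ _ hp
  rcases E' with _ | ⟨s, Ev⟩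
  · simp at h2
  simp only [List.map_cons, List.cons.injEq] at h2
  obtain ⟨L, R, rfl, hL⟩ := plain_hole s j h2.1
  obtain ⟨K, hK1, hK2, hK3⟩ := (path_append () Eu _ [] []).1 hE
  have e1 : L ++ R = K := by simpa [Slice.src, Loc.src] using hK2
  subst e1
  have hK3' : Path () (L ++ R) Ev [] := by simpa [Slice.tgt, Loc.tgt] using hK3
  obtain ⟨w, hw⟩ := h (Eu ++ Ev) ⟨(path_append _ _ _ _ _).2 ⟨_, hK1, hK3'⟩, by simp [h1, h2.2]⟩
    (by
      intro s hs'
      apply hs
      simp only [List.mem_append, List.mem_cons] at hs' ⊢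
      tauto)
  refine ⟨w, ?_⟩
  intro s hs' e he
  simp only [List.mem_append, List.mem_cons] at hs'
  have hLR : ∀ e ∈ L ++ R, e.1 = w := by
    intro e he
    rcases mem_sts_cases (end_mem_sts _ _ _ _ hK1) with h3 | ⟨r, hr, h3⟩
    · rw [h3] at he; simp at he
    · apply hw r (by simp [hr]) e
      rw [h3] at he
      simp [he]
  rcases hs' with hs' | rfl | hs'
  · exact hw s (by simp [hs']) e he
  · apply hLR
    simp only [Slice.src, Slice.tgt, Loc.src, Loc.tgt, List.append_nil, List.mem_append] at he ⊢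
    tauto
  · exact hw s (by simp [hs']) e he

/-- an additional hole at the corner `k` of a crossing -/
def plus (k : Fin 4) (u : List Piece) (i : ℕ) (b : Bool) (v : List Piece) : List Piece :=
  if k = 0 then u ++ .hole i :: .cr i b :: v
  else if k = 1 then u ++ .hole (i + 1) :: .cr i b :: v
  else if k = 2 then u ++ .hole (i + 2) :: .cr i b :: v
  else u ++ .cr i b :: .hole (i + 1) :: v

theorem plus_conn {k : Fin 4} {u v : List Piece} {i : ℕ} {b : Bool}
    (h : Connected (u ++ .cr i b :: v)) : Connected (plus k u i b v) := by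
  unfold plus
  split_ifs
  · exact conn_hole h
  · exact conn_hole h
  · exact conn_hole h
  · have e : ∀ w : List Piece, u ++ .cr i b :: w = (u ++ [.cr i b]) ++ w := by intro w; simp
    rw [e] at h ⊢
    exact conn_hole h

theorem plus_WF {k : Fin 4} {u v : List Piece} {i : ℕ} {b : Bool}
    (h : WF 0 (u ++ .cr i b :: v) 0) : WF 0 (plus k u i b v) 0 := by
  obtain ⟨m, h1, h2, h3⟩ := (WF_append u _ 0 0).1 h
  unfold plus
  split_ifs <;> refine (WF_append _ _ _ _).2 ⟨m, h1, ?_⟩
  · exact ⟨by omega, h2, h3⟩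
  · exact ⟨by omega, h2, h3⟩
  · exact ⟨by omega, h2, h3⟩
  · exact ⟨h2, by omega, h3⟩

theorem plus_crossings {k : Fin 4} {u v : List Piece} {i : ℕ} {b : Bool} :
    crossings (plus k u i b v) = crossings (u ++ .cr i b :: v) := by
  unfold plus
  split_ifs <;> simp only [crossings_append, crossings]

theorem plus_lab (k : Fin 4) {u v : List Piece} {i : ℕ} {b : Bool} (a : G)
    (Eu : List (Slice Unit G)) (L : List (Unit × G)) (y y' z : G) (R : List (Unit × G))
    (Ev : List (Slice Unit G))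
    (h : Labelling a (Eu ++ ⟨L, .cr b () y () () y' () z, R⟩ :: Ev) (u ++ .cr i b :: v))
    (hu : Eu.map Slice.plain = u) :
    ∃ E' : List (Slice Unit G), Labelling a E' (plus k u i b v) ∧
      (∀ g, g ∈ holeLabels a E' ↔ g = corner (cur a L) y z y' k ∨
        g ∈ holeLabels a (Eu ++ ⟨L, .cr b () y () () y' () z, R⟩ :: Ev)) ∧
      (∀ c ω, Phi c ω a E' = Phi c ω a (Eu ++ ⟨L, .cr b () y () () y' () z, R⟩ :: Ev)) ∧
      (∀ Q, AllAdj Q a [] (Eu ++ ⟨L, .cr b () y () () y' () z, R⟩ :: Ev) → AllAdj Q a [] E') ∧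
      (∀ c, CEs c a (Eu ++ ⟨L, .cr b () y () () y' () z, R⟩ :: Ev) → CEs c a E') := by
  have hp := h.2
  rw [List.map_append, List.map_cons, hu] at hp
  have hp2 := List.append_cancel_left hp
  simp only [List.cons.injEq, Slice.plain, Piece.cr.injEq, and_true] at hp2
  obtain ⟨hL, hEv⟩ := hp2
  obtain ⟨K, hK1, hK2, hK3⟩ := (path_append a Eu _ [] []).1 h.1
  have hK3' : Path a (L ++ ((), y') :: ((), z) :: R) Ev [] := by
    simpa [Slice.tgt, Loc.tgt] using hK3
  have e1 : L ++ ((), y) :: ((), z) :: R = K := by simpa [Slice.src, Loc.src] using hK2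
  subst e1
  have hcr : Path a (L ++ ((), y) :: ((), z) :: R)
      (⟨L, .cr b () y () () y' () z, R⟩ :: Ev) [] := ⟨hK2, hK3⟩
  fin_cases k
  · obtain ⟨h1, h2, h3, h4, h5⟩ := ins_hole a Eu (⟨L, .cr b () y () () y' () z, R⟩ :: Ev) L
      (((), y) :: ((), z) :: R) hK1 hcr
    refine ⟨_, ⟨h1, ?_⟩, ?_, h3, h4, h5⟩
    · simp [plus, hu, hEv, Slice.plain, hL]
    · intro g; rw [h2]; simp [corner]
  · have e2 : L ++ ((), y) :: ((), z) :: R = (L ++ [((), y)]) ++ (((), z) :: R) := by simp
    rw [e2] at hK1 hcr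
    obtain ⟨h1, h2, h3, h4, h5⟩ := ins_hole a Eu (⟨L, .cr b () y () () y' () z, R⟩ :: Ev)
      (L ++ [((), y)]) (((), z) :: R) hK1 hcr
    refine ⟨_, ⟨h1, ?_⟩, ?_, h3, h4, h5⟩
    · simp [plus, hu, hEv, Slice.plain, hL]
    · intro g; rw [h2, cur_append]; simp [corner, cur]
  · have e2 : L ++ ((), y) :: ((), z) :: R = (L ++ [((), y), ((), z)]) ++ R := by simp
    rw [e2] at hK1 hcr
    obtain ⟨h1, h2, h3, h4, h5⟩ := ins_hole a Eu (⟨L, .cr b () y () () y' () z, R⟩ :: Ev)
      (L ++ [((), y), ((), z)]) R hK1 hcr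
    refine ⟨_, ⟨h1, ?_⟩, ?_, h3, h4, h5⟩
    · simp [plus, hu, hEv, Slice.plain, hL]
    · intro g; rw [h2, cur_append]; simp [corner, cur]
  · have hK4 : Path a [] (Eu ++ [⟨L, .cr b () y () () y' () z, R⟩])
        ((L ++ [((), y')]) ++ (((), z) :: R)) := by
      rw [path_append]
      refine ⟨_, hK1, ?_, ?_⟩
      · simp [Slice.src, Loc.src]
      · simp [Path, Slice.tgt, Loc.tgt]
    have hK5 : Path a ((L ++ [((), y')]) ++ (((), z) :: R)) Ev [] := by simpa using hK3'
    obtain ⟨h1, h2, h3, h4, h5⟩ := ins_hole a (Eu ++ [⟨L, .cr b () y () () y' () z, R⟩]) Ev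
      (L ++ [((), y')]) (((), z) :: R) hK4 hK5
    have e3 : (Eu ++ [(⟨L, .cr b () y () () y' () z, R⟩ : Slice Unit G)]) ++ Ev =
      Eu ++ ⟨L, .cr b () y () () y' () z, R⟩ :: Ev := by simp
    rw [e3] at h2 h4
    simp only [e3] at h3 h5
    refine ⟨_, ⟨h1, ?_⟩, ?_, h3, h4, h5⟩
    · simp [plus, hu, hEv, Slice.plain, hL]
    · intro g; rw [h2, cur_append]; simp [corner, cur]

/-- product of a labelling with the marks of a labelling which shows that a corner is not
external -/
theorem sep (u v : List Piece) (i : ℕ) (b : Bool) (k1 : Fin 4) (a : ℕ)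
    (f : List (Slice Unit ℕ)) (hf : Labelling a f (u ++ .cr i b :: v))
    (hk : ¬ External u i b v k1) :
    ∃ (fu : List (Slice Unit ℕ)) (L : List (Unit × ℕ)) (y y' z : ℕ) (R : List (Unit × ℕ))
      (fv : List (Slice Unit ℕ)),
      Labelling (a + 1) (fu ++ ⟨L, .cr b () y () () y' () z, R⟩ :: fv) (u ++ .cr i b :: v) ∧
      fu.map Slice.plain = u ∧
      corner (cur (a + 1) L) y z y' k1 = 0 ∧
      holeLabels (a + 1) (fu ++ ⟨L, .cr b () y () () y' () z, R⟩ :: fv) =
        (holeLabels a f).map (fun l => l + 1) := by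
  unfold External at hk
  push Not at hk
  obtain ⟨Eu, Ev, L2, R2, y2, y2', z2, hg, hEu, hgh, hgk⟩ := hk
  have hf1 := labelling_tr (S := Unit) (S' := Unit) sym_kp (fun l : ℕ => l + 1) hf
  have hfh := holeLabels_tr (kp : Unit → ℕ → ℕ → Unit) (fun l : ℕ => l + 1) a f
  rw [← hfh]
  generalize trE kp (fun l : ℕ => l + 1) a f = f1 at hf1 ⊢
  obtain ⟨fu, L1, y1, y1', z1, R1, fv, rfl, hfu, hL1, hfv, hp1, hp2⟩ := decomp_cr hf1
  have hgp := hg.2
  rw [List.map_append, List.map_cons, hEu] at hgp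
  have hgp2 := List.append_cancel_left hgp
  simp only [List.cons.injEq, Slice.plain, Piece.cr.injEq] at hgp2
  obtain ⟨⟨hL2, -⟩, hEv⟩ := hgp2
  have hlen : fu.length = Eu.length := by
    rw [← List.length_map Slice.plain, ← List.length_map Slice.plain (as := Eu), hfu, hEu]
  have hLL : L1.length = L2.length := by rw [hL1, hL2]
  set ρ : ℕ × Bool → ℕ := fun p => if p.2 then p.1 else 0 with hρ
  set φ : Unit × Unit → ℕ × Bool → ℕ × Bool → Unit := fun _ _ _ => () with hφ
  have hsym : Sym φ := fun _ _ _ => rfl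
  have hz := labelling_zip hf1 hg
  have hz' := labelling_tr hsym ρ hz
  have hh := holeLabels_tr φ ρ (a + 1, true)
    (zipE (fu ++ ⟨L1, .cr b () y1 () () y1' () z1, R1⟩ :: fv)
    (Eu ++ ⟨L2, .cr b () y2 () () y2' () z2, R2⟩ :: Ev))
  rw [holeLabels_zip (a + 1) true _ _ (hf1.2.trans hg.2.symm), zip_map_true ρ (fun l => rfl) _ _ (by
    rw [holeLabels_length, holeLabels_length, hf1.2, hg.2]) hgh] at hh
  have hsplit : trE φ ρ (a + 1, true)
      (zipE (fu ++ ⟨L1, .cr b () y1 () () y1' () z1, R1⟩ :: fv)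
      (Eu ++ ⟨L2, .cr b () y2 () () y2' () z2, R2⟩ :: Ev)) =
      trE φ ρ (a + 1, true) (zipE fu Eu) ++ ⟨trF φ ρ (a + 1, true) (zipF L1 L2),
        .cr b () (ρ (y1, y2)) () () (ρ (y1', y2')) () (ρ (z1, z2)),
        trF φ ρ (z1, z2) (zipF R1 R2)⟩ :: trE φ ρ (a + 1, true) (zipE fv Ev) := by
    rw [zipE_append _ _ _ _ hlen]
    simp only [trE, List.map_append, zipE, List.zipWith_cons_cons, List.map_cons, Slice.zip,
      Loc.zip, Slice.tr, Loc.tr, Loc.right, hφ]
  rw [hsplit] at hz' hh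
  refine ⟨_, _, _, _, _, _, _, hz', ?_, ?_, hh⟩
  · rw [plain_trE, zip_plainE _ _ (hfu.trans hEu.symm), hfu]
  · have hcur : cur (a + 1) (trF φ ρ (a + 1, true) (zipF L1 L2)) =
        ρ (cur (a + 1) L1, cur true L2) := by
      rw [← cur_zipF (a + 1) true L1 L2 hLL]; exact cur_trF φ ρ (a + 1, true) (zipF L1 L2)
    rw [hcur, corner_map, corner_pair]
    have hgk' : corner (cur true L2) y2 z2 y2' k1 = false := by simpa using hgk
    simp only [hρ, hgk', Bool.false_eq_true, if_false]

/-! ### disks -/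

/-- the strands next to a gap of height at least `m` -/
def hi (m : ℕ) (_ : Unit) (x y : ℕ) : Bool := decide (m ≤ max x y)

theorem sym_hi (m : ℕ) : Sym (hi m) := by
  intro s x y
  simp only [hi, max_comm]

def zr (g : ℕ) : Bool := decide (g = 0)

theorem away_of {m : ℕ} (hm : 2 ≤ m) (a : ℕ) (K : List (Unit × ℕ)) (h : Adj Nb a K) :
    Away (zr a) (trF (hi m) zr a K) := by
  induction K generalizing a with
  | nil => trivial
  | cons p K ih =>
    refine ⟨?_, ih _ h.2⟩
    intro h1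
    have h2 := h.1
    simp only [hi, decide_eq_true_eq, Nb, zr, decide_eq_false_iff_not] at h1 h2 ⊢
    omega

theorem hi_even {x y : ℕ} (h : Nb x y) (hx : x % 2 = 0) : hi 2 () x y = decide (2 ≤ x) := by
  simp only [hi, decide_eq_decide, Nb] at *
  omega

theorem hi_odd {x y : ℕ} (h : Nb x y) (hx : x % 2 = 1) : hi 3 () x y = decide (3 ≤ x) := by
  simp only [hi, decide_eq_decide, Nb] at *
  omega

theorem hi_comm (m x y : ℕ) : hi m () x y = hi m () y x := sym_hi m () x y

theorem disk_lemma {u v : List Piece} {i : ℕ} {b : Bool} (hD : Connected (u ++ .cr i b :: v))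
    (hS : ¬ DiskAt u i b v) (m : ℕ) (hm : 2 ≤ m) (Eu Ev : List (Slice Unit ℕ))
    (L R : List (Unit × ℕ)) (y y' z : ℕ)
    (hE : Labelling 0 (Eu ++ ⟨L, .cr b () y () () y' () z, R⟩ :: Ev) (u ++ .cr i b :: v))
    (hEu : Eu.map Slice.plain = u)
    (hok : HOK (Eu ++ ⟨L, .cr b () y () () y' () z, R⟩ :: Ev))
    (hsame : ∀ s ∈ Eu ++ Ev, (s.tr (hi m) zr 0).p.Same)
    (hcase : (hi m () (cur 0 L) y = hi m () y z ∧ hi m () (cur 0 L) y' = hi m () y' z) ∨
      (hi m () (cur 0 L) y = hi m () (cur 0 L) y' ∧ hi m () y z = hi m () y' z)) :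
    hi m () (cur 0 L) y = false ∧ hi m () y z = false ∧ hi m () (cur 0 L) y' = false ∧
      hi m () y' z = false := by
  set E := Eu ++ ⟨L, .cr b () y () () y' () z, R⟩ :: Ev with hEdef
  have hlab := labelling_tr (sym_hi m) zr hE
  have hsplit : trE (hi m) zr 0 E = trE (hi m) zr 0 Eu ++
      ⟨trF (hi m) zr 0 L, .cr b (hi m () (cur 0 L) y) (zr y) (hi m () y z)
        (hi m () (cur 0 L) y') (zr y') (hi m () y' z) (zr z), trF (hi m) zr z R⟩ ::
        trE (hi m) zr 0 Ev := by
    simp [hEdef, trE, Slice.tr, Loc.tr, Loc.right]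
  have hholes : ∀ h ∈ holeLabels true (trE (hi m) zr 0 E), h = true := by
    have := holeLabels_tr (hi m) zr 0 E
    have h' : holeLabels true (trE (hi m) zr 0 E) = (holeLabels 0 E).map zr := this
    rw [h']
    intro h hh
    obtain ⟨g, hg, rfl⟩ := List.mem_map.1 hh
    rw [hok.2 g hg]; rfl
  have haway : ∀ s ∈ trE (hi m) zr 0 E, Away true (s.src true) ∧ Away true (s.tgt true) := by
    intro s hs
    obtain ⟨r, hr, rfl⟩ := List.mem_map.1 hs
    obtain ⟨m1, m2⟩ := src_mem_sts _ _ _ _ hE.1 _ hr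
    have e1 : (r.tr (hi m) zr 0).src true = trF (hi m) zr 0 (r.src 0) :=
      src_tr (sym_hi m) zr 0 r
    have e2 : (r.tr (hi m) zr 0).tgt true = trF (hi m) zr 0 (r.tgt 0) :=
      tgt_tr (sym_hi m) zr 0 r
    rw [e1, e2]
    exact ⟨away_of hm 0 _ (hok.1 _ m1), away_of hm 0 _ (hok.1 _ m2)⟩
  have hall : hi m () (cur 0 L) y = hi m () y z ∧ hi m () (cur 0 L) y = hi m () (cur 0 L) y' ∧
      hi m () (cur 0 L) y = hi m () y' z := by
    by_contra hcon
    apply hS
    rw [hsplit] at hlab hholes haway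
    refine ⟨_, _, _, _, _, _, _, _, _, _, _, hlab, by rw [plain_trE, hEu], hholes, haway, ?_, ?_⟩
    · intro s hs
      have : s ∈ trE (hi m) zr 0 (Eu ++ Ev) := by
        simpa [trE] using hs
      obtain ⟨r, hr, rfl⟩ := List.mem_map.1 this
      exact hsame r hr
    · rcases hcase with ⟨h1, h2⟩ | ⟨h1, h2⟩
      · left
        refine ⟨h1, h2, fun h3 => hcon ⟨h1, h3, ?_⟩⟩
        rw [h3, h2]
      · right
        refine ⟨h1, h2, fun h3 => hcon ⟨h3, h1, ?_⟩⟩
        rw [h3, h2]
  obtain ⟨a1, a2, a3⟩ := hall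
  have hf : hi m () (cur 0 L) y = false := by
    by_contra hcon
    have ht : hi m () (cur 0 L) y = true := by simpa using hcon
    have hlab2 := labelling_tr (φ := fun (s : Bool) (_ _ : Bool) => s) (fun _ _ _ => rfl)
      (fun _ => ()) hlab
    obtain ⟨w, hw⟩ := hD _ hlab2 (by
      intro s hs
      obtain ⟨r, hr, rfl⟩ := List.mem_map.1 hs
      rw [hsplit] at hr
      simp only [List.mem_append, List.mem_cons] at hr
      have key : ∀ r ∈ trE (hi m) zr 0 (Eu ++ Ev),
          (r.tr (fun (s : Bool) (_ _ : Bool) => s) (fun _ => ()) (zr 0)).p.Same := by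
        intro r hr
        obtain ⟨q, hq, rfl⟩ := List.mem_map.1 hr
        have h1 := hsame q hq
        generalize q.tr (hi m) zr 0 = q' at h1
        obtain ⟨L', p', R'⟩ := q'
        cases p' <;> first | trivial | exact h1
      rcases hr with hr | rfl | hr
      · exact key r (by simp only [trE, List.map_append, List.mem_append]; exact Or.inl hr)
      · exact ⟨a1, a2, a3⟩
      · exact key r (by simp only [trE, List.map_append, List.mem_append]; exact Or.inr hr))
    have hs0 : (⟨L, .cr b () y () () y' () z, R⟩ : Slice Unit ℕ) ∈ E := by simp [hEdef]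
    have hs1 : ∀ e ∈ trF (fun (s : Bool) (_ _ : Bool) => s) (fun _ => ()) (zr 0)
        (trF (hi m) zr 0 (L ++ ((), y) :: ((), z) :: R)), e.1 = w := by
      intro e he
      apply hw (((⟨L, .cr b () y () () y' () z, R⟩ : Slice Unit ℕ).tr (hi m) zr 0).tr
        (fun (s : Bool) (_ _ : Bool) => s) (fun _ => ()) (zr 0))
        (List.mem_map_of_mem (List.mem_map_of_mem hs0)) e
      rw [List.mem_append]
      left
      have e1 := src_tr (φ := fun (s : Bool) (_ _ : Bool) => s) (fun _ _ _ => rfl) (fun _ => ())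
        (zr 0) ((⟨L, .cr b () y () () y' () z, R⟩ : Slice Unit ℕ).tr (hi m) zr 0)
      have e2 := src_tr (sym_hi m) zr 0 (⟨L, .cr b () y () () y' () z, R⟩ : Slice Unit ℕ)
      rw [e2] at e1
      rw [e1]
      have e3 : Slice.src 0 (⟨L, .cr b () y () () y' () z, R⟩ : Slice Unit ℕ) =
        L ++ ((), y) :: ((), z) :: R := by simp [Slice.src, Loc.src]
      rw [e3]
      exact he
    have hwt : w = true := by
      rw [← ht]
      symm
      apply hs1 (hi m () (cur 0 L) y, ())
      rw [trF_append, trF_append]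
      simp [trF]
    have hadj := hok.1 (L ++ ((), y) :: ((), z) :: R) (by
      have := (src_mem_sts _ _ _ _ hE.1 _ hs0).1
      simpa [Slice.src, Loc.src] using this)
    obtain ⟨p, K, hpK⟩ : ∃ p K, L ++ ((), y) :: ((), z) :: R = p :: K :=
      List.exists_cons_of_ne_nil (by simp)
    rw [hpK] at hs1 hadj
    have h1 : p.2 = 1 := by
      have := hadj.1
      simp only [Nb] at this
      omega
    have h2 : hi m () 0 p.2 = w := hs1 (hi m () 0 p.2, ()) (by simp [trF])
    rw [h1, hwt] at h2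
    simp only [hi, decide_eq_true_eq] at h2
    have : max 0 1 = 1 := rfl
    omega
  exact ⟨hf, by rw [← a1]; exact hf, by rw [← a2]; exact hf, by rw [← a3]; exact hf⟩

end Pool.Agent.H560R3.TG
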