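import Pool.Agent.H560R3.TG.Lower4

/-! Changing one smoothing in the extreme states. -/

set_option autoImplicit false
set_option linter.unusedSimpArgs false

namespace Pool.Agent.H560R3.TG

theorem flip_lab {u v : List Piece} {i : ℕ} {b : Bool} {Eu Ev : List (Slice Unit ℕ)}
    {L R : List (Unit × ℕ)} {y y' z : ℕ}
    (h : Labelling 0 (Eu ++ ⟨L, .cr (!b) () y () () y' () z, R⟩ :: Ev) (u ++ .cr i (!b) :: v))
    (hu : Eu.map Slice.plain = u)
    (hok : HOK (Eu ++ ⟨L, .cr (!b) () y () () y' () z, R⟩ :: Ev)) :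
    Labelling 0 (Eu ++ ⟨L, .cr b () y () () y' () z, R⟩ :: Ev) (u ++ .cr i b :: v) ∧
      HOK (Eu ++ ⟨L, .cr b () y () () y' () z, R⟩ :: Ev) := by
  refine ⟨⟨?_, ?_⟩, ?_, ?_⟩
  · obtain ⟨K, h1, h2, h3⟩ := (path_append _ _ _ _ _).1 h.1
    exact (path_append _ _ _ _ _).2 ⟨K, h1, h2, h3⟩
  · have hp := h.2
    rw [List.map_append, List.map_cons, hu] at hp
    have hp2 := List.append_cancel_left hp
    simp only [List.cons.injEq, Slice.plain, Piece.cr.injEq, and_true] at hp2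
    rw [List.map_append, List.map_cons, hu]
    simp only [Slice.plain, hp2.1, hp2.2]
  · intro K hK
    apply hok.1
    simp only [sts, List.map_append, List.map_cons, List.mem_cons, List.mem_append] at hK ⊢
    exact hK
  · intro g hg
    apply hok.2
    simp only [holeLabels_append, holeLabels] at hg ⊢
    exact hg

theorem cr_facts {D : List Piece} {E : List (Slice Unit ℕ)} (hE : Labelling 0 E D)
    (hA : AllAdj Nb 0 [] E) {L R : List (Unit × ℕ)} {b : Bool} {y y' z : ℕ}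
    (hs : (⟨L, .cr b () y () () y' () z, R⟩ : Slice Unit ℕ) ∈ E) :
    cur 0 L % 2 = L.length % 2 ∧ Nb (cur 0 L) y ∧ Nb y z ∧ Nb (cur 0 L) y' ∧ Nb y' z := by
  obtain ⟨m1, m2⟩ := src_mem_sts _ _ _ _ hE.1 _ hs
  have m1' : L ++ ((), y) :: ((), z) :: R ∈ sts 0 [] E := by
    simpa [Slice.src, Loc.src] using m1
  have m2' : L ++ ((), y') :: ((), z) :: R ∈ sts 0 [] E := by
    simpa [Slice.tgt, Loc.tgt] using m2
  obtain ⟨a1, a2, a3, -⟩ := state_adj hA m1'
  obtain ⟨-, a4, a5, -⟩ := state_adj hA m2'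
  have h1 := adj_parity 0 L a1
  exact ⟨by simpa using h1, a2, a3, a4, a5⟩

theorem same_W {x y y' z : ℕ} {b cB : Bool} {i : ℕ} (hi' : x % 2 = i % 2)
    (h1 : Nb x y) (h2 : Nb y z) (h3 : Nb x y') (h4 : Nb y' z)
    (hb : b = cB ↔ i % 2 = 0) (hc1 : b = !cB → y = y') (hc2 : b ≠ !cB → x = z) :
    hi 2 () x y = hi 2 () y z ∧ hi 2 () x y = hi 2 () x y' ∧ hi 2 () x y = hi 2 () y' z := by
  by_cases h : b = cB
  · have hx : x % 2 = 0 := by rw [hi']; exact hb.1 h
    have hxz := hc2 (by rw [h]; simp)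
    subst hxz
    rw [hi_comm 2 y x, hi_comm 2 y' x]
    rw [hi_even h1 hx, hi_even h3 hx]
    exact ⟨rfl, rfl, rfl⟩
  · have hyy := hc1 (bool_ne h)
    subst hyy
    have hi2 : i % 2 = 1 := by
      rcases Nat.mod_two_eq_zero_or_one i with h' | h'
      · exact absurd (hb.2 h') h
      · exact h'
    have hy : y % 2 = 0 := by unfold Nb at h1; omega
    have h1' : Nb y x := by unfold Nb at h1 ⊢; omega
    rw [hi_comm 2 x y, hi_even h1' hy, hi_even h2 hy]
    exact ⟨rfl, rfl, rfl⟩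

theorem same_B {x y y' z : ℕ} {b cB : Bool} {i : ℕ} (hi' : x % 2 = i % 2)
    (h1 : Nb x y) (h2 : Nb y z) (h3 : Nb x y') (h4 : Nb y' z)
    (hb : b = cB ↔ i % 2 = 0) (hc1 : b = cB → y = y') (hc2 : b ≠ cB → x = z) :
    hi 3 () x y = hi 3 () y z ∧ hi 3 () x y = hi 3 () x y' ∧ hi 3 () x y = hi 3 () y' z := by
  by_cases h : b = cB
  · have hyy := hc1 h
    subst hyy
    have hx : x % 2 = 0 := by rw [hi']; exact hb.1 h
    have hy : y % 2 = 1 := by unfold Nb at h1; omega
    have h1' : Nb y x := by unfold Nb at h1 ⊢; omega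
    rw [hi_comm 3 x y, hi_odd h1' hy, hi_odd h2 hy]
    exact ⟨rfl, rfl, rfl⟩
  · have hxz := hc2 h
    subst hxz
    have hi2 : i % 2 = 1 := by
      rcases Nat.mod_two_eq_zero_or_one i with h' | h'
      · exact absurd (hb.2 h') h
      · exact h'
    have hx : x % 2 = 1 := by rw [hi']; exact hi2
    rw [hi_comm 3 y x, hi_comm 3 y' x]
    rw [hi_odd h1 hx, hi_odd h3 hx]
    exact ⟨rfl, rfl, rfl⟩

theorem WF_flip {u v : List Piece} {i : ℕ} {b : Bool} (h : WF 0 (u ++ .cr i b :: v) 0) :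
    WF 0 (u ++ .cr i (!b) :: v) 0 := by
  obtain ⟨m, h1, h2⟩ := (WF_append u _ 0 0).1 h
  exact (WF_append u _ 0 0).2 ⟨m, h1, h2⟩

theorem switch_W {u v : List Piece} {i : ℕ} {b cB : Bool}
    (hwf : WF 0 (u ++ .cr i b :: v) 0) (hD : Connected (u ++ .cr i b :: v))
    (hcB : ∀ j b', Piece.cr j b' ∈ u ++ .cr i b :: v → (b' = cB ↔ j % 2 = 0))
    (hS : ¬ DiskAt u i b v) {k : ℤ} (hk : Ub (sm (!cB) (u ++ .cr i b :: v)) k) :
    Ub (sm (!cB) (u ++ .cr i (!b) :: v)) k := by
  apply ub_of_ubc (WF_flip hwf)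
  intro E hE hok hce
  obtain ⟨Eu, L, y, y', z, R, Ev, rfl, hEu, hL, hEv, hp1, hp2⟩ := decomp_cr hE
  obtain ⟨hE', hok'⟩ := flip_lab hE hEu hok
  obtain ⟨f1, f2, f3, f4, f5⟩ := cr_facts hE' hok'.1
    (L := L) (R := R) (b := b) (y := y) (y' := y') (z := z) (by simp)
  rw [hL] at f1
  have hbi := hcB i b (by simp)
  obtain ⟨g1, g2⟩ := hce ⟨L, .cr (!b) () y () () y' () z, R⟩ (by simp)
  simp only at g1 g2
  have hsame : ∀ s ∈ Eu ++ Ev, (s.tr (hi 2) zr 0).p.Same := by
    intro s hs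
    have hs1 : s ∈ Eu ++ ⟨L, .cr b () y () () y' () z, R⟩ :: Ev := by
      simp only [List.mem_append, List.mem_cons] at hs ⊢; tauto
    have hs2 := hce s (by simp only [List.mem_append, List.mem_cons] at hs ⊢; tauto)
    have hs3 : s.plain ∈ u ++ .cr i b :: v := by
      rw [← hE'.2]; exact List.mem_map_of_mem hs1
    obtain ⟨L2, p2, R2⟩ := s
    cases p2 with
    | cr b2 s₁ y2 s₂ t₁ y2' t₂ z2 =>
      obtain ⟨e1, e2, e3, e4, e5⟩ := cr_facts hE' hok'.1 hs1
      exact same_W e1 e2 e3 e4 e5 (hcB _ _ hs3) hs2.1 hs2.2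
    | _ => trivial
  by_cases hb : b = cB
  · have hx0 : cur 0 L % 2 = 0 := by rw [f1]; exact hbi.1 hb
    have hyy : y = y' := g1 (by rw [hb])
    have hz0 : z % 2 = 0 := by unfold Nb at f2 f3; omega
    have f3' : Nb z y := by unfold Nb at f3 ⊢; omega
    have f5' : Nb z y' := by unfold Nb at f5 ⊢; omega
    obtain ⟨d1, d2, -, -⟩ := disk_lemma hD hS 2 (le_refl _) Eu Ev L R y y' z hE' hEu hok' hsame
      (Or.inr (by rw [hyy]; exact ⟨rfl, rfl⟩))
    rw [hi_even f2 hx0] at d1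
    rw [hi_comm, hi_even f3' hz0] at d2
    simp only [decide_eq_false_iff_not] at d1 d2
    have hx : cur 0 L = 0 := by omega
    have hz : z = 0 := by omega
    have hy : y' = 1 := by unfold Nb at f4; omega
    have hce' : CEs (!cB) 0 (Eu ++ ⟨L, .cr b () y () () y' () z, R⟩ :: Ev) := by
      intro s hs
      simp only [List.mem_append, List.mem_cons] at hs
      rcases hs with hs | rfl | hs
      · exact hce s (by simp [hs])
      · exact ⟨fun _ => hyy, fun _ => by rw [hz]; exact hx⟩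
      · exact hce s (by simp [hs])
    have h1 := ubc_of_ub hk _ hE' hok' hce'
    have hbn : ¬ (b = !cB) := by rw [hb]; simp
    have hbn2 : (!b) = !cB := by rw [hb]
    rw [Phi_append] at h1 ⊢
    simp only [Phi, Loc.wt, hbn, hbn2, if_true, if_false, ht, hx, hy] at h1 ⊢
    push_cast at h1 ⊢
    linarith
  · have hi1 : i % 2 = 1 := by
      rcases Nat.mod_two_eq_zero_or_one i with h' | h'
      · exact absurd (hbi.2 h') hb
      · exact h'
    have hxz : cur 0 L = z := g2 (by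
      intro h
      apply hb
      cases b <;> cases cB <;> simp_all)
    have hy0 : y % 2 = 0 := by unfold Nb at f2; omega
    have hy0' : y' % 2 = 0 := by unfold Nb at f4; omega
    have f2' : Nb y (cur 0 L) := by unfold Nb at f2 ⊢; omega
    have f4' : Nb y' (cur 0 L) := by unfold Nb at f4 ⊢; omega
    obtain ⟨d1, -, d3, -⟩ := disk_lemma hD hS 2 (le_refl _) Eu Ev L R y y' z hE' hEu hok' hsame
      (Or.inl (by
        rw [hi_comm 2 (cur 0 L) y, hi_comm 2 (cur 0 L) y', hxz]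
        exact ⟨rfl, rfl⟩))
    rw [hi_comm, hi_even f2' hy0] at d1
    rw [hi_comm, hi_even f4' hy0'] at d3
    simp only [decide_eq_false_iff_not] at d1 d3
    have hy : y = 0 := by omega
    have hy' : y' = 0 := by omega
    have hx : cur 0 L = 1 := by unfold Nb at f2; omega
    have hce' : CEs (!cB) 0 (Eu ++ ⟨L, .cr b () y () () y' () z, R⟩ :: Ev) := by
      intro s hs
      simp only [List.mem_append, List.mem_cons] at hs
      rcases hs with hs | rfl | hs
      · exact hce s (by simp [hs])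
      · exact ⟨fun _ => by rw [hy, hy'], fun _ => hxz⟩
      · exact hce s (by simp [hs])
    have h1 := ubc_of_ub hk _ hE' hok' hce'
    have hbn : b = !cB := bool_ne hb
    have hbn2 : ¬ ((!b) = !cB) := by rw [hbn]; simp
    rw [Phi_append] at h1 ⊢
    simp only [Phi, Loc.wt, hbn2, if_true, if_false, ht, hx, hy'] at h1 ⊢
    rw [if_pos hbn] at h1
    push_cast at h1 ⊢
    linarith

end Pool.Agent.H560R3.TG
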