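import Pool.Agent.H560R3.TG.Lower5

/-! Changing one smoothing in the extreme states, continued. -/

set_option autoImplicit false
set_option linter.unusedSimpArgs false

namespace Pool.Agent.H560R3.TG

theorem extra {u v : List Piece} {i : ℕ} {b cB : Bool}
    (hwf : WF 0 (u ++ .cr i b :: v) 0) (hD : Connected (u ++ .cr i b :: v)) {kB : ℤ}
    (e l : ℕ) (f : List (Slice Unit ℕ)) (hf : Labelling l f (u ++ .cr i b :: v))
    (he : e ≤ cardL l f) (EB : List (Slice Unit ℕ)) (hEB : Labelling 0 EB (u ++ .cr i b :: v))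
    (hokB : HOK EB) (hceB : CEs (!cB) 0 EB) (hR : AllAdj R01 0 [] EB)
    (hsum : (crossings (u ++ .cr i b :: v) : ℤ) + 4 - 2 * e ≤ kB + Phi (!cB) ht 0 EB)
    (k0 : Fin 4) (hk0 : ¬ External u i b v k0)
    (hpar : (i % 2 = 0 ∧ (k0 = 0 ∨ k0 = 2)) ∨ (i % 2 = 1 ∧ (k0 = 1 ∨ k0 = 3)))
    (Eu Ev : List (Slice Unit ℕ)) (L R : List (Unit × ℕ)) (y y' z : ℕ)
    (hE : Labelling 0 (Eu ++ ⟨L, .cr b () y () () y' () z, R⟩ :: Ev) (u ++ .cr i b :: v))
    (hEu : Eu.map Slice.plain = u) (hok : HOK (Eu ++ ⟨L, .cr b () y () () y' () z, R⟩ :: Ev))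
    (hce : CEs cB 0 (Eu ++ ⟨L, .cr b () y () () y' () z, R⟩ :: Ev))
    (hc0 : corner (cur 0 L) y z y' k0 = 0) :
    Phi cB ht 0 (Eu ++ ⟨L, .cr b () y () () y' () z, R⟩ :: Ev) + 2 ≤ kB := by
  classical
  -- the labelling of the diagram with the additional hole
  obtain ⟨fu, Lf, yf, yf', zf, Rf, fv, s1, s2, s3, s4⟩ := sep u v i b k0 l f hf hk0
  obtain ⟨f2, p1, p2, -, -, -⟩ := plus_lab k0 (l + 1) fu Lf yf yf' zf Rf fv s1 s2
  have hcard : e + 1 ≤ cardL (l + 1) f2 := by
    unfold cardL at he ⊢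
    have hsub : insert 0 ((insert l (holeLabels l f).toFinset).image (fun x => x + 1)) ⊆
        insert (l + 1) (holeLabels (l + 1) f2).toFinset := by
      intro x hx
      rw [Finset.mem_insert, List.mem_toFinset]
      rcases Finset.mem_insert.1 hx with rfl | hx
      · right
        rw [p2]
        exact Or.inl s3.symm
      · obtain ⟨w, hw, rfl⟩ := Finset.mem_image.1 hx
        rcases Finset.mem_insert.1 hw with rfl | hw
        · exact Or.inl rfl
        · right
          rw [p2]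
          right
          rw [s4]
          exact List.mem_map.2 ⟨w, List.mem_toFinset.1 hw, rfl⟩
    have h1 := Finset.card_le_card hsub
    rw [Finset.card_insert_of_notMem (by simp), Finset.card_image_of_injective _
      (fun a b h => by simpa using h)] at h1
    omega
  obtain ⟨k, hk, hN⟩ := upper (crossings (u ++ .cr i b :: v)) (plus k0 u i b v) plus_crossings
    (plus_WF hwf) (plus_conn hD) (e + 1) (l + 1) f2 p1 hcard
  -- the given labelling
  obtain ⟨E2, q1, q2, q3, q4, q5⟩ := plus_lab k0 0 Eu L y y' z R Ev hE hEu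
  have hE2 := ubc_of_ub (hk cB) E2 q1 ⟨q4 _ hok.1, fun g hg => by
    rcases (q2 g).1 hg with h | h
    · rw [h]; exact hc0
    · exact hok.2 g h⟩ (q5 _ hce)
  rw [q3] at hE2
  -- the standard labelling
  obtain ⟨EBu, LB, yB, yB', zB, RB, EBv, rfl, hBu, hLB, hBv, hB1, hB2⟩ := decomp_cr hEB
  obtain ⟨E3, r1, r2, r3, r4, r5⟩ := plus_lab k0 0 EBu LB yB yB' zB RB EBv hEB hBu
  obtain ⟨g1, g2, g3, g4, g5⟩ := cr_facts hEB hokB.1
    (L := LB) (R := RB) (b := b) (y := yB) (y' := yB') (z := zB) (by simp)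
  have hle : ∀ g ∈ labs 0 [] (EBu ++ ⟨LB, .cr b () yB () () yB' () zB, RB⟩ :: EBv), g ≤ 1 :=
    labs_of_allAdj (P := fun g => g ≤ 1) (fun x y h => by unfold R01 at h; omega) _
      (by omega) _ _ hR
  have hmem : ∀ g, g = cur 0 LB ∨ g = yB ∨ g = zB ∨ g = yB' → g ≤ 1 := by
    obtain ⟨m1, m2⟩ := src_mem_sts _ _ _ _ hEB.1
      (⟨LB, .cr b () yB () () yB' () zB, RB⟩ : Slice Unit ℕ) (by simp)
    have m1' : LB ++ ((), yB) :: ((), zB) :: RB ∈ sts 0 []
      (EBu ++ ⟨LB, .cr b () yB () () yB' () zB, RB⟩ :: EBv) := by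
      simpa [Slice.src, Loc.src] using m1
    have m2' : LB ++ ((), yB') :: ((), zB) :: RB ∈ sts 0 []
      (EBu ++ ⟨LB, .cr b () yB () () yB' () zB, RB⟩ :: EBv) := by
      simpa [Slice.tgt, Loc.tgt] using m2
    intro g hg
    apply hle
    rcases hg with rfl | rfl | rfl | rfl
    · exact cur_mem_labs _ _ _ _ _ m1'
    · exact mem_labs_of_state _ _ _ _ m1' _ (by simp)
    · exact mem_labs_of_state _ _ _ _ m1' _ (by simp)
    · exact mem_labs_of_state _ _ _ _ m2' _ (by simp)
  have b1 := hmem (cur 0 LB) (by simp)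
  have b2 := hmem yB (by simp)
  have b3 := hmem zB (by simp)
  have b4 := hmem yB' (by simp)
  rw [hLB] at g1
  have hcB0 : corner (cur 0 LB) yB zB yB' k0 = 0 := by
    unfold Nb at g2 g3 g4 g5
    rcases hpar with ⟨hi, rfl | rfl⟩ | ⟨hi, rfl | rfl⟩
    · show cur 0 LB = 0
      omega
    · show zB = 0
      omega
    · show yB = 0
      omega
    · show yB' = 0
      omega
  have hE3 := ubc_of_ub (hk (!cB)) E3 r1 ⟨r4 _ hokB.1, fun g hg => by
    rcases (r2 g).1 hg with h | h
    · rw [h]; exact hcB0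
    · exact hokB.2 g h⟩ (r5 _ hceB)
  rw [r3] at hE3
  have hkk : k true + k false = k cB + k (!cB) := by cases cB <;> simp [add_comm]
  push_cast at hN
  linarith

theorem switch_B {u v : List Piece} {i : ℕ} {b cB : Bool}
    (hwf : WF 0 (u ++ .cr i b :: v) 0) (hD : Connected (u ++ .cr i b :: v))
    (hcB : ∀ j b', Piece.cr j b' ∈ u ++ .cr i b :: v → (b' = cB ↔ j % 2 = 0))
    (hS : ¬ DiskAt u i b v)
    (hS2 : ∀ k k' : Fin 4, External u i b v k → External u i b v k' → k = k')
    {kB : ℤ} (hk : Ub (sm cB (u ++ .cr i b :: v)) kB)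
    (e l : ℕ) (f : List (Slice Unit ℕ)) (hf : Labelling l f (u ++ .cr i b :: v))
    (he : e ≤ cardL l f) (EB : List (Slice Unit ℕ)) (hEB : Labelling 0 EB (u ++ .cr i b :: v))
    (hokB : HOK EB) (hceB : CEs (!cB) 0 EB) (hR : AllAdj R01 0 [] EB)
    (hsum : (crossings (u ++ .cr i b :: v) : ℤ) + 4 - 2 * e ≤ kB + Phi (!cB) ht 0 EB) :
    Ub (sm cB (u ++ .cr i (!b) :: v)) kB := by
  apply ub_of_ubc (WF_flip hwf)
  intro E hE hok hce
  obtain ⟨Eu, L, y, y', z, R, Ev, rfl, hEu, hL, hEv, hp1, hp2⟩ := decomp_cr hE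
  obtain ⟨hE', hok'⟩ := flip_lab hE hEu hok
  obtain ⟨f1, f2, f3, f4, f5⟩ := cr_facts hE' hok'.1
    (L := L) (R := R) (b := b) (y := y) (y' := y') (z := z) (by simp)
  rw [hL] at f1
  have hbi := hcB i b (by simp)
  obtain ⟨g1, g2⟩ := hce ⟨L, .cr (!b) () y () () y' () z, R⟩ (by simp)
  simp only at g1 g2
  have hsame : ∀ s ∈ Eu ++ Ev, (s.tr (hi 3) zr 0).p.Same := by
    intro s hs
    have hs1 : s ∈ Eu ++ ⟨L, .cr b () y () () y' () z, R⟩ :: Ev := by
      simp only [List.mem_append, List.mem_cons] at hs ⊢; tauto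
    have hs2 := hce s (by simp only [List.mem_append, List.mem_cons] at hs ⊢; tauto)
    have hs3 : s.plain ∈ u ++ .cr i b :: v := by
      rw [← hE'.2]; exact List.mem_map_of_mem hs1
    obtain ⟨L2, p2, R2⟩ := s
    cases p2 with
    | cr b2 s₁ y2 s₂ t₁ y2' t₂ z2 =>
      obtain ⟨e1, e2, e3, e4, e5⟩ := cr_facts hE' hok'.1 hs1
      exact same_B e1 e2 e3 e4 e5 (hcB _ _ hs3) hs2.1 hs2.2
    | _ => trivial
  by_cases hb : b = cB
  · have hi0 := hbi.1 hb
    have hx0 : cur 0 L % 2 = 0 := by rw [f1]; exact hi0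
    have hxz : cur 0 L = z := g2 (by rw [← hb]; cases b <;> simp)
    have hy1 : y % 2 = 1 := by unfold Nb at f2; omega
    have hy1' : y' % 2 = 1 := by unfold Nb at f4; omega
    have f2' : Nb y (cur 0 L) := by unfold Nb at f2 ⊢; omega
    have f4' : Nb y' (cur 0 L) := by unfold Nb at f4 ⊢; omega
    obtain ⟨d1, -, d3, -⟩ := disk_lemma hD hS 3 (by norm_num) Eu Ev L R y y' z hE' hEu hok' hsame
      (Or.inl (by
        rw [hi_comm 3 (cur 0 L) y, hi_comm 3 (cur 0 L) y', hxz]
        exact ⟨rfl, rfl⟩))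
    rw [hi_comm, hi_odd f2' hy1] at d1
    rw [hi_comm, hi_odd f4' hy1'] at d3
    simp only [decide_eq_false_iff_not] at d1 d3
    have hy : y = 1 := by omega
    have hy' : y' = 1 := by omega
    have hce' : CEs cB 0 (Eu ++ ⟨L, .cr b () y () () y' () z, R⟩ :: Ev) := by
      intro s hs
      simp only [List.mem_append, List.mem_cons] at hs
      rcases hs with hs | rfl | hs
      · exact hce s (by simp [hs])
      · exact ⟨fun _ => by rw [hy, hy'], fun _ => hxz⟩
      · exact hce s (by simp [hs])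
    have h1 := ubc_of_ub hk _ hE' hok' hce'
    have hbn2 : ¬ ((!b) = cB) := by rw [hb]; simp
    have hxc : cur 0 L = 0 ∨ cur 0 L = 2 := by
      rw [hy] at f2; unfold Nb at f2; omega
    rcases hxc with hx | hx
    · -- the white corner has height 0
      obtain ⟨k0, hk0, hk0'⟩ : ∃ k0 : Fin 4, ¬ External u i b v k0 ∧ (k0 = 0 ∨ k0 = 2) := by
        by_cases h0 : External u i b v 0
        · refine ⟨2, fun h2 => ?_, Or.inr rfl⟩
          have := hS2 0 2 h0 h2
          exact absurd this (by decide)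
        · exact ⟨0, h0, Or.inl rfl⟩
      have h2 := extra hwf hD e l f hf he EB hEB hokB hceB hR hsum k0 hk0
        (Or.inl ⟨hi0, hk0'⟩) Eu Ev L R y y' z hE' hEu hok' hce' (by
          rcases hk0' with rfl | rfl
          · exact hx
          · show z = 0
            rw [← hxz]; exact hx)
      rw [Phi_append] at h2 ⊢
      simp only [Phi, Loc.wt, hbn2, if_true, if_false, ht, hx, hy'] at h2 ⊢
      rw [if_pos hb] at h2
      push_cast at h2 ⊢
      linarith
    · rw [Phi_append] at h1 ⊢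
      simp only [Phi, Loc.wt, hbn2, if_true, if_false, ht, hx, hy'] at h1 ⊢
      rw [if_pos hb] at h1
      push_cast at h1 ⊢
      linarith
  · have hi1 : i % 2 = 1 := by
      rcases Nat.mod_two_eq_zero_or_one i with h' | h'
      · exact absurd (hbi.2 h') hb
      · exact h'
    have hbn : (!b) = cB := by cases b <;> cases cB <;> simp_all
    have hyy : y = y' := g1 hbn
    have hx1 : cur 0 L % 2 = 1 := by rw [f1]; exact hi1
    have hz1 : z % 2 = 1 := by unfold Nb at f2 f3; omega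
    have f3' : Nb z y := by unfold Nb at f3 ⊢; omega
    obtain ⟨d1, d2, -, -⟩ := disk_lemma hD hS 3 (by norm_num) Eu Ev L R y y' z hE' hEu hok' hsame
      (Or.inr (by rw [hyy]; exact ⟨rfl, rfl⟩))
    rw [hi_odd f2 hx1] at d1
    rw [hi_comm, hi_odd f3' hz1] at d2
    simp only [decide_eq_false_iff_not] at d1 d2
    have hx : cur 0 L = 1 := by omega
    have hz : z = 1 := by omega
    have hce' : CEs cB 0 (Eu ++ ⟨L, .cr b () y () () y' () z, R⟩ :: Ev) := by
      intro s hs
      simp only [List.mem_append, List.mem_cons] at hs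
      rcases hs with hs | rfl | hs
      · exact hce s (by simp [hs])
      · exact ⟨fun _ => hyy, fun _ => by rw [hz]; exact hx⟩
      · exact hce s (by simp [hs])
    have h1 := ubc_of_ub hk _ hE' hok' hce'
    have hyc : y = 0 ∨ y = 2 := by
      rw [hx] at f2; unfold Nb at f2; omega
    rcases hyc with hy | hy
    · obtain ⟨k0, hk0, hk0'⟩ : ∃ k0 : Fin 4, ¬ External u i b v k0 ∧ (k0 = 1 ∨ k0 = 3) := by
        by_cases h0 : External u i b v 1
        · refine ⟨3, fun h2 => ?_, Or.inr rfl⟩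
          have := hS2 1 3 h0 h2
          exact absurd this (by decide)
        · exact ⟨1, h0, Or.inl rfl⟩
      have h2 := extra hwf hD e l f hf he EB hEB hokB hceB hR hsum k0 hk0
        (Or.inr ⟨hi1, hk0'⟩) Eu Ev L R y y' z hE' hEu hok' hce' (by
          rcases hk0' with rfl | rfl
          · exact hy
          · show y' = 0
            rw [← hyy]; exact hy)
      have hy' : y' = 0 := by rw [← hyy]; exact hy
      rw [Phi_append] at h2 ⊢
      simp only [Phi, Loc.wt, if_true, if_false, ht, hx, hy'] at h2 ⊢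
      rw [if_neg hb] at h2
      rw [if_pos hbn]
      push_cast at h2 ⊢
      linarith
    · have hy' : y' = 2 := by rw [← hyy]; exact hy
      rw [Phi_append] at h1 ⊢
      simp only [Phi, Loc.wt, if_true, if_false, ht, hx, hy'] at h1 ⊢
      rw [if_neg hb] at h1
      rw [if_pos hbn]
      push_cast at h1 ⊢
      linarith

end Pool.Agent.H560R3.TG
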