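import Pool.Agent.H560R3.TG.Lower6
import Pool.Agent.H560R3.TG.Bound3

/-! The theorem. -/

set_option autoImplicit false
set_option linter.unusedSimpArgs false

namespace Pool.Agent.H560R3.TG

theorem holes_append (u v : List Piece) : holes (u ++ v) = holes u + holes v := by
  induction u with
  | nil => simp [holes]
  | cons p u ih => cases p <;> simp only [List.cons_append, holes, ih] <;> omega

theorem holes_goRight (b : Bool) (i k : ℕ) : holes (goRight b i k) = 0 := by
  induction k generalizing i with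
  | zero => rfl
  | succ k ih => simp only [goRight, holes, ih]

theorem holes_goLeft (b : Bool) (i k : ℕ) : holes (goLeft b i k) = 0 := by
  induction k generalizing i with
  | zero => rfl
  | succ k ih => simp only [goLeft, holes_append, holes, ih]

theorem holes_move {n : ℕ} {l r : List Piece} (h : Move n l r) : holes l = holes r := by
  cases h with
  | zig1 | zig2 | sb | sd | r1 | r1' | r2 | r3 => rfl
  | far p q hp hpq hn =>
    have key : ∀ (p q : Piece), holes [p, q] = holes [q, p] := by
      intro p q; cases p <;> cases q <;> rfl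
    have key2 : ∀ (p q : Piece) (j : ℕ), holes [p, q.put j] = holes [p, q] := by
      intro p q j; cases p <;> cases q <;> rfl
    rw [key2, key]
  | slide i k b h =>
    simp only [holes_append, holes_goRight, holes_goLeft, zero_add, add_zero]

theorem holes_iso {D D' : List Piece} (h : Iso D D') : holes D = holes D' := by
  induction h with
  | rel _ _ h =>
    obtain ⟨n, m, u, l, r, v, hu, hm, hl, hr, hv⟩ := h
    simp only [holes_append, holes_move hm]
  | refl _ => rfl
  | symm _ _ _ ih => exact ih.symm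
  | trans _ _ _ _ _ ih1 ih2 => exact ih1.trans ih2

theorem adequate {D : List Piece} (hwf : WF 0 D 0) (hD : Connected D) (ha : Alternating D)
    (hS : Simple D) (hz : Z2Trivial D) (hn : crossings D ≠ 0) :
    ∃ k : Bool → ℤ, (∀ c, Ub (sm c D) (k c)) ∧
      (∀ c u i b v, D = u ++ .cr i b :: v → Ub (sm c (u ++ .cr i (!b) :: v)) (k c)) ∧
      (∀ c, ∃ E : List (Slice Unit ℕ), Labelling 0 E (sm c D) ∧ HOK E ∧
        k c ≤ Phi true ht 0 E) ∧
      (crossings D : ℤ) + 4 - 2 * (holes D + 1) ≤ k true + k false := by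
  obtain ⟨cB, hcB⟩ := alt_type hD ha
  obtain ⟨EA, EB, e, l, f, hA, okA, ceA, hB, okB, ceB, hR, hf, he, heh, hsum⟩ :=
    lower_states hwf cB hcB hz hn
  obtain ⟨k', hk', hN'⟩ := upper (crossings D) D rfl hwf hD e l f hf he
  have h1 := ubc_of_ub (hk' cB) EA hA okA ceA
  have h2 := ubc_of_ub (hk' (!cB)) EB hB okB ceB
  have hkk : k' true + k' false = k' cB + k' (!cB) := by cases cB <;> simp [add_comm]
  have hUB : Ub (sm cB D) (Phi cB ht 0 EA) := (hk' cB).mono (by linarith)
  have hUW : Ub (sm (!cB) D) (Phi (!cB) ht 0 EB) := (hk' (!cB)).mono (by linarith)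
  have hcase : ∀ c : Bool, c = cB ∨ c = !cB := by
    intro c; cases c <;> cases cB <;> simp
  have hne : ¬ ((!cB) = cB) := by simp
  refine ⟨fun c => if c = cB then Phi cB ht 0 EA else Phi (!cB) ht 0 EB, ?_, ?_, ?_, ?_⟩
  · intro c
    rcases hcase c with rfl | rfl
    · simp only [if_true]; exact hUB
    · simp only [hne, if_false]; exact hUW
  · intro c u i b v hDe
    subst hDe
    have hSd := hS.1 u i b v rfl
    rcases hcase c with rfl | rfl
    · simp only [if_true]
      exact switch_B hwf hD hcB hSd (hS.2 u i b v rfl) hUB e l f hf he EB hB okB ceB hR hsum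
    · simp only [hne, if_false]
      exact switch_W hwf hD hcB hSd hUW
  · intro c
    rcases hcase c with rfl | rfl
    · obtain ⟨E', g1, g2, g3, g4, g5⟩ := drop' c 0 [] [] EA hA.1 ceA
      refine ⟨E', ⟨g1, by rw [g2, hA.2]⟩, ⟨g5 _ okA.1, by rw [g3]; exact okA.2⟩, ?_⟩
      simp only [if_true]
      rw [g4]
    · obtain ⟨E', g1, g2, g3, g4, g5⟩ := drop' (!cB) 0 [] [] EB hB.1 ceB
      refine ⟨E', ⟨g1, by rw [g2, hB.2]⟩, ⟨g5 _ okB.1, by rw [g3]; exact okB.2⟩, ?_⟩
      simp only [hne, if_false]
      rw [g4]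
  · have he' : (e : ℤ) ≤ holes D + 1 := by exact_mod_cast heh
    have hs : (if true = cB then Phi cB ht 0 EA else Phi (!cB) ht 0 EB) +
        (if false = cB then Phi cB ht 0 EA else Phi (!cB) ht 0 EB) =
        Phi cB ht 0 EA + Phi (!cB) ht 0 EB := by
      cases cB <;> simp [add_comm]
    rw [hs]
    linarith

theorem tait {D D' : List Piece} (hwf : WF 0 D 0) (hwf' : WF 0 D' 0) (hD : Connected D)
    (ha : Alternating D) (hS : Simple D) (hz : Z2Trivial D) (hiso : Iso D D')
    (hD' : Connected D') (hF : Filling D') : crossings D ≤ crossings D' := by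
  by_cases hn : crossings D = 0
  · omega
  obtain ⟨k, hub, hsw, hex, hlow⟩ := adequate hwf hD ha hS hz hn
  -- the upper bound for `D'`
  obtain ⟨F, hFl, hFn⟩ := hF
  have hcard : holes D' + 1 ≤ cardL 0 F := by
    unfold cardL
    have h1 : (insert 0 (holeLabels 0 F).toFinset) = (0 :: holeLabels 0 F).toFinset := by simp
    rw [h1, List.toFinset_card_of_nodup hFn, List.length_cons, holeLabels_length, hFl.2]
  obtain ⟨k', hub', hN'⟩ := upper (crossings D') D' rfl hwf' hD' (holes D' + 1) 0 F hFl hcard
  obtain ⟨C1, hC1, hb1⟩ := ubV D' [] (k' true) rfl hwf' (hub' true)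
  obtain ⟨C2, hC2, hb2⟩ := ubV (D'.map fl) [] (k' false) rfl ((WF_fl _ _ _).2 hwf') (by
    rw [List.nil_append, sm_fl]; exact hub' false)
  -- the lower bound for `D`
  obtain ⟨E1, e11, e12, e13⟩ := hex true
  obtain ⟨c1, T1, hc1, hT1, hl1⟩ := big hwf (k true) (hub true) (fun u i b v h => hsw true u i b v h)
    E1 e11 e12 e13
  obtain ⟨E2, e21, e22, e23⟩ := hex false
  obtain ⟨c2, T2, hc2, hT2, hl2⟩ := big (D := D.map fl) ((WF_fl _ _ _).2 hwf) (k false)
    (by rw [sm_fl]; exact hub false) (by
      intro u i b v h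
      have hD2 : D = u.map fl ++ .cr i (!b) :: v.map fl := by
        have := congrArg (List.map fl) h
        rw [fl_fl] at this
        rw [this]; simp [fl]
      have h2 := hsw false (u.map fl) i (!b) (v.map fl) hD2
      have h3 : u.map fl ++ .cr i (!!b) :: v.map fl = (u ++ .cr i (!b) :: v).map fl := by
        simp [fl]
      rw [h3, sm_fl] at h2
      exact h2)
    E2 (by rw [sm_fl]; exact e21) e22 e23
  rw [crossings_fl] at hl2 hb2
  simp only [List.nil_append] at hb1 hb2
  have hfin : ∀ t : ℝ, max (max T1 T2) 2 ≤ t →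
      (c1 * c2) * t ^ ((crossings D : ℤ) + 2 * k true + ((crossings D : ℤ) + 2 * k false)) ≤
      (C1 * C2) * t ^ ((crossings D' : ℤ) + 2 * k' true + ((crossings D' : ℤ) + 2 * k' false)) := by
    intro t ht
    have h1 : T1 ≤ t := (le_max_left _ _).trans ((le_max_left _ _).trans ht)
    have h2 : T2 ≤ t := (le_max_right _ _).trans ((le_max_left _ _).trans ht)
    have h3 : 2 ≤ t := (le_max_right _ _).trans ht
    have t0 : 0 < t := by linarith
    have t1 : 1 ≤ t := by linarith
    have a1 := hl1 t h1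
    have a2 := hl2 t h2
    have a3 := hb1 t t1
    have a4 := hb2 t t1
    have hJ := J_iso hiso t t0 (by linarith)
    unfold J at hJ
    rw [V_inv, V_inv] at hJ
    have hJ' := congrArg abs hJ
    rw [abs_mul, abs_mul] at hJ'
    rw [zpow_add₀ t0.ne' ((crossings D : ℤ) + 2 * k true) ((crossings D : ℤ) + 2 * k false),
      zpow_add₀ t0.ne' ((crossings D' : ℤ) + 2 * k' true) ((crossings D' : ℤ) + 2 * k' false)]
    have b1 : (c1 * t ^ ((crossings D : ℤ) + 2 * k true)) *
        (c2 * t ^ ((crossings D : ℤ) + 2 * k false)) ≤ |V t D| * |V t (D.map fl)| :=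
      mul_le_mul a1 a2 (by positivity) (abs_nonneg _)
    have b2 : |V t D'| * |V t (D'.map fl)| ≤ (C1 * t ^ ((crossings D' : ℤ) + 2 * k' true)) *
        (C2 * t ^ ((crossings D' : ℤ) + 2 * k' false)) :=
      mul_le_mul a3 a4 (abs_nonneg _) (by positivity)
    calc (c1 * c2) * (t ^ ((crossings D : ℤ) + 2 * k true) *
          t ^ ((crossings D : ℤ) + 2 * k false))
        = (c1 * t ^ ((crossings D : ℤ) + 2 * k true)) *
          (c2 * t ^ ((crossings D : ℤ) + 2 * k false)) := by ring
      _ ≤ |V t D| * |V t (D.map fl)| := b1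
      _ = |V t D'| * |V t (D'.map fl)| := hJ'
      _ ≤ _ := b2
      _ = (C1 * C2) * (t ^ ((crossings D' : ℤ) + 2 * k' true) *
          t ^ ((crossings D' : ℤ) + 2 * k' false)) := by ring
  have hexp := exp_le (mul_pos hc1 hc2) hfin
  have hh : (holes D : ℤ) = holes D' := by exact_mod_cast holes_iso hiso
  push_cast at hN'
  have : (crossings D : ℤ) ≤ crossings D' := by linarith
  exact_mod_cast this

end Pool.Agent.H560R3.TG
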