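import Pool.Agent.H560R3.TG.Lift

/-! The upper bound for the two extreme states of a connected diagram. -/

set_option autoImplicit false
set_option linter.unusedSimpArgs false

namespace Pool.Agent.H560R3.TG

variable {S G S' G' : Type}

theorem path_parity (P : S → Bool) (a : G) (F F' : List (S × G)) (E : List (Slice S G))
    (hE : Path a F E F') (hs : ∀ s ∈ E, s.p.Same) :
    (F.countP (fun e => P e.1)) % 2 = (F'.countP (fun e => P e.1)) % 2 := by
  induction E generalizing F with
  | nil => rw [show F = F' from hE]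
  | cons s E ih =>
    obtain ⟨h1, h2⟩ := hE
    rw [← ih _ h2 (fun r hr => hs r (by simp [hr])), ← h1]
    have h3 := hs s (by simp)
    obtain ⟨L, p, R⟩ := s
    cases p with
    | cr b s₁ y s₂ t₁ y' t₂ z =>
      obtain ⟨rfl, rfl, rfl⟩ := h3
      simp only [Slice.src, Slice.tgt, Loc.src, Loc.tgt, List.countP_append, List.countP_cons,
        List.countP_nil]
    | birth u y =>
      simp only [Slice.src, Slice.tgt, Loc.src, Loc.tgt, List.countP_append, List.countP_cons,
        List.countP_nil]
      split_ifs <;> omega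
    | death u y =>
      simp only [Slice.src, Slice.tgt, Loc.src, Loc.tgt, List.countP_append, List.countP_cons,
        List.countP_nil]
      split_ifs <;> omega
    | hole => rfl

theorem conn_or (u v : List Piece) (i : ℕ) (b : Bool) (hwf : WF 0 (u ++ .cr i b :: v) 0)
    (hD : Connected (u ++ .cr i b :: v)) :
    Connected (u ++ v) ∨ Connected (u ++ .death i :: .birth i :: v) := by
  classical
  by_contra hcon
  rw [not_or] at hcon
  obtain ⟨hc1, hc2⟩ := hcon
  unfold Connected at hc1 hc2
  push Not at hc1 hc2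
  obtain ⟨m, hu, hi, hv⟩ := (WF_append u _ 0 0).1 hwf
  obtain ⟨E1, ⟨hE1, hp1⟩, hs1, hv1⟩ := hc1
  obtain ⟨E1u, E1v, rfl, h1u, h1v⟩ := split_plain E1 u v hp1
  obtain ⟨K1, hK1, hK1'⟩ := (path_append () E1u E1v [] []).1 hE1
  have hl1 : K1.length = m := by
    have h1 := path_WF hK1
    rw [h1u] at h1
    exact WF_det h1 hu
  obtain ⟨L1, ⟨p, ⟨⟩⟩, ⟨q, ⟨⟩⟩, R1, rfl, hL1⟩ := split_len2 K1 i (by omega)
  have hlab1 : Labelling () (E1u ++ (⟨L1, .cr b p () q p () q (), R1⟩ : Slice Bool Unit) :: E1v)
      (u ++ .cr i b :: v) := by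
    refine ⟨(path_append () _ _ _ _).2 ⟨_, hK1, ?_, ?_⟩, ?_⟩
    · simp [Slice.src, Loc.src]
    · simpa [Slice.tgt, Loc.tgt] using hK1'
    · simp [h1u, h1v, Slice.plain, hL1]
  have hpq : p ≠ q := by
    rintro rfl
    obtain ⟨w, hw⟩ := hD _ hlab1 (by
      intro s hs
      simp only [List.mem_append, List.mem_cons] at hs
      rcases hs with hs | rfl | hs
      · exact hs1 s (by simp [hs])
      · exact ⟨rfl, rfl, rfl⟩
      · exact hs1 s (by simp [hs]))
    obtain ⟨s, hs, e, he, hne⟩ := hv1 w
    refine hne (hw s ?_ e he)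
    simp only [List.mem_append, List.mem_cons] at hs ⊢
    tauto
  obtain ⟨E2, ⟨hE2, hp2⟩, hs2, hv2⟩ := hc2
  obtain ⟨E2u, L2, p', ⟨⟩, R2, q', ⟨⟩, E2v, rfl, h2u, hL2, h2v, hK2, hK2'⟩ :=
    decomp_db () [] [] E2 u v i hE2 hp2
  have hlab2 : Labelling () (E2u ++ (⟨L2, .cr b p' () p' q' () q' (), R2⟩ : Slice Bool Unit) ::
      E2v) (u ++ .cr i b :: v) := by
    refine ⟨(path_append () _ _ _ _).2 ⟨_, hK2, ?_, ?_⟩, ?_⟩
    · simp [Slice.src, Loc.src]
    · simpa [Slice.tgt, Loc.tgt] using hK2'
    · simp [h2u, h2v, Slice.plain, hL2]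
  have hpq' : p' ≠ q' := by
    rintro rfl
    obtain ⟨w, hw⟩ := hD _ hlab2 (by
      intro s hs
      simp only [List.mem_append, List.mem_cons] at hs
      rcases hs with hs | rfl | hs
      · exact hs2 s (by simp [hs])
      · exact ⟨rfl, rfl, rfl⟩
      · exact hs2 s (by simp [hs]))
    obtain ⟨s, hs, e, he, hne⟩ := hv2 w
    have hw0 := hw ⟨L2, .cr b p' () p' p' () p' (), R2⟩ (by simp)
    simp only [List.mem_append, List.mem_cons] at hs
    rcases hs with hs | rfl | rfl | hs
    · exact hne (hw s (by simp [hs]) e he)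
    · apply hne
      apply hw0
      simp only [Slice.src, Slice.tgt, Loc.src, Loc.tgt, List.mem_append, List.mem_cons] at he ⊢
      tauto
    · apply hne
      apply hw0
      simp only [Slice.src, Slice.tgt, Loc.src, Loc.tgt, List.mem_append, List.mem_cons] at he ⊢
      tauto
    · exact hne (hw s (by simp [hs]) e he)
  have hz := labelling_zip hlab1 hlab2
  have hlen : E1u.length = E2u.length := by
    rw [← List.length_map Slice.plain, ← List.length_map Slice.plain (as := E2u), h1u, h2u]
  rw [zipE_append _ _ _ _ hlen] at hz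
  obtain ⟨K, hz1, hz2, hz3⟩ := (path_append _ _ _ _ _).1 hz.1
  have hz3 : Path ((), ()) (((⟨L1, .cr b p () q p () q (), R1⟩ : Slice Bool Unit).zip
    (⟨L2, .cr b p' () p' q' () q' (), R2⟩ : Slice Bool Unit)).tgt ((), ())) (zipE E1v E2v) [] := hz3
  have same1 : ∀ s ∈ zipE E1u E2u, s.p.Same := by
    intro s hs
    obtain ⟨r, hr, r', hr', rfl⟩ := mem_zipE hs
    exact zip_same (hs1 r (by simp [hr])) (hs2 r' (by simp [hr']))
  have same2 : ∀ s ∈ zipE E1v E2v, s.p.Same := by
    intro s hs
    obtain ⟨r, hr, r', hr', rfl⟩ := mem_zipE hs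
    exact zip_same (hs1 r (by simp [hr])) (hs2 r' (by simp [hr']))
  have c1 := path_parity (fun x => decide (x = (p, p'))) _ _ _ _ hz1 same1
  have c2 := path_parity (fun x => decide (x = (p, p'))) _ _ _ _ hz3 same2
  rw [← hz2] at c1
  have hn1 : ¬ (q = p) := fun h => hpq h.symm
  have hn2 : ¬ (q' = p') := fun h => hpq' h.symm
  simp only [Slice.zip, Loc.zip, Slice.src, Slice.tgt, Loc.src, Loc.tgt, List.countP_append,
    List.countP_cons, List.countP_nil, Prod.mk.injEq, hn1, hn2, and_true, true_and, and_false,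
    false_and, decide_true, decide_false, if_true, if_false, Bool.false_eq_true] at c1 c2
  omega

theorem adj_of_trF (φ : S → G → G → Bool) (ψ : G → G') (a : G) (K : List (S × G))
    (R : G → G → Prop) (hφ : ∀ s x y, φ s x y = true → R x y)
    (h : ∀ e ∈ trF φ ψ a K, e.1 = true) : Adj R a K := by
  induction K generalizing a with
  | nil => trivial
  | cons p K ih =>
    refine ⟨hφ _ _ _ (h _ (by simp [trF]; left; rfl)), ih _ fun e he => h e ?_⟩
    simp only [trF, List.mem_cons]
    exact Or.inr he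

theorem mem_sts_cases {a : G} {F K : List (S × G)} {E : List (Slice S G)} (h : K ∈ sts a F E) :
    K = F ∨ ∃ s ∈ E, K = s.tgt a := by
  simp only [sts, List.mem_cons, List.mem_map] at h
  rcases h with h | ⟨s, hs, rfl⟩
  · exact Or.inl h
  · exact Or.inr ⟨s, hs, rfl⟩

theorem conn_pairs {D : List Piece} (hD : Connected D) (h0 : crossings D = 0) (a : G)
    (Z : List (Slice S G)) (hZ : Labelling a Z D) :
    ∃ q, (∀ K ∈ sts a [] Z, Adj (fun x y => (x = a ∧ y = q) ∨ (x = q ∧ y = a)) a K) ∧
      ((∀ K ∈ sts a [] Z, K = []) ∨ ∃ K ∈ sts a [] Z, ∃ u M, K = (u, q) :: M) := by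
  classical
  by_cases hall : ∀ K ∈ sts a [] Z, K = []
  · refine ⟨a, fun K hK => ?_, Or.inl hall⟩
    rw [hall K hK]; trivial
  · push Not at hall
    obtain ⟨K, hK, hne⟩ := hall
    obtain ⟨⟨u, q⟩, M, rfl⟩ := List.exists_cons_of_ne_nil hne
    refine ⟨q, ?_, Or.inr ⟨_, hK, u, M, rfl⟩⟩
    set φ : S → G → G → Bool := fun _ x y => decide ((x = a ∧ y = q) ∨ (x = q ∧ y = a))
      with hφ
    have hsym : Sym φ := by
      intro s x y
      simp only [hφ, decide_eq_decide]
      tauto
    have hlab := labelling_tr (G' := Unit) hsym (fun _ => ()) hZ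
    have hno := noCr_of hZ.2 h0
    obtain ⟨w, hw⟩ := hD (trE φ (fun _ => ()) a Z) hlab (by
      intro s hs
      obtain ⟨r, hr, rfl⟩ := List.mem_map.1 hs
      have := hno r hr
      obtain ⟨L, p, R⟩ := r
      cases p <;> trivial)
    have key : ∀ s ∈ Z, ∀ e ∈ trF φ (fun _ => ()) a (s.tgt a), e.1 = w := by
      intro s hs e he
      apply hw (s.tr φ (fun _ => ()) a) (List.mem_map_of_mem hs) e
      rw [List.mem_append]
      right
      have := tgt_tr hsym (fun _ => ()) a s
      rw [this]
      exact he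
    have hwt : w = true := by
      rcases mem_sts_cases hK with h | ⟨s, hs, h⟩
      · simp at h
      · have := key s hs (φ u a q, ()) (by rw [← h]; simp [trF])
        rw [← this]
        simp [hφ]
    subst hwt
    intro K' hK'
    rcases mem_sts_cases hK' with rfl | ⟨s, hs, rfl⟩
    · trivial
    · apply adj_of_trF φ (fun _ => ()) a _ _ _ (key s hs)
      intro _ x y h
      simpa [hφ] using h

theorem trF_zip_fst (a : G) (a' : G') (F : List (S × G)) (F' : List (S' × G'))
    (h : F.length = F'.length) :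
    trF (fun s _ _ => s.1) Prod.fst (a, a') (zipF F F') = F := by
  induction F generalizing a a' F' with
  | nil => cases F' <;> rfl
  | cons p F ih =>
    rcases F' with _ | ⟨p', F'⟩
    · simp at h
    · simp only [zipF, trF, ih p.2 p'.2 F' (by simpa using h)]

theorem trE_zip_fst (a : G) (a' : G') (E : List (Slice S G)) (E' : List (Slice S' G'))
    (hp : E.map Slice.plain = E'.map Slice.plain) (F K : List (S × G)) (F' K' : List (S' × G'))
    (h : Path a F E K) (h' : Path a' F' E' K') (hl : F.length = F'.length) :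
    trE (fun s _ _ => s.1) Prod.fst (a, a') (zipE E E') = E := by
  induction E generalizing E' F F' with
  | nil => rfl
  | cons s E ih =>
    rcases E' with _ | ⟨s', E'⟩
    · simp at hp
    · simp only [List.map_cons, List.cons.injEq] at hp
      obtain ⟨h1, h2⟩ := h
      obtain ⟨h1', h2'⟩ := h'
      have hL := same_shape hp.1
      rw [← h1, ← h1'] at hl
      have hl2 : (s.tgt a).length = (s'.tgt a').length ∧ s.R.length = s'.R.length := by
        obtain ⟨L, p, R⟩ := s
        obtain ⟨L', p', R'⟩ := s'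
        have hpp := hp.1
        cases p <;> cases p' <;> simp only [Slice.plain, reduceCtorEq] at hpp <;>
          simp [Slice.src, Slice.tgt, Loc.src, Loc.tgt] at hl hL ⊢ <;> omega
      simp only [zipE, List.zipWith_cons_cons, trE, List.map_cons]
      congr 1
      · have e1 := trF_zip_fst a a' s.L s'.L hL
        have e2 := cur_zipF a a' s.L s'.L hL
        have e3 := fun (x : G) (x' : G') => trF_zip_fst x x' s.R s'.R hl2.2
        obtain ⟨L, p, R⟩ := s
        obtain ⟨L', p', R'⟩ := s'
        have hpp := hp.1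
        cases p <;> cases p' <;> simp only [Slice.plain, reduceCtorEq] at hpp <;>
          simp only [Slice.zip, Slice.tr, Loc.zip, Loc.tr, Loc.right, e1, e2, e3]
      · exact ih E' hp.2 _ _ h2 h2' hl2.1

theorem sts_nil_or {a : G} {E : List (Slice S G)} : [] ∈ sts a [] E := by simp [sts]

theorem labs_mem_state {a : G} {F : List (S × G)} {E : List (Slice S G)} {g : G}
    (h : g ∈ labs a F E) : g = a ∨ ∃ K ∈ sts a F E, g ∈ K.map Prod.snd := by
  simp only [labs, List.mem_cons, List.mem_map, List.mem_flatten] at h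
  rcases h with h | ⟨x, ⟨K, hK, hx⟩, rfl⟩
  · exact Or.inl h
  · exact Or.inr ⟨K, hK, List.mem_map_of_mem hx⟩

theorem holeLabels_length (a : G) (E : List (Slice S G)) :
    (holeLabels a E).length = holes (E.map Slice.plain) := by
  induction E with
  | nil => rfl
  | cons s E ih =>
    obtain ⟨L, p, R⟩ := s
    cases p <;> simp only [holeLabels, List.map_cons, Slice.plain, holes, List.length_cons, ih]

theorem upper_base {D : List Piece} (hD : Connected D) (h0 : crossings D = 0) (e a : ℕ)
    (f : List (Slice Unit ℕ)) (hf : Labelling a f D)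
    (he : e ≤ (insert a (holeLabels a f).toFinset).card) : Ub D (2 - e) := by
  classical
  intro E hE hok
  have hZ := labelling_zip hE hf
  obtain ⟨q, hq1, hq2⟩ := conn_pairs hD h0 ((0, a) : ℕ × ℕ) (zipE E f) hZ
  have hpl : E.map Slice.plain = f.map Slice.plain := hE.2.trans hf.2.symm
  have hEZ := trE_zip_fst 0 a E f hpl [] [] [] [] hE.1 hf.1 rfl
  have hadjZ : AllAdj (fun x y : ℕ × ℕ => Nb x.1 y.1) (0, a) [] (zipE E f) := by
    have := (allAdj_tr (S := Unit × Unit) (φ := fun s _ _ => s.1) (fun _ _ _ => rfl)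
      (Prod.fst : ℕ × ℕ → ℕ) Nb (0, a) [] (zipE E f)).1
    apply this
    rw [hEZ]
    exact hok.1
  have hlabs : ∀ p ∈ labs ((0, a) : ℕ × ℕ) [] (zipE E f), p.1 = 0 → p = (0, a) := by
    intro p hp hp0
    have h1 : p = (0, a) ∨ p = q := by
      refine labs_of_allAdj (P := fun p => p = (0, a) ∨ p = q) ?_ _ (Or.inl rfl) _ _ hq1 p hp
      rintro x y (⟨_, h⟩ | ⟨_, h⟩)
      · exact Or.inr h
      · exact Or.inl h
    rcases h1 with h1 | h1
    · exact h1
    · rcases hq2 with hq2 | ⟨K, hK, u, M, rfl⟩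
      · rcases labs_mem_state hp with h | ⟨K, hK, h⟩
        · exact h
        · rw [hq2 K hK] at h; simp at h
      · exfalso
        have := (hadjZ _ hK).1
        rw [← h1] at this
        simp only [Nb] at this
        omega
  have hholes : ∀ l ∈ holeLabels a f, l = a := by
    have hzl := holeLabels_zip 0 a E f hpl
    have hlen : (holeLabels 0 E).length = (holeLabels a f).length := by
      rw [holeLabels_length, holeLabels_length, hpl]
    have hE0 := hok.2
    have hall : ∀ p ∈ (holeLabels 0 E).zip (holeLabels a f), p.1 = 0 → p = (0, a) := by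
      intro p hp
      apply hlabs
      apply holeLabels_labs
      rw [hzl]; exact hp
    intro l hl
    obtain ⟨n, hn, rfl⟩ := List.mem_iff_getElem.1 hl
    have hn' : n < (holeLabels 0 E).length := by omega
    have hmem : ((holeLabels 0 E)[n], (holeLabels a f)[n]) ∈
        (holeLabels 0 E).zip (holeLabels a f) := by
      rw [List.mem_iff_getElem]
      exact ⟨n, by simp [hn, hn'], by simp⟩
    have := hall _ hmem (hE0 _ (List.getElem_mem _))
    exact congrArg Prod.snd this
  have he1 : e ≤ 1 := by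
    refine he.trans ?_
    have : insert a (holeLabels a f).toFinset ⊆ {a} := by
      intro x hx
      rcases Finset.mem_insert.1 hx with rfl | hx
      · simp
      · rw [Finset.mem_singleton]; exact hholes x (List.mem_toFinset.1 hx)
    simpa using Finset.card_le_card this
  suffices h : Phi true ht 0 E ≤ 1 by
    have : (e : ℤ) ≤ 1 := by exact_mod_cast he1
    linarith
  obtain ⟨r, hr1, hr2⟩ := conn_pairs hD h0 0 E hE
  set C : ℕ → Bool := fun g => decide (g = 1) with hC
  have hlabsE : ∀ p ∈ labs 0 [] E, p = 0 ∨ p = 1 := by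
    intro p hp
    have h1 : p = 0 ∨ p = r := by
      refine labs_of_allAdj (P := fun p => p = 0 ∨ p = r) ?_ _ (Or.inl rfl) _ _ hr1 p hp
      rintro x y (⟨_, h⟩ | ⟨_, h⟩)
      · exact Or.inr h
      · exact Or.inl h
    rcases h1 with h1 | h1
    · exact Or.inl h1
    · rcases hr2 with hr2 | ⟨K, hK, u, M, rfl⟩
      · rcases labs_mem_state hp with h | ⟨K, hK, h⟩
        · exact Or.inl h
        · rw [hr2 K hK] at h; simp at h
      · have := (hok.1 _ hK).1
        rw [h1]
        simp only [Nb] at this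
        omega
  have hPhi : Phi true ht 0 E = Phi true (ind C) 0 E := by
    apply Phi_congr true _ _ _ []
    intro g hg
    rcases hlabsE g hg with rfl | rfl <;> simp [ht, ind, hC]
  obtain ⟨ρ, Z', F', k0, hpr, hprF, hpath, hadj, hcard⟩ :=
    gapIneq C 0 0 [] (by simp [Mk, hC]) trivial E [] hE.1 (noCr_of hE.2 h0)
  have hF' : F' = [] := by
    cases F' with
    | nil => rfl
    | cons p F => simp [trF] at hprF
  subst hF'
  simp only [trF, II, add_zero] at hpath hadj hcard
  have hU0 : NU (0, 0) ([] : List (Unit × (ℕ × ℕ))) [] = ∅ := by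
    simp [NU, labs, sts]
  rw [hU0] at hcard
  simp only [Finset.card_empty, Nat.cast_zero, mul_zero, add_zero] at hcard
  have hρ : ρ 0 = 0 := by
    have := k0 0 0 (by simp [Mk, hC])
    simpa [Mk, hC] using this
  rw [hρ] at hcard hpr hpath
  obtain ⟨w, hw1, hw2⟩ := conn_pairs hD h0 ((0, 0) : ℕ × ℕ) Z' ⟨hpath, by
    rw [← hE.2, ← hpr, plain_trE]⟩
  have hsub : NU (0, 0) [] Z' ⊆ {w.2} := by
    intro l hl
    rw [mem_NU] at hl
    obtain ⟨hl0, p, hp, rfl⟩ := hl
    have h1 : p = (0, 0) ∨ p = w := by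
      refine labs_of_allAdj (P := fun p => p = (0, 0) ∨ p = w) ?_ _ (Or.inl rfl) _ _ hw1 p hp
      rintro x y (⟨_, h⟩ | ⟨_, h⟩)
      · exact Or.inr h
      · exact Or.inl h
    rcases h1 with rfl | rfl
    · simp at hl0
    · simp
  have hc := Finset.card_le_card hsub
  rw [Finset.card_singleton] at hc
  have : ((NU (0, 0) [] Z').card : ℤ) ≤ 1 := by exact_mod_cast hc
  rw [hPhi]
  linarith

end Pool.Agent.H560R3.TG
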