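import Pool.Agent.H560R3.TG.Upper

/-! The upper bound for the two extreme states of a connected diagram: the induction. -/

set_option autoImplicit false
set_option linter.unusedSimpArgs false

namespace Pool.Agent.H560R3.TG

variable {S G S' G' : Type}

def Bd (D : List Piece) (N : ℤ) : Prop :=
  ∃ k : Bool → ℤ, (∀ c, Ub (sm c D) (k c)) ∧ k true + k false ≤ N

theorem sm_cr (c : Bool) (u v : List Piece) (i : ℕ) (b : Bool) :
    sm c (u ++ .cr i b :: v) =
      if b = c then sm c u ++ sm c v else sm c u ++ .death i :: .birth i :: sm c v := by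
  rw [sm_append]
  simp only [sm]
  split_ifs <;> rfl

theorem step1 {u v : List Piece} {i : ℕ} {b : Bool} {N : ℤ} (h : Bd (u ++ v) N) :
    Bd (u ++ .cr i b :: v) (N + 1) := by
  obtain ⟨k, hk, hN⟩ := h
  refine ⟨fun c => if b = c then k c else k c + 1, fun c => ?_, ?_⟩
  · rw [sm_cr]
    have h1 := hk c
    rw [sm_append] at h1
    by_cases hb : b = c
    · simp only [hb, if_true]
      rw [← hb] at h1 ⊢; exact h1
    · simp only [hb, if_false]
      refine alpha1 ?_ h1
      rw [crossings_append, crossings_sm, crossings_sm]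
  · cases b <;> simp <;> linarith

theorem step2 {u v : List Piece} {i : ℕ} {b : Bool} {N : ℤ} (hwf : WF 0 (u ++ .cr i b :: v) 0)
    (h : Bd (u ++ .death i :: .birth i :: v) N) : Bd (u ++ .cr i b :: v) (N + 1) := by
  obtain ⟨k, hk, hN⟩ := h
  obtain ⟨m, hu, hi, hv⟩ := (WF_append u _ 0 0).1 hwf
  refine ⟨fun c => if b = c then k c + 1 else k c, fun c => ?_, ?_⟩
  · rw [sm_cr]
    have h1 := hk c
    rw [sm_append] at h1
    simp only [sm] at h1
    by_cases hb : b = c
    · simp only [hb, if_true]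
      refine alpha2 ?_ (WF_sm c hu) hi h1
      rw [crossings_append, crossings_sm, crossings_sm]
    · simp only [hb, if_false]
      exact h1
  · cases b <;> simp <;> linarith

/-- decomposition of a labelled word at a crossing -/
theorem decomp_cr {a : G} {E : List (Slice Unit G)} {u v : List Piece} {i : ℕ} {b : Bool}
    (hE : Labelling a E (u ++ .cr i b :: v)) :
    ∃ Eu L y y' z R Ev, E = Eu ++ ⟨L, .cr b () y () () y' () z, R⟩ :: Ev ∧
      Eu.map Slice.plain = u ∧ L.length = i ∧ Ev.map Slice.plain = v ∧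
      Path a [] Eu (L ++ ((), y) :: ((), z) :: R) ∧
      Path a (L ++ ((), y') :: ((), z) :: R) Ev [] := by
  obtain ⟨hE, hp⟩ := hE
  obtain ⟨Eu, E', rfl, h1, h2⟩ := split_plain E _ _ hp
  rcases E' with _ | ⟨s, Ev⟩
  · simp at h2
  simp only [List.map_cons, List.cons.injEq] at h2
  obtain ⟨L, R, ⟨⟩, y, ⟨⟩, ⟨⟩, y', ⟨⟩, z, rfl, hL⟩ := plain_cr s i b h2.1
  obtain ⟨K, hK1, hK2, hK3⟩ := (path_append a Eu _ [] []).1 hE
  refine ⟨Eu, L, y, y', z, R, Ev, rfl, h1, hL, h2.2, ?_, ?_⟩
  · rw [← hK2] at hK1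
    simpa [Slice.src, Loc.src] using hK1
  · simpa [Slice.tgt, Loc.tgt] using hK3

theorem ext_height {E : List (Slice Unit ℕ)} {u v : List Piece} {i : ℕ} {b : Bool} {k : Fin 4}
    (hext : External u i b v k) (hE : Labelling 0 E (u ++ .cr i b :: v))
    (hh : ∀ g ∈ holeLabels 0 E, g = 0) (Eu Ev : List (Slice Unit ℕ)) (L R : List (Unit × ℕ))
    (y y' z : ℕ) (hEE : E = Eu ++ ⟨L, .cr b () y () () y' () z, R⟩ :: Ev)
    (hEu : Eu.map Slice.plain = u) : corner (cur 0 L) y z y' k = 0 := by
  classical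
  subst hEE
  set ψ : ℕ → Bool := fun g => decide (g = 0) with hψ
  have h1 := labelling_tr (S := Unit) (S' := Unit) sym_kp ψ hE
  have h2 : trE (kp : Unit → ℕ → ℕ → Unit) ψ 0 (Eu ++ ⟨L, .cr b () y () () y' () z, R⟩ :: Ev) =
      trE kp ψ 0 Eu ++ ⟨trF kp ψ 0 L, .cr b () (ψ y) () () (ψ y') () (ψ z),
        trF kp ψ z R⟩ :: trE kp ψ 0 Ev := by
    simp [trE, Slice.tr, Loc.tr, Loc.right]
  have h3 := holeLabels_tr (kp : Unit → ℕ → ℕ → Unit) ψ 0
    (Eu ++ ⟨L, .cr b () y () () y' () z, R⟩ :: Ev)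
  rw [h2] at h1 h3
  have h4 := hext (trE kp ψ 0 Eu) (trE kp ψ 0 Ev) (trF kp ψ 0 L) (trF kp ψ z R) (ψ y) (ψ y')
    (ψ z) h1 (by rw [plain_trE, hEu]) (by
      intro h hh'
      have h3' : holeLabels true (trE kp ψ 0 Eu ++ ⟨trF kp ψ 0 L, .cr b () (ψ y) () () (ψ y') ()
        (ψ z), trF kp ψ z R⟩ :: trE kp ψ 0 Ev) = _ := h3
      rw [h3'] at hh'
      obtain ⟨g, hg, rfl⟩ := List.mem_map.1 hh'
      rw [hh g hg]; rfl)
  have h5 : cur true (trF (kp : Unit → ℕ → ℕ → Unit) ψ 0 L) = ψ (cur 0 L) := cur_trF kp ψ 0 L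
  rw [h5] at h4
  fin_cases k <;> simpa [corner, hψ] using h4

theorem gain1 {u v : List Piece} {i : ℕ} {b : Bool} {N : ℤ} (hwf : WF 0 (u ++ .cr i b :: v) 0)
    (h1 : External u i b v 1) (h3 : External u i b v 3)
    (h : Bd (u ++ v) N) : Bd (u ++ .cr i b :: v) (N - 1) := by
  obtain ⟨k, hk, hN⟩ := h
  refine ⟨fun c => if b = c then k c else k c - 1, fun c => ?_, ?_⟩
  · by_cases hb : b = c
    · rw [sm_cr]
      have h1 := hk c
      rw [sm_append] at h1
      simp only [hb, if_true]
      rw [← hb] at h1 ⊢; exact h1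
    · simp only [hb, if_false]
      apply ub_of_ubc hwf
      intro E hE hok hce
      obtain ⟨Eu, L, y, y', z, R, Ev, hEE, hEu, hL, hEv, hp1, hp2⟩ := decomp_cr hE
      have e1 : y = 0 := ext_height h1 hE hok.2 Eu Ev L R y y' z hEE hEu
      have e3 : y' = 0 := ext_height h3 hE hok.2 Eu Ev L R y y' z hEE hEu
      subst hEE
      subst e1
      subst e3
      have hxz : cur 0 L = z := (hce ⟨L, .cr b () 0 () () 0 () z, R⟩ (by simp)).2 hb
      have hadj := (allAdj_append _ _ _ _ _ _ hp1).1 hok.1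
      have hadjK := hadj.2 (L ++ ((), 0) :: ((), z) :: R) (by simp [sts])
      have hx : cur 0 L = 1 := by
        have := ((adj_append _ _ _ _).1 hadjK).2.1
        simp only [Nb] at this; omega
      have hub := ubc_of_ub (hk c) (Eu ++ Ev) ⟨(path_append 0 _ _ _ _).2 ⟨_, hp1, hp2⟩,
        by simp [hEu, hEv]⟩ ⟨?_, ?_⟩ ?_
      · rw [Phi_append] at hub ⊢
        simp only [Phi, Loc.wt, hb, if_false, hx, ht] at hub ⊢
        push_cast
        linarith
      · rw [allAdj_append _ _ _ _ _ _ hp1]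
        refine ⟨hadj.1, fun X hX => hadj.2 X ?_⟩
        simp only [sts, List.map_cons, List.mem_cons] at hX ⊢
        tauto
      · intro g hg
        apply hok.2
        rw [holeLabels_append] at hg ⊢
        simp only [holeLabels]
        exact hg
      · intro s hs
        apply hce
        simp only [List.mem_append, List.mem_cons] at hs ⊢
        tauto
  · cases b <;> simp <;> linarith

theorem gain2 {u v : List Piece} {i : ℕ} {b : Bool} {N : ℤ} (hwf : WF 0 (u ++ .cr i b :: v) 0)
    (h0 : External u i b v 0) (h2 : External u i b v 2)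
    (h : Bd (u ++ .death i :: .birth i :: v) N) : Bd (u ++ .cr i b :: v) (N - 1) := by
  obtain ⟨k, hk, hN⟩ := h
  refine ⟨fun c => if b = c then k c - 1 else k c, fun c => ?_, ?_⟩
  · by_cases hb : b = c
    · simp only [hb, if_true]
      apply ub_of_ubc (hb ▸ hwf)
      intro E hE hok hce
      obtain ⟨Eu, L, y, y', z, R, Ev, hEE, hEu, hL, hEv, hp1, hp2⟩ := decomp_cr hE
      rw [← hb] at hE hEE
      have e1 : cur 0 L = 0 := ext_height h0 hE hok.2 Eu Ev L R y y' z hEE hEu
      have e3 : z = 0 := ext_height h2 hE hok.2 Eu Ev L R y y' z hEE hEu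
      subst hEE
      subst e3
      have hyy : y = y' := (hce ⟨L, .cr b () y () () y' () 0, R⟩ (by simp)).1 hb
      subst hyy
      have hadj := (allAdj_append _ _ _ _ _ _ hp1).1 hok.1
      have hadjK := (adj_append _ _ _ _).1 (hadj.2 (L ++ ((), y) :: ((), 0) :: R) (by simp [sts]))
      have hy : y = 1 := by
        have := hadjK.2.1
        rw [e1] at this
        simp only [Nb] at this; omega
      subst hy
      have hub := ubc_of_ub (hk c) (Eu ++ (⟨L, .death () 1, R⟩ :: ⟨L, .birth () 1, R⟩ :: Ev))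
        ⟨(path_append 0 _ _ _ _).2 ⟨_, hp1, ?_, ?_, ?_⟩,
        by simp [hEu, hEv, hL, Slice.plain]⟩ ⟨?_, ?_⟩ ?_
      · rw [Phi_append] at hub ⊢
        simp only [Phi, Loc.wt, hb, if_true, e1, ht] at hub ⊢
        push_cast at hub ⊢
        linarith
      · simp [Slice.src, Loc.src, e1]
      · simp [Slice.src, Slice.tgt, Loc.src, Loc.tgt]
      · simpa [Slice.tgt, Loc.tgt, e1] using hp2
      · rw [allAdj_append _ _ _ _ _ _ hp1]
        refine ⟨hadj.1, fun X hX => ?_⟩
        simp only [sts, List.map_cons, List.mem_cons] at hX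
        rcases hX with rfl | rfl | rfl | hX
        · exact hadj.2 (L ++ ((), 1) :: ((), 0) :: R) (by simp [sts])
        · simp only [Slice.tgt, Loc.tgt, List.append_nil]
          rw [adj_append]
          refine ⟨hadjK.1, ?_⟩
          rw [e1]; exact hadjK.2.2.2
        · have := hadj.2 (L ++ ((), 1) :: ((), 0) :: R) (by simp [sts])
          simpa [Slice.tgt, Loc.tgt, e1] using this
        · apply hadj.2
          simp only [sts, List.map_cons, List.mem_cons]
          exact Or.inr (Or.inr hX)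
      · intro g hg
        apply hok.2
        rw [holeLabels_append] at hg ⊢
        simp only [holeLabels] at hg ⊢
        exact hg
      · intro s hs
        simp only [List.mem_append, List.mem_cons] at hs
        rcases hs with hs | rfl | rfl | hs
        · apply hce; simp [hs]
        · trivial
        · trivial
        · apply hce; simp [hs]
    · have h1 := hk c
      rw [sm_append] at h1
      simp only [sm] at h1
      rw [sm_cr]
      simp only [hb, if_false]
      exact h1
  · cases b <;> simp <;> linarith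

end Pool.Agent.H560R3.TG
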