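import Pool.Agent.H560R3.TG.Upper2

/-! The upper bound for the two extreme states of a connected diagram. -/

set_option autoImplicit false
set_option linter.unusedSimpArgs false

namespace Pool.Agent.H560R3.TG

variable {S G S' G' : Type}

theorem corner_map (ρ : G → G') (x y z y' : G) (k : Fin 4) :
    corner (ρ x) (ρ y) (ρ z) (ρ y') k = ρ (corner x y z y' k) := by
  fin_cases k <;> rfl

theorem corner_pair (x y z y' : G) (x2 y2 z2 y2' : G') (k : Fin 4) :
    corner (x, x2) (y, y2) (z, z2) (y', y2') k = (corner x y z y' k, corner x2 y2 z2 y2' k) := by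
  fin_cases k <;> rfl

theorem zip_map_true (ρ : ℕ × Bool → ℕ) (hρ : ∀ l, ρ (l, true) = l) (l1 : List ℕ)
    (l2 : List Bool) (hlen : l1.length = l2.length) (h : ∀ c ∈ l2, c = true) :
    (l1.zip l2).map ρ = l1 := by
  induction l1 generalizing l2 with
  | nil => rfl
  | cons x l1 ih =>
    rcases l2 with _ | ⟨c, l2⟩
    · simp at hlen
    · have hc : c = true := h c (by simp)
      subst hc
      simp only [List.zip_cons_cons, List.map_cons, hρ]
      rw [ih l2 (by simpa using hlen) (fun c hc => h c (by simp [hc]))]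

theorem merge1 (u v : List Piece) (i : ℕ) (b : Bool) (k1 k2 : Fin 4) (a : ℕ)
    (f : List (Slice Unit ℕ)) (hf : Labelling a f (u ++ .cr i b :: v))
    (hk : ¬ External u i b v k1) :
    ∃ (fu : List (Slice Unit ℕ)) (L : List (Unit × ℕ)) (y y' z : ℕ) (R : List (Unit × ℕ))
      (fv : List (Slice Unit ℕ)),
      Labelling a (fu ++ ⟨L, .cr b () y () () y' () z, R⟩ :: fv) (u ++ .cr i b :: v) ∧
      fu.map Slice.plain = u ∧
      corner (cur a L) y z y' k1 = corner (cur a L) y z y' k2 ∧
      holeLabels a (fu ++ ⟨L, .cr b () y () () y' () z, R⟩ :: fv) = holeLabels a f := by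
  unfold External at hk
  push Not at hk
  obtain ⟨Eu, Ev, L2, R2, y2, y2', z2, hg, hEu, hgh, hgk⟩ := hk
  obtain ⟨fu, L1, y1, y1', z1, R1, fv, rfl, hfu, hL1, hfv, hp1, hp2⟩ := decomp_cr hf
  have hgp := hg.2
  rw [List.map_append, List.map_cons, hEu] at hgp
  have hgp2 := List.append_cancel_left hgp
  simp only [List.cons.injEq, Slice.plain, Piece.cr.injEq] at hgp2
  obtain ⟨⟨hL2, -⟩, hEv⟩ := hgp2
  have hlen : fu.length = Eu.length := by
    rw [← List.length_map Slice.plain, ← List.length_map Slice.plain (as := Eu), hfu, hEu]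
  have hLL : L1.length = L2.length := by rw [hL1, hL2]
  set m := corner (cur a L1) y1 z1 y1' k2 with hm
  set ρ : ℕ × Bool → ℕ := fun p => if p.2 then p.1 else m with hρ
  set φ : Unit × Unit → ℕ × Bool → ℕ × Bool → Unit := fun _ _ _ => () with hφ
  have hsym : Sym φ := fun _ _ _ => rfl
  have hz := labelling_zip hf hg
  have hz' := labelling_tr hsym ρ hz
  have hh := holeLabels_tr φ ρ (a, true) (zipE (fu ++ ⟨L1, .cr b () y1 () () y1' () z1, R1⟩ :: fv)
    (Eu ++ ⟨L2, .cr b () y2 () () y2' () z2, R2⟩ :: Ev))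
  rw [holeLabels_zip a true _ _ (hf.2.trans hg.2.symm), zip_map_true ρ (fun l => rfl) _ _ (by
    rw [holeLabels_length, holeLabels_length, hf.2, hg.2]) hgh] at hh
  have hsplit : trE φ ρ (a, true) (zipE (fu ++ ⟨L1, .cr b () y1 () () y1' () z1, R1⟩ :: fv)
    (Eu ++ ⟨L2, .cr b () y2 () () y2' () z2, R2⟩ :: Ev)) =
      trE φ ρ (a, true) (zipE fu Eu) ++ ⟨trF φ ρ (a, true) (zipF L1 L2),
        .cr b () (ρ (y1, y2)) () () (ρ (y1', y2')) () (ρ (z1, z2)),
        trF φ ρ (z1, z2) (zipF R1 R2)⟩ :: trE φ ρ (a, true) (zipE fv Ev) := by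
    rw [zipE_append _ _ _ _ hlen]
    simp only [trE, List.map_append, zipE, List.zipWith_cons_cons, List.map_cons, Slice.zip,
      Loc.zip, Slice.tr, Loc.tr, Loc.right, hφ]
  rw [hsplit] at hz' hh
  refine ⟨_, _, _, _, _, _, _, hz', ?_, ?_, hh⟩
  · rw [plain_trE, zip_plainE _ _ (hfu.trans hEu.symm), hfu]
  · have hcur : cur a (trF φ ρ (a, true) (zipF L1 L2)) = ρ (cur a L1, cur true L2) := by
      rw [← cur_zipF a true L1 L2 hLL]; exact cur_trF φ ρ (a, true) (zipF L1 L2)
    rw [hcur, corner_map, corner_map, corner_pair, corner_pair]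
    have hgk' : corner (cur true L2) y2 z2 y2' k1 = false := by simpa using hgk
    simp only [hρ, hgk', Bool.false_eq_true, if_false]
    rw [← hm]
    split_ifs <;> rfl

def cardL (a : ℕ) (f : List (Slice Unit ℕ)) : ℕ := (insert a (holeLabels a f).toFinset).card

theorem merge (u v : List Piece) (i : ℕ) (b : Bool) (k1 k2 : Fin 4) (e a : ℕ)
    (f : List (Slice Unit ℕ)) (hf : Labelling a f (u ++ .cr i b :: v)) (he : e ≤ cardL a f) :
    ∃ (a' : ℕ) (fu : List (Slice Unit ℕ)) (L : List (Unit × ℕ)) (y y' z : ℕ)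
      (R : List (Unit × ℕ)) (fv : List (Slice Unit ℕ)),
      Labelling a' (fu ++ ⟨L, .cr b () y () () y' () z, R⟩ :: fv) (u ++ .cr i b :: v) ∧
      fu.map Slice.plain = u ∧
      corner (cur a' L) y z y' k1 = corner (cur a' L) y z y' k2 ∧
      (e ≤ cardL a' (fu ++ ⟨L, .cr b () y () () y' () z, R⟩ :: fv) ∨
        (External u i b v k1 ∧ External u i b v k2 ∧
          e ≤ cardL a' (fu ++ ⟨L, .cr b () y () () y' () z, R⟩ :: fv) + 1)) := by
  classical
  by_cases h1 : External u i b v k1
  · by_cases h2 : External u i b v k2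
    · obtain ⟨fu, L, y, y', z, R, fv, rfl, hfu, hL, hfv, hp1, hp2⟩ := decomp_cr hf
      set l1 := corner (cur a L) y z y' k1 with hl1
      set l2 := corner (cur a L) y z y' k2 with hl2
      set ψ : ℕ → ℕ := fun l => if l = l1 then l2 else l with hψ
      have hz' := labelling_tr (S := Unit) (S' := Unit) sym_kp ψ hf
      have hh := holeLabels_tr (kp : Unit → ℕ → ℕ → Unit) ψ a
        (fu ++ ⟨L, .cr b () y () () y' () z, R⟩ :: fv)
      have hsplit : trE (kp : Unit → ℕ → ℕ → Unit) ψ a
          (fu ++ ⟨L, .cr b () y () () y' () z, R⟩ :: fv) =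
          trE kp ψ a fu ++ ⟨trF kp ψ a L, .cr b () (ψ y) () () (ψ y') () (ψ z),
            trF kp ψ z R⟩ :: trE kp ψ a fv := by
        simp [trE, Slice.tr, Loc.tr, Loc.right]
      rw [hsplit] at hz' hh
      refine ⟨ψ a, _, _, _, _, _, _, _, hz', by rw [plain_trE, hfu], ?_, Or.inr ⟨h1, h2, ?_⟩⟩
      · rw [cur_trF, corner_map, corner_map, ← hl1, ← hl2]
        simp only [hψ, if_true]
        split_ifs <;> rfl
      · unfold cardL at he ⊢
        rw [hh]
        have hsub : (insert a (holeLabels a
            (fu ++ ⟨L, .cr b () y () () y' () z, R⟩ :: fv)).toFinset).erase l1 ⊆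
            insert (ψ a) ((holeLabels a
            (fu ++ ⟨L, .cr b () y () () y' () z, R⟩ :: fv)).map ψ).toFinset := by
          intro l hl
          rw [Finset.mem_erase, Finset.mem_insert, List.mem_toFinset] at hl
          obtain ⟨hne, hl⟩ := hl
          have hψl : ψ l = l := by simp [hψ, hne]
          rw [Finset.mem_insert, List.mem_toFinset, List.mem_map]
          rcases hl with rfl | hl
          · exact Or.inl hψl.symm
          · exact Or.inr ⟨l, hl, hψl⟩
        have h5 := Finset.card_le_card hsub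
        have h6 := Finset.pred_card_le_card_erase (s := insert a (holeLabels a
            (fu ++ ⟨L, .cr b () y () () y' () z, R⟩ :: fv)).toFinset) (a := l1)
        omega
    · obtain ⟨fu, L, y, y', z, R, fv, h3, h4, h5, h6⟩ := merge1 u v i b k2 k1 a f hf h2
      refine ⟨a, fu, L, y, y', z, R, fv, h3, h4, h5.symm, Or.inl ?_⟩
      unfold cardL at he ⊢; rw [h6]; exact he
  · obtain ⟨fu, L, y, y', z, R, fv, h3, h4, h5, h6⟩ := merge1 u v i b k1 k2 a f hf h1
    refine ⟨a, fu, L, y, y', z, R, fv, h3, h4, h5, Or.inl ?_⟩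
    unfold cardL at he ⊢; rw [h6]; exact he

theorem lbl1 {u v : List Piece} {i : ℕ} {b : Bool} {a : G} {fu fv : List (Slice Unit G)}
    {L R : List (Unit × G)} {y z : G}
    (h : Labelling a (fu ++ ⟨L, .cr b () y () () y () z, R⟩ :: fv) (u ++ .cr i b :: v))
    (hu : fu.map Slice.plain = u) : Labelling a (fu ++ fv) (u ++ v) ∧
      holeLabels a (fu ++ fv) =
        holeLabels a (fu ++ ⟨L, .cr b () y () () y () z, R⟩ :: fv) := by
  refine ⟨⟨?_, ?_⟩, ?_⟩
  · obtain ⟨K, h1, h2, h3⟩ := (path_append _ _ _ _ _).1 h.1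
    exact (path_append _ _ _ _ _).2 ⟨K, h1, by rw [← h2]; exact h3⟩
  · have hp := h.2
    rw [List.map_append, List.map_cons, hu] at hp
    have hp2 := List.append_cancel_left hp
    simp only [List.cons.injEq] at hp2
    rw [List.map_append, hu, hp2.2]
  · simp only [holeLabels_append, holeLabels]

theorem lbl2 {u v : List Piece} {i : ℕ} {b : Bool} {a : G} {fu fv : List (Slice Unit G)}
    {L R : List (Unit × G)} {y y' z : G} (hx : cur a L = z)
    (h : Labelling a (fu ++ ⟨L, .cr b () y () () y' () z, R⟩ :: fv) (u ++ .cr i b :: v))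
    (hu : fu.map Slice.plain = u) :
    Labelling a (fu ++ (⟨L, .death () y, R⟩ :: ⟨L, .birth () y', R⟩ :: fv))
      (u ++ .death i :: .birth i :: v) ∧
      holeLabels a (fu ++ (⟨L, .death () y, R⟩ :: ⟨L, .birth () y', R⟩ :: fv)) =
        holeLabels a (fu ++ ⟨L, .cr b () y () () y' () z, R⟩ :: fv) := by
  subst hx
  refine ⟨⟨?_, ?_⟩, ?_⟩
  · obtain ⟨K, h1, h2, h3⟩ := (path_append _ _ _ _ _).1 h.1
    refine (path_append _ _ _ _ _).2 ⟨K, h1, ?_, ?_, ?_⟩
    · rw [← h2]; simp [Slice.src, Loc.src]
    · simp [Slice.src, Slice.tgt, Loc.src, Loc.tgt]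
    · simpa [Slice.src, Slice.tgt, Loc.src, Loc.tgt] using h3
  · have hp := h.2
    rw [List.map_append, List.map_cons, hu] at hp
    have hp2 := List.append_cancel_left hp
    simp only [List.cons.injEq, Slice.plain, Piece.cr.injEq] at hp2
    rw [List.map_append, hu]
    simp [Slice.plain, hp2.2, hp2.1.1]
  · simp only [holeLabels_append, holeLabels]

theorem exists_cr {D : List Piece} {n : ℕ} (h : crossings D = n + 1) :
    ∃ u i b v, D = u ++ .cr i b :: v ∧ crossings (u ++ v) = n := by
  induction D with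
  | nil => simp [crossings] at h
  | cons p D ih =>
    cases p with
    | cr i b =>
      refine ⟨[], i, b, D, rfl, ?_⟩
      simp only [crossings] at h
      simpa using h
    | birth i =>
      obtain ⟨u, j, b, v, rfl, h2⟩ := ih (by simpa [crossings] using h)
      exact ⟨.birth i :: u, j, b, v, rfl, by simpa [crossings] using h2⟩
    | death i =>
      obtain ⟨u, j, b, v, rfl, h2⟩ := ih (by simpa [crossings] using h)
      exact ⟨.death i :: u, j, b, v, rfl, by simpa [crossings] using h2⟩
    | hole i =>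
      obtain ⟨u, j, b, v, rfl, h2⟩ := ih (by simpa [crossings] using h)
      exact ⟨.hole i :: u, j, b, v, rfl, by simpa [crossings] using h2⟩

theorem upper (n : ℕ) : ∀ (D : List Piece), crossings D = n → WF 0 D 0 → Connected D →
    ∀ (e a : ℕ) (f : List (Slice Unit ℕ)), Labelling a f D → e ≤ cardL a f →
      Bd D (n + 4 - 2 * e) := by
  induction n with
  | zero =>
    intro D h0 hwf hD e a f hf he
    have := upper_base hD h0 e a f hf he
    refine ⟨fun _ => 2 - e, fun c => ?_, ?_⟩
    · rw [sm_self h0]; exact this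
    · push_cast; linarith
  | succ n ih =>
    intro D hn hwf hD e a f hf he
    obtain ⟨u, i, b, v, rfl, huv⟩ := exists_cr hn
    obtain ⟨m, hwu, hwi, hwv⟩ := (WF_append u _ 0 0).1 hwf
    rcases conn_or u v i b hwf hD with hc | hc
    · have hwf' : WF 0 (u ++ v) 0 := (WF_append _ _ _ _).2 ⟨m, hwu, hwv⟩
      obtain ⟨a', fu, L, y, y', z, R, fv, h1, h2, h3, h4⟩ := merge u v i b 1 3 e a f hf he
      have hyy : y = y' := by simpa [corner] using h3
      subst hyy
      obtain ⟨h5, h6⟩ := lbl1 h1 h2
      rcases h4 with h4 | ⟨h7, h8, h4⟩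
      · have hb := ih (u ++ v) huv hwf' hc e a' (fu ++ fv) h5 (by
          unfold cardL at h4 ⊢; rw [h6]; exact h4)
        have := step1 (i := i) (b := b) hb
        convert this using 1
        push_cast; ring
      · rcases e with _ | e
        · have hb := ih (u ++ v) huv hwf' hc 0 a' (fu ++ fv) h5 (by omega)
          have := step1 (i := i) (b := b) hb
          convert this using 1
          push_cast; ring
        · have hb := ih (u ++ v) huv hwf' hc e a' (fu ++ fv) h5 (by
            unfold cardL at h4 ⊢; rw [h6]; omega)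
          have := gain1 (i := i) (b := b) hwf h7 h8 hb
          convert this using 1
          push_cast; ring
    · have hwf' : WF 0 (u ++ .death i :: .birth i :: v) 0 := by
        refine (WF_append _ _ _ _).2 ⟨m, hwu, hwi, by omega, ?_⟩
        rw [show m - 2 + 2 = m by omega]; exact hwv
      have huv' : crossings (u ++ .death i :: .birth i :: v) = n := by
        rw [crossings_append] at huv ⊢; simpa [crossings] using huv
      obtain ⟨a', fu, L, y, y', z, R, fv, h1, h2, h3, h4⟩ := merge u v i b 0 2 e a f hf he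
      have hxz : cur a' L = z := by simpa [corner] using h3
      obtain ⟨h5, h6⟩ := lbl2 hxz h1 h2
      rcases h4 with h4 | ⟨h7, h8, h4⟩
      · have hb := ih _ huv' hwf' hc e a' _ h5 (by
          unfold cardL at h4 ⊢; rw [h6]; exact h4)
        have := step2 (i := i) (b := b) hwf hb
        convert this using 1
        push_cast; ring
      · rcases e with _ | e
        · have hb := ih _ huv' hwf' hc 0 a' _ h5 (by omega)
          have := step2 (i := i) (b := b) hwf hb
          convert this using 1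
          push_cast; ring
        · have hb := ih _ huv' hwf' hc e a' _ h5 (by
            unfold cardL at h4 ⊢; rw [h6]; omega)
          have := gain2 (i := i) (b := b) hwf h7 h8 hb
          convert this using 1
          push_cast; ring

end Pool.Agent.H560R3.TG
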